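import Pool.Agent.TH316.FQ.Bas

set_option autoImplicit false

/-! Elementary facts on the averages `Av`. -/

open MeasureTheory Metric Set Filter
open scoped Topology

namespace Pool.Agent.TH316.FQ

open Pool.Agent.Helper533.StarBox

theorem avb_int {f : ℂ → ℝ} (hf : LocallyIntegrable f (volume : Measure ℂ)) {R : ℝ} (hR : 0 < R) (x : ℂ) :
    Integrable (fun y => f y * ww R (y - x)) := by
  have h := hf.integrable_smul_left_of_hasCompactSupport
    ((ww_cont R).comp (continuous_id.sub continuous_const)) (ww_comp hR x)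
  refine h.congr (Eventually.of_forall fun z => ?_)
  show ww R (z - x) • f z = f z * ww R (z - x)
  rw [smul_eq_mul, mul_comm]

theorem avb_ww_zero {R : ℝ} (hR : 0 < R) {x z : ℂ} (h : z ∉ ball x R) : ww R (z - x) = 0 := by
  apply ww_zero hR
  rw [mem_ball, not_lt, dist_eq_norm] at h
  exact h

theorem avb_mono (h0 : 0 < m0) {f g : ℂ → ℝ} (hf : LocallyIntegrable f (volume : Measure ℂ))
    (hg : LocallyIntegrable g (volume : Measure ℂ)) {R : ℝ} (hR : 0 < R) {x : ℂ}
    (h : ∀ᵐ z, z ∈ ball x R → f z ≤ g z) : Av f R x ≤ Av g R x := by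
  unfold Av
  apply div_le_div_of_nonneg_right _ h0.le
  apply integral_mono_ae (avb_int hf hR x) (avb_int hg hR x)
  filter_upwards [h] with z hz
  by_cases hb : z ∈ ball x R
  · exact mul_le_mul_of_nonneg_right (hz hb) (ww_nonneg _ _)
  · rw [avb_ww_zero hR hb, mul_zero, mul_zero]

theorem avb_const (hPP : PPF) {R : ℝ} (hR : 0 < R) (x : ℂ) (c : ℝ) : Av (fun _ => c) R x = c := by
  unfold Av
  rw [integral_const_mul, hPP.mass R hR x]
  have := hPP.m0_pos
  field_simp

theorem avb_add {f g : ℂ → ℝ} (hf : LocallyIntegrable f (volume : Measure ℂ))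
    (hg : LocallyIntegrable g (volume : Measure ℂ)) {R : ℝ} (hR : 0 < R) (x : ℂ) :
    Av (fun z => f z + g z) R x = Av f R x + Av g R x := by
  unfold Av
  rw [← add_div, ← integral_add (avb_int hf hR x) (avb_int hg hR x)]
  congr 2; ext z; ring

theorem avb_smul (c : ℝ) (f : ℂ → ℝ) (R : ℝ) (x : ℂ) : Av (fun z => c * f z) R x = c * Av f R x := by
  unfold Av
  rw [← mul_div_assoc, ← integral_const_mul]
  congr 2; ext z; ring

theorem avb_nonneg (h0 : 0 < m0) {f : ℂ → ℝ} (hf : ∀ᵐ z, 0 ≤ f z) (R : ℝ) (x : ℂ) : 0 ≤ Av f R x := by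
  unfold Av
  apply div_nonneg _ h0.le
  apply integral_nonneg_of_ae
  filter_upwards [hf] with z hz
  exact mul_nonneg hz (ww_nonneg _ _)

/-- closeness of the average to `1` -/
theorem avb_near (hPP : PPF) {f : ℂ → ℝ} (hf : MemLp f 2 (volume : Measure ℂ)) {R : ℝ} (hR : 0 < R) {x : ℂ} {e : ℝ}
    (he : ∫ z in ball x R, (1 - f z) ^ 2 ≤ e) : |Av f R x - 1| ≤ √(Real.pi * e) / (m0 * R) := by
  have h0 := hPP.m0_pos
  have hfl : LocallyIntegrable f (volume : Measure ℂ) := hf.locallyIntegrable (by norm_num)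
  have hcl : LocallyIntegrable (fun _ : ℂ => (1 : ℝ)) (volume : Measure ℂ) := continuous_const.locallyIntegrable
  have e1 : Av f R x - 1 = (∫ z in ball x R, (f z - 1) * ww R (z - x)) / m0 := by
    have h1 : Av (fun _ => 1) R x = 1 := avb_const hPP hR x 1
    have h2 : ∫ z in ball x R, (f z - 1) * ww R (z - x) = ∫ z, (f z - 1) * ww R (z - x) := by
      apply setIntegral_eq_integral_of_forall_compl_eq_zero
      intro z hz
      rw [avb_ww_zero hR hz, mul_zero]
    rw [h2]
    conv_lhs => rw [← h1]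
    unfold Av
    rw [← sub_div, ← integral_sub (avb_int hfl hR x) (avb_int hcl hR x)]
    congr 2; ext z; ring
  have hfb : MemLp f 2 ((volume : Measure ℂ).restrict (ball x R)) := hf.restrict _
  have hcb : MemLp (fun _ : ℂ => (1 : ℝ)) 2 ((volume : Measure ℂ).restrict (ball x R)) := by
    have : IsFiniteMeasure ((volume : Measure ℂ).restrict (ball x R)) := ⟨by
      rw [Measure.restrict_apply_univ]; exact measure_ball_lt_top⟩
    exact memLp_const 1
  have hdb : MemLp (fun z => f z - 1) 2 ((volume : Measure ℂ).restrict (ball x R)) := hfb.sub hcb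
  have hwb : MemLp (fun z => ww R (z - x)) 2 ((volume : Measure ℂ).restrict (ball x R)) := (ww_memLp hR x).restrict _
  have hCS : |∫ z in ball x R, (f z - 1) * ww R (z - x)| ≤
      √(∫ z in ball x R, (f z - 1) ^ 2) * √(∫ z in ball x R, ww R (z - x) ^ 2) := by
    have hq : ∀ t : ℝ, 0 ≤ (∫ z in ball x R, ww R (z - x) ^ 2) * (t * t) +
        (2 * ∫ z in ball x R, (f z - 1) * ww R (z - x)) * t + ∫ z in ball x R, (f z - 1) ^ 2 := by
      intro t
      have i1 := hwb.integrable_sq
      have i2 : Integrable (fun z => (f z - 1) * ww R (z - x)) ((volume : Measure ℂ).restrict (ball x R)) :=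
        hdb.integrable_mul hwb
      have i3 := hdb.integrable_sq
      have e2 : ∫ z in ball x R, ((f z - 1) + t * ww R (z - x)) ^ 2 =
          (∫ z in ball x R, ww R (z - x) ^ 2) * (t * t) +
        (2 * ∫ z in ball x R, (f z - 1) * ww R (z - x)) * t + ∫ z in ball x R, (f z - 1) ^ 2 := by
        have e3 : (fun z => ((f z - 1) + t * ww R (z - x)) ^ 2) = fun z => (t * t) * ww R (z - x) ^ 2 +
            (2 * t) * ((f z - 1) * ww R (z - x)) + (f z - 1) ^ 2 := by ext z; ring
        have i4 : Integrable (fun z => (t * t) * ww R (z - x) ^ 2) ((volume : Measure ℂ).restrict (ball x R)) :=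
          i1.const_mul _
        have i5 : Integrable (fun z => (2 * t) * ((f z - 1) * ww R (z - x)))
          ((volume : Measure ℂ).restrict (ball x R)) := i2.const_mul _
        have i6 : Integrable (fun z => (t * t) * ww R (z - x) ^ 2 + (2 * t) * ((f z - 1) * ww R (z - x)))
          ((volume : Measure ℂ).restrict (ball x R)) := i4.add i5
        rw [e3, integral_add i6 i3, integral_add i4 i5, integral_const_mul, integral_const_mul]
        ring
      rw [← e2]
      exact integral_nonneg fun z => sq_nonneg _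
    have hd := discrim_le_zero hq
    unfold discrim at hd
    rw [← Real.sqrt_mul (integral_nonneg fun z => sq_nonneg _)]
    apply Real.abs_le_sqrt
    nlinarith [hd]
  have hW : ∫ z in ball x R, ww R (z - x) ^ 2 ≤ Real.pi / R ^ 2 := by
    have h1 : ∀ z ∈ ball x R, ‖ww R (z - x) ^ 2‖ ≤ 1 / R ^ 4 := by
      intro z _
      rw [Real.norm_eq_abs, abs_of_nonneg (sq_nonneg _)]
      have h2 := ww_le R (z - x)
      have h3 := ww_nonneg R (z - x)
      calc ww R (z - x) ^ 2 ≤ (1 / R ^ 2) ^ 2 := pow_le_pow_left₀ h3 h2 2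
        _ = 1 / R ^ 4 := by rw [div_pow, one_pow, ← pow_mul]
    have h2 := norm_setIntegral_le_of_norm_le_const (μ := (volume : Measure ℂ)) measure_ball_lt_top h1
    have h3 : ((volume : Measure ℂ).real (ball x R)) = Real.pi * R ^ 2 := by
      rw [Measure.real, Complex.volume_ball]
      rw [ENNReal.toReal_mul, ENNReal.toReal_pow, ENNReal.toReal_ofReal hR.le]
      simp [mul_comm]
    rw [h3] at h2
    calc _ ≤ _ := le_abs_self _
      _ ≤ 1 / R ^ 4 * (Real.pi * R ^ 2) := h2
      _ = Real.pi / R ^ 2 := by field_simp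
  have hE : ∫ z in ball x R, (f z - 1) ^ 2 ≤ e := by
    have : (fun z => (f z - 1) ^ 2) = fun z => (1 - f z) ^ 2 := by ext z; ring
    rw [this]; exact he
  have he0 : 0 ≤ e := (integral_nonneg fun z => sq_nonneg _).trans hE
  rw [e1, abs_div, abs_of_pos h0, div_le_div_iff₀ h0 (by positivity)]
  have h4 : √(∫ z in ball x R, (f z - 1) ^ 2) * √(∫ z in ball x R, ww R (z - x) ^ 2) ≤ √(Real.pi * e) / R := by
    rw [← Real.sqrt_mul (integral_nonneg fun z => sq_nonneg _)]
    have : √(Real.pi * e) / R = √(e * (Real.pi / R ^ 2)) := by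
      rw [mul_div_assoc', Real.sqrt_div' _ (by positivity), Real.sqrt_sq hR.le, mul_comm e]
    rw [this]
    apply Real.sqrt_le_sqrt
    exact mul_le_mul hE hW (integral_nonneg fun z => sq_nonneg _) he0
  calc |∫ z in ball x R, (f z - 1) * ww R (z - x)| * (m0 * R) ≤ (√(Real.pi * e) / R) * (m0 * R) :=
        mul_le_mul_of_nonneg_right (hCS.trans h4) (by positivity)
    _ = √(Real.pi * e) * m0 := by field_simp

end Pool.Agent.TH316.FQ
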