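import Pool.Agent.TH316.FQ.Stm

set_option autoImplicit false

open MeasureTheory Metric Set Filter
open scoped Topology

namespace Pool.Agent.TH316.FQ

open Pool.Agent.Helper533.StarBox

theorem AvL_lap_sub {a b : ℂ → ℝ} (ha : TF univ a) (hb : TF univ b) (z : ℂ) :
    lap (fun z => a z - b z) z = lap a z - lap b z := by
  have hx : gx (fun z => a z - b z) = fun z => gx a z - gx b z := by
    ext z; exact gx_sub (ha.diff z) (hb.diff z)
  have hy : gy (fun z => a z - b z) = fun z => gy a z - gy b z := by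
    ext z; exact gy_sub (ha.diff z) (hb.diff z)
  unfold lap
  rw [hx, hy, gx_sub (ha.gx_tf.diff z) (hb.gx_tf.diff z), gy_sub (ha.gy_tf.diff z) (hb.gy_tf.diff z)]
  ring

theorem AvL_int {φ : ℂ → ℝ} (hφ : TF univ φ) : Integrable φ :=
  hφ.cont.integrable_of_hasCompactSupport hφ.comp

theorem avl (hPP : S_PPF) (hLEB : S_LEB) : S_AV := by
  obtain ⟨κ, hκ0, hκ1, -, hκ⟩ := hPP.second
  have hm := hPP.m0_pos
  refine ⟨κ, hκ0, hκ1, ?_⟩
  intro f c hf hc hsub
  have hloc : LocallyIntegrable f volume := hf.locallyIntegrable (by norm_num)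
  have hT : ∀ s t, ∀ x : ℂ, 0 < s → s ≤ t → TF univ (fun z => PP s t (qq x z)) :=
    fun s t x hs hst => PP_tf hs hst x (subset_univ _)
  have hqq : ∀ x z : ℂ, 0 ≤ qq x z := fun x z => by unfold qq; positivity
  have key : ∀ x s t, 0 < s → s ≤ t → -(c * (κ * (t ^ 2 - s ^ 2))) ≤ 4 * (Av f t x - Av f s x) := by
    intro x s t hs hst
    have h1 := hsub _ (hT s t x hs hst) (fun z => PP_nonneg hs hst (hqq x z))
    rw [hPP.green s t x f hloc hs hst, hκ s t x hs hst] at h1
    have h2 : m0 * (-(c * (κ * (t ^ 2 - s ^ 2)))) ≤ m0 * (4 * (Av f t x - Av f s x)) := by linarith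
    exact le_of_mul_le_mul_left h2 hm
  have h3 : ∀ x s t, 0 < s → s ≤ t → Av f s x ≤ Av f t x + c / 4 * t ^ 2 := by
    intro x s t hs hst
    have h1 := key x s t hs hst
    have h2 : c * (κ * (t ^ 2 - s ^ 2)) ≤ c * t ^ 2 := by
      apply mul_le_mul_of_nonneg_left _ hc
      have h4 : s ^ 2 ≤ t ^ 2 := pow_le_pow_left₀ hs.le hst 2
      nlinarith [sq_nonneg s, mul_nonneg (sub_nonneg.2 hκ1) (sub_nonneg.2 h4)]
    linarith
  refine ⟨?_, ?_, h3, ?_⟩
  · intro x t ht
    have h1 := key x (t / 2) t (by positivity) (by linarith)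
    nlinarith
  · intro x t ht
    have hA := hT (t / 2) t x (by positivity) (by linarith)
    have hB := hT (t / 4) (t / 2) x (by positivity) (by linarith)
    have hnn : ∀ z, 0 ≤ PP (t / 2) t (qq x z) - PP (t / 4) (t / 2) (qq x z) := by
      intro z
      have e1 := hPP.scal (1 / 2) (t / 2) t (4 * qq x z) (by norm_num) (by positivity) (by linarith)
      have e2 : PP (t / 4) (t / 2) (qq x z) = PP (t / 2) t (4 * qq x z) := by
        rw [← e1]
        congr 1 <;> ring
      rw [e2]
      have := hPP.anti (t / 2) t (qq x z) (4 * qq x z) (by positivity) (by linarith) (hqq x z)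
        (by linarith [hqq x z])
      linarith
    have h1 := hsub _ (hA.sub hB) hnn
    have iA : Integrable (fun z => f z * lap (fun z => PP (t / 2) t (qq x z)) z) :=
      hf.integrable_mul hA.lap_tf.memLp
    have iB : Integrable (fun z => f z * lap (fun z => PP (t / 4) (t / 2) (qq x z)) z) :=
      hf.integrable_mul hB.lap_tf.memLp
    have e3 : ∫ z, (PP (t / 2) t (qq x z) - PP (t / 4) (t / 2) (qq x z)) =
        m0 * κ * (t ^ 2 - (t / 2) ^ 2) - m0 * κ * ((t / 2) ^ 2 - (t / 4) ^ 2) := by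
      rw [integral_sub (AvL_int hA) (AvL_int hB), hκ (t / 2) t x (by positivity) (by linarith),
        hκ (t / 4) (t / 2) x (by positivity) (by linarith)]
    have e4 : ∫ z, f z * lap (fun z => PP (t / 2) t (qq x z) - PP (t / 4) (t / 2) (qq x z)) z =
        4 * m0 * (Av f t x - Av f (t / 2) x) - 4 * m0 * (Av f (t / 2) x - Av f (t / 4) x) := by
      rw [← hPP.green (t / 2) t x f hloc (by positivity) (by linarith),
        ← hPP.green (t / 4) (t / 2) x f hloc (by positivity) (by linarith),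
        ← integral_sub iA iB]
      congr 1; ext z
      rw [AvL_lap_sub hA hB]
      ring
    rw [e3, e4] at h1
    have h2 : m0 * (-(c * (κ * ((t ^ 2 - (t / 2) ^ 2) - ((t / 2) ^ 2 - (t / 4) ^ 2))))) ≤
        m0 * (4 * (Av f t x - Av f (t / 2) x) - 4 * (Av f (t / 2) x - Av f (t / 4) x)) := by linarith
    have h4 := le_of_mul_le_mul_left h2 hm
    nlinarith
  · filter_upwards [hLEB f hloc] with x hx t ht
    apply le_of_tendsto hx
    filter_upwards [Ioo_mem_nhdsGT ht] with s hs
    exact h3 x s t hs.1 hs.2.le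

end Pool.Agent.TH316.FQ
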