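import Pool.Agent.TH316.FQ.Bas

set_option autoImplicit false

/-! The barrier. -/

open MeasureTheory Metric Set Filter
open scoped Topology

namespace Pool.Agent.TH316.FQ

open Pool.Agent.Helper533.StarBox

namespace BarX

/-- a smooth nondecreasing function, positive exactly on the positive reals -/
noncomputable def β (r : ℝ) : ℝ := SS (r + 1 / 4)

theorem β_smooth : ContDiff ℝ (⊤ : ℕ∞) β := SS_smooth.comp (contDiff_id.add contDiff_const)

theorem β_deriv (r : ℝ) : HasDerivAt β (bb (r + 1 / 4)) r := by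
  have := (SS_deriv (r + 1 / 4)).comp_add_const r (1 / 4)
  exact this

theorem β_zero_of {r : ℝ} (h : r ≤ 0) : β r = 0 := SS_zero (by linarith)

theorem β_zero : β 0 = 0 := β_zero_of le_rfl

theorem SS_nonneg (t : ℝ) : 0 ≤ SS t := by
  rcases le_total t (1 / 4) with h | h
  · rw [SS_zero h]
  · have := SS_mono h
    rwa [SS_zero le_rfl] at this

theorem β_nonneg (r : ℝ) : 0 ≤ β r := SS_nonneg _

theorem β_pos {r : ℝ} (h : 0 < r) : 0 < β r := by
  rcases (β_nonneg r).lt_or_eq with h1 | h1
  · exact h1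
  exfalso
  unfold β at h1
  set c : ℝ := min (r / 2) (1 / 2) with hc
  have hc0 : 0 < c := lt_min (by linarith) (by norm_num)
  have hc1 : c ≤ 1 / 2 := min_le_right _ _
  have hcr : c ≤ r / 2 := min_le_left _ _
  have h2 : SS (c + 1 / 4) = 0 := by
    apply le_antisymm _ (SS_nonneg _)
    rw [h1]
    exact SS_mono (by linarith)
  have h3 : IsLocalMin SS (c + 1 / 4) := Eventually.of_forall fun t => by rw [h2]; exact SS_nonneg t
  have h4 := h3.hasDerivAt_eq_zero (SS_deriv _)
  have h5 := bb_pos (t := c + 1 / 4) (by linarith) (by linarith)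
  rw [h4] at h5
  exact lt_irrefl _ h5

theorem β_deriv_nonneg (r : ℝ) : 0 ≤ deriv β r := by rw [(β_deriv r).deriv]; exact bb_nonneg _
theorem β_deriv_le (r : ℝ) : deriv β r ≤ 1 := by rw [(β_deriv r).deriv]; exact bb_le_one _

theorem β_lip (s t : ℝ) : |β s - β t| ≤ 1 * |s - t| := by
  have := Convex.norm_image_sub_le_of_norm_deriv_le (f := β) (C := 1) (s := univ) (x := t) (y := s)
    (fun x _ => (β_deriv x).differentiableAt) (fun x _ => by
      rw [Real.norm_eq_abs, abs_of_nonneg (β_deriv_nonneg x)]; exact β_deriv_le x) convex_univ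
    (mem_univ _) (mem_univ _)
  exact this

/-- the smooth cutoffs -/
theorem cutoff (x : ℂ) {a b : ℝ} (ha : 0 < a) (hab : a < b) : ∃ χ : ℂ → ℝ, TF univ χ ∧ (∀ z, 0 ≤ χ z) ∧
    (∀ z, z ∈ closedBall x a → χ z = 1) ∧ tsupport χ ⊆ closedBall x b := by
  let f : ContDiffBump x := ⟨a, b, ha, hab⟩
  refine ⟨fun z => f z, ⟨f.contDiff, f.hasCompactSupport, subset_univ _⟩, fun z => f.nonneg,
    fun z hz => f.one_of_mem_closedBall hz, ?_⟩
  rw [f.tsupport_eq]

theorem qq_nonneg (x z : ℂ) : 0 ≤ qq x z := by unfold qq; positivity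

/-- the quadratic function, cut off -/
theorem quad (x : ℂ) {r R : ℝ} (hr : 0 < r) (hR : r < R) : ∃ Q : ℂ → ℝ, TF univ Q ∧ (∀ z, 0 ≤ Q z) ∧
    (∀ z ∈ ball x r, Q z = 1 / 100 * qq x z) ∧ (∀ z ∈ ball x r, lap Q z = 4 / 100) := by
  obtain ⟨χ, hχ, hχ0, hχ1, -⟩ := cutoff x hr hR
  refine ⟨fun z => 1 / 100 * qq x z * χ z, hχ.mul_smooth (contDiff_const.mul (qq_smooth x)), ?_, ?_, ?_⟩
  · intro z
    have := qq_nonneg x z
    have := hχ0 z
    positivity
  · intro z hz
    show 1 / 100 * qq x z * χ z = _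
    rw [hχ1 z (ball_subset_closedBall hz), mul_one]
  · intro z hz
    have hqd : ∀ z, DifferentiableAt ℝ (qq x) z := (qq_smooth x).differentiable (by simp)
    have ev : (fun z => 1 / 100 * qq x z * χ z) =ᶠ[𝓝 z] fun z => 1 / 100 * qq x z := by
      filter_upwards [isOpen_ball.mem_nhds hz] with y hy
      rw [hχ1 y (ball_subset_closedBall hy), mul_one]
    have e1 : gx (fun z => 1 / 100 * qq x z * χ z) =ᶠ[𝓝 z] fun z => 1 / 100 * (2 * (z.re - x.re)) := by
      filter_upwards [ev.eventually_nhds] with y hy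
      have h1 : gx (fun z => 1 / 100 * qq x z * χ z) y = gx (fun z => 1 / 100 * qq x z) y := by
        unfold gx; rw [Filter.EventuallyEq.fderiv_eq hy]
      rw [h1, gx_smul _ (hqd y), gx_qq]
    have e2 : gy (fun z => 1 / 100 * qq x z * χ z) =ᶠ[𝓝 z] fun z => 1 / 100 * (2 * (z.im - x.im)) := by
      filter_upwards [ev.eventually_nhds] with y hy
      have h1 : gy (fun z => 1 / 100 * qq x z * χ z) y = gy (fun z => 1 / 100 * qq x z) y := by
        unfold gy; rw [Filter.EventuallyEq.fderiv_eq hy]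
      rw [h1, gy_smul _ (hqd y), gy_qq]
    have hre : ∀ z : ℂ, DifferentiableAt ℝ (fun z : ℂ => 2 * (z.re - x.re)) z := fun z => by
      have : DifferentiableAt ℝ (fun z : ℂ => z.re) z := Complex.reCLM.differentiableAt
      exact (this.sub_const _).const_mul _
    have him : ∀ z : ℂ, DifferentiableAt ℝ (fun z : ℂ => 2 * (z.im - x.im)) z := fun z => by
      have : DifferentiableAt ℝ (fun z : ℂ => z.im) z := Complex.imCLM.differentiableAt
      exact (this.sub_const _).const_mul _
    unfold lap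
    have e3 : gx (gx fun z => 1 / 100 * qq x z * χ z) z = 1 / 100 * 2 := by
      have h1 : gx (gx fun z => 1 / 100 * qq x z * χ z) z = gx (fun z => 1 / 100 * (2 * (z.re - x.re))) z := by
        show fderiv ℝ (gx fun z => 1 / 100 * qq x z * χ z) z 1 = fderiv ℝ (fun z => 1 / 100 * (2 * (z.re - x.re))) z 1
        rw [Filter.EventuallyEq.fderiv_eq e1]
      rw [h1, gx_smul _ (hre z), gx_re]
    have e4 : gy (gy fun z => 1 / 100 * qq x z * χ z) z = 1 / 100 * 2 := by
      have h1 : gy (gy fun z => 1 / 100 * qq x z * χ z) z = gy (fun z => 1 / 100 * (2 * (z.im - x.im))) z := by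
        show fderiv ℝ (gy fun z => 1 / 100 * qq x z * χ z) z Complex.I =
          fderiv ℝ (fun z => 1 / 100 * (2 * (z.im - x.im))) z Complex.I
        rw [Filter.EventuallyEq.fderiv_eq e2]
      rw [h1, gy_smul _ (him z), gy_im]
    rw [e3, e4]
    norm_num

end BarX

open BarX in
theorem bar : S_BAR := by
  intro U w wx wy v vx vy hU hUf hw hv hew hev hv0 hvw x t ht ht1 hv95
  obtain ⟨χ, hχ, hχ0, hχ1, hχs⟩ := cutoff x (a := 1.5 * t) (b := 1.9 * t) (by positivity) (by linarith)
  obtain ⟨Q, hQ, hQ0, hQ1, hQl⟩ := quad x (r := 1.95 * t) (R := 2 * t) (by positivity) (by linarith)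
  have hsub : tsupport χ ⊆ ball x (1.95 * t) := hχs.trans (closedBall_subset_ball (by linarith))
  have hsub2 : ball x (1.95 * t) ⊆ ball x (2 * t) := ball_subset_ball (by linarith)
  set k : ℝ := 1 / 100 * t ^ 2 + 1 with hk
  -- s = k v - w
  have hs := (hv.smul k).sub hw
  obtain ⟨s, hsT, h1, h2, h3⟩ := hs.seq
  -- g = s - Q
  have hg := h1.sub (L2T.const hQ.memLp)
  have hgx := h2.sub (L2T.const hQ.gx_tf.memLp)
  have hgy := h3.sub (L2T.const hQ.gy_tf.memLp)

  set g : ℂ → ℝ := fun z => k * v z - w z - Q z with hgdef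
  set Gx : ℂ → ℝ := fun z => k * vx z - wx z - gx Q z with hGx
  set Gy : ℂ → ℝ := fun z => k * vy z - wy z - gy Q z with hGy
  have hgT : ∀ n, TF univ (fun z => s n z - Q z) := fun n => ((hsT n).mono (subset_univ _)).sub hQ
  obtain ⟨K, hK0, hK, hKx, hKy⟩ := TF_bdd hχ
  have hβ := hg.comp_lip (β := β) β_lip β_zero
  have hβχ := hβ.bmul hχ.cont.aestronglyMeasurable hK
  have hβx := hβ.bmul hχ.gx_cont.aestronglyMeasurable hKx
  have hβy := hβ.bmul hχ.gy_cont.aestronglyMeasurable hKy
  -- the inequality in the limit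
  have hB : (∫ z, Gx z * (gx χ z * β (g z))) + ∫ z, Gy z * (gy χ z * β (g z)) ≤
      k * (∫ z, v z * (χ z * β (g z))) - 96 / 100 * ∫ z, χ z * β (g z) := by
    have l1 := (L2T.const hgx.mf).mul hβx
    have l2 := (L2T.const hgy.mf).mul hβy
    have l3 := (hgx.tt.add hgy.tt).const_mul (K / 4)
    have l4 := (l1.add l2).sub l3
    simp only [add_zero, mul_zero, sub_zero] at l4
    have r1 := ((L2T.const hv.mf).mul hβχ).const_mul k
    have r2 := ((L2T.const hχ.memLp).mul hβ).const_mul (96 / 100)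
    have r3 := r1.sub r2
    refine le_of_tendsto_of_tendsto' l4 r3 (fun n => ?_)
    have hn := hgT n
    have hd : ∀ z, DifferentiableAt ℝ β (s n z - Q z) := fun z => (β_deriv _).differentiableAt
    have hBc : TF univ (fun z => β (s n z - Q z)) := hn.comp_smooth β_smooth β_zero
    have hψ' : TF univ (fun z => χ z * β (s n z - Q z)) := hBc.mul_smooth hχ.smooth
    have hψ : TF U (fun z => χ z * β (s n z - Q z)) := by
      refine ⟨hψ'.smooth, hψ'.comp, ?_⟩
      refine (tsupport_sub_of_zero (u := s n) fun z hz => ?_).trans (hsT n).supp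
      rw [hz, zero_sub, β_zero_of (by linarith [hQ0 z]), mul_zero]
    have egx : ∀ z, gx (fun z => χ z * β (s n z - Q z)) z =
        gx χ z * β (s n z - Q z) + χ z * (deriv β (s n z - Q z) * gx (fun z => s n z - Q z) z) := by
      intro z
      rw [gx_mul (hχ.diff z) (hBc.diff z), gx_comp' (u := fun z => s n z - Q z) (hn.diff z) (hd z)]; ring
    have egy : ∀ z, gy (fun z => χ z * β (s n z - Q z)) z =
        gy χ z * β (s n z - Q z) + χ z * (deriv β (s n z - Q z) * gy (fun z => s n z - Q z) z) := by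
      intro z
      rw [gy_mul (hχ.diff z) (hBc.diff z), gy_comp' (u := fun z => s n z - Q z) (hn.diff z) (hd z)]; ring
    have egx2 : ∀ z, gx (fun z => s n z - Q z) z = gx (s n) z - gx Q z := fun z => gx_sub ((hsT n).diff z) (hQ.diff z)
    have egy2 : ∀ z, gy (fun z => s n z - Q z) z = gy (s n) z - gy Q z := fun z => gy_sub ((hsT n).diff z) (hQ.diff z)
    -- the equations tested with ψ
    have w1 := hew _ hψ
    have w2 := hev _ hψ
    have w3 : En Q (fun z => χ z * β (s n z - Q z)) = - (4 / 100 * ∫ z, χ z * β (s n z - Q z)) := by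
      rw [En_comm, ibp hψ' hQ, ← integral_const_mul]
      congr 2; ext z
      by_cases hz : z ∈ tsupport χ
      · rw [hQl z (hsub hz)]; ring
      · rw [image_eq_zero_of_notMem_tsupport hz]; ring
    have iψ : Integrable (fun z => χ z * β (s n z - Q z)) := hψ.cont.integrable_of_hasCompactSupport hψ.comp
    have iv : Integrable (fun z => v z * (χ z * β (s n z - Q z))) := hv.mf.integrable_mul hψ.memLp
    have ivx : Integrable (fun z => vx z * gx (fun z => χ z * β (s n z - Q z)) z) := hv.mp.integrable_mul hψ.gx_tf.memLp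
    have ivy : Integrable (fun z => vy z * gy (fun z => χ z * β (s n z - Q z)) z) := hv.mq.integrable_mul hψ.gy_tf.memLp
    have iwx : Integrable (fun z => wx z * gx (fun z => χ z * β (s n z - Q z)) z) := hw.mp.integrable_mul hψ.gx_tf.memLp
    have iwy : Integrable (fun z => wy z * gy (fun z => χ z * β (s n z - Q z)) z) := hw.mq.integrable_mul hψ.gy_tf.memLp
    have iQ := hQ.en_int hψ
    have iV : Integrable (fun z => k * (vx z * gx (fun z => χ z * β (s n z - Q z)) z +
      vy z * gy (fun z => χ z * β (s n z - Q z)) z)) := (ivx.add ivy).const_mul k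
    have iW : Integrable (fun z => wx z * gx (fun z => χ z * β (s n z - Q z)) z +
      wy z * gy (fun z => χ z * β (s n z - Q z)) z) := iwx.add iwy
    have iVW : Integrable (fun z => k * (vx z * gx (fun z => χ z * β (s n z - Q z)) z +
      vy z * gy (fun z => χ z * β (s n z - Q z)) z) - (wx z * gx (fun z => χ z * β (s n z - Q z)) z +
      wy z * gy (fun z => χ z * β (s n z - Q z)) z)) := iV.sub iW
    have eR : k * (∫ z, v z * (χ z * β (s n z - Q z))) - 96 / 100 * (∫ z, χ z * β (s n z - Q z)) =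
        ∫ z, (Gx z * gx (fun z => χ z * β (s n z - Q z)) z + Gy z * gy (fun z => χ z * β (s n z - Q z)) z) := by
      have e1 : ∫ z, (Gx z * gx (fun z => χ z * β (s n z - Q z)) z + Gy z * gy (fun z => χ z * β (s n z - Q z)) z) =
          ∫ z, ((k * (vx z * gx (fun z => χ z * β (s n z - Q z)) z +
            vy z * gy (fun z => χ z * β (s n z - Q z)) z) - (wx z * gx (fun z => χ z * β (s n z - Q z)) z +
            wy z * gy (fun z => χ z * β (s n z - Q z)) z)) -
            (gx Q z * gx (fun z => χ z * β (s n z - Q z)) z + gy Q z * gy (fun z => χ z * β (s n z - Q z)) z)) := by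
        congr 1; ext z; simp only [hGx, hGy]; ring
      rw [e1, integral_sub iVW iQ, integral_sub iV iW, integral_const_mul, w1, w2]
      have e2 : ∫ z, (gx Q z * gx (fun z => χ z * β (s n z - Q z)) z + gy Q z * gy (fun z => χ z * β (s n z - Q z)) z) =
        En Q (fun z => χ z * β (s n z - Q z)) := rfl
      rw [e2, w3]
      have e3 : ∫ z, (1:ℝ) * (χ z * β (s n z - Q z)) = ∫ z, χ z * β (s n z - Q z) := by simp
      rw [e3]
      ring
    rw [eR]
    have i3 : Integrable (fun z => Gx z * (gx χ z * β (s n z - Q z))) := hgx.mf.integrable_mul (hβx.ma n)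
    have i4 : Integrable (fun z => Gy z * (gy χ z * β (s n z - Q z))) := hgy.mf.integrable_mul (hβy.ma n)
    have i34 : Integrable (fun z => Gx z * (gx χ z * β (s n z - Q z)) + Gy z * (gy χ z * β (s n z - Q z))) := i3.add i4
    have i5 : Integrable (fun z => (gx (s n) z - gx Q z - Gx z) ^ 2) := hgx.sub_int n
    have i6 : Integrable (fun z => (gy (s n) z - gy Q z - Gy z) ^ 2) := hgy.sub_int n
    have i56 : Integrable (fun z => K / 4 * ((gx (s n) z - gx Q z - Gx z) ^ 2 + (gy (s n) z - gy Q z - Gy z) ^ 2)) :=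
      (i5.add i6).const_mul _
    have i7 : Integrable (fun z => Gx z * gx (fun z => χ z * β (s n z - Q z)) z +
      Gy z * gy (fun z => χ z * β (s n z - Q z)) z) :=
      (hgx.mf.integrable_mul hψ.gx_tf.memLp).add (hgy.mf.integrable_mul hψ.gy_tf.memLp)
    have eL : (∫ z, Gx z * (gx χ z * β (s n z - Q z))) + (∫ z, Gy z * (gy χ z * β (s n z - Q z))) -
        K / 4 * ((∫ z, (gx (s n) z - gx Q z - Gx z) ^ 2) + ∫ z, (gy (s n) z - gy Q z - Gy z) ^ 2) =
        ∫ z, ((Gx z * (gx χ z * β (s n z - Q z)) + Gy z * (gy χ z * β (s n z - Q z))) -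
          K / 4 * ((gx (s n) z - gx Q z - Gx z) ^ 2 + (gy (s n) z - gy Q z - Gy z) ^ 2)) := by
      rw [integral_sub i34 i56, integral_const_mul, integral_add i3 i4, integral_add i5 i6]
    refine (le_of_eq eL).trans ?_
    apply integral_mono (i34.sub i56) i7
    intro z
    show (Gx z * (gx χ z * β (s n z - Q z)) + Gy z * (gy χ z * β (s n z - Q z))) -
          K / 4 * ((gx (s n) z - gx Q z - Gx z) ^ 2 + (gy (s n) z - gy Q z - Gy z) ^ 2) ≤
      Gx z * gx (fun z => χ z * β (s n z - Q z)) z + Gy z * gy (fun z => χ z * β (s n z - Q z)) z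
    rw [egx, egy, egx2, egy2]
    have c1 : 0 ≤ χ z * deriv β (s n z - Q z) := mul_nonneg (hχ0 z) (β_deriv_nonneg _)
    have c2 : χ z * deriv β (s n z - Q z) ≤ K * 1 :=
      mul_le_mul ((le_abs_self _).trans (hK z)) (β_deriv_le _) (β_deriv_nonneg _) hK0
    rw [mul_one] at c2
    set X := gx (s n) z - gx Q z
    set Y := gy (s n) z - gy Q z
    have c6 : χ z * (deriv β (s n z - Q z) * X) = (χ z * deriv β (s n z - Q z)) * X := by ring
    have c7 : χ z * (deriv β (s n z - Q z) * Y) = (χ z * deriv β (s n z - Q z)) * Y := by ring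
    rw [c6, c7]
    set c := χ z * deriv β (s n z - Q z) with hc
    have c3 : 0 ≤ (K - c) * ((X - Gx z) ^ 2 + (Y - Gy z) ^ 2) :=
      mul_nonneg (sub_nonneg.2 c2) (by positivity)
    have c4 : 0 ≤ c * ((X - Gx z + -2 * X) ^ 2 + (Y - Gy z + -2 * Y) ^ 2) := by positivity
    nlinarith
  -- a.e. sign of g away from the centre
  have hneg : ∀ᵐ z, z ∈ ball x (2 * t) → 1.5 * t ≤ ‖z - x‖ → 1 / 100 * (t ^ 2 * v z - ‖z - x‖ ^ 2) - (w z - v z) ≤ 0 := by
    filter_upwards [hvw, hv95] with z h1 h2 hz h3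
    have h4 := h2 hz
    have h5 : (1.5 * t) ^ 2 ≤ ‖z - x‖ ^ 2 := pow_le_pow_left₀ (by positivity) h3 2
    nlinarith [sq_nonneg t]
  have hgeq : ∀ z ∈ ball x (1.95 * t), g z = 1 / 100 * (t ^ 2 * v z - ‖z - x‖ ^ 2) - (w z - v z) := by
    intro z hz
    simp only [hgdef, hQ1 z hz, hk, qq_eq]
    ring
  have hz1 : ∀ᵐ z, gx χ z * β (g z) = 0 ∧ gy χ z * β (g z) = 0 := by
    filter_upwards [hneg] with z hz
    by_cases h4 : z ∈ tsupport χ
    · have h5 := hsub h4
      by_cases h6 : 1.5 * t ≤ ‖z - x‖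
      · have h7 := hz (hsub2 h5) h6
        rw [← hgeq z h5] at h7
        rw [β_zero_of h7]; simp
      · push Not at h6
        have h8 : z ∈ ball x (1.5 * t) := by rwa [mem_ball, dist_eq_norm]
        have ev : χ =ᶠ[𝓝 z] fun _ => 1 := by
          filter_upwards [isOpen_ball.mem_nhds h8] with y hy
          exact hχ1 y (ball_subset_closedBall hy)
        have e1 : gx χ z = 0 := by unfold gx; rw [ev.fderiv_eq]; simp
        have e2 : gy χ z = 0 := by unfold gy; rw [ev.fderiv_eq]; simp
        rw [e1, e2]; simp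
    · rw [TF.gx_zero h4, TF.gy_zero h4]; simp
  have hL1 : ∫ z, Gx z * (gx χ z * β (g z)) = 0 := by
    apply integral_eq_zero_of_ae
    filter_upwards [hz1] with z hz
    rw [hz.1]; simp
  have hL2 : ∫ z, Gy z * (gy χ z * β (g z)) = 0 := by
    apply integral_eq_zero_of_ae
    filter_upwards [hz1] with z hz
    rw [hz.2]; simp
  rw [hL1, hL2, add_zero] at hB
  have iχ : Integrable (fun z => χ z * β (g z)) := hχ.memLp.integrable_mul hβ.mf
  have ivχ : Integrable (fun z => v z * (χ z * β (g z))) := hv.mf.integrable_mul hβχ.mf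
  have hR : k * (∫ z, v z * (χ z * β (g z))) - 96 / 100 * (∫ z, χ z * β (g z)) ≤ - (5 / 10000) * ∫ z, χ z * β (g z) := by
    rw [← integral_const_mul, ← integral_const_mul, ← integral_const_mul, ← integral_sub (ivχ.const_mul _) (iχ.const_mul _)]
    apply integral_mono_ae ((ivχ.const_mul _).sub (iχ.const_mul _)) (iχ.const_mul _)
    filter_upwards [hv0, hv95] with z h0 h95
    show k * (v z * (χ z * β (g z))) - 96 / 100 * (χ z * β (g z)) ≤ - (5 / 10000) * (χ z * β (g z))
    by_cases h4 : z ∈ tsupport χ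
    · have h5 := h95 (hsub2 (hsub h4))
      have h6 : 0 ≤ χ z * β (g z) := mul_nonneg (hχ0 z) (β_nonneg _)
      have h7 : k * v z ≤ 9595 / 10000 := by
        have : k ≤ 101 / 100 := by rw [hk]; nlinarith
        nlinarith
      nlinarith
    · rw [image_eq_zero_of_notMem_tsupport h4]; simp
  have hzero : ∫ z, χ z * β (g z) = 0 := by
    apply le_antisymm
    · linarith
    · exact integral_nonneg fun z => mul_nonneg (hχ0 z) (β_nonneg _)
  have hae := (integral_eq_zero_iff_of_nonneg (fun z => mul_nonneg (hχ0 z) (β_nonneg _)) iχ).1 hzero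
  filter_upwards [hae, hneg] with z hz hn hzb
  by_cases h6 : 1.5 * t ≤ ‖z - x‖
  · have := hn hzb h6
    norm_num at this ⊢
    linarith
  · push Not at h6
    have h7 : z ∈ closedBall x (1.5 * t) := by rw [mem_closedBall, dist_eq_norm]; exact h6.le
    have h8 : z ∈ ball x (1.95 * t) := by rw [mem_ball, dist_eq_norm]; linarith
    have h9 : χ z * β (g z) = 0 := hz
    rw [hχ1 z h7, one_mul] at h9
    have h10 : g z ≤ 0 := by
      by_contra hcon
      push Not at hcon
      exact (β_pos hcon).ne' h9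
    rw [hgeq z h8] at h10
    norm_num at h10 ⊢
    linarith

end Pool.Agent.TH316.FQ
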