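import Pool.Agent.TH316.FQ.Stm

set_option autoImplicit false

/-! Basic facts: convergence in `L²`, approximation of elements of `H¹₀`, testing with elements of `H¹₀`. -/

open MeasureTheory Metric Set Filter
open scoped Topology

namespace Pool.Agent.TH316.FQ

open Pool.Agent.Helper533.StarBox

/-- convergence in `L²` -/
structure L2T (a : ℕ → ℂ → ℝ) (f : ℂ → ℝ) : Prop where
  ma : ∀ n, MemLp (a n) 2 (volume : Measure ℂ)
  mf : MemLp f 2 (volume : Measure ℂ)
  tt : Tendsto (fun n => ∫ z, (a n z - f z) ^ 2) atTop (𝓝 0)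

theorem norm_cls_sub_sq {f g : ℂ → ℝ} (hf : MemLp f 2 (volume : Measure ℂ)) (hg : MemLp g 2 (volume : Measure ℂ)) :
    ‖cls f - cls g‖ ^ 2 = ∫ z, (f z - g z) ^ 2 := by
  have h : MemLp (fun z => f z - g z) 2 (volume : Measure ℂ) := hf.sub hg
  rw [← cls_sub hf hg, ← real_inner_self_eq_norm_sq, inner_cls h h]
  congr 1; ext z; ring

theorem L2T_iff {a : ℕ → ℂ → ℝ} {f : ℂ → ℝ} (ha : ∀ n, MemLp (a n) 2 (volume : Measure ℂ))
    (hf : MemLp f 2 (volume : Measure ℂ)) : L2T a f ↔ Tendsto (fun n => cls (a n)) atTop (𝓝 (cls f)) := by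
  have key : (fun n => ∫ z, (a n z - f z) ^ 2) = fun n => ‖cls (a n) - cls f‖ ^ 2 := by
    ext n; rw [norm_cls_sub_sq (ha n) hf]
  constructor
  · intro h
    have h1 := h.tt
    rw [key] at h1
    rw [tendsto_iff_norm_sub_tendsto_zero]
    have h2 := (Real.continuous_sqrt.tendsto 0).comp h1
    rw [Real.sqrt_zero] at h2
    refine h2.congr fun n => ?_
    show √(‖cls (a n) - cls f‖ ^ 2) = _
    rw [Real.sqrt_sq (norm_nonneg _)]
  · intro h
    refine ⟨ha, hf, ?_⟩
    rw [key]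
    rw [tendsto_iff_norm_sub_tendsto_zero] at h
    simpa using h.pow 2

namespace L2T

variable {a b : ℕ → ℂ → ℝ} {f g : ℂ → ℝ}

theorem cls (h : L2T a f) : Tendsto (fun n => cls (a n)) atTop (𝓝 (cls f)) := (L2T_iff h.ma h.mf).1 h

theorem const (hf : MemLp f 2 (volume : Measure ℂ)) : L2T (fun _ => f) f :=
  (L2T_iff (fun _ => hf) hf).2 tendsto_const_nhds

theorem mul (h : L2T a f) (k : L2T b g) : Tendsto (fun n => ∫ z, a n z * b n z) atTop (𝓝 (∫ z, f z * g z)) := by
  have h1 := h.cls.inner (𝕜 := ℝ) k.cls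
  rw [inner_cls h.mf k.mf] at h1
  exact h1.congr fun n => inner_cls (h.ma n) (k.ma n)

theorem sq (h : L2T a f) : Tendsto (fun n => ∫ z, a n z ^ 2) atTop (𝓝 (∫ z, f z ^ 2)) := by
  have := h.mul h
  simpa [pow_two] using this

theorem add (h : L2T a f) (k : L2T b g) : L2T (fun n z => a n z + b n z) (fun z => f z + g z) := by
  refine (L2T_iff (a := fun n z => a n z + b n z) (f := fun z => f z + g z) (fun n => (h.ma n).add (k.ma n))
    (h.mf.add k.mf)).2 ?_
  have := h.cls.add k.cls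
  rw [← cls_add h.mf k.mf] at this
  exact this.congr fun n => (cls_add (h.ma n) (k.ma n)).symm

theorem sub (h : L2T a f) (k : L2T b g) : L2T (fun n z => a n z - b n z) (fun z => f z - g z) := by
  refine (L2T_iff (a := fun n z => a n z - b n z) (f := fun z => f z - g z) (fun n => (h.ma n).sub (k.ma n))
    (h.mf.sub k.mf)).2 ?_
  have := h.cls.sub k.cls
  rw [← cls_sub h.mf k.mf] at this
  exact this.congr fun n => (cls_sub (h.ma n) (k.ma n)).symm

theorem smul (c : ℝ) (h : L2T a f) : L2T (fun n z => c * a n z) (fun z => c * f z) := by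
  rw [L2T_iff (fun n => (h.ma n).const_mul c) (h.mf.const_mul c)]
  have := h.cls.const_smul c
  rw [← cls_smul c h.mf] at this
  exact this.congr fun n => (cls_smul c (h.ma n)).symm

theorem sub_int (h : L2T a f) (n : ℕ) : Integrable (fun z => (a n z - f z) ^ 2) := ((h.ma n).sub h.mf).integrable_sq

/-- multiplication with a bounded function -/
theorem bmul (h : L2T a f) {χ : ℂ → ℝ} (hχ : AEStronglyMeasurable χ (volume : Measure ℂ)) {C : ℝ}
    (hC : ∀ z, |χ z| ≤ C) : L2T (fun n z => χ z * a n z) (fun z => χ z * f z) := by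
  have hC0 : 0 ≤ C := (abs_nonneg _).trans (hC 0)
  have hm : ∀ k : ℂ → ℝ, MemLp k 2 (volume : Measure ℂ) → MemLp (fun z => χ z * k z) 2 (volume : Measure ℂ) := by
    intro k hk
    refine MemLp.of_le_mul (c := C) hk (hχ.mul hk.1) (Eventually.of_forall fun z => ?_)
    rw [norm_mul]
    exact mul_le_mul_of_nonneg_right (hC z) (norm_nonneg _)
  refine ⟨fun n => hm _ (h.ma n), hm _ h.mf, ?_⟩
  have h1 : Tendsto (fun n => C ^ 2 * ∫ z, (a n z - f z) ^ 2) atTop (𝓝 0) := by
    simpa using h.tt.const_mul (C ^ 2)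
  refine squeeze_zero (fun n => integral_nonneg fun z => sq_nonneg _) (fun n => ?_) h1
  rw [← integral_const_mul]
  apply integral_mono (((hm _ (h.ma n)).sub (hm _ h.mf)).integrable_sq) ((h.sub_int n).const_mul _)
  intro z
  show (χ z * a n z - χ z * f z) ^ 2 ≤ C ^ 2 * (a n z - f z) ^ 2
  rw [← mul_sub, mul_pow]
  apply mul_le_mul_of_nonneg_right _ (sq_nonneg _)
  rw [← sq_abs]
  exact pow_le_pow_left₀ (abs_nonneg _) (hC z) 2

/-- composition with a Lipschitz function -/
theorem comp_lip (h : L2T a f) {β : ℝ → ℝ} {C : ℝ} (hβ : ∀ s t, |β s - β t| ≤ C * |s - t|) (h0 : β 0 = 0) :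
    L2T (fun n z => β (a n z)) (fun z => β (f z)) := by
  have hC0 : 0 ≤ C := by
    have := (abs_nonneg _).trans (hβ 1 0); simpa using this
  have hc : Continuous β := by
    have : LipschitzWith ⟨C, hC0⟩ β := by
      apply LipschitzWith.of_dist_le_mul
      intro s t
      rw [Real.dist_eq, Real.dist_eq]
      exact hβ s t
    exact this.continuous
  have hm : ∀ k : ℂ → ℝ, MemLp k 2 (volume : Measure ℂ) → MemLp (fun z => β (k z)) 2 (volume : Measure ℂ) := by
    intro k hk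
    refine MemLp.of_le_mul (c := C) hk (hc.comp_aestronglyMeasurable hk.1) (Eventually.of_forall fun z => ?_)
    have := hβ (k z) 0
    rw [h0, sub_zero, sub_zero] at this
    exact this
  refine ⟨fun n => hm _ (h.ma n), hm _ h.mf, ?_⟩
  have h1 : Tendsto (fun n => C ^ 2 * ∫ z, (a n z - f z) ^ 2) atTop (𝓝 0) := by
    simpa using h.tt.const_mul (C ^ 2)
  refine squeeze_zero (fun n => integral_nonneg fun z => sq_nonneg _) (fun n => ?_) h1
  rw [← integral_const_mul]
  apply integral_mono (((hm _ (h.ma n)).sub (hm _ h.mf)).integrable_sq) ((h.sub_int n).const_mul _)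
  intro z
  show (β (a n z) - β (f z)) ^ 2 ≤ C ^ 2 * (a n z - f z) ^ 2
  rw [← sq_abs, ← sq_abs (a n z - f z), ← mul_pow]
  exact pow_le_pow_left₀ (abs_nonneg _) (hβ _ _) 2

theorem comp_seq (h : L2T a f) {φ : ℕ → ℕ} (hφ : Tendsto φ atTop atTop) : L2T (fun n => a (φ n)) f :=
  ⟨fun n => h.ma _, h.mf, h.tt.comp hφ⟩

/-- a subsequence converges almost everywhere -/
theorem subseq (h : L2T a f) : ∃ φ : ℕ → ℕ, StrictMono φ ∧ ∀ᵐ z, Tendsto (fun n => a (φ n) z) atTop (𝓝 (f z)) := by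
  have h1 : Tendsto (fun n => eLpNorm (a n - f) 2 (volume : Measure ℂ)) atTop (𝓝 0) := by
    have h2 := h.cls
    rw [tendsto_iff_edist_tendsto_0] at h2
    refine h2.congr fun n => ?_
    rw [Lp.edist_def]
    apply eLpNorm_congr_ae
    filter_upwards [cls_coe (h.ma n), cls_coe h.mf] with z k1 k2
    simp [k1, k2]
  have h2 := tendstoInMeasure_of_tendsto_eLpNorm (by norm_num) (fun n => (h.ma n).1) h.mf.1 h1
  exact h2.exists_seq_tendsto_ae

end L2T

/-! ### `H¹₀` -/

theorem HW.seq {U : Set ℂ} {f p q : ℂ → ℝ} (h : HW U f p q) : ∃ u : ℕ → ℂ → ℝ, (∀ n, TF U (u n)) ∧ L2T u f ∧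
    L2T (fun n => gx (u n)) p ∧ L2T (fun n => gy (u n)) q := by
  have h1 : ∀ n : ℕ, ∃ v, TF U v ∧ ∫ z, (v z - f z) ^ 2 ≤ 1 / ((n : ℝ) + 1) ∧
    ∫ z, ((gx v z - p z) ^ 2 + (gy v z - q z) ^ 2) ≤ 1 / ((n : ℝ) + 1) := fun n => h.app _ (by positivity)
  choose u hu h2 h3 using h1
  have hx : ∀ n, MemLp (gx (u n)) 2 (volume : Measure ℂ) := fun n => (hu n).gx_tf.memLp
  have hy : ∀ n, MemLp (gy (u n)) 2 (volume : Measure ℂ) := fun n => (hu n).gy_tf.memLp
  have e0 : Tendsto (fun n : ℕ => 1 / ((n : ℝ) + 1)) atTop (𝓝 0) := tendsto_one_div_add_atTop_nhds_zero_nat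
  refine ⟨u, hu, ⟨fun n => (hu n).memLp, h.mf, ?_⟩, ⟨hx, h.mp, ?_⟩, ⟨hy, h.mq, ?_⟩⟩
  · exact squeeze_zero (fun n => integral_nonneg fun z => sq_nonneg _) h2 e0
  · refine squeeze_zero (fun n => integral_nonneg fun z => sq_nonneg _) (fun n => ?_) e0
    refine (integral_mono ((hx n).sub h.mp).integrable_sq
      (((hx n).sub h.mp).integrable_sq.add ((hy n).sub h.mq).integrable_sq) fun z => ?_).trans (h3 n)
    show (gx (u n) z - p z) ^ 2 ≤ (gx (u n) z - p z) ^ 2 + (gy (u n) z - q z) ^ 2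
    nlinarith [sq_nonneg (gy (u n) z - q z)]
  · refine squeeze_zero (fun n => integral_nonneg fun z => sq_nonneg _) (fun n => ?_) e0
    refine (integral_mono ((hy n).sub h.mq).integrable_sq
      (((hx n).sub h.mp).integrable_sq.add ((hy n).sub h.mq).integrable_sq) fun z => ?_).trans (h3 n)
    show (gy (u n) z - q z) ^ 2 ≤ (gx (u n) z - p z) ^ 2 + (gy (u n) z - q z) ^ 2
    nlinarith [sq_nonneg (gx (u n) z - p z)]

theorem HW.of_seq {U : Set ℂ} {f p q : ℂ → ℝ} {u : ℕ → ℂ → ℝ} (hu : ∀ n, TF U (u n)) (hf : L2T u f)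
    (hp : L2T (fun n => gx (u n)) p) (hq : L2T (fun n => gy (u n)) q) : HW U f p q := by
  refine ⟨hf.mf, hp.mf, hq.mf, fun ε hε => ?_⟩
  have h1 := hf.tt.eventually (ge_mem_nhds hε)
  have h2 := (hp.tt.add hq.tt)
  rw [add_zero] at h2
  obtain ⟨n, h3, h4⟩ := (h1.and (h2.eventually (ge_mem_nhds hε))).exists
  refine ⟨u n, hu n, h3, ?_⟩
  rw [integral_add (hp.sub_int n) (hq.sub_int n)]
  exact h4

/-- limits of test functions of `U`, taken in a slightly more general form -/
theorem HW.of_tf {U : Set ℂ} {u : ℂ → ℝ} (hu : TF U u) : HW U u (gx u) (gy u) :=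
  HW.of_seq (u := fun _ => u) (fun _ => hu) (L2T.const hu.memLp) (L2T.const hu.gx_tf.memLp) (L2T.const hu.gy_tf.memLp)

theorem HW.mono {U V : Set ℂ} {f p q : ℂ → ℝ} (h : HW U f p q) (hUV : U ⊆ V) : HW V f p q :=
  ⟨h.mf, h.mp, h.mq, fun ε hε => let ⟨v, h1, h2⟩ := h.app ε hε; ⟨v, h1.mono hUV, h2⟩⟩

theorem HW.smul {U : Set ℂ} {f p q : ℂ → ℝ} (c : ℝ) (h : HW U f p q) :
    HW U (fun z => c * f z) (fun z => c * p z) (fun z => c * q z) := by
  obtain ⟨u, hu, h1, h2, h3⟩ := h.seq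
  refine HW.of_seq (u := fun n z => c * u n z) (fun n => (hu n).smul c) (h1.smul c) ?_ ?_
  · have e : (fun n => gx fun z => c * u n z) = fun n z => c * gx (u n) z := by
      ext n z; exact gx_smul c ((hu n).diff z)
    rw [e]; exact h2.smul c
  · have e : (fun n => gy fun z => c * u n z) = fun n z => c * gy (u n) z := by
      ext n z; exact gy_smul c ((hu n).diff z)
    rw [e]; exact h3.smul c

theorem HW.add {U : Set ℂ} {f p q f' p' q' : ℂ → ℝ} (h : HW U f p q) (h' : HW U f' p' q') :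
    HW U (fun z => f z + f' z) (fun z => p z + p' z) (fun z => q z + q' z) := by
  obtain ⟨u, hu, h1, h2, h3⟩ := h.seq
  obtain ⟨v, hv, k1, k2, k3⟩ := h'.seq
  refine HW.of_seq (u := fun n z => u n z + v n z) (fun n => (hu n).add (hv n)) (h1.add k1) ?_ ?_
  · have e : (fun n => gx fun z => u n z + v n z) = fun n z => gx (u n) z + gx (v n) z := by
      ext n z; exact gx_add ((hu n).diff z) ((hv n).diff z)
    rw [e]; exact h2.add k2
  · have e : (fun n => gy fun z => u n z + v n z) = fun n z => gy (u n) z + gy (v n) z := by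
      ext n z; exact gy_add ((hu n).diff z) ((hv n).diff z)
    rw [e]; exact h3.add k3

theorem HW.sub {U : Set ℂ} {f p q f' p' q' : ℂ → ℝ} (h : HW U f p q) (h' : HW U f' p' q') :
    HW U (fun z => f z - f' z) (fun z => p z - p' z) (fun z => q z - q' z) := by
  have := h.add (h'.smul (-1))
  simpa [sub_eq_add_neg, neg_one_mul] using this

/-- product with a smooth function which is bounded with its derivatives; values -/
theorem HW.mul_smooth {U : Set ℂ} {f p q : ℂ → ℝ} (h : HW U f p q) {χ : ℂ → ℝ} (hχ : ContDiff ℝ (⊤ : ℕ∞) χ)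
    {C : ℝ} (h0 : ∀ z, |χ z| ≤ C) (hx : ∀ z, |gx χ z| ≤ C) (hy : ∀ z, |gy χ z| ≤ C) :
    HW U (fun z => χ z * f z) (fun z => χ z * p z + gx χ z * f z) (fun z => χ z * q z + gy χ z * f z) := by
  obtain ⟨u, hu, h1, h2, h3⟩ := h.seq
  have hχc : Continuous χ := hχ.continuous
  have hχd : Differentiable ℝ χ := hχ.differentiable (by simp)
  have hxc : Continuous (gx χ) := (hχ.continuous_fderiv (by simp)).clm_apply continuous_const
  have hyc : Continuous (gy χ) := (hχ.continuous_fderiv (by simp)).clm_apply continuous_const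
  refine HW.of_seq (u := fun n z => χ z * u n z) (fun n => (hu n).mul_smooth hχ)
    (h1.bmul hχc.aestronglyMeasurable h0) ?_ ?_
  · have e : (fun n => gx fun z => χ z * u n z) = fun n z => χ z * gx (u n) z + gx χ z * u n z := by
      ext n z; rw [gx_mul (hχd z) ((hu n).diff z)]; ring
    rw [e]; exact (h2.bmul hχc.aestronglyMeasurable h0).add (h1.bmul hxc.aestronglyMeasurable hx)
  · have e : (fun n => gy fun z => χ z * u n z) = fun n z => χ z * gy (u n) z + gy χ z * u n z := by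
      ext n z; rw [gy_mul (hχd z) ((hu n).diff z)]; ring
    rw [e]; exact (h3.bmul hχc.aestronglyMeasurable h0).add (h1.bmul hyc.aestronglyMeasurable hy)

/-- a test function of the plane is bounded with its derivatives -/
theorem TF_bdd {V : Set ℂ} {φ : ℂ → ℝ} (hφ : TF V φ) : ∃ C : ℝ, 0 ≤ C ∧ (∀ z, |φ z| ≤ C) ∧ (∀ z, |gx φ z| ≤ C) ∧
    (∀ z, |gy φ z| ≤ C) := by
  obtain ⟨C1, h1⟩ := hφ.cont.bounded_above_of_compact_support hφ.comp
  obtain ⟨C2, h2⟩ := hφ.gx_cont.bounded_above_of_compact_support hφ.gx_comp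
  obtain ⟨C3, h3⟩ := hφ.gy_cont.bounded_above_of_compact_support hφ.gy_comp
  refine ⟨max (max C1 C2) C3, ?_, ?_, ?_, ?_⟩
  · exact (norm_nonneg _).trans ((h3 0).trans (le_max_right _ _))
  · intro z; exact (h1 z).trans ((le_max_left _ _).trans (le_max_left _ _))
  · intro z; exact (h2 z).trans ((le_max_right _ _).trans (le_max_left _ _))
  · intro z; exact (h3 z).trans (le_max_right _ _)

theorem HW.mul_tf {U V : Set ℂ} {f p q : ℂ → ℝ} (h : HW U f p q) {φ : ℂ → ℝ} (hφ : TF V φ) :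
    HW U (fun z => φ z * f z) (fun z => φ z * p z + gx φ z * f z) (fun z => φ z * q z + gy φ z * f z) := by
  obtain ⟨C, _, h0, hx, hy⟩ := TF_bdd hφ
  exact h.mul_smooth hφ.smooth h0 hx hy

/-- testing the weak equation with elements of `H¹₀` -/
theorem WE.hw {U : Set ℂ} {p q h : ℂ → ℝ} (hw : WE U p q h) (hp : MemLp p 2 (volume : Measure ℂ))
    (hq : MemLp q 2 (volume : Measure ℂ)) (hh : MemLp h 2 (volume : Measure ℂ)) {f a b : ℂ → ℝ} (hf : HW U f a b) :
    ∫ z, (p z * a z + q z * b z) = ∫ z, h z * f z := by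
  obtain ⟨u, hu, h1, h2, h3⟩ := hf.seq
  have k1 := (L2T.const hp).mul h2
  have k2 := (L2T.const hq).mul h3
  have k3 := (L2T.const hh).mul h1
  have k4 := k1.add k2
  have e : ∫ z, (p z * a z + q z * b z) = (∫ z, p z * a z) + ∫ z, q z * b z :=
    integral_add (hp.integrable_mul h2.mf) (hq.integrable_mul h3.mf)
  rw [e]
  refine tendsto_nhds_unique (k4.congr fun n => ?_) k3
  rw [← hw _ (hu n)]
  exact (integral_add (hp.integrable_mul (h2.ma n)) (hq.integrable_mul (h3.ma n))).symm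

/-- scaling the weak equation -/
theorem WE.smul {U : Set ℂ} {p q h : ℂ → ℝ} (c : ℝ) (hw : WE U p q h) :
    WE U (fun z => c * p z) (fun z => c * q z) (fun z => c * h z) := by
  intro φ hφ
  have e1 : (fun z => c * p z * gx φ z + c * q z * gy φ z) = fun z => c * (p z * gx φ z + q z * gy φ z) := by
    ext z; ring
  have e2 : (fun z => c * h z * φ z) = fun z => c * (h z * φ z) := by ext z; ring
  rw [e1, e2, integral_const_mul, integral_const_mul, hw φ hφ]

/-! ### the indicator function -/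

theorem ind_of_mem {U : Set ℂ} {z : ℂ} (hz : z ∈ U) : ind U z = 1 := by simp [ind, hz]
theorem ind_of_notMem {U : Set ℂ} {z : ℂ} (hz : z ∉ U) : ind U z = 0 := by simp [ind, hz]

theorem ind_nonneg (U : Set ℂ) (z : ℂ) : 0 ≤ ind U z := by
  by_cases hz : z ∈ U
  · rw [ind_of_mem hz]; norm_num
  · rw [ind_of_notMem hz]

theorem ind_le_one (U : Set ℂ) (z : ℂ) : ind U z ≤ 1 := by
  by_cases hz : z ∈ U
  · rw [ind_of_mem hz]
  · rw [ind_of_notMem hz]; norm_num

theorem ind_memLp {U : Set ℂ} (hU : IsOpen U) (hf : volume U ≠ ⊤) : MemLp (ind U) 2 (volume : Measure ℂ) :=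
  memLp_indicator_const 2 hU.measurableSet 1 (Or.inr hf)

theorem ind_integrable {U : Set ℂ} (hU : IsOpen U) (hf : volume U ≠ ⊤) : Integrable (ind U) := by
  unfold ind
  rw [integrable_indicator_iff hU.measurableSet]
  exact integrableOn_const hf

theorem integral_ind {U : Set ℂ} (hU : IsOpen U) : ∫ z, ind U z = ar U := by
  unfold ind ar
  rw [integral_indicator hU.measurableSet]
  simp [Measure.real]

theorem integral_ind_mul {U : Set ℂ} (hU : IsOpen U) (f : ℂ → ℝ) : ∫ z, ind U z * f z = ∫ z in U, f z := by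
  rw [← integral_indicator hU.measurableSet]
  congr 1; ext z
  by_cases hz : z ∈ U
  · rw [ind_of_mem hz, one_mul, indicator_of_mem hz]
  · rw [ind_of_notMem hz, zero_mul, indicator_of_notMem hz]

theorem integral_ind_mul_tf {U : Set ℂ} {φ : ℂ → ℝ} (hφ : TF U φ) : ∫ z, ind U z * φ z = ∫ z, φ z := by
  congr 1; ext z
  by_cases hz : z ∈ U
  · rw [ind_of_mem hz, one_mul]
  · rw [ind_of_notMem hz, zero_mul]
    symm
    exact image_eq_zero_of_notMem_tsupport fun h => hz (hφ.supp h)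

/-- the torsion equation with the indicator function as right-hand side -/
theorem WE.ind {U : Set ℂ} {p q : ℂ → ℝ} (hw : WE U p q (fun _ => 1)) : WE U p q (ind U) := by
  intro φ hφ
  rw [hw φ hφ, integral_ind_mul_tf hφ]
  simp

end Pool.Agent.TH316.FQ
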