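import Pool.Agent.TH316.FQ.Stm
import Pool.Agent.Helper533.StarBox.Annulus

set_option autoImplicit false

open MeasureTheory Metric Set Filter
open scoped Topology

namespace Pool.Agent.TH316.FQ

open Pool.Agent.Helper533.StarBox

namespace CellX

/-- Cauchy-Schwarz for integrals -/
theorem cs {μ : Measure ℂ} {f g : ℂ → ℝ} (hf : Integrable (fun z => f z ^ 2) μ) (hg : Integrable (fun z => g z ^ 2) μ)
    (hfg : Integrable (fun z => f z * g z) μ) :
    (∫ z, f z * g z ∂μ) ^ 2 ≤ (∫ z, f z ^ 2 ∂μ) * ∫ z, g z ^ 2 ∂μ := by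
  have h : ∀ t : ℝ, 0 ≤ (∫ z, g z ^ 2 ∂μ) * (t * t) + (2 * ∫ z, f z * g z ∂μ) * t + ∫ z, f z ^ 2 ∂μ := by
    intro t
    have h1 : 0 ≤ ∫ z, (f z + t * g z) ^ 2 ∂μ := integral_nonneg fun z => sq_nonneg _
    have e : (fun z => (f z + t * g z) ^ 2) = fun z => (f z ^ 2 + (2 * t) * (f z * g z)) + t ^ 2 * g z ^ 2 := by
      ext z; ring
    have i1 : Integrable (fun z => f z ^ 2 + (2 * t) * (f z * g z)) μ := hf.add (hfg.const_mul _)
    rw [e, integral_add i1 (hg.const_mul _), integral_add hf (hfg.const_mul _),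
      integral_const_mul, integral_const_mul] at h1
    linarith
  have := discrim_le_zero h
  unfold discrim at this
  nlinarith

/-- Cauchy-Schwarz for gradients -/
theorem csg {μ : Measure ℂ} {a b c d : ℂ → ℝ} (hf : Integrable (fun z => a z ^ 2 + b z ^ 2) μ)
    (hg : Integrable (fun z => c z ^ 2 + d z ^ 2) μ) (hfg : Integrable (fun z => a z * c z + b z * d z) μ) :
    (∫ z, (a z * c z + b z * d z) ∂μ) ^ 2 ≤ (∫ z, (a z ^ 2 + b z ^ 2) ∂μ) * ∫ z, (c z ^ 2 + d z ^ 2) ∂μ := by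
  have h : ∀ t : ℝ, 0 ≤ (∫ z, (c z ^ 2 + d z ^ 2) ∂μ) * (t * t) + (2 * ∫ z, (a z * c z + b z * d z) ∂μ) * t +
      ∫ z, (a z ^ 2 + b z ^ 2) ∂μ := by
    intro t
    have h1 : 0 ≤ ∫ z, ((a z + t * c z) ^ 2 + (b z + t * d z) ^ 2) ∂μ :=
      integral_nonneg fun z => add_nonneg (sq_nonneg _) (sq_nonneg _)
    have e : (fun z => (a z + t * c z) ^ 2 + (b z + t * d z) ^ 2) =
        fun z => ((a z ^ 2 + b z ^ 2) + (2 * t) * (a z * c z + b z * d z)) + t ^ 2 * (c z ^ 2 + d z ^ 2) := by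
      ext z; ring
    have i1 : Integrable (fun z => (a z ^ 2 + b z ^ 2) + (2 * t) * (a z * c z + b z * d z)) μ := hf.add (hfg.const_mul _)
    rw [e, integral_add i1 (hg.const_mul _), integral_add hf (hfg.const_mul _),
      integral_const_mul, integral_const_mul] at h1
    linarith
  have := discrim_le_zero h
  unfold discrim at this
  nlinarith

theorem null_re (c : ℝ) : (volume : Measure ℂ) {w : ℂ | w.re = c} = 0 := by
  have h := vol_rect (measurableSet_singleton c) MeasurableSet.univ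
  have e : {w : ℂ | w.re ∈ ({c} : Set ℝ) ∧ w.im ∈ (univ : Set ℝ)} = {w : ℂ | w.re = c} := by
    ext w; simp
  rw [e] at h
  rw [h]; simp

theorem null_im (c : ℝ) : (volume : Measure ℂ) {w : ℂ | w.im = c} = 0 := by
  have h := vol_rect MeasurableSet.univ (measurableSet_singleton c)
  have e : {w : ℂ | w.re ∈ (univ : Set ℝ) ∧ w.im ∈ ({c} : Set ℝ)} = {w : ℂ | w.im = c} := by
    ext w; simp
  rw [e] at h
  rw [h]; simp

theorem cell_ae (x : ℂ) : (Cell x : Set ℂ) =ᵐ[volume] SQ x (1 / 2) := by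
  have h1 : ∀ᵐ w : ℂ, w.re ≠ x.re + 1 / 2 := by
    rw [ae_iff]; simpa using null_re (x.re + 1 / 2)
  have h2 : ∀ᵐ w : ℂ, w.im ≠ x.im + 1 / 2 := by
    rw [ae_iff]; simpa using null_im (x.im + 1 / 2)
  filter_upwards [h1, h2] with w hw1 hw2
  apply propext
  show (|w.re - x.re| < 1 / 2 ∧ |w.im - x.im| < 1 / 2) ↔
    ((x.re - 1 / 2 < w.re ∧ w.re ≤ x.re + 1 / 2) ∧ (x.im - 1 / 2 < w.im ∧ w.im ≤ x.im + 1 / 2))
  rw [abs_lt, abs_lt]
  constructor
  · rintro ⟨⟨a, b⟩, c, d⟩
    exact ⟨⟨by linarith, by linarith⟩, by linarith, by linarith⟩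
  · rintro ⟨⟨a, b⟩, c, d⟩
    have b' := lt_of_le_of_ne b hw1
    have d' := lt_of_le_of_ne d hw2
    exact ⟨⟨by linarith, by linarith⟩, by linarith, by linarith⟩

theorem notMem_SQ {x z : ℂ} (hz : z ∉ SQ x (1 / 2)) : 1 / 4 ≤ qq x z := by
  have h : ¬ ((x.re - 1 / 2 < z.re ∧ z.re ≤ x.re + 1 / 2) ∧ (x.im - 1 / 2 < z.im ∧ z.im ≤ x.im + 1 / 2)) := hz
  unfold qq
  by_contra hcon
  push Not at hcon
  apply h
  have h1 : (z.re - x.re) ^ 2 < (1 / 2) ^ 2 := by nlinarith [sq_nonneg (z.im - x.im)]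
  have h2 : (z.im - x.im) ^ 2 < (1 / 2) ^ 2 := by nlinarith [sq_nonneg (z.re - x.re)]
  have h3 := abs_lt_of_sq_lt_sq h1 (by norm_num)
  have h4 := abs_lt_of_sq_lt_sq h2 (by norm_num)
  rw [abs_lt] at h3 h4
  exact ⟨⟨by linarith, by linarith⟩, by linarith, by linarith⟩

theorem gPP_zero {δ R : ℝ} (hδ : 0 < δ) (hδR : δ ≤ R) (x z : ℂ) (h : R ^ 2 ≤ qq x z) :
    gx (fun z => PP δ R (qq x z)) z = 0 ∧ gy (fun z => PP δ R (qq x z)) z = 0 := by
  have hR : 0 < R := hδ.trans_le hδR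
  have h0 : gg δ R (qq x z) = 0 := by
    unfold gg
    rw [TT_large hδ hδR h, zero_div]
  have hd : DifferentiableAt ℝ (qq x) z := (qq_smooth x).differentiable (by simp) z
  have hP : DifferentiableAt ℝ (PP δ R) (qq x z) := (PP_deriv hδ hδR _).differentiableAt
  have hP' : deriv (PP δ R) (qq x z) = 0 := by
    rw [(PP_deriv hδ hδR _).deriv, h0, neg_zero]
  rw [gx_comp' hd hP, gy_comp' hd hP, hP']
  simp

end CellX

open CellX in
theorem cellIneq (hPP : S_PPF) : S_CELL := by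
  have hPP' : PPF := hPP
  have hm0 := hPP'.m0_pos
  refine ⟨1 + 4 / m0, by positivity, ?_⟩
  intro δ hδ hδ4 x u hu hz
  have hδR : δ ≤ 1 / 2 := by linarith
  -- replace the cell by the half-open square
  rw [setIntegral_congr_set (cell_ae x), setIntegral_congr_set (cell_ae x)]
  set Q : Set ℂ := SQ x (1 / 2) with hQ
  have hQm : MeasurableSet Q := SQ_meas x (1 / 2)
  have hQfin : volume Q ≠ ⊤ := RC_fin _ _ _ _
  have hQv : (volume Q).toReal = 1 := by rw [hQ, SQ_vol x (by norm_num)]; norm_num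
  set E : ℝ := ∫ z in Q, (gx u z ^ 2 + gy u z ^ 2) with hE
  have hE0 : 0 ≤ E := integral_nonneg fun z => add_nonneg (sq_nonneg _) (sq_nonneg _)
  set P : ℂ → ℝ := fun z => PP δ (1 / 2) (qq x z) with hP
  have hPt : TF univ P := PP_tf hδ hδR x (subset_univ _)
  set A : ℝ := Av u (1 / 2) x with hA
  -- the average at scale δ vanishes
  have hAδ : Av u δ x = 0 := by
    unfold Av
    have : (fun y => u y * ww δ (y - x)) = fun _ => 0 := by
      ext y
      by_cases hy : y ∈ ball x δ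
      · rw [hz y hy, zero_mul]
      · rw [mem_ball, not_lt, dist_eq_norm] at hy
        rw [ww_zero hδ hy, mul_zero]
    rw [this]; simp
  have hgreen := hPP'.green δ (1 / 2) x u hu.cont.locallyIntegrable hδ hδR
  rw [hAδ, sub_zero] at hgreen
  have hibp := ibp hu hPt
  have hEnA : En u P = -(4 * m0 * A) := by
    rw [hibp]
    rw [← hgreen]
  -- the form restricted to Q
  have hEnQ : En u P = ∫ z in Q, (gx u z * gx P z + gy u z * gy P z) := by
    unfold En
    symm
    apply setIntegral_eq_integral_of_forall_compl_eq_zero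
    intro z hzQ
    have h1 := notMem_SQ hzQ
    have h2 := gPP_zero hδ hδR x z (by norm_num; linarith)
    rw [hP, h2.1, h2.2]; ring
  have hlog : 0 ≤ Real.log (1 / (2 * δ)) := by
    apply Real.log_nonneg
    rw [le_div_iff₀ (by positivity)]; linarith
  have hA2 : A ^ 2 ≤ Real.log (1 / (2 * δ)) / (2 * Real.pi) * E := by
    have h1 := csg (μ := volume.restrict Q) (a := gx u) (b := gy u) (c := gx P) (d := gy P) hu.ensq_int.integrableOn
      hPt.ensq_int.integrableOn (hu.en_int hPt).integrableOn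
    rw [← hEnQ, hEnA] at h1
    have h2 : ∫ z in Q, (gx P z ^ 2 + gy P z ^ 2) ≤ En P P := by
      rw [En_self]
      exact setIntegral_le_integral hPt.ensq_int (Eventually.of_forall fun z => add_nonneg (sq_nonneg _) (sq_nonneg _))
    have h3 := hPP'.en δ (1 / 2) x hδ hδR
    rw [hPP'.top δ (1 / 2) hδ hδR] at h3
    have h4 : (1 / 2 : ℝ) / δ = 1 / (2 * δ) := by field_simp
    rw [h4] at h3
    have h5 : (-(4 * m0 * A)) ^ 2 ≤ E * (4 * m0 * (2 * SS 1 * Real.log (1 / (2 * δ)))) :=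
      h1.trans (mul_le_mul_of_nonneg_left (h2.trans h3) hE0)
    have h6 := hPP'.m0_eq
    have hpi := Real.pi_pos
    have h7 : SS 1 = m0 / Real.pi := by rw [h6]; field_simp
    rw [h7] at h5
    have h8 : (-(4 * m0 * A)) ^ 2 = (16 * m0 ^ 2) * A ^ 2 := by ring
    have h9 : E * (4 * m0 * (2 * (m0 / Real.pi) * Real.log (1 / (2 * δ)))) =
        (16 * m0 ^ 2) * (Real.log (1 / (2 * δ)) / (2 * Real.pi) * E) := by field_simp; ring
    rw [h8, h9] at h5
    exact le_of_mul_le_mul_left h5 (by positivity)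
  -- mean over Q
  set M : ℝ := ∫ z in Q, u z with hM
  have hmean : mean u (x.re - 1 / 2) (x.re + 1 / 2) (x.im - 1 / 2) (x.im + 1 / 2) = M := by
    unfold mean
    have e1 : (x.re + 1 / 2 - (x.re - 1 / 2)) * (x.im + 1 / 2 - (x.im - 1 / 2)) = 1 := by ring
    rw [e1, hM, hQ]; unfold SQ; ring
  have hpoin : ∫ w in Q, (u w - M) ^ 2 ≤ E := by
    have h1 := rc_poincare hu (x0 := x.re - 1 / 2) (x1 := x.re + 1 / 2) (y0 := x.im - 1 / 2) (y1 := x.im + 1 / 2) (L := 1)
      (by linarith) (by linarith) (by linarith) (by linarith)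
    rw [hmean] at h1
    have e2 : ∫ w in RC (x.re - 1 / 2) (x.re + 1 / 2) (x.im - 1 / 2) (x.im + 1 / 2), gd u w = E := rfl
    rw [e2, one_pow, one_mul] at h1
    exact h1
  have iu : IntegrableOn u Q := RC_int hu.cont _ _ _ _
  have iu2 : IntegrableOn (fun z => u z ^ 2) Q := RC_int (hu.cont.pow 2) _ _ _ _
  have huM : Continuous (fun z => u z - M) := hu.cont.sub continuous_const
  have iuM : IntegrableOn (fun z => (u z - M) ^ 2) Q := RC_int (huM.pow 2) _ _ _ _
  have hsq : ∫ z in Q, u z ^ 2 = (∫ z in Q, (u z - M) ^ 2) + M ^ 2 := by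
    have e : (fun z => (u z - M) ^ 2) = fun z => (u z ^ 2 - (2 * M) * u z) + M ^ 2 := by ext z; ring
    have i1 : Integrable (fun z => u z ^ 2 - (2 * M) * u z) (volume.restrict Q) := iu2.sub (iu.const_mul _)
    have i2 : Integrable (fun _ : ℂ => M ^ 2) (volume.restrict Q) := integrableOn_const hQfin
    have i3 : Integrable (fun z => (2 * M) * u z) (volume.restrict Q) := iu.const_mul _
    rw [e, integral_add i1 i2, integral_sub iu2 i3,
      integral_const_mul, setIntegral_const, measureReal_def, hQv, ← hM, smul_eq_mul]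
    ring
  -- comparison of mean and weighted average
  have hwc : Continuous (fun y => ww (1 / 2) (y - x)) := (ww_cont _).comp (continuous_id.sub continuous_const)
  have hww0 : ∀ z, z ∉ Q → ww (1 / 2) (z - x) = 0 := by
    intro z hzQ
    apply ww_zero (by norm_num)
    have h1 := notMem_SQ hzQ
    rw [qq_eq] at h1
    have : (1 / 2 : ℝ) ^ 2 ≤ ‖z - x‖ ^ 2 := by norm_num; linarith
    exact (pow_le_pow_iff_left₀ (by norm_num) (norm_nonneg _) two_ne_zero).mp this
  have hAM : m0 * (A - M) = ∫ z in Q, (u z - M) * ww (1 / 2) (z - x) := by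
    have e1 : ∫ z in Q, (u z - M) * ww (1 / 2) (z - x) = ∫ z, (u z - M) * ww (1 / 2) (z - x) := by
      apply setIntegral_eq_integral_of_forall_compl_eq_zero
      intro z hzQ
      rw [hww0 z hzQ, mul_zero]
    have hwi : Integrable (fun y => ww (1 / 2) (y - x)) := hwc.integrable_of_hasCompactSupport (ww_comp (by norm_num) x)
    have hui : Integrable (fun y => u y * ww (1 / 2) (y - x)) := hu.ip_int hwc
    have e2 : ∫ z, (u z - M) * ww (1 / 2) (z - x) = (∫ z, u z * ww (1 / 2) (z - x)) - M * ∫ z, ww (1 / 2) (z - x) := by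
      rw [← integral_const_mul, ← integral_sub hui (hwi.const_mul _)]
      congr 1; ext z; ring
    rw [e1, e2, hPP'.mass (1 / 2) (by norm_num) x]
    have e3 : m0 * A = ∫ z, u z * ww (1 / 2) (z - x) := by
      rw [hA]; unfold Av; field_simp
    rw [← e3]; ring
  have hAM2 : (m0 * (A - M)) ^ 2 ≤ 16 * E := by
    rw [hAM]
    have h1 := cs (μ := volume.restrict Q) (f := fun z => u z - M) (g := fun z => ww (1 / 2) (z - x)) iuM
      (RC_int (hwc.pow 2) _ _ _ _) (RC_int (huM.mul hwc) _ _ _ _)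
    refine h1.trans ?_
    have h2 : ∫ z in Q, ww (1 / 2) (z - x) ^ 2 ≤ ∫ _z in Q, (16 : ℝ) := by
      apply integral_mono (RC_int (hwc.pow 2) _ _ _ _) (integrableOn_const hQfin)
      intro z
      have h3 := ww_nonneg (1 / 2) (z - x)
      have h4 := ww_le (1 / 2) (z - x)
      have h5 : (1 : ℝ) / (1 / 2) ^ 2 = 4 := by norm_num
      rw [h5] at h4
      show ww (1 / 2) (z - x) ^ 2 ≤ 16
      nlinarith
    rw [setIntegral_const, measureReal_def, hQv, smul_eq_mul, one_mul] at h2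
    have h6 : 0 ≤ ∫ w in Q, (u w - M) ^ 2 := integral_nonneg fun z => sq_nonneg _
    calc (∫ z in Q, (u z - M) ^ 2) * ∫ z in Q, ww (1 / 2) (z - x) ^ 2 ≤ (∫ z in Q, (u z - M) ^ 2) * 16 :=
          mul_le_mul_of_nonneg_left h2 h6
      _ ≤ E * 16 := mul_le_mul_of_nonneg_right hpoin (by norm_num)
      _ = 16 * E := by ring
  -- conclusion
  set s := √E with hs
  have hs0 : 0 ≤ s := Real.sqrt_nonneg _
  have hss : s ^ 2 = E := Real.sq_sqrt hE0
  set l := √(Real.log (1 / (2 * δ)) / (2 * Real.pi)) with hl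
  have hl0 : 0 ≤ l := Real.sqrt_nonneg _
  have hll : l ^ 2 = Real.log (1 / (2 * δ)) / (2 * Real.pi) := Real.sq_sqrt (by positivity)
  have hAabs : |A| ≤ l * s := by
    apply abs_le_of_sq_le_sq _ (by positivity)
    rw [mul_pow, hll, hss]; exact hA2
  have hAMabs : |A - M| ≤ (4 / m0) * s := by
    have h1 : |m0 * (A - M)| ≤ 4 * s := by
      apply abs_le_of_sq_le_sq _ (by positivity)
      have e4 : (4 * s) ^ 2 = 16 * E := by rw [mul_pow, hss]; norm_num
      rw [e4]; exact hAM2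
    rw [abs_mul, abs_of_pos hm0] at h1
    rw [div_mul_eq_mul_div, le_div_iff₀ hm0]
    linarith
  have hMabs : |M| ≤ (l + 4 / m0) * s := by
    have h1 : |M| ≤ |A| + |A - M| := by
      have : M = A - (A - M) := by ring
      calc |M| = |A - (A - M)| := by rw [← this]
        _ ≤ |A| + |A - M| := abs_sub _ _
    linarith
  have hM2 : M ^ 2 ≤ ((l + 4 / m0) * s) ^ 2 := by
    rw [← sq_abs M]
    exact pow_le_pow_left₀ (abs_nonneg _) hMabs 2
  rw [hsq]
  have h40 : 0 ≤ 4 / m0 := by positivity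
  calc (∫ z in Q, (u z - M) ^ 2) + M ^ 2 ≤ E + ((l + 4 / m0) * s) ^ 2 := add_le_add hpoin hM2
    _ = (1 + (l + 4 / m0) ^ 2) * E := by rw [mul_pow, hss]; ring
    _ ≤ (l + (1 + 4 / m0)) ^ 2 * E := by
        apply mul_le_mul_of_nonneg_right _ hE0
        nlinarith

end Pool.Agent.TH316.FQ
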