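import Pool.Agent.TH316.FQ.Final

set_option autoImplicit false
set_option maxHeartbeats 4000000

/-! The attainable set of `(λ₁, 1/(λ₁ T))` is not closed in the plane. -/

open MeasureTheory Metric Set Filter
open scoped Topology

namespace Pool.Agent.TH316.FQ

open Pool.Agent.Helper533.StarBox

/-- the attainable set -/
def EC : Set (ℝ × ℝ) := {p | ∃ U : Set ℂ, Adm U ∧ ar U ≤ 1 ∧ p = (lambda1 U, (lambda1 U * tor U)⁻¹)}

/-- `F_q` in terms of the coordinates of the diagram, for sets of unit area -/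
noncomputable def GG (q : ℝ) (p : ℝ × ℝ) : ℝ := p.1 * (p.1⁻¹ * p.2⁻¹) ^ q

theorem cl_GG {q : ℝ} {U : Set ℂ} (hU : Adm U) : GG q (lambda1 U, (lambda1 U * tor U)⁻¹) = lambda1 U * tor U ^ q := by
  obtain ⟨-, u2, u3, u4, u5, u6, -, -⟩ := fin_pol U hU
  unfold GG
  have : (lambda1 U)⁻¹ * ((lambda1 U * tor U)⁻¹)⁻¹ = tor U := by
    rw [inv_inv]; field_simp
  simp only [this]

theorem cl_cont {q : ℝ} (hq : 0 < q) {K : Set (ℝ × ℝ)} (h1 : ∀ p ∈ K, 0 < p.1) (h2 : ∀ p ∈ K, 0 < p.2) :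
    ContinuousOn (GG q) K := by
  unfold GG
  apply ContinuousOn.mul continuousOn_fst
  apply ContinuousOn.rpow_const
  · apply ContinuousOn.mul
    · exact continuousOn_fst.inv₀ fun p hp => (h1 p hp).ne'
    · exact continuousOn_snd.inv₀ fun p hp => (h2 p hp).ne'
  · intro p _; right; exact hq.le

theorem not_closed : ¬ IsClosed EC := by
  intro hcl
  obtain ⟨q₀, hq₀, hno⟩ := no_max
  set q : ℝ := (1 + q₀) / 2 with hq
  have hq1 : 1 < q := by rw [hq]; linarith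
  have hqq : q < q₀ := by rw [hq]; linarith
  -- normalisation to unit area
  have hnorm : ∀ V, Adm V → ∃ W, Adm W ∧ ar W = 1 ∧ Fc q W = Fc q V := by
    intro V hV
    obtain ⟨-, -, -, v4, -, -, -, -⟩ := fin_pol V hV
    have hc : 0 < √(ar V) := Real.sqrt_pos.2 v4
    obtain ⟨a1, -, -, a4⟩ := sca V (√(ar V)) hV hc
    refine ⟨_, a1, ?_, dt_scale fin_pol sca hV hc⟩
    rw [a4, Real.sq_sqrt v4.le, div_self v4.ne']
  have hF1 : ∀ W, Adm W → ar W = 1 → Fc q W = lambda1 W * tor W ^ q := by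
    intro W _ h1
    unfold Fc; rw [h1, Real.one_rpow, div_one]
  -- a set to start with
  have hball : Adm (ball (0 : ℂ) 1) := ⟨isOpen_ball, ⟨0, mem_ball_self one_pos⟩, measure_ball_lt_top.ne⟩
  obtain ⟨V₀, hV₀, hV₀1, -⟩ := hnorm _ hball
  set m : ℝ := Fc q V₀ with hm
  have hm0 : 0 < m := fc_pos hV₀
  set τ : ℝ := m ^ (1 / (q - 1)) with hτ
  have hτ0 : 0 < τ := Real.rpow_pos_of_pos hm0 _
  have hqm : 0 < q - 1 := by linarith
  -- bounds
  have hbd : ∀ W, Adm W → ar W = 1 → m ≤ Fc q W → lambda1 W ≤ 1 / τ ∧ (lambda1 W * tor W)⁻¹ ≤ 1 / m := by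
    intro W hW hW1 hWm
    obtain ⟨-, w2, w3, w4, w5, w6, -, -⟩ := fin_pol W hW
    rw [hW1] at w5 w6
    rw [hF1 W hW hW1] at hWm
    have e1 : lambda1 W * tor W ^ q = (lambda1 W * tor W) * tor W ^ (q - 1) := by
      have := Real.rpow_add_one w3.ne' (q - 1)
      rw [sub_add_cancel] at this
      rw [this]; ring
    rw [e1] at hWm
    have hT1 : tor W ≤ 1 := by linarith
    have hTq : tor W ^ (q - 1) ≤ 1 := Real.rpow_le_one w3.le hT1 hqm.le
    have hTq0 : 0 < tor W ^ (q - 1) := Real.rpow_pos_of_pos w3 _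
    have hlT : 0 < lambda1 W * tor W := mul_pos w2 w3
    have k1 : m ≤ lambda1 W * tor W := hWm.trans (mul_le_of_le_one_right hlT.le hTq)
    have k2 : m ≤ tor W ^ (q - 1) := hWm.trans (by
      have := mul_le_mul_of_nonneg_right w6 hTq0.le
      rw [one_mul] at this
      exact this)
    have k3 : τ ≤ tor W := by
      have := Real.rpow_le_rpow hm0.le k2 (show 0 ≤ 1 / (q - 1) by positivity)
      rw [← Real.rpow_mul w3.le, mul_one_div_cancel hqm.ne', Real.rpow_one] at this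
      exact this
    constructor
    · rw [le_div_iff₀ hτ0]
      calc lambda1 W * τ ≤ lambda1 W * tor W := mul_le_mul_of_nonneg_left k3 w2.le
        _ ≤ 1 := w6
    · rw [inv_eq_one_div]
      exact one_div_le_one_div_of_le hm0 k1
  -- the compact set
  set K : Set (ℝ × ℝ) := EC ∩ (Icc 0 (1 / τ) ×ˢ Icc 0 (1 / m)) with hK
  have hKc : IsCompact K := (isCompact_Icc.prod isCompact_Icc).inter_left hcl
  have hmem : ∀ W, Adm W → ar W = 1 → m ≤ Fc q W → (lambda1 W, (lambda1 W * tor W)⁻¹) ∈ K := by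
    intro W hW hW1 hWm
    obtain ⟨-, w2, w3, w4, w5, w6, -, -⟩ := fin_pol W hW
    obtain ⟨b1, b2⟩ := hbd W hW hW1 hWm
    refine ⟨⟨W, hW, hW1.le, rfl⟩, ⟨⟨w2.le, b1⟩, ⟨?_, b2⟩⟩⟩
    show 0 ≤ (lambda1 W * tor W)⁻¹
    positivity
  have hKpos : ∀ p ∈ K, 0 < p.1 ∧ 0 < p.2 := by
    rintro p ⟨⟨W, hW, -, rfl⟩, -⟩
    obtain ⟨-, w2, w3, -, -, -, -, -⟩ := fin_pol W hW
    exact ⟨w2, by show 0 < (lambda1 W * tor W)⁻¹; positivity⟩
  have hcont : ContinuousOn (GG q) K := cl_cont (by linarith) (fun p hp => (hKpos p hp).1) (fun p hp => (hKpos p hp).2)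
  obtain ⟨p, hpK, hpmax⟩ := hKc.exists_isMaxOn ⟨_, hmem V₀ hV₀ hV₀1 le_rfl⟩ hcont
  obtain ⟨⟨U, hU, hU1, rfl⟩, -⟩ := hpK
  have hUF : lambda1 U * tor U ^ q ≤ Fc q U := by
    obtain ⟨-, u2, u3, u4, -, -, -, -⟩ := fin_pol U hU
    unfold Fc
    rw [le_div_iff₀ (Real.rpow_pos_of_pos u4 _)]
    have h1 : ar U ^ (2 * q - 1) ≤ 1 := Real.rpow_le_one u4.le hU1 (by linarith)
    have h2 : 0 ≤ lambda1 U * tor U ^ q := mul_nonneg u2.le (Real.rpow_nonneg u3.le _)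
    exact mul_le_of_le_one_right h2 h1
  have hcmp : ∀ W, Adm W → ar W = 1 → m ≤ Fc q W → Fc q W ≤ Fc q U := by
    intro W hW hW1 hWm
    have h1 := hpmax (hmem W hW hW1 hWm)
    rw [Set.mem_ofPred_eq, cl_GG hW, cl_GG hU] at h1
    rw [hF1 W hW hW1]
    exact h1.trans hUF
  apply hno q hq1 hqq U
  refine ⟨hU, fun V hV => ?_⟩
  obtain ⟨W, hW, hW1, hWF⟩ := hnorm V hV
  rw [← hWF]
  rcases le_total m (Fc q W) with h | h
  · exact hcmp W hW hW1 h
  · exact h.trans (hcmp V₀ hV₀ hV₀1 le_rfl)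

/-- the attainable set in the Euclidean plane -/
def EP : Set (ℝ × ℝ) := {p | ∃ Ω : Set Pl, IsOpen Ω ∧ 0 < volume Ω ∧ volume Ω ≤ 1 ∧ p = (lamP Ω, (lamP Ω * torP Ω)⁻¹)}

theorem EP_eq : EP = EC := by
  ext p
  constructor
  · rintro ⟨Ω, h1, h2, h3, rfl⟩
    obtain ⟨k1, k2, k3, k4, -⟩ := trf.1 Ω h1
    refine ⟨toC Ω, adm_toC h1 h2 (ne_top_of_le_ne_top (by simp) h3), ?_, by rw [k3, k4]⟩
    unfold ar
    rw [k2]
    exact ENNReal.toReal_le_of_le_ofReal (by norm_num) (by simpa using h3)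
  · rintro ⟨U, hU, hU1, rfl⟩
    obtain ⟨Ω, h1, h2, h3, rfl⟩ := exists_pl hU
    obtain ⟨k1, k2, k3, k4, -⟩ := trf.1 Ω h1
    refine ⟨Ω, h1, h2, ?_, by rw [k3, k4]⟩
    unfold ar at hU1
    rw [k2] at hU1
    rw [← ENNReal.ofReal_toReal h3]
    exact ENNReal.ofReal_le_one.2 hU1

theorem not_closed_pl : ¬ IsClosed EP := by rw [EP_eq]; exact not_closed

end Pool.Agent.TH316.FQ
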