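import Pool.Agent.TH316.FQ.Stm

set_option autoImplicit false

/-! Completeness of `H¹₀`: Cauchy sequences of test functions have limits. -/

open MeasureTheory Metric Set Filter
open scoped Topology

namespace Pool.Agent.TH316.FQ

open Pool.Agent.Helper533.StarBox

namespace CmpX

theorem norm_sub_sq {f g : ℂ → ℝ} (hf : MemLp f 2 (volume : Measure ℂ))
    (hg : MemLp g 2 (volume : Measure ℂ)) : ‖cls f - cls g‖ ^ 2 = ∫ z, (f z - g z) ^ 2 := by
  have h1 : cls f - cls g = cls fun z => f z - g z := (cls_sub hf hg).symm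
  have h2 : MemLp (fun z => f z - g z) 2 (volume : Measure ℂ) := hf.sub hg
  rw [h1, ← real_inner_self_eq_norm_sq, inner_cls h2 h2]
  exact integral_congr_ae (Eventually.of_forall fun z => by simp only; ring)

theorem lim {a : ℕ → ℂ → ℝ} (ha : ∀ n, MemLp (a n) 2 (volume : Measure ℂ))
    (hC : ∀ ε > 0, ∃ N, ∀ m ≥ N, ∀ n ≥ N, ∫ z, (a m z - a n z) ^ 2 ≤ ε) :
    ∃ f : ℂ → ℝ, MemLp f 2 (volume : Measure ℂ) ∧
      Tendsto (fun n => ∫ z, (a n z - f z) ^ 2) atTop (𝓝 0) := by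
  have hcau : CauchySeq fun n => cls (a n) := by
    rw [Metric.cauchySeq_iff]
    intro ε hε
    obtain ⟨N, hN⟩ := hC (ε ^ 2 / 4) (by positivity)
    refine ⟨N, fun m hm n hn => ?_⟩
    rw [dist_eq_norm]
    have h1 := hN m hm n hn
    rw [← norm_sub_sq (ha m) (ha n)] at h1
    have h2 : ‖cls (a m) - cls (a n)‖ ^ 2 ≤ (ε / 2) ^ 2 := by
      rw [div_pow]; norm_num; linarith
    have h3 := abs_le_of_sq_le_sq h2 (by positivity)
    rw [abs_of_nonneg (norm_nonneg _)] at h3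
    linarith
  obtain ⟨F, hF⟩ := cauchySeq_tendsto_of_complete hcau
  have hFm : MemLp (F : ℂ → ℝ) 2 (volume : Measure ℂ) := Lp.memLp F
  refine ⟨F, hFm, ?_⟩
  have h1 : Tendsto (fun n => ‖cls (a n) - F‖ ^ 2) atTop (𝓝 0) := by
    have h2 : Tendsto (fun n => cls (a n) - F) atTop (𝓝 0) := by
      simpa using hF.sub_const F
    have h3 := h2.norm.pow 2
    simpa using h3
  refine h1.congr fun n => ?_
  have h4 := norm_sub_sq (ha n) hFm
  rw [cls_self] at h4
  exact h4

end CmpX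

theorem cmp : S_CMP := by
  intro U u hu hC
  have hEn : ∀ m n, En (fun z => u m z - u n z) (fun z => u m z - u n z) =
      (∫ z, (gx (u m) z - gx (u n) z) ^ 2) + ∫ z, (gy (u m) z - gy (u n) z) ^ 2 := by
    intro m n
    have hx : Integrable fun z => (gx (u m) z - gx (u n) z) ^ 2 :=
      ((hu m).gx_tf.memLp.sub (hu n).gx_tf.memLp).integrable_sq
    have hy : Integrable fun z => (gy (u m) z - gy (u n) z) ^ 2 :=
      ((hu m).gy_tf.memLp.sub (hu n).gy_tf.memLp).integrable_sq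
    rw [En_self, ← integral_add hx hy]
    refine integral_congr_ae (Eventually.of_forall fun z => ?_)
    simp only
    rw [gx_sub ((hu m).diff z) ((hu n).diff z), gy_sub ((hu m).diff z) ((hu n).diff z)]
  obtain ⟨f, hf, hfl⟩ := CmpX.lim (a := u) (fun n => (hu n).memLp) (by
    intro ε hε
    obtain ⟨N, hN⟩ := hC ε hε
    refine ⟨N, fun m hm n hn => ?_⟩
    have := (hN m hm n hn).1
    rwa [Ip_self] at this)
  obtain ⟨p, hp, hpl⟩ := CmpX.lim (a := fun n => gx (u n)) (fun n => (hu n).gx_tf.memLp) (by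
    intro ε hε
    obtain ⟨N, hN⟩ := hC ε hε
    refine ⟨N, fun m hm n hn => ?_⟩
    have h1 := (hN m hm n hn).2
    rw [hEn] at h1
    have h2 : 0 ≤ ∫ z, (gy (u m) z - gy (u n) z) ^ 2 := integral_nonneg fun z => sq_nonneg _
    linarith)
  obtain ⟨q, hq, hql⟩ := CmpX.lim (a := fun n => gy (u n)) (fun n => (hu n).gy_tf.memLp) (by
    intro ε hε
    obtain ⟨N, hN⟩ := hC ε hε
    refine ⟨N, fun m hm n hn => ?_⟩
    have h1 := (hN m hm n hn).2
    rw [hEn] at h1
    have h2 : 0 ≤ ∫ z, (gx (u m) z - gx (u n) z) ^ 2 := integral_nonneg fun z => sq_nonneg _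
    linarith)
  have i1 : ∀ n, Integrable fun z => (u n z - f z) ^ 2 := fun n =>
    ((hu n).memLp.sub hf).integrable_sq
  have i2 : ∀ n, Integrable fun z => (gx (u n) z - p z) ^ 2 := fun n =>
    ((hu n).gx_tf.memLp.sub hp).integrable_sq
  have i3 : ∀ n, Integrable fun z => (gy (u n) z - q z) ^ 2 := fun n =>
    ((hu n).gy_tf.memLp.sub hq).integrable_sq
  refine ⟨f, p, q, ⟨hf, hp, hq, ?_⟩, ?_⟩
  · intro ε hε
    have e1 := hfl.eventually (gt_mem_nhds hε)
    have hsum : Tendsto (fun n => (∫ z, (gx (u n) z - p z) ^ 2) + ∫ z, (gy (u n) z - q z) ^ 2)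
        atTop (𝓝 0) := by simpa using hpl.add hql
    have e2 := hsum.eventually (gt_mem_nhds hε)
    obtain ⟨n, h1, h2⟩ := (e1.and e2).exists
    refine ⟨u n, hu n, h1.le, ?_⟩
    rw [integral_add (i2 n) (i3 n)]
    exact h2.le
  · have hsum : Tendsto (fun n => (∫ z, (u n z - f z) ^ 2) + (∫ z, (gx (u n) z - p z) ^ 2) +
        ∫ z, (gy (u n) z - q z) ^ 2) atTop (𝓝 0) := by simpa using (hfl.add hpl).add hql
    refine hsum.congr fun n => ?_
    rw [integral_add (f := fun z => (u n z - f z) ^ 2 + (gx (u n) z - p z) ^ 2)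
      ((i1 n).add (i2 n)) (i3 n), integral_add (i1 n) (i2 n)]

end Pool.Agent.TH316.FQ
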