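import Pool.Agent.TH316.FQ.Stm

set_option autoImplicit false

/-! Maximisers are connected. -/

open MeasureTheory Metric Set Filter
open scoped Topology

namespace Pool.Agent.TH316.FQ

open Pool.Agent.Helper533.StarBox

namespace ConX

open Classical in
/-- restriction of a function to `A` -/
noncomputable def res (A : Set ℂ) (u : ℂ → ℝ) (z : ℂ) : ℝ := if z ∈ A then u z else 0

theorem res_tf {A B : Set ℂ} (hA : IsOpen A) (hB : IsOpen B) (hd : Disjoint A B) {u : ℂ → ℝ}
    (hu : TF (A ∪ B) u) : TF A (res A u) := by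
  have h0 : ∀ z, u z = 0 → res A u z = 0 := by
    intro z hz
    unfold res
    split_ifs
    · exact hz
    · rfl
  have hs : tsupport (res A u) ⊆ tsupport u := tsupport_sub_of_zero h0
  have hBz : ∀ z ∈ B, z ∉ tsupport (res A u) := by
    intro z hz hcl
    have h1 : (B ∩ Function.support (res A u)).Nonempty := by
      have := mem_closure_iff.1 hcl B hB hz
      exact this
    obtain ⟨y, hyB, hy⟩ := h1
    apply hy
    unfold res
    rw [if_neg]
    intro hyA
    exact Set.disjoint_left.1 hd hyA hyB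
  refine ⟨?_, ?_, ?_⟩
  · apply contDiff_of_tsupport
    intro z hz
    have hzU := hu.supp (hs hz)
    rcases hzU with hzA | hzB
    · have he : res A u =ᶠ[𝓝 z] u := by
        filter_upwards [hA.mem_nhds hzA] with y hy
        unfold res
        rw [if_pos hy]
      exact (hu.smooth.contDiffAt).congr_of_eventuallyEq he
    · exact absurd hz (hBz z hzB)
  · exact IsCompact.of_isClosed_subset hu.comp (isClosed_tsupport _) hs
  · intro z hz
    rcases hu.supp (hs hz) with h | h
    · exact h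
    · exact absurd hz (hBz z h)

theorem cs {U : Set ℂ} {T : ℝ} (hT : ∀ u, TF U u → 2 * (∫ z, u z) - En u u ≤ T) {u : ℂ → ℝ}
    (hu : TF U u) : (∫ z, u z) ^ 2 ≤ T * En u u := by
  have h1 : ∀ s : ℝ, 0 ≤ En u u * (s * s) + (-(2 * ∫ z, u z)) * s + T := by
    intro s
    have h2 := hT _ (hu.smul s)
    rw [En_smul_left s hu, En_comm, En_smul_left s hu, integral_const_mul] at h2
    linarith
  have h3 := discrim_le_zero h1
  unfold discrim at h3
  nlinarith

theorem int_tf {U : Set ℂ} {u : ℂ → ℝ} (hu : TF U u) : Integrable u :=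
  hu.cont.integrable_of_hasCompactSupport hu.comp

theorem tor_le {A B : Set ℂ} (hA : IsOpen A) (hB : IsOpen B) (hd : Disjoint A B)
    (hne : A.Nonempty) {S T : ℝ} (hS0 : 0 ≤ S) (hT0 : 0 ≤ T)
    (hS : ∀ u, TF A u → 2 * (∫ z, u z) - En u u ≤ S)
    (hT : ∀ u, TF B u → 2 * (∫ z, u z) - En u u ≤ T) : tor (A ∪ B) ≤ S + T := by
  unfold tor
  have hne' : {r : ℝ | ∃ u : ℂ → ℝ, IsTest (A ∪ B) u ∧ r = (∫ z, u z) ^ 2 / En u u}.Nonempty := by
    obtain ⟨u, hu⟩ := exists_test (hA.union hB) (hne.mono subset_union_left)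
    exact ⟨_, u, hu, rfl⟩
  refine csSup_le hne' ?_
  rintro r ⟨u, hu, rfl⟩
  have htf := hu.tf
  have h1 : TF A (res A u) := res_tf hA hB hd htf
  have h2 : TF B (res B u) := res_tf hB hA hd.symm (by rw [union_comm]; exact htf)
  have hsum : u = fun z => res A u z + res B u z := by
    funext z
    unfold res
    by_cases hzA : z ∈ A
    · have hzB : z ∉ B := fun h => Set.disjoint_left.1 hd hzA h
      rw [if_pos hzA, if_neg hzB, add_zero]
    · by_cases hzB : z ∈ B
      · rw [if_neg hzA, if_pos hzB, zero_add]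
      · rw [if_neg hzA, if_neg hzB, add_zero]
        have : z ∉ tsupport u := fun h => by
          rcases htf.supp h with h | h
          · exact hzA h
          · exact hzB h
        exact image_eq_zero_of_notMem_tsupport this
  have hI : ∫ z, u z = (∫ z, res A u z) + ∫ z, res B u z := by
    conv_lhs => rw [hsum]
    exact integral_add (int_tf h1) (int_tf h2)
  have hcross : En (res A u) (res B u) = 0 := by
    unfold En
    rw [integral_eq_zero_of_ae]
    refine Eventually.of_forall fun z => ?_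
    simp only [Pi.zero_apply]
    by_cases hz : z ∈ tsupport (res A u)
    · have hz2 : z ∉ tsupport (res B u) := fun h =>
        Set.disjoint_left.1 hd (h1.supp hz) (h2.supp h)
      rw [TF.gx_zero hz2, TF.gy_zero hz2]
      ring
    · rw [TF.gx_zero hz, TF.gy_zero hz]
      ring
  have hE : En u u = En (res A u) (res A u) + En (res B u) (res B u) := by
    have h3 : TF (A ∪ B) (fun z => res A u z + res B u z) := by rw [← hsum]; exact htf
    have e1 : En u u = En (res A u) u + En (res B u) u := by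
      have := En_add_left h1 h2 htf
      rwa [← hsum] at this
    have e2 : En (res A u) u = En (res A u) (res A u) := by
      rw [En_comm]
      have := En_add_left h1 h2 h1
      rw [← hsum] at this
      rw [this, En_comm (res B u) (res A u), hcross, add_zero]
    have e3 : En (res B u) u = En (res B u) (res B u) := by
      rw [En_comm]
      have := En_add_left h1 h2 h2
      rw [← hsum] at this
      rw [this, hcross, zero_add]
    rw [e1, e2, e3]
  have c1 := cs hS h1
  have c2 := cs hT h2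
  set a := ∫ z, res A u z
  set b := ∫ z, res B u z
  have E1 := En_nonneg (res A u)
  have E2 := En_nonneg (res B u)
  set x := En (res A u) (res A u)
  set y := En (res B u) (res B u)
  refine div_le_of_le_mul₀ (En_nonneg u) (add_nonneg hS0 hT0) ?_
  rw [hI, hE]
  have h4 : 2 * (a * b) ≤ S * y + T * x := by
    have h5 : (2 * (a * b)) ^ 2 ≤ (S * y + T * x) ^ 2 := by
      have h6 : a ^ 2 * b ^ 2 ≤ (S * x) * (T * y) :=
        mul_le_mul c1 c2 (sq_nonneg _) (mul_nonneg hS0 E1)
      nlinarith [sq_nonneg (S * y - T * x)]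
    exact le_of_sq_le_sq h5 (add_nonneg (mul_nonneg hS0 E2) (mul_nonneg hT0 E1))
  nlinarith

theorem final {q lam lam1 T T1 A A1 : ℝ} (hq : 1 < q) (hl : 0 < lam) (hl1 : lam ≤ lam1)
    (hT : 0 < T) (hT1 : 0 < T1) (hA : 0 < A) (hA1 : 0 < A1) (hlt : A1 < A)
    (h : lam1 * T1 ^ q / A1 ^ (2 * q - 1) ≤ lam * T ^ q / A ^ (2 * q - 1)) :
    T1 < T * (A1 / A) := by
  have hq0 : 0 < q := by linarith
  have hx0 : 0 < A1 / A := div_pos hA1 hA
  have hx1 : A1 / A < 1 := (div_lt_one hA).2 hlt
  have hAk : 0 < A ^ (2 * q - 1) := Real.rpow_pos_of_pos hA _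
  have hA1k : 0 < A1 ^ (2 * q - 1) := Real.rpow_pos_of_pos hA1 _
  have h1 : T1 ^ q ≤ T ^ q * (A1 / A) ^ (2 * q - 1) := by
    have h2 : lam * T1 ^ q / A1 ^ (2 * q - 1) ≤ lam * T ^ q / A ^ (2 * q - 1) := by
      refine le_trans ?_ h
      have : 0 ≤ T1 ^ q := Real.rpow_nonneg hT1.le _
      gcongr
    rw [div_le_div_iff₀ hA1k hAk] at h2
    rw [Real.div_rpow hA1.le hA.le, mul_div_assoc', le_div_iff₀ hAk]
    have h3 : lam * (T1 ^ q * A ^ (2 * q - 1)) ≤ lam * (T ^ q * A1 ^ (2 * q - 1)) := by linarith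
    exact le_of_mul_le_mul_left h3 hl
  have h4 : T ^ q * (A1 / A) ^ (2 * q - 1) = (T * (A1 / A) ^ ((2 * q - 1) / q)) ^ q := by
    rw [Real.mul_rpow hT.le (Real.rpow_nonneg hx0.le _), ← Real.rpow_mul hx0.le,
      div_mul_cancel₀ _ hq0.ne']
  rw [h4] at h1
  have h5 := (Real.rpow_le_rpow_iff hT1.le (mul_nonneg hT.le (Real.rpow_nonneg hx0.le _)) hq0).1 h1
  have h6 : (A1 / A) ^ ((2 * q - 1) / q) < (A1 / A) ^ (1 : ℝ) := by
    refine Real.rpow_lt_rpow_of_exponent_gt hx0 hx1 ?_
    rw [lt_div_iff₀ hq0]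
    linarith
  rw [Real.rpow_one] at h6
  exact h5.trans_lt (mul_lt_mul_of_pos_left h6 hT)

end ConX

open ConX in
theorem con (hPOL : S_POL) : S_CON := by
  intro q U hq hU
  obtain ⟨⟨hUo, hUne, hUv⟩, hmax⟩ := hU
  by_contra hcon
  unfold IsPreconnected at hcon
  push Not at hcon
  obtain ⟨u, v, hu, hv, hsub, hsu, hsv, hemp⟩ := hcon
  have hA : IsOpen (U ∩ u) := hUo.inter hu
  have hB : IsOpen (U ∩ v) := hUo.inter hv
  have hd : Disjoint (U ∩ u) (U ∩ v) := by
    rw [Set.disjoint_left]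
    rintro z ⟨h1, h2⟩ ⟨_, h3⟩
    have : z ∈ U ∩ (u ∩ v) := ⟨h1, h2, h3⟩
    rw [hemp] at this
    exact this
  have hun : (U ∩ u) ∪ (U ∩ v) = U := by
    rw [← inter_union_distrib_left]
    exact inter_eq_left.2 hsub
  have hAv : volume (U ∩ u) ≠ ⊤ := measure_ne_top_of_subset inter_subset_left hUv
  have hBv : volume (U ∩ v) ≠ ⊤ := measure_ne_top_of_subset inter_subset_left hUv
  obtain ⟨-, l0, T0, A0, -, -, t0, -⟩ := hPOL U ⟨hUo, hUne, hUv⟩
  obtain ⟨-, l1, T1, A1, -, -, t1, -⟩ := hPOL (U ∩ u) ⟨hA, hsu, hAv⟩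
  obtain ⟨-, l2, T2, A2, -, -, t2, -⟩ := hPOL (U ∩ v) ⟨hB, hsv, hBv⟩
  have har : ar U = ar (U ∩ u) + ar (U ∩ v) := by
    unfold ar
    rw [← ENNReal.toReal_add hAv hBv, ← measure_union hd hB.measurableSet, hun]
  have htor : tor U ≤ tor (U ∩ u) + tor (U ∩ v) := by
    have := tor_le hA hB hd hsu T1.le T2.le t1 t2
    rwa [hun] at this
  have m1 := hmax (U ∩ u) ⟨hA, hsu, hAv⟩
  have m2 := hmax (U ∩ v) ⟨hB, hsv, hBv⟩
  unfold Fc at m1 m2
  have f1 := final hq l0 (lambda1_mono hA hsu inter_subset_left) T0 T1 A0 A1 (by linarith) m1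
  have f2 := final hq l0 (lambda1_mono hB hsv inter_subset_left) T0 T2 A0 A2 (by linarith) m2
  have h3 : tor U * (ar (U ∩ u) / ar U) + tor U * (ar (U ∩ v) / ar U) = tor U := by
    rw [← mul_add, ← add_div, ← har, div_self A0.ne', mul_one]
  linarith

end Pool.Agent.TH316.FQ
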