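import Pool.Agent.TH316.FQ.CoreA

set_option autoImplicit false
set_option maxHeartbeats 4000000

/-! The main step. -/

open MeasureTheory Metric Set Filter
open scoped Topology

namespace Pool.Agent.TH316.FQ

open Pool.Agent.Helper533.StarBox

/-- existence of a point near `x₀` where the torsion function vanishes -/
theorem co_zero (hPP : PPF) (hWD : S_WD) (hZER : S_ZER) {U : Set ℂ} {w wx wy : ℂ → ℝ} {H η₁ : ℝ} (hU : IsOpen U)
    (hf : volume U ≠ ⊤) (hw : HW U w wx wy) (he : WE U wx wy (fun _ => 1)) (w0 : ∀ᵐ z, 0 ≤ w z)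
    (wH : ∀ᵐ z, w z ≤ H) {x₀ : ℂ} (h1 : ∫ z in ball x₀ 4, (1 - w z) ^ 2 ≤ η₁)
    (h2 : (volume (ball x₀ 4 \ U)).toReal ≤ η₁) (hη : η₁ ≤ 1 / 64)
    (hη2 : √(Real.pi * η₁) ≤ PP (1 / 4) (1 / 2) 0 / (64 * 24)) :
    ∃ x ∈ ball x₀ 1, Tendsto (fun n : ℕ => Av w ((1 / 2) ^ n) x) atTop (𝓝 0) := by
  have hm := hPP.m0_pos
  have hSS : 0 < SS 1 := by
    have := hPP.m0_eq
    rw [this] at hm
    exact (mul_pos_iff_of_pos_left Real.pi_pos).1 hm
  set P0 := PP (1 / 4) (1 / 2) 0 with hP0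
  have hP0pos : 0 < P0 := by
    rw [hP0, hPP.top _ _ (by norm_num) (by norm_num)]
    have : 0 < Real.log ((1 / 2 : ℝ) / (1 / 4)) := Real.log_pos (by norm_num)
    positivity
  set ψ : ℂ → ℝ := fun z => PP (1 / 4) (1 / 2) (qq x₀ z) with hψ
  have hTF1 : TF (ball x₀ 1) ψ := PP_tf (by norm_num) (by norm_num) x₀ (closedBall_subset_ball (by norm_num))
  have hTF : TF univ ψ := hTF1.mono (subset_univ _)
  have hqq : ∀ z, 0 ≤ qq x₀ z := fun z => by unfold qq; positivity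
  have hψ0 : ∀ z, 0 ≤ ψ z := fun z => PP_nonneg (by norm_num) (by norm_num) (hqq z)
  have hψle : ∀ z, ψ z ≤ P0 := fun z => hPP.anti _ _ _ _ (by norm_num) (by norm_num) le_rfl (hqq z)
  have hwl : LocallyIntegrable w (volume : Measure ℂ) := hw.mf.locallyIntegrable (by norm_num)
  have hI1 : IntegrableOn (fun z => (1 - w z) ^ 2) (ball x₀ 4) := by
    have hfb : MemLp w 2 ((volume : Measure ℂ).restrict (ball x₀ 4)) := hw.mf.restrict _
    have hcb : MemLp (fun _ : ℂ => (1 : ℝ)) 2 ((volume : Measure ℂ).restrict (ball x₀ 4)) := by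
      have : IsFiniteMeasure ((volume : Measure ℂ).restrict (ball x₀ 4)) := ⟨by
        rw [Measure.restrict_apply_univ]; exact measure_ball_lt_top⟩
      exact memLp_const 1
    exact (hcb.sub hfb).integrable_sq
  -- the gradient term
  have hgrad : ∫ z, (wx z * gx ψ z + wy z * gy ψ z) ≤ 24 * √(Real.pi * η₁) := by
    rw [hWD U w wx wy hw ψ hTF, hPP.green (1 / 4) (1 / 2) x₀ w hwl (by norm_num) (by norm_num)]
    have hs : ∀ r : ℝ, 0 < r → r ≤ 4 → ∫ z in ball x₀ r, (1 - w z) ^ 2 ≤ η₁ := by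
      intro r _ hr4
      refine le_trans (setIntegral_mono_set hI1 (Eventually.of_forall fun z => sq_nonneg _) ?_) h1
      exact (ball_subset_ball hr4).eventuallyLE
    have k1 := avb_near hPP hw.mf (R := 1 / 2) (x := x₀) (by norm_num) (hs _ (by norm_num) (by norm_num))
    have k2 := avb_near hPP hw.mf (R := 1 / 4) (x := x₀) (by norm_num) (hs _ (by norm_num) (by norm_num))
    have k3 : √(Real.pi * η₁) / (m0 * (1 / 2)) = 2 * √(Real.pi * η₁) / m0 := by field_simp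
    have k4 : √(Real.pi * η₁) / (m0 * (1 / 4)) = 4 * √(Real.pi * η₁) / m0 := by field_simp
    rw [k3, abs_le] at k1
    rw [k4, abs_le] at k2
    have k5 : Av w (1 / 4) x₀ - Av w (1 / 2) x₀ ≤ 6 * √(Real.pi * η₁) / m0 := by
      have e : 6 * √(Real.pi * η₁) / m0 = 2 * √(Real.pi * η₁) / m0 + 4 * √(Real.pi * η₁) / m0 := by ring
      rw [e]; linarith [k1.1, k2.2]
    calc -(4 * m0 * (Av w (1 / 2) x₀ - Av w (1 / 4) x₀)) = 4 * m0 * (Av w (1 / 4) x₀ - Av w (1 / 2) x₀) := by ring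
      _ ≤ 4 * m0 * (6 * √(Real.pi * η₁) / m0) := mul_le_mul_of_nonneg_left k5 (by positivity)
      _ = 24 * √(Real.pi * η₁) := by field_simp; ring
  -- the mass term
  have hψi : Integrable ψ := hTF.cont.integrable_of_hasCompactSupport hTF.comp
  have hmass : P0 * (Real.pi / 64) ≤ ∫ z, ψ z := by
    have k1 : ∫ z in ball x₀ (1 / 8), P0 = P0 * (Real.pi / 64) := by
      rw [setIntegral_const, Measure.real, Complex.volume_ball]
      rw [ENNReal.toReal_mul, ENNReal.toReal_pow, ENNReal.toReal_ofReal (by norm_num)]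
      simp; ring
    rw [← k1]
    calc ∫ z in ball x₀ (1 / 8), P0 = ∫ z in ball x₀ (1 / 8), ψ z := by
          apply setIntegral_congr_fun measurableSet_ball
          intro z hz
          show P0 = PP (1 / 4) (1 / 2) (qq x₀ z)
          rw [hPP.flat _ _ _ (by norm_num) (by norm_num) (hqq z)]
          rw [qq_eq]
          rw [mem_ball, dist_eq_norm] at hz
          have := pow_le_pow_left₀ (norm_nonneg _) hz.le 2
          calc _ ≤ _ := this
            _ = _ := by norm_num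
      _ ≤ ∫ z, ψ z := setIntegral_le_integral hψi (Eventually.of_forall hψ0)
  have hmassU : (∫ z, ψ z) - P0 * η₁ ≤ ∫ z in U, ψ z := by
    have k1 : ∫ z, ψ z = (∫ z in U, ψ z) + ∫ z in Uᶜ, ψ z := (integral_add_compl hU.measurableSet hψi).symm
    have k2 : ∫ z in Uᶜ, ψ z = ∫ z in ball x₀ 4 \ U, ψ z := by
      have : Uᶜ = (ball x₀ 4 \ U) ∪ (Uᶜ \ ball x₀ 4) := by
        ext z; simp only [mem_compl_iff, mem_union, Set.mem_sdiff]; tauto
      rw [this, setIntegral_union]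
      · have : ∫ z in Uᶜ \ ball x₀ 4, ψ z = 0 := by
          apply setIntegral_eq_zero_of_forall_eq_zero
          intro z hz
          apply image_eq_zero_of_notMem_tsupport
          intro hz'
          exact hz.2 (ball_subset_ball (by norm_num) (hTF1.supp hz'))
        rw [this, add_zero]
      · rw [Set.disjoint_left]; rintro z ⟨h, _⟩ ⟨_, h'⟩; exact h' h
      · exact hU.measurableSet.compl.diff measurableSet_ball
      · exact hψi.integrableOn
      · exact hψi.integrableOn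
    have hfin : volume (ball x₀ 4 \ U) < ⊤ := (measure_mono sdiff_subset).trans_lt measure_ball_lt_top
    have k3 : ∫ z in ball x₀ 4 \ U, ψ z ≤ P0 * η₁ := by
      have k4 : ∀ z ∈ ball x₀ 4 \ U, ‖ψ z‖ ≤ P0 := by
        intro z _
        rw [Real.norm_eq_abs, abs_of_nonneg (hψ0 z)]; exact hψle z
      have k5 := norm_setIntegral_le_of_norm_le_const hfin k4
      calc _ ≤ _ := le_abs_self _
        _ ≤ _ := k5
        _ ≤ P0 * η₁ := mul_le_mul_of_nonneg_left h2 hP0pos.le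
    rw [k1, k2]; linarith
  have hlt : ∫ z, (wx z * gx ψ z + wy z * gy ψ z) < ∫ z in U, ψ z := by
    have k1 : 24 * √(Real.pi * η₁) ≤ P0 / 64 := by
      calc 24 * √(Real.pi * η₁) ≤ 24 * (P0 / (64 * 24)) := mul_le_mul_of_nonneg_left hη2 (by norm_num)
        _ = P0 / 64 := by ring
    have k2 : P0 * η₁ ≤ P0 / 64 := by
      calc P0 * η₁ ≤ P0 * (1 / 64) := mul_le_mul_of_nonneg_left hη hP0pos.le
        _ = P0 / 64 := by ring
    have k3 : P0 / 64 + P0 / 64 < P0 * (Real.pi / 64) := by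
      nlinarith [Real.pi_gt_three]
    linarith
  obtain ⟨x, hx, hx2⟩ := hZER U w wx wy H hU hf hw he w0 wH ψ hTF hψ0 hlt
  exact ⟨x, hTF1.supp hx, hx2⟩

theorem core (hPP : S_PPF) (hTYP : S_TYP) (hSUB : S_SUB) (hWD : S_WD) (hSQ : S_SQ) (hOUT : S_OUT) (hSUP : S_SUP)
    (hAV : S_AV) (hLIP : S_LIP) (hGRE : S_GRE) (hZER : S_ZER) (hBAR : S_BAR) (hSEL : S_SEL) : S_CORE := by
  obtain ⟨H, hH1, hH⟩ := hSUP
  obtain ⟨κ, hκ0, hκ1, hκ⟩ := hAV
  obtain ⟨L, hL0, hL⟩ := hLIP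
  obtain ⟨C, hC0, hC⟩ := hGRE
  have hm := hPP.m0_pos
  have hSS : 0 < SS 1 := by
    have := hPP.m0_eq
    rw [this] at hm
    exact (mul_pos_iff_of_pos_left Real.pi_pos).1 hm
  set P0 := PP (1 / 4) (1 / 2) 0 with hP0
  have hP0pos : 0 < P0 := by
    rw [hP0, hPP.top _ _ (by norm_num) (by norm_num)]
    have : 0 < Real.log ((1 / 2 : ℝ) / (1 / 4)) := Real.log_pos (by norm_num)
    positivity
  -- the first scale
  obtain ⟨m, hm1⟩ : ∃ m : ℕ, (1 / 2 : ℝ) ^ m < 0.01 / H := exists_pow_lt_of_lt_one (by positivity) (by norm_num)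
  set t₀ : ℝ := (1 / 2) ^ m with ht₀
  have ht₀pos : 0 < t₀ := by positivity
  have ht₀1 : t₀ ≤ 1 := pow_le_one₀ (by norm_num) (by norm_num)
  have hHt : H * t₀ ≤ 0.01 := by
    rw [lt_div_iff₀ (by linarith)] at hm1; linarith
  have hHt2 : H / 4 * t₀ ^ 2 ≤ 0.01 := by
    have h1 : H / 4 * t₀ ^ 2 = (H * t₀) * t₀ / 4 := by ring
    have h2 : (H * t₀) * t₀ ≤ 0.01 * 1 := mul_le_mul hHt ht₀1 ht₀pos.le (by norm_num)
    rw [h1]; linarith only [h2]
  -- number of scales in the comparison of centres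
  obtain ⟨N, hN⟩ : ∃ N : ℕ, (1 / 2 : ℝ) ^ N < 0.01 / (2 * L * H + 1) :=
    exists_pow_lt_of_lt_one (by positivity) (by norm_num)
  have hN2 : 2 * L * H * (1 / 2) ^ N ≤ 0.01 := by
    rw [lt_div_iff₀ (by positivity)] at hN
    have h1 : (0 : ℝ) < (1 / 2) ^ N := by positivity
    have h2 : 2 * L * H * (1 / 2) ^ N = (1 / 2) ^ N * (2 * L * H + 1) - (1 / 2) ^ N := by ring
    rw [h2]; linarith only [h1, hN]
  -- the parameter K
  obtain ⟨K₁, hK₁⟩ : ∃ K₁ : ℕ, (1 / 2 : ℝ) ^ K₁ < (1.1e-4 * t₀) / (C + 1) :=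
    exists_pow_lt_of_lt_one (by positivity) (by norm_num)
  set K : ℕ := K₁ + 3 * N + 10 with hK
  have hKC : C * (1 / 2) ^ K < 1.1e-4 * t₀ := by
    rw [lt_div_iff₀ (by positivity)] at hK₁
    have h1 : (1 / 2 : ℝ) ^ K ≤ (1 / 2) ^ K₁ := pow_le_pow_of_le_one (by norm_num) (by norm_num) (by omega)
    have h2 : (0 : ℝ) < (1 / 2) ^ K₁ := by positivity
    have h3 : C * (1 / 2) ^ K ≤ C * (1 / 2) ^ K₁ := mul_le_mul_of_nonneg_left h1 hC0
    have h4 : (1 / 2) ^ K₁ * (C + 1) = C * (1 / 2) ^ K₁ + (1 / 2) ^ K₁ := by ring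
    rw [h4] at hK₁
    linarith only [hK₁, h2, h3]
  set tK : ℝ := t₀ / 2 ^ K with htK
  have htKpos : 0 < tK := by positivity
  have htK0 : tK ≤ t₀ := div_le_self ht₀pos.le (one_le_pow₀ (by norm_num))
  -- the parameter η₁
  set s₁ : ℝ := min (0.005 * (m0 * tK)) (P0 / (64 * 24)) with hs₁
  have hs₁pos : 0 < s₁ := lt_min (by positivity) (by positivity)
  set η₁ : ℝ := min (min (1 / 64) (1 / (24 + 16 * (1 + H) ^ 2))) (s₁ ^ 2 / Real.pi) with hη₁
  have hη₁pos : 0 < η₁ := lt_min (lt_min (by norm_num) (by positivity)) (by positivity)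
  have hη₁a : η₁ ≤ 1 / 64 := (min_le_left _ _).trans (min_le_left _ _)
  have hη₁b : η₁ ≤ 1 / (24 + 16 * (1 + H) ^ 2) := (min_le_left _ _).trans (min_le_right _ _)
  have hη₁c : √(Real.pi * η₁) ≤ s₁ := by
    have : Real.pi * η₁ ≤ s₁ ^ 2 := by
      have := min_le_right (min (1 / 64) (1 / (24 + 16 * (1 + H) ^ 2))) (s₁ ^ 2 / Real.pi)
      rw [← hη₁, le_div_iff₀ Real.pi_pos] at this
      linarith
    exact Real.sqrt_le_iff.2 ⟨hs₁pos.le, this⟩
  obtain ⟨η, hη, hT⟩ := hTYP η₁ hη₁pos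
  refine ⟨η, hη, ?_⟩
  intro U w wx wy v vx vy Λ D
  have hU := D.adm.1
  have hf := D.adm.2.2
  obtain ⟨x₀, _, g1, g2, g3, g4, g5⟩ := hT U w wx wy v vx vy Λ D
  have w0 : ∀ᵐ z, 0 ≤ w z := by filter_upwards [D.v0, D.vw] with z a b; linarith
  have wH : ∀ᵐ z, w z ≤ H := hH U w wx wy hU hf D.hw D.ew w0 D.pc
  have vH : ∀ᵐ z, v z ≤ H := by filter_upwards [wH, D.vw] with z a b; linarith
  have hvl : LocallyIntegrable v (volume : Measure ℂ) := D.hv.mf.locallyIntegrable (by norm_num)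
  have hwl : LocallyIntegrable w (volume : Measure ℂ) := D.hw.mf.locallyIntegrable (by norm_num)
  -- integrability on the big ball
  have hsqi : ∀ k : ℂ → ℝ, MemLp k 2 (volume : Measure ℂ) → IntegrableOn (fun z => (1 - k z) ^ 2) (ball x₀ 4) := by
    intro k hk
    have hfb : MemLp k 2 ((volume : Measure ℂ).restrict (ball x₀ 4)) := hk.restrict _
    have hcb : MemLp (fun _ : ℂ => (1 : ℝ)) 2 ((volume : Measure ℂ).restrict (ball x₀ 4)) := by
      have : IsFiniteMeasure ((volume : Measure ℂ).restrict (ball x₀ 4)) := ⟨by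
        rw [Measure.restrict_apply_univ]; exact measure_ball_lt_top⟩
      exact memLp_const 1
    exact (hcb.sub hfb).integrable_sq
  -- the zero
  obtain ⟨x, hx, hx0⟩ := co_zero hPP hWD hZER hU hf D.hw D.ew w0 wH g1 g5 hη₁a (hη₁c.trans (min_le_right _ _))
  have hballs : ∀ r : ℝ, r ≤ 3 → ball x r ⊆ ball x₀ 4 := by
    intro r hr
    apply ball_subset_ball'
    rw [mem_ball] at hx
    linarith
  have hnear : ∀ t : ℝ, tK ≤ t → t ≤ 3 → |Av v t x - 1| ≤ 0.005 := by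
    intro t ht ht3
    have htpos : 0 < t := htKpos.trans_le ht
    have k1 : ∫ z in ball x t, (1 - v z) ^ 2 ≤ η₁ := by
      refine le_trans (setIntegral_mono_set (hsqi v D.hv.mf) (Eventually.of_forall fun z => sq_nonneg _) ?_) g2
      exact (hballs t ht3).eventuallyLE
    refine (avb_near hPP D.hv.mf htpos k1).trans ?_
    rw [div_le_iff₀ (by positivity)]
    calc √(Real.pi * η₁) ≤ s₁ := hη₁c
      _ ≤ 0.005 * (m0 * tK) := min_le_left _ _
      _ ≤ 0.005 * (m0 * t) := by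
        apply mul_le_mul_of_nonneg_left _ (by norm_num)
        exact mul_le_mul_of_nonneg_left ht hm.le
  -- subharmonicity of v
  have hSubV : SubL v H := by
    intro φ hφ hφ0
    have k1 := hSUB U v vx vy v hU D.hv D.v0 D.hv.mf D.v0 D.ev φ hφ hφ0
    rw [hWD U v vx vy D.hv φ hφ] at k1
    have k2 : ∫ z, v z * φ z ≤ H * ∫ z, φ z := by
      rw [← integral_const_mul]
      apply integral_mono_ae
      · exact D.hv.mf.integrable_mul hφ.memLp
      · exact (hφ.cont.integrable_of_hasCompactSupport hφ.comp).const_mul _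
      · filter_upwards [vH] with z hz
        exact mul_le_mul_of_nonneg_right hz (hφ0 z)
    linarith
  obtain ⟨a1, a2, a3, a4⟩ := hκ v H D.hv.mf (by linarith) hSubV
  -- the sequence
  set s : ℕ → ℝ := fun k => Av v (t₀ / 2 ^ k) x + H / 4 * κ * (t₀ / 2 ^ k) ^ 2 with hs
  have e1 : ∀ k : ℕ, t₀ / 2 ^ (k + 1) = t₀ / 2 ^ k / 2 := fun k => by rw [pow_succ]; field_simp
  have e2 : ∀ k : ℕ, t₀ / 2 ^ (k + 2) = t₀ / 2 ^ k / 4 := fun k => by rw [pow_add]; field_simp; norm_num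
  have tpos : ∀ k : ℕ, 0 < t₀ / 2 ^ k := fun k => by positivity
  have tle : ∀ k : ℕ, t₀ / 2 ^ k ≤ t₀ := fun k => div_le_self ht₀pos.le (one_le_pow₀ (by norm_num))
  have hcorr : ∀ k : ℕ, 0 ≤ H / 4 * κ * (t₀ / 2 ^ k) ^ 2 ∧ H / 4 * κ * (t₀ / 2 ^ k) ^ 2 ≤ 0.01 := by
    intro k
    constructor
    · positivity
    · have k1 : (t₀ / 2 ^ k) ^ 2 ≤ t₀ ^ 2 := pow_le_pow_left₀ (tpos k).le (tle k) 2
      calc H / 4 * κ * (t₀ / 2 ^ k) ^ 2 ≤ H / 4 * 1 * t₀ ^ 2 := by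
            apply mul_le_mul _ k1 (sq_nonneg _) (by positivity)
            exact mul_le_mul_of_nonneg_left hκ1 (by positivity)
        _ ≤ 0.01 := by rw [mul_one]; exact hHt2
  have s1 : ∀ k, s (k + 1) ≤ s k := by
    intro k
    have := a1 x (t₀ / 2 ^ k) (tpos k)
    simp only [hs, e1]
    exact this
  have s2 : ∀ k, s (k + 1) - s (k + 2) ≤ s k - s (k + 1) := by
    intro k
    have := a2 x (t₀ / 2 ^ k) (tpos k)
    simp only [hs, e1]
    have e3 : t₀ / 2 ^ k / 2 / 2 = t₀ / 2 ^ k / 4 := by ring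
    simp only [e3]
    exact this
  have s3 : Tendsto s atTop (𝓝 0) := by
    have k1 : Tendsto (fun k : ℕ => Av w ((1 / 2) ^ (k + m)) x) atTop (𝓝 0) :=
      (tendsto_add_atTop_iff_nat (f := fun n : ℕ => Av w ((1 / 2) ^ n) x) m).2 hx0
    have e3 : ∀ k : ℕ, (1 / 2 : ℝ) ^ (k + m) = t₀ / 2 ^ k := by
      intro k; rw [ht₀, pow_add, one_div_pow (2 : ℝ) k]; field_simp
    have k2 : Tendsto (fun k : ℕ => Av v (t₀ / 2 ^ k) x) atTop (𝓝 0) := by
      refine squeeze_zero (fun k => avb_nonneg hm D.v0 _ _) (fun k => ?_) k1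
      rw [e3]
      apply avb_mono hm hvl hwl (tpos k)
      filter_upwards [D.vw] with z hz _
      exact hz
    have k3 : Tendsto (fun k : ℕ => H / 4 * κ * (t₀ / 2 ^ k) ^ 2) atTop (𝓝 0) := by
      have k4 : Tendsto (fun k : ℕ => t₀ / 2 ^ k) atTop (𝓝 0) := by
        have := (tendsto_pow_atTop_nhds_zero_of_lt_one (r := (1 / 2 : ℝ)) (by norm_num) (by norm_num)).const_mul t₀
        rw [mul_zero] at this
        refine this.congr fun k => ?_
        rw [one_div_pow]; ring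
      have := (k4.pow 2).const_mul (H / 4 * κ)
      simpa using this
    have := k2.add k3
    rw [add_zero] at this
    exact this
  have hs0 : s 0 ≤ 1.02 := by
    have k1 := hnear t₀ htK0 (by linarith)
    rw [abs_le] at k1
    have k2 := (hcorr 0).2
    simp only [hs, pow_zero, div_one] at k2 ⊢
    linarith [k1.2]
  have hsK : 0.99 ≤ s K := by
    have k1 := hnear tK le_rfl (by linarith)
    rw [abs_le] at k1
    have k2 := (hcorr K).1
    simp only [hs]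
    rw [← htK] at k2 ⊢
    linarith [k1.1]
  obtain ⟨k₁, ℓ, b1, b2, b3, b4, b5, b6⟩ := hSEL s K (by omega) s1 s2 s3 hs0 hsK
  set t₁ := t₀ / 2 ^ k₁ with ht₁
  set t₂ := t₀ / 2 ^ (k₁ + ℓ) with ht₂
  have ht₁pos : 0 < t₁ := tpos _
  have ht₂pos : 0 < t₂ := tpos _
  have ht₁1 : t₁ ≤ 1 := (tle _).trans ht₀1
  have ht₂₁ : t₂ = t₁ * (1 / 2) ^ ℓ := by rw [ht₂, ht₁, pow_add, one_div_pow]; field_simp
  -- bound of v on a ball
  have hv95 : ∀ᵐ z, z ∈ ball x (2 * t₁) → v z ≤ 0.95 := by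
    have hNK : N ≤ 3 * K := by omega
    have k1 := b3 N hNK
    set r := t₀ / 2 ^ (k₁ - N) with hr
    have hrpos : 0 < r := tpos _
    have hrle : r ≤ t₀ := tle _
    have hrt : r = t₁ * 2 ^ N := by
      rw [hr, ht₁]
      have : (2 : ℝ) ^ k₁ = 2 ^ (k₁ - N) * 2 ^ N := by rw [← pow_add]; congr 1; omega
      rw [this]; field_simp
    have k2 : (N : ℝ) * (0.03 / K) ≤ 0.01 := by
      have hKpos : (0 : ℝ) < K := by rw [hK]; positivity
      have h3 : (3 : ℝ) * N ≤ K := by exact_mod_cast (by omega : 3 * N ≤ K)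
      rw [mul_div_assoc', div_le_iff₀ hKpos]
      linarith only [h3]
    have k3 : Av v r x ≤ 0.91 := by
      have := (hcorr (k₁ - N)).1
      have h4 : s (k₁ - N) = Av v r x + H / 4 * κ * (t₀ / 2 ^ (k₁ - N)) ^ 2 := rfl
      rw [h4] at k1
      linarith
    filter_upwards [a4] with z hz hzb
    have k4 := hz r hrpos
    have k5 := hL v H D.hv.mf D.v0 vH z x r hrpos
    have k6 : ‖z - x‖ ≤ 2 * t₁ := by rw [mem_ball, dist_eq_norm] at hzb; exact hzb.le
    have k7 : L * H * ‖z - x‖ / r ≤ 0.01 := by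
      rw [div_le_iff₀ hrpos]
      have h5 : L * H * ‖z - x‖ ≤ L * H * (2 * t₁) := mul_le_mul_of_nonneg_left k6 (by positivity)
      have h6 : L * H * (2 * t₁) = (2 * L * H * (1 / 2) ^ N) * r := by
        rw [hrt, one_div_pow]; field_simp
      rw [h6] at h5
      exact h5.trans (mul_le_mul_of_nonneg_right hN2 hrpos.le)
    have k8 : H / 4 * r ^ 2 ≤ 0.01 := by
      calc H / 4 * r ^ 2 ≤ H / 4 * t₀ ^ 2 :=
            mul_le_mul_of_nonneg_left (pow_le_pow_left₀ hrpos.le hrle 2) (by positivity)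
        _ ≤ 0.01 := hHt2
    have k9 := (abs_le.1 k5).2
    linarith
  -- the barrier
  have hbar := hBAR U w wx wy v vx vy hU hf D.hw D.hv D.ew D.ev D.v0 D.vw x t₁ ht₁pos ht₁1 hv95
  have hℓ1 : (1 / 2 : ℝ) ^ ℓ ≤ 1 / 128 := by
    calc (1 / 2 : ℝ) ^ ℓ ≤ (1 / 2) ^ 7 := pow_le_pow_of_le_one (by norm_num) (by norm_num) (by omega)
      _ = 1 / 128 := by norm_num
  have ht₂le : t₂ ≤ t₁ * (1 / 128) := by rw [ht₂₁]; exact mul_le_mul_of_nonneg_left hℓ1 ht₁pos.le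
  have hlow := ca_lower hPP D.hw.mf D.hv.mf D.v0 D.vw ht₁pos ht₂pos (by linarith) hv95 hbar
  have hav : 0.08 ≤ Av v t₂ x := by
    have h4 : s (k₁ + ℓ) = Av v t₂ x + H / 4 * κ * (t₀ / 2 ^ (k₁ + ℓ)) ^ 2 := rfl
    rw [h4] at b4
    linarith [(hcorr (k₁ + ℓ)).2]
  have hlow2 : 1.1e-4 * t₁ ^ 2 ≤ Av (fun z => w z ^ 2 - v z ^ 2) t₂ x := by
    have h5 : t₂ ^ 2 ≤ t₁ ^ 2 * (1 / 16384) := by
      calc t₂ ^ 2 ≤ (t₁ * (1 / 128)) ^ 2 := pow_le_pow_left₀ ht₂pos.le ht₂le 2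
        _ = _ := by ring
    have h6 : (0.08 : ℝ) ^ 2 ≤ Av v t₂ x ^ 2 := pow_le_pow_left₀ (by norm_num) hav 2
    have h7 : t₁ ^ 2 * 0.08 ^ 2 ≤ t₁ ^ 2 * Av v t₂ x ^ 2 := mul_le_mul_of_nonneg_left h6 (sq_nonneg _)
    linarith only [h5, h7, hlow, sq_nonneg t₁]
  -- Green's formula
  have hup : ∀ r, 0 < r → r ≤ t₂ → Av (fun z => w z ^ 2 - v z ^ 2) t₂ x ≤
      Av (fun z => w z ^ 2 - v z ^ 2) r x + C * t₂ := by
    intro r hr hrt
    have hgl : LocallyIntegrable (fun z => w z ^ 2 - v z ^ 2) (volume : Measure ℂ) :=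
      (ca_sq_li D.hw.mf).sub (ca_sq_li D.hv.mf)
    have hsub : ball x (2 * t₂) ⊆ ball x₀ 4 := hballs _ (by linarith)
    have hηH : (24 + 16 * (1 + H) ^ 2) * η₁ ≤ 1 := by
      rw [le_div_iff₀ (by positivity)] at hη₁b
      linarith
    obtain ⟨hmeas, hch, hch1⟩ := ca_ch hOUT D vH g3 (hsqi w D.hw.mf) (hsqi v D.hv.mf) g4 g1 g2 hηH
    have hG := hC (fun z => w z ^ 2 - v z ^ 2) (ch U w wx wy v vx vy) x t₂ 1 hgl ht₂pos
      (fun φ hφ => ca_eq hSQ D (hφ.mono (subset_univ _))) (hch.mono_set hsub) hmeas.restrict (by norm_num)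
      (by
        rw [one_pow]
        exact le_trans (setIntegral_mono_set hch (Eventually.of_forall fun z => sq_nonneg _)
          hsub.eventuallyLE) hch1) r hr hrt
    have := (abs_le.1 hG).2
    linarith
  have hup2 : Av (fun z => w z ^ 2 - v z ^ 2) t₂ x ≤ C * t₂ := by
    have hgl : LocallyIntegrable (fun z => w z ^ 2 - v z ^ 2) (volume : Measure ℂ) :=
      (ca_sq_li D.hw.mf).sub (ca_sq_li D.hv.mf)
    have hHl : LocallyIntegrable (fun z => H * w z) (volume : Measure ℂ) :=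
      (D.hw.mf.const_mul _).locallyIntegrable (by norm_num)
    have k1 : Tendsto (fun n : ℕ => H * Av w ((1 / 2) ^ n) x + C * t₂) atTop (𝓝 (H * 0 + C * t₂)) :=
      (hx0.const_mul H).add_const _
    rw [mul_zero, zero_add] at k1
    refine ge_of_tendsto k1 ?_
    have k2 : Tendsto (fun n : ℕ => (1 / 2 : ℝ) ^ n) atTop (𝓝 0) :=
      tendsto_pow_atTop_nhds_zero_of_lt_one (by norm_num) (by norm_num)
    filter_upwards [k2.eventually (ge_mem_nhds ht₂pos)] with n hn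
    refine (hup ((1 / 2) ^ n) (by positivity) hn).trans ?_
    have k3 : Av (fun z => w z ^ 2 - v z ^ 2) ((1 / 2) ^ n) x ≤ H * Av w ((1 / 2) ^ n) x := by
      rw [← avb_smul]
      apply avb_mono hm hgl hHl (by positivity)
      filter_upwards [w0, wH, D.v0] with z z1 z2 z3 _
      have z4 : w z * w z ≤ H * w z := mul_le_mul_of_nonneg_right z2 z1
      have z5 := sq_nonneg (v z)
      have z6 : w z ^ 2 = w z * w z := pow_two _
      linarith only [z4, z5, z6]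
    linarith
  -- the contradiction
  have hk : 4 * k₁ ≤ ℓ := by
    have h8 : (4 : ℝ) * k₁ ≤ ℓ := by
      have : (0 : ℝ) ≤ ℓ := Nat.cast_nonneg _
      linarith
    exact_mod_cast h8
  have c1 : 1.1e-4 * t₁ ^ 2 ≤ C * t₂ := hlow2.trans hup2
  rw [ht₂₁] at c1
  have c2 : 1.1e-4 * t₁ ≤ C * (1 / 2) ^ ℓ := by
    have : 1.1e-4 * t₁ * t₁ ≤ C * (1 / 2) ^ ℓ * t₁ := by
      calc 1.1e-4 * t₁ * t₁ = 1.1e-4 * t₁ ^ 2 := by ring
        _ ≤ C * (t₁ * (1 / 2) ^ ℓ) := c1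
        _ = C * (1 / 2) ^ ℓ * t₁ := by ring
    exact le_of_mul_le_mul_right this ht₁pos
  have c3 : t₁ = t₀ * (1 / 2) ^ k₁ := by rw [ht₁, one_div_pow]; ring
  have c4 : (1 / 2 : ℝ) ^ ℓ ≤ (1 / 2) ^ k₁ * (1 / 2) ^ K := by
    rw [← pow_add]
    exact pow_le_pow_of_le_one (by norm_num) (by norm_num) (by omega)
  have c5 : 1.1e-4 * t₀ * (1 / 2) ^ k₁ ≤ C * (1 / 2) ^ K * (1 / 2) ^ k₁ := by
    calc 1.1e-4 * t₀ * (1 / 2) ^ k₁ = 1.1e-4 * t₁ := by rw [c3]; ring
      _ ≤ C * (1 / 2) ^ ℓ := c2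
      _ ≤ C * ((1 / 2) ^ k₁ * (1 / 2) ^ K) := mul_le_mul_of_nonneg_left c4 hC0
      _ = _ := by ring
  have c6 : (0 : ℝ) < (1 / 2) ^ k₁ := by positivity
  have c7 := le_of_mul_le_mul_right c5 c6
  linarith

end Pool.Agent.TH316.FQ
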