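import Pool.Agent.TH316.FQ.AvB

set_option autoImplicit false

/-! Auxiliary results for the main step. -/

open MeasureTheory Metric Set Filter
open scoped Topology

namespace Pool.Agent.TH316.FQ

open Pool.Agent.Helper533.StarBox

theorem ca_hopf (a b c d : ℝ) : (a ^ 2 + b ^ 2 - c ^ 2 - d ^ 2) ^ 2 ≤
    (a ^ 2 - b ^ 2 - (c ^ 2 - d ^ 2)) ^ 2 + (2 * a * b - 2 * c * d) ^ 2 := by
  nlinarith [sq_nonneg (b * c - a * d)]

theorem ca_int_mul_tf {k : ℂ → ℝ} (hk : Integrable k) {V : Set ℂ} {φ : ℂ → ℝ} (hφ : TF V φ) :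
    Integrable (fun z => k z * φ z) := by
  obtain ⟨C, hC⟩ := hφ.cont.bounded_above_of_compact_support hφ.comp
  exact hk.mul_bdd (c := C) hφ.cont.aestronglyMeasurable (Eventually.of_forall hC)

theorem ca_sq_li {f : ℂ → ℝ} (hf : MemLp f 2 (volume : Measure ℂ)) :
    LocallyIntegrable (fun z => f z ^ 2) (volume : Measure ℂ) := hf.integrable_sq.locallyIntegrable

/-- lower bound for the average of `w² - v²` from the barrier -/
theorem ca_lower (hPP : PPF) {w v : ℂ → ℝ} (hw : MemLp w 2 (volume : Measure ℂ)) (hv : MemLp v 2 (volume : Measure ℂ))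
    (v0 : ∀ᵐ z, 0 ≤ v z) (vw : ∀ᵐ z, v z ≤ w z) {x : ℂ} {t s : ℝ} (ht : 0 < t) (hs : 0 < s) (hst : s ≤ 2 * t)
    (hb1 : ∀ᵐ z, z ∈ ball x (2 * t) → v z ≤ 0.95)
    (hb2 : ∀ᵐ z, z ∈ ball x (2 * t) → (1 / 100) * (t ^ 2 * v z - ‖z - x‖ ^ 2) ≤ w z - v z) :
    (1 / 50) * (t ^ 2 * Av v s x ^ 2 - s ^ 2) ≤ Av (fun z => w z ^ 2 - v z ^ 2) s x := by
  set a := Av v s x with ha
  have hvl : LocallyIntegrable v (volume : Measure ℂ) := hv.locallyIntegrable (by norm_num)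
  have h1 : LocallyIntegrable (fun z => (t ^ 2 * a / 25) * v z) (volume : Measure ℂ) :=
    (hv.const_mul _).locallyIntegrable (by norm_num)
  have h2 : LocallyIntegrable (fun _ : ℂ => (1 / 50) * (- (t ^ 2 * a ^ 2) - s ^ 2)) (volume : Measure ℂ) :=
    continuous_const.locallyIntegrable
  have h3 : Av (fun z => (t ^ 2 * a / 25) * v z + (1 / 50) * (- (t ^ 2 * a ^ 2) - s ^ 2)) s x =
      (1 / 50) * (t ^ 2 * a ^ 2 - s ^ 2) := by
    rw [avb_add h1 h2 hs, avb_smul, avb_const hPP hs, ← ha]; ring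
  rw [← h3]
  have h4 : LocallyIntegrable (fun z => w z ^ 2 - v z ^ 2) (volume : Measure ℂ) :=
    (ca_sq_li hw).sub (ca_sq_li hv)
  apply avb_mono hPP.m0_pos (h1.add h2) h4 hs
  filter_upwards [v0, vw, hb1, hb2] with z z0 z1 z2 z3 hz
  have hz' : z ∈ ball x (2 * t) := ball_subset_ball hst hz
  have z4 := z2 hz'
  have z5 := z3 hz'
  have z6 : ‖z - x‖ ≤ s := by rw [mem_ball, dist_eq_norm] at hz; exact hz.le
  have z7 : ‖z - x‖ ^ 2 ≤ s ^ 2 := pow_le_pow_left₀ (norm_nonneg _) z6 2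
  have z8 : (w z - v z) * (2 * v z) ≤ w z ^ 2 - v z ^ 2 := by nlinarith
  have z9 : ((1 / 100) * (t ^ 2 * v z - ‖z - x‖ ^ 2)) * (2 * v z) ≤ (w z - v z) * (2 * v z) :=
    mul_le_mul_of_nonneg_right z5 (by linarith)
  have z10 : v z * ‖z - x‖ ^ 2 ≤ s ^ 2 := by
    calc v z * ‖z - x‖ ^ 2 ≤ 1 * ‖z - x‖ ^ 2 := mul_le_mul_of_nonneg_right (by linarith) (sq_nonneg _)
      _ ≤ s ^ 2 := by rw [one_mul]; exact z7
  have z11 : 0 ≤ t ^ 2 * (v z - a) ^ 2 := by positivity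
  show (t ^ 2 * a / 25) * v z + (1 / 50) * (- (t ^ 2 * a ^ 2) - s ^ 2) ≤ w z ^ 2 - v z ^ 2
  nlinarith

/-- the right-hand side in the equation for `w² - v²` -/
noncomputable def ch (U : Set ℂ) (w wx wy v vx vy : ℂ → ℝ) (z : ℂ) : ℝ :=
  2 * (wx z ^ 2 + wy z ^ 2 - w z * ind U z) - 2 * (vx z ^ 2 + vy z ^ 2 - v z * v z)

theorem ca_eq (hSQ : S_SQ) {U : Set ℂ} {w wx wy v vx vy : ℂ → ℝ} {Λ η : ℝ} (D : Data U w wx wy v vx vy Λ η)
    {φ : ℂ → ℝ} (hφ : TF univ φ) :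
    ∫ z, (w z ^ 2 - v z ^ 2) * lap φ z = ∫ z, ch U w wx wy v vx vy z * φ z := by
  have hU := D.adm.1
  have hf := D.adm.2.2
  have hI := ind_memLp hU hf
  have h1 := hSQ U w wx wy (ind U) hU D.hw hI D.ew.ind φ hφ
  have h2 := hSQ U v vx vy v hU D.hv D.hv.mf D.ev φ hφ
  have i1 : Integrable (fun z => w z ^ 2 * lap φ z) := ca_int_mul_tf D.hw.mf.integrable_sq hφ.lap_tf
  have i2 : Integrable (fun z => v z ^ 2 * lap φ z) := ca_int_mul_tf D.hv.mf.integrable_sq hφ.lap_tf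
  have i3 : Integrable (fun z => wx z ^ 2 + wy z ^ 2 - w z * ind U z) :=
    (D.hw.mp.integrable_sq.add D.hw.mq.integrable_sq).sub (D.hw.mf.integrable_mul hI)
  have i4 : Integrable (fun z => vx z ^ 2 + vy z ^ 2 - v z * v z) :=
    (D.hv.mp.integrable_sq.add D.hv.mq.integrable_sq).sub (D.hv.mf.integrable_mul D.hv.mf)
  have i5 := ca_int_mul_tf i3 hφ
  have i6 := ca_int_mul_tf i4 hφ
  have e1 : ∫ z, (w z ^ 2 - v z ^ 2) * lap φ z = (∫ z, w z ^ 2 * lap φ z) - ∫ z, v z ^ 2 * lap φ z := by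
    rw [← integral_sub i1 i2]; congr 1; ext z; ring
  have e2 : ∫ z, ch U w wx wy v vx vy z * φ z = 2 * (∫ z, (wx z ^ 2 + wy z ^ 2 - w z * ind U z) * φ z) -
      2 * ∫ z, (vx z ^ 2 + vy z ^ 2 - v z * v z) * φ z := by
    rw [← integral_const_mul, ← integral_const_mul, ← integral_sub (i5.const_mul 2) (i6.const_mul 2)]
    congr 1; ext z; unfold ch; ring
  rw [e1, e2, h1, h2]

/-- pointwise bound of the right-hand side -/
theorem ca_bound (hOUT : S_OUT) {U : Set ℂ} {w wx wy v vx vy : ℂ → ℝ} {Λ η H : ℝ}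
    (D : Data U w wx wy v vx vy Λ η) (hH : ∀ᵐ z, v z ≤ H) :
    ∀ᵐ z, ch U w wx wy v vx vy z ^ 2 ≤ 8 * (HP wx wy vx vy z ^ 2 + HR wx wy vx vy z ^ 2) + 16 * (1 - w z) ^ 2 +
      16 * (1 + H) ^ 2 * (1 - v z) ^ 2 := by
  filter_upwards [hOUT U w wx wy D.adm.1 D.hw, hH, D.v0] with z h1 h2 h3
  have e1 : w z * ind U z = w z := by
    by_cases hz : z ∈ U
    · rw [ind_of_mem hz, mul_one]
    · rw [(h1 hz).1, zero_mul]
  have h4 := ca_hopf (wx z) (wy z) (vx z) (vy z)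
  have h5 : (1 - v z ^ 2) ^ 2 ≤ (1 + H) ^ 2 * (1 - v z) ^ 2 := by
    have : (1 - v z ^ 2) ^ 2 = (1 + v z) ^ 2 * (1 - v z) ^ 2 := by ring
    rw [this]
    apply mul_le_mul_of_nonneg_right _ (sq_nonneg _)
    exact pow_le_pow_left₀ (by linarith) (by linarith) 2
  have h6 : (w z - v z ^ 2) ^ 2 ≤ 2 * (1 - w z) ^ 2 + 2 * (1 - v z ^ 2) ^ 2 := by
    nlinarith [sq_nonneg ((1 - w z) + (1 - v z ^ 2))]
  unfold ch HP HR
  rw [e1]
  set P := (wx z ^ 2 - wy z ^ 2 - (vx z ^ 2 - vy z ^ 2)) ^ 2 + (2 * wx z * wy z - 2 * vx z * vy z) ^ 2 with hP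
  set q := wx z ^ 2 + wy z ^ 2 - vx z ^ 2 - vy z ^ 2 with hq
  have e2 : (2 * (wx z ^ 2 + wy z ^ 2 - w z) - 2 * (vx z ^ 2 + vy z ^ 2 - v z * v z)) = 2 * q - 2 * (w z - v z ^ 2) := by
    rw [hq]; ring
  rw [e2]
  nlinarith [sq_nonneg (q + (w z - v z ^ 2))]

theorem ca_int3 {μ : Measure ℂ} {a b c : ℂ → ℝ} {x y z : ℝ} (ha : Integrable a μ) (hb : Integrable b μ)
    (hc : Integrable c μ) :
    ∫ p, (x * a p + y * b p + z * c p) ∂μ = x * (∫ p, a p ∂μ) + y * (∫ p, b p ∂μ) + z * ∫ p, c p ∂μ := by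
  have i1 : Integrable (fun p => x * a p) μ := ha.const_mul x
  have i2 : Integrable (fun p => y * b p) μ := hb.const_mul y
  have i3 : Integrable (fun p => z * c p) μ := hc.const_mul z
  have i4 : Integrable (fun p => x * a p + y * b p) μ := i1.add i2
  rw [integral_add i4 i3, integral_add i1 i2, integral_const_mul, integral_const_mul, integral_const_mul]

/-- the right-hand side is small in `L²` -/
theorem ca_ch (hOUT : S_OUT) {U : Set ℂ} {w wx wy v vx vy : ℂ → ℝ} {Λ η H η₁ : ℝ}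
    (D : Data U w wx wy v vx vy Λ η) (vH : ∀ᵐ z, v z ≤ H) {B : Set ℂ}
    (j1 : IntegrableOn (fun z => HP wx wy vx vy z ^ 2 + HR wx wy vx vy z ^ 2) B)
    (j2 : IntegrableOn (fun z => (1 - w z) ^ 2) B) (j3 : IntegrableOn (fun z => (1 - v z) ^ 2) B)
    (k1 : ∫ z in B, (HP wx wy vx vy z ^ 2 + HR wx wy vx vy z ^ 2) ≤ η₁)
    (k2 : ∫ z in B, (1 - w z) ^ 2 ≤ η₁) (k3 : ∫ z in B, (1 - v z) ^ 2 ≤ η₁)
    (hη : (24 + 16 * (1 + H) ^ 2) * η₁ ≤ 1) :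
    AEStronglyMeasurable (ch U w wx wy v vx vy) (volume : Measure ℂ) ∧
    IntegrableOn (fun z => ch U w wx wy v vx vy z ^ 2) B ∧
    ∫ z in B, ch U w wx wy v vx vy z ^ 2 ≤ 1 := by
  have hI := ind_memLp D.adm.1 D.adm.2.2
  have hmeas : AEStronglyMeasurable (ch U w wx wy v vx vy) (volume : Measure ℂ) := by
    have i3 : Integrable (fun z => wx z ^ 2 + wy z ^ 2 - w z * ind U z) :=
      (D.hw.mp.integrable_sq.add D.hw.mq.integrable_sq).sub (D.hw.mf.integrable_mul hI)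
    have i4 : Integrable (fun z => vx z ^ 2 + vy z ^ 2 - v z * v z) :=
      (D.hv.mp.integrable_sq.add D.hv.mq.integrable_sq).sub (D.hv.mf.integrable_mul D.hv.mf)
    exact ((i3.const_mul 2).sub (i4.const_mul 2)).1
  have hbd := ca_bound hOUT D vH
  have hdom : IntegrableOn (fun z => 8 * (HP wx wy vx vy z ^ 2 + HR wx wy vx vy z ^ 2) + 16 * (1 - w z) ^ 2 +
      16 * (1 + H) ^ 2 * (1 - v z) ^ 2) B :=
    ((j1.const_mul 8).add (j2.const_mul 16)).add (j3.const_mul _)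
  have hch : IntegrableOn (fun z => ch U w wx wy v vx vy z ^ 2) B := by
    refine Integrable.mono' hdom (hmeas.restrict.pow 2) ?_
    filter_upwards [ae_restrict_of_ae hbd] with z hz
    rw [Real.norm_eq_abs, abs_of_nonneg (sq_nonneg _)]
    exact hz
  refine ⟨hmeas, hch, ?_⟩
  have e1 := ca_int3 (x := 8) (y := 16) (z := 16 * (1 + H) ^ 2) j1 j2 j3
  have e2 : ∫ z in B, ch U w wx wy v vx vy z ^ 2 ≤
      ∫ z in B, (8 * (HP wx wy vx vy z ^ 2 + HR wx wy vx vy z ^ 2) + 16 * (1 - w z) ^ 2 +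
      16 * (1 + H) ^ 2 * (1 - v z) ^ 2) := integral_mono_ae hch hdom (ae_restrict_of_ae hbd)
  rw [e1] at e2
  have e3 : 0 ≤ 16 * (1 + H) ^ 2 := by positivity
  have e4 := mul_le_mul_of_nonneg_left k3 e3
  have e5 : (24 + 16 * (1 + H) ^ 2) * η₁ = 8 * η₁ + 16 * η₁ + 16 * (1 + H) ^ 2 * η₁ := by ring
  linarith

end Pool.Agent.TH316.FQ
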