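import Pool.Agent.TH316.FQ.Bas

set_option autoImplicit false
set_option maxHeartbeats 4000000

/-! Maximisers for `q` close to `1` give `Data`. -/

open MeasureTheory Metric Set Filter
open scoped Topology

namespace Pool.Agent.TH316.FQ

open Pool.Agent.Helper533.StarBox

theorem dt_poincare {U : Set ℂ} {f p q : ℂ → ℝ} (h : HW U f p q) (hpc : ∀ φ, TF U φ → Ip φ φ ≤ En φ φ) :
    ∫ z, f z ^ 2 ≤ ∫ z, (p z ^ 2 + q z ^ 2) := by
  obtain ⟨u, hu, h1, h2, h3⟩ := h.seq
  have k1 := h1.sq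
  have k2 := h2.sq.add h3.sq
  have e : ∫ z, (p z ^ 2 + q z ^ 2) = (∫ z, p z ^ 2) + ∫ z, q z ^ 2 :=
    integral_add h.mp.integrable_sq h.mq.integrable_sq
  rw [e]
  refine le_of_tendsto_of_tendsto' k1 k2 fun n => ?_
  have := hpc _ (hu n)
  rw [Ip_self, En_self] at this
  refine this.trans (le_of_eq ?_)
  exact integral_add (h2.ma n).integrable_sq (h3.ma n).integrable_sq

/-- a formula for `F_q` -/
theorem dt_Fc {q l T A : ℝ} (hT : 0 < T) (hA : 0 < A) :
    l * T ^ q / A ^ (2 * q - 1) = (l * T / A) * (T / A ^ 2) ^ (q - 1) := by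
  rw [Real.div_rpow hT.le (by positivity), ← Real.rpow_natCast A 2, ← Real.rpow_mul hA.le]
  have e1 : T ^ q = T * T ^ (q - 1) := by
    have := Real.rpow_add_one hT.ne' (q - 1)
    rw [sub_add_cancel] at this
    rw [this]; ring
  have e2 : A ^ (2 * q - 1) = A * A ^ (((2 : ℕ) : ℝ) * (q - 1)) := by
    have := Real.rpow_add_one hA.ne' (((2 : ℕ) : ℝ) * (q - 1))
    have e3 : ((2 : ℕ) : ℝ) * (q - 1) + 1 = 2 * q - 1 := by push_cast; ring
    rw [e3] at this
    rw [this]; ring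
  rw [e1, e2]
  have : 0 < A ^ (((2 : ℕ) : ℝ) * (q - 1)) := Real.rpow_pos_of_pos hA _
  field_simp

theorem dt_scale (hPOL : S_POL) (hSCA : S_SCA) {U : Set ℂ} {q : ℝ} (hU : Adm U) {c : ℝ} (hc : 0 < c) :
    Fc q {z | c • z ∈ U} = Fc q U := by
  obtain ⟨a1, a2, a3, a4⟩ := hSCA U c hU hc
  obtain ⟨-, p2, p3, p4, -, -, -, -⟩ := hPOL U hU
  obtain ⟨-, q2, q3, q4, -, -, -, -⟩ := hPOL _ a1
  unfold Fc
  rw [dt_Fc q3 q4, dt_Fc p3 p4, a2, a3, a4]
  have e1 : c ^ 2 * lambda1 U * (tor U / c ^ 4) / (ar U / c ^ 2) = lambda1 U * tor U / ar U := by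
    field_simp
  have e2 : tor U / c ^ 4 / (ar U / c ^ 2) ^ 2 = tor U / ar U ^ 2 := by
    field_simp
  rw [e1, e2]

theorem dat (hPOL : S_POL) (hTOR : S_TOR) (hEIG : S_EIG) (hSCA : S_SCA) (hCON : S_CON) (hPERF : S_PERF)
    (hSTA : S_STA) (hPUN : S_PUN) (hOUT : S_OUT) : S_DAT := by
  intro η hη
  set δ : ℝ := min (η / 2) (1 / 8) with hδ
  have hδ0 : 0 < δ := lt_min (by linarith) (by norm_num)
  have hδη : 2 * δ ≤ η := by have := min_le_left (η / 2) (1 / 8 : ℝ); rw [← hδ] at this; linarith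
  have hδ1 : δ ≤ 1 / 8 := min_le_right _ _
  obtain ⟨V₀, hV₀, hV₀b⟩ := hPERF δ hδ0
  obtain ⟨-, p2, p3, p4, p5, -, -, -⟩ := hPOL V₀ hV₀
  have hlim : Tendsto (fun q : ℝ => (tor V₀ / ar V₀ ^ 2) ^ (q - 1)) (𝓝 1) (𝓝 1) := by
    have h0 : 0 < tor V₀ / ar V₀ ^ 2 := by positivity
    have h1 : ContinuousAt (fun q : ℝ => (tor V₀ / ar V₀ ^ 2) ^ (q - 1)) 1 :=
      (Real.continuousAt_const_rpow h0.ne').comp (by fun_prop : ContinuousAt (fun q : ℝ => q - 1) 1)
    have := h1.tendsto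
    simpa using this
  have hev := hlim.eventually (lt_mem_nhds (show 1 - δ < 1 by linarith))
  rw [Metric.eventually_nhds_iff] at hev
  obtain ⟨r, hr, hev⟩ := hev
  refine ⟨1 + min r η, by have := lt_min hr hη; linarith, ?_⟩
  intro q hq hq1 U hM
  have hqr : q - 1 < r := by have := min_le_left r η; linarith
  have hqη : q - 1 ≤ η := by have := min_le_right r η; linarith
  have hG : 1 - δ < (tor V₀ / ar V₀ ^ 2) ^ (q - 1) := by
    apply hev
    rw [Real.dist_eq, abs_of_pos (by linarith)]; exact hqr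
  -- normalisation
  obtain ⟨-, u2, u3, u4, u5, u6, -, -⟩ := hPOL U hM.1
  set c₀ : ℝ := 1 / √(lambda1 U) with hc₀
  have hc₀pos : 0 < c₀ := by positivity
  have hc₀2 : c₀ ^ 2 * lambda1 U = 1 := by
    rw [hc₀, div_pow, one_pow, Real.sq_sqrt u2.le]; field_simp
  set V : Set ℂ := {z | c₀ • z ∈ U} with hV
  obtain ⟨hVa, hVl, -, -⟩ := hSCA U c₀ hM.1 hc₀pos
  rw [← hV] at hVa hVl
  rw [hc₀2] at hVl
  have hVM : IsMaxi q V := by
    refine ⟨hVa, fun W hW => ?_⟩
    rw [hV, dt_scale hPOL hSCA hM.1 hc₀pos]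
    exact hM.2 W hW
  obtain ⟨-, -, v3, v4, v5, v6, -, -⟩ := hPOL V hVa
  rw [hVl, one_mul] at v6
  -- lower bound for T
  have hTA : (1 - 2 * δ) * ar V ≤ tor V := by
    have h1 := hVM.2 V₀ hV₀
    unfold Fc at h1
    rw [dt_Fc p3 p4, dt_Fc v3 v4, hVl, one_mul] at h1
    have h2 : (1 - δ) * (1 - δ) ≤ lambda1 V₀ * tor V₀ / ar V₀ * (tor V₀ / ar V₀ ^ 2) ^ (q - 1) := by
      apply mul_le_mul _ hG.le (by linarith) (by positivity)
      rw [le_div_iff₀ p4]; exact hV₀b
    have h3 : (tor V / ar V ^ 2) ^ (q - 1) ≤ 1 := by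
      apply Real.rpow_le_one (by positivity) _ (by linarith)
      rw [div_le_one (by positivity)]
      linarith
    have h4 : tor V / ar V * (tor V / ar V ^ 2) ^ (q - 1) ≤ tor V / ar V :=
      mul_le_of_le_one_right (by positivity) h3
    have h5 : 1 - 2 * δ ≤ tor V / ar V := by nlinarith
    rwa [le_div_iff₀ v4] at h5
  have hpre := hCON q V hq hVM
  obtain ⟨w, wx, wy, hT⟩ := hTOR V hVa
  obtain ⟨u, ux, uy, hE⟩ := hEIG V hVa hpre
  set c : ℝ := √(tor V / q) with hc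
  have hq0 : 0 < q := by linarith
  have hcpos : 0 < c := Real.sqrt_pos.2 (by positivity)
  have hc2 : c ^ 2 = tor V / q := Real.sq_sqrt (by positivity)
  have hc2' : c ^ 2 = tor V / (q * lambda1 V) := by rw [hVl, mul_one]; exact hc2
  have hpun := hPUN q V w wx wy u ux uy hq hVM hT hE c hcpos hc2'
  have hpc : ∀ φ, TF V φ → Ip φ φ ≤ En φ φ := by
    intro φ hφ
    have := lambda1_mul_le hφ
    rwa [hVl, one_mul] at this
  have hVo := hVa.1
  have hVf := hVa.2.2
  have hI := ind_memLp hVo hVf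
  have hw2 : ∫ z, w z ^ 2 ≤ tor V := by
    rw [← hT.en]; exact dt_poincare hT.hw hpc
  refine ⟨V, w, wx, wy, fun z => c * u z, fun z => c * ux z, fun z => c * uy z,
    (2 * q - 1) * tor V / (q * ar V), ?_⟩
  refine ⟨hVa, hT.hw, hE.hw.smul c, hT.we, ?_, ?_, hpun, hpc, ?_, ?_, ?_, ?_⟩
  · have := hE.we.smul c
    simpa [hVl] using this
  · filter_upwards [hE.nn] with z hz
    exact mul_nonneg hcpos.le hz
  · -- sw
    have e1 : ∫ z, (ind V z - w z) ^ 2 = (∫ z, ind V z ^ 2) - 2 * (∫ z, ind V z * w z) + ∫ z, w z ^ 2 := by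
      have i1 := hI.integrable_sq
      have i2 : Integrable (fun z => 2 * (ind V z * w z)) := (hI.integrable_mul hT.hw.mf).const_mul 2
      have i3 := hT.hw.mf.integrable_sq
      have i4 : Integrable (fun z => ind V z ^ 2 - 2 * (ind V z * w z)) := i1.sub i2
      rw [← integral_const_mul, ← integral_sub i1 i2, ← integral_add i4 i3]
      congr 1; ext z; ring
    have e2 : ∫ z, ind V z ^ 2 = ar V := by
      rw [← integral_ind hVo]
      congr 1; ext z
      by_cases hz : z ∈ V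
      · rw [ind_of_mem hz]; norm_num
      · rw [ind_of_notMem hz]; norm_num
    have e3 : ∫ z, ind V z * w z = tor V := by
      rw [← hT.it]
      apply integral_congr_ae
      filter_upwards [hOUT V w wx wy hVo hT.hw] with z hz
      by_cases hzV : z ∈ V
      · rw [ind_of_mem hzV, one_mul]
      · rw [(hz hzV).1, mul_zero]
    rw [e1, e2, e3]
    nlinarith
  · -- sb
    have i1 : Integrable (fun z => (w z - c * u z) ^ 2) := (hT.hw.mf.sub (hE.hw.smul c).mf).integrable_sq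
    have i2 : Integrable (fun z => w z ^ 2 - c ^ 2 * u z ^ 2) :=
      hT.hw.mf.integrable_sq.sub (hE.hw.mf.integrable_sq.const_mul _)
    have e1 : ∫ z, (w z - c * u z) ^ 2 ≤ ∫ z, (w z ^ 2 - c ^ 2 * u z ^ 2) := by
      apply integral_mono_ae i1 i2
      filter_upwards [hpun, hE.nn] with z z1 z2
      have z3 : 0 ≤ c * u z := mul_nonneg hcpos.le z2
      show (w z - c * u z) ^ 2 ≤ w z ^ 2 - c ^ 2 * u z ^ 2
      nlinarith
    have e2 : ∫ z, (w z ^ 2 - c ^ 2 * u z ^ 2) = (∫ z, w z ^ 2) - c ^ 2 * ∫ z, u z ^ 2 := by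
      rw [← integral_const_mul]
      exact integral_sub hT.hw.mf.integrable_sq (hE.hw.mf.integrable_sq.const_mul _)
    rw [e2, hE.no, mul_one, hc2] at e1
    have e3 : tor V - tor V / q ≤ (q - 1) * tor V := by
      have : tor V - tor V / q = (q - 1) * tor V / q := by field_simp
      rw [this, div_le_iff₀ hq0]
      have : 0 ≤ (q - 1) * tor V := by apply mul_nonneg (by linarith) v3.le
      nlinarith
    have e4 : (q - 1) * tor V ≤ η * ar V := mul_le_mul hqη v6 v3.le hη.le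
    linarith
  · -- sL
    have h1 : (2 * q - 1) * tor V / (q * ar V) = ((2 * q - 1) / q) * (tor V / ar V) := by
      field_simp
    have h2 : 1 ≤ (2 * q - 1) / q := by rw [le_div_iff₀ hq0]; linarith
    have h3 : (2 * q - 1) / q ≤ 1 + (q - 1) := by rw [div_le_iff₀ hq0]; nlinarith
    have h4 : tor V / ar V ≤ 1 := by rw [div_le_one v4]; exact v6
    have h5 : 1 - 2 * δ ≤ tor V / ar V := by rw [le_div_iff₀ v4]; exact hTA
    have h6 : 0 < tor V / ar V := by positivity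
    rw [h1, abs_le]
    constructor
    · have : 1 * (tor V / ar V) ≤ (2 * q - 1) / q * (tor V / ar V) := mul_le_mul_of_nonneg_right h2 h6.le
      linarith
    · have : (2 * q - 1) / q * (tor V / ar V) ≤ (2 * q - 1) / q * 1 := mul_le_mul_of_nonneg_left h4 (by linarith)
      linarith
  · -- st
    intro a b ha hb
    have := hSTA q V w wx wy u ux uy hq hVM hT hE c hcpos hc2' a b ha hb
    rw [← this]
    congr 1; ext z
    unfold HF
    rw [hVl]; ring

end Pool.Agent.TH316.FQ
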