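import Pool.Agent.Helper533.StarBox.Pos

set_option autoImplicit false

/-! Definitions for the non-attainment of `F_q` in the plane (MP_898b17_an, MP_f46d6a_an). -/

open MeasureTheory Metric Set Filter
open scoped Topology

namespace Pool.Agent.TH316.FQ

open Pool.Agent.Helper533.StarBox

/-- torsional rigidity -/
noncomputable def tor (U : Set ℂ) : ℝ :=
  sSup {r : ℝ | ∃ u : ℂ → ℝ, IsTest U u ∧ r = (∫ z, u z) ^ 2 / En u u}

/-- area -/
noncomputable def ar (U : Set ℂ) : ℝ := (volume U).toReal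

/-- the functional `F_q` in the plane -/
noncomputable def Fc (q : ℝ) (U : Set ℂ) : ℝ :=
  lambda1 U * tor U ^ q / ar U ^ (2 * q - 1)

/-- admissible sets -/
def Adm (U : Set ℂ) : Prop := IsOpen U ∧ U.Nonempty ∧ volume U ≠ ⊤

/-- `U` is a maximiser of `F_q` -/
def IsMaxi (q : ℝ) (U : Set ℂ) : Prop := Adm U ∧ ∀ V, Adm V → Fc q V ≤ Fc q U

/-- `f` belongs to `H¹₀(U)` and has weak gradient `(p, q)` -/
structure HW (U : Set ℂ) (f p q : ℂ → ℝ) : Prop where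
  mf : MemLp f 2 (volume : Measure ℂ)
  mp : MemLp p 2 (volume : Measure ℂ)
  mq : MemLp q 2 (volume : Measure ℂ)
  app : ∀ ε > 0, ∃ v, TF U v ∧ ∫ z, (v z - f z) ^ 2 ≤ ε ∧
    ∫ z, ((gx v z - p z) ^ 2 + (gy v z - q z) ^ 2) ≤ ε

/-- the weak equation `-div (p, q) = h` in `U` -/
def WE (U : Set ℂ) (p q h : ℂ → ℝ) : Prop :=
  ∀ φ, TF U φ → ∫ z, (p z * gx φ z + q z * gy φ z) = ∫ z, h z * φ z

/-- indicator function -/
noncomputable def ind (U : Set ℂ) : ℂ → ℝ := U.indicator fun _ => 1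

/-- `(w, wx, wy)` is the torsion function of `U` -/
structure Tors (U : Set ℂ) (w wx wy : ℂ → ℝ) : Prop where
  hw : HW U w wx wy
  we : WE U wx wy (fun _ => 1)
  nn : ∀ᵐ z, 0 ≤ w z
  it : ∫ z, w z = tor U
  en : ∫ z, (wx z ^ 2 + wy z ^ 2) = tor U

/-- `(u, ux, uy)` is the normalised first eigenfunction of `U`, with stability of near minimisers -/
structure Eig (U : Set ℂ) (u ux uy : ℂ → ℝ) : Prop where
  hw : HW U u ux uy
  we : WE U ux uy (fun z => lambda1 U * u z)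
  nn : ∀ᵐ z, 0 ≤ u z
  no : ∫ z, u z ^ 2 = 1
  en : ∫ z, (ux z ^ 2 + uy z ^ 2) = lambda1 U
  st : ∀ φ : ℕ → ℂ → ℝ, (∀ n, TF U (φ n)) → Tendsto (fun n => Ip (φ n) (φ n)) atTop (𝓝 1) →
    Tendsto (fun n => En (φ n) (φ n)) atTop (𝓝 (lambda1 U)) →
    ∃ s : ℕ → ℝ, (∀ n, s n = 1 ∨ s n = -1) ∧
      Tendsto (fun n => ∫ z, ((s n * φ n z - u z) ^ 2 + (s n * gx (φ n) z - ux z) ^ 2 +
        (s n * gy (φ n) z - uy z) ^ 2)) atTop (𝓝 0)

/-- the (real and imaginary parts of the) difference of the Hopf differentials -/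
noncomputable def HP (wx wy vx vy : ℂ → ℝ) (z : ℂ) : ℝ :=
  wx z ^ 2 - wy z ^ 2 - (vx z ^ 2 - vy z ^ 2)
noncomputable def HR (wx wy vx vy : ℂ → ℝ) (z : ℂ) : ℝ := 2 * wx z * wy z - 2 * vx z * vy z
/-- the trace of the stress tensor -/
noncomputable def HF (U : Set ℂ) (w v : ℂ → ℝ) (Λ : ℝ) (z : ℂ) : ℝ := 2 * w z - v z ^ 2 - Λ * ind U z

/-- the divergence equation -/
def Stat (P R F : ℂ → ℝ) : Prop := ∀ a b, TF univ a → TF univ b →
  ∫ z, (P z * (gx a z - gy b z) + R z * (gx b z + gy a z) + F z * (gx a z + gy b z)) = 0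

/-- everything that is known about a maximiser for `q` close to `1`, normalised by `λ₁ = 1` -/
structure Data (U : Set ℂ) (w wx wy v vx vy : ℂ → ℝ) (Λ η : ℝ) : Prop where
  adm : Adm U
  hw : HW U w wx wy
  hv : HW U v vx vy
  ew : WE U wx wy (fun _ => 1)
  ev : WE U vx vy v
  v0 : ∀ᵐ z, 0 ≤ v z
  vw : ∀ᵐ z, v z ≤ w z
  pc : ∀ φ, TF U φ → Ip φ φ ≤ En φ φ
  sw : ∫ z, (ind U z - w z) ^ 2 ≤ η * ar U
  sb : ∫ z, (w z - v z) ^ 2 ≤ η * ar U
  sL : |Λ - 1| ≤ η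
  st : Stat (HP wx wy vx vy) (HR wx wy vx vy) (HF U w v Λ)

/-- mass of the averaging weight -/
noncomputable def m0 : ℝ := ∫ z, ww 1 z

/-- weighted average at scale `R` around `z` -/
noncomputable def Av (f : ℂ → ℝ) (R : ℝ) (z : ℂ) : ℝ := (∫ y, f y * ww R (y - z)) / m0

/-- `Δ f ≥ -c` in the plane, weakly -/
def SubL (f : ℂ → ℝ) (c : ℝ) : Prop := ∀ φ, TF univ φ → (∀ z, 0 ≤ φ z) →
  -(c * ∫ z, φ z) ≤ ∫ z, f z * lap φ z

end Pool.Agent.TH316.FQ
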