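import Pool.Agent.TH316.FQ.Stm

set_option autoImplicit false

/-! Transport of test functions by a small diffeomorphism. -/

open MeasureTheory Metric Set Filter
open scoped Topology

namespace Pool.Agent.TH316.FQ

open Pool.Agent.Helper533.StarBox

namespace DifX

/-- the vector field -/
noncomputable def XX (a b : ℂ → ℝ) (z : ℂ) : ℂ := a z • (1 : ℂ) + b z • Complex.I

/-- the map -/
noncomputable def Ph (a b : ℂ → ℝ) (t : ℝ) (z : ℂ) : ℂ := z + t • XX a b z

/-- its derivative -/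
noncomputable def DPh (a b : ℂ → ℝ) (t : ℝ) (z : ℂ) : ℂ →L[ℝ] ℂ :=
  ContinuousLinearMap.id ℝ ℂ + t • ((fderiv ℝ a z).smulRight (1 : ℂ) +
    (fderiv ℝ b z).smulRight Complex.I)

/-- the Jacobian -/
noncomputable def JJ (a b : ℂ → ℝ) (t : ℝ) (z : ℂ) : ℝ :=
  (1 + t * gx a z) * (1 + t * gy b z) - (t * gy a z) * (t * gx b z)

variable {a b : ℂ → ℝ}

theorem Ph_hasFDerivAt (ha : TF univ a) (hb : TF univ b) (t : ℝ) (z : ℂ) :
    HasFDerivAt (Ph a b t) (DPh a b t z) z := by
  unfold Ph DPh XX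
  exact (hasFDerivAt_id z).add ((((ha.diff z).hasFDerivAt.smul_const (1 : ℂ)).add
    ((hb.diff z).hasFDerivAt.smul_const Complex.I)).const_smul t)

theorem DPh_det (a b : ℂ → ℝ) (t : ℝ) (z : ℂ) : (DPh a b t z).det = JJ a b t z := by
  rw [ContinuousLinearMap.det, ← LinearMap.det_toMatrix Complex.basisOneI, Matrix.det_fin_two]
  simp only [LinearMap.toMatrix_apply, Complex.coe_basisOneI, DPh, JJ, gx, gy]
  simp

theorem Ph_smooth (ha : TF univ a) (hb : TF univ b) (t : ℝ) :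
    ContDiff ℝ (⊤ : ℕ∞) (Ph a b t) := by
  unfold Ph XX
  exact contDiff_id.add (((ha.smooth.smul contDiff_const).add
    (hb.smooth.smul contDiff_const)).const_smul t)

theorem exists_lip (ha : TF univ a) (hb : TF univ b) :
    ∃ L : ℝ, 0 ≤ L ∧ ∀ z w, ‖XX a b z - XX a b w‖ ≤ L * ‖z - w‖ := by
  obtain ⟨A, hA⟩ := ContDiff.lipschitzWith_of_hasCompactSupport ha.comp ha.smooth (by simp)
  obtain ⟨B, hB⟩ := ContDiff.lipschitzWith_of_hasCompactSupport hb.comp hb.smooth (by simp)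
  refine ⟨A + B, by positivity, fun z w => ?_⟩
  have h1 := hA.dist_le_mul z w
  have h2 := hB.dist_le_mul z w
  rw [dist_eq_norm, dist_eq_norm] at h1 h2
  have e : XX a b z - XX a b w = (a z - a w) • (1 : ℂ) + (b z - b w) • Complex.I := by
    unfold XX
    rw [sub_smul, sub_smul]; ring
  rw [e]
  refine (norm_add_le _ _).trans ?_
  rw [norm_smul, norm_smul, norm_one, Complex.norm_I, mul_one, mul_one]
  linarith

/-- the homeomorphism -/
theorem exists_homeo {L : ℝ} (hL : ∀ z w, ‖XX a b z - XX a b w‖ ≤ L * ‖z - w‖) {t : ℝ}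
    (ht : |t| * L ≤ 1 / 2) : ∃ e : ℂ ≃ₜ ℂ, ∀ z, e z = Ph a b t z := by
  have h : ApproximatesLinearOn (Ph a b t)
      ((ContinuousLinearEquiv.refl ℝ ℂ : ℂ ≃L[ℝ] ℂ) : ℂ →L[ℝ] ℂ) univ (1 / 2 : NNReal) := by
    intro x _ y _
    have e : Ph a b t x - Ph a b t y - ((ContinuousLinearEquiv.refl ℝ ℂ : ℂ ≃L[ℝ] ℂ) :
        ℂ →L[ℝ] ℂ) (x - y) = t • (XX a b x - XX a b y) := by
      simp only [Ph, ContinuousLinearEquiv.coe_refl, ContinuousLinearMap.coe_id', id_eq,
        smul_sub]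
      ring
    rw [e, norm_smul, Real.norm_eq_abs]
    have h1 := mul_le_mul_of_nonneg_left (hL x y) (abs_nonneg t)
    have h2 : |t| * (L * ‖x - y‖) ≤ (1 / 2) * ‖x - y‖ := by
      rw [← mul_assoc]
      exact mul_le_mul_of_nonneg_right ht (norm_nonneg _)
    push_cast
    linarith
  have hc : Subsingleton ℂ ∨ (1 / 2 : NNReal) <
      ‖((ContinuousLinearEquiv.refl ℝ ℂ).symm : ℂ →L[ℝ] ℂ)‖₊⁻¹ := by
    right
    have : ‖((ContinuousLinearEquiv.refl ℝ ℂ).symm : ℂ →L[ℝ] ℂ)‖₊ = 1 := by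
      ext
      simp
    rw [this, inv_one]
    exact NNReal.half_lt_self one_ne_zero
  refine ⟨h.toHomeomorph _ hc, fun z => ?_⟩
  rfl

/-- pointwise algebra -/
theorem alg_bound (α β γ δ s p q : ℝ) (hα : |α| ≤ s) (hβ : |β| ≤ s) (hγ : |γ| ≤ s)
    (hδ : |δ| ≤ s) (hs : s ≤ 1) :
    |((1 + δ) * p - γ * q) ^ 2 + ((1 + α) * q - β * p) ^ 2 -
      ((1 + α) * (1 + δ) - β * γ) * ((p ^ 2 + q ^ 2) -
        ((α - δ) * (p ^ 2 - q ^ 2) + 2 * (β + γ) * (p * q)))| ≤ 24 * s ^ 2 * (p ^ 2 + q ^ 2) := by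
  have hs0 : 0 ≤ s := (abs_nonneg _).trans hα
  set u := p ^ 2 + q ^ 2 with hu
  have hu0 : 0 ≤ u := by positivity
  have hv : |p ^ 2 - q ^ 2| ≤ u := by
    rw [abs_le]; constructor <;> nlinarith [sq_nonneg p, sq_nonneg q]
  have hw : |2 * (p * q)| ≤ u := by
    rw [abs_le]; constructor <;> nlinarith [sq_nonneg (p - q), sq_nonneg (p + q)]
  have hp : p ^ 2 ≤ u := by nlinarith [sq_nonneg q]
  have hq : q ^ 2 ≤ u := by nlinarith [sq_nonneg p]
  have mm : ∀ x y : ℝ, |x| ≤ s → |y| ≤ s → |x * y| ≤ s ^ 2 := by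
    intro x y hx hy
    rw [abs_mul, pow_two]
    exact mul_le_mul hx hy (abs_nonneg _) hs0
  have e : ((1 + δ) * p - γ * q) ^ 2 + ((1 + α) * q - β * p) ^ 2 -
      ((1 + α) * (1 + δ) - β * γ) * (u -
        ((α - δ) * (p ^ 2 - q ^ 2) + 2 * (β + γ) * (p * q))) =
      ((δ * δ + β * β) * p ^ 2 + (γ * γ + α * α) * q ^ 2 - (δ * γ + α * β) * (2 * (p * q))) -
      (α * δ - β * γ) * u +
      ((α + δ) + (α * δ - β * γ)) * ((α - δ) * (p ^ 2 - q ^ 2) + (β + γ) * (2 * (p * q))) := by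
    rw [hu]; ring
  rw [e]
  have h1 : |(δ * δ + β * β) * p ^ 2| ≤ 2 * s ^ 2 * u := by
    rw [abs_mul, abs_of_nonneg (sq_nonneg p)]
    refine mul_le_mul ?_ hp (sq_nonneg p) (by positivity)
    exact (abs_add_le _ _).trans (by linarith [mm δ δ hδ hδ, mm β β hβ hβ])
  have h2 : |(γ * γ + α * α) * q ^ 2| ≤ 2 * s ^ 2 * u := by
    rw [abs_mul, abs_of_nonneg (sq_nonneg q)]
    refine mul_le_mul ?_ hq (sq_nonneg q) (by positivity)
    exact (abs_add_le _ _).trans (by linarith [mm γ γ hγ hγ, mm α α hα hα])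
  have h3 : |(δ * γ + α * β) * (2 * (p * q))| ≤ 2 * s ^ 2 * u := by
    rw [abs_mul]
    refine mul_le_mul ?_ hw (abs_nonneg _) (by positivity)
    exact (abs_add_le _ _).trans (by linarith [mm δ γ hδ hγ, mm α β hα hβ])
  have h4 : |α * δ - β * γ| ≤ 2 * s ^ 2 :=
    (abs_sub _ _).trans (by linarith [mm α δ hα hδ, mm β γ hβ hγ])
  have h5 : |(α * δ - β * γ) * u| ≤ 2 * s ^ 2 * u := by
    rw [abs_mul, abs_of_nonneg hu0]
    exact mul_le_mul_of_nonneg_right h4 hu0
  have h6 : |(α + δ) + (α * δ - β * γ)| ≤ 4 * s := by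
    refine (abs_add_le _ _).trans ?_
    have := abs_add_le α δ
    nlinarith
  have h7 : |(α - δ) * (p ^ 2 - q ^ 2) + (β + γ) * (2 * (p * q))| ≤ 4 * s * u := by
    refine (abs_add_le _ _).trans ?_
    rw [abs_mul, abs_mul]
    have i1 : |α - δ| ≤ 2 * s := (abs_sub _ _).trans (by linarith)
    have i2 : |β + γ| ≤ 2 * s := (abs_add_le _ _).trans (by linarith)
    have i3 := mul_le_mul i1 hv (abs_nonneg _) (by positivity)
    have i4 := mul_le_mul i2 hw (abs_nonneg _) (by positivity)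
    linarith
  have h8 : |((α + δ) + (α * δ - β * γ)) *
      ((α - δ) * (p ^ 2 - q ^ 2) + (β + γ) * (2 * (p * q)))| ≤ 16 * s ^ 2 * u := by
    rw [abs_mul]
    calc _ ≤ (4 * s) * (4 * s * u) := mul_le_mul h6 h7 (abs_nonneg _) (by positivity)
      _ = 16 * s ^ 2 * u := by ring
  have a1 := abs_add_le (((δ * δ + β * β) * p ^ 2 + (γ * γ + α * α) * q ^ 2 -
      (δ * γ + α * β) * (2 * (p * q))) - (α * δ - β * γ) * u)
      (((α + δ) + (α * δ - β * γ)) * ((α - δ) * (p ^ 2 - q ^ 2) + (β + γ) * (2 * (p * q))))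
  have a2 := abs_sub ((δ * δ + β * β) * p ^ 2 + (γ * γ + α * α) * q ^ 2 -
      (δ * γ + α * β) * (2 * (p * q))) ((α * δ - β * γ) * u)
  have a3 := abs_sub ((δ * δ + β * β) * p ^ 2 + (γ * γ + α * α) * q ^ 2)
      ((δ * γ + α * β) * (2 * (p * q)))
  have a4 := abs_add_le ((δ * δ + β * β) * p ^ 2) ((γ * γ + α * α) * q ^ 2)
  have : 0 ≤ s ^ 2 * u := by positivity
  linarith

/-- pointwise energy identity -/
theorem en_point (α β γ δ s P Q : ℝ) (hα : |α| ≤ s) (hβ : |β| ≤ s) (hγ : |γ| ≤ s)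
    (hδ : |δ| ≤ s) (hs : s ≤ 1 / 8) (p q J : ℝ) (hp : p = (1 + α) * P + γ * Q)
    (hq : q = β * P + (1 + δ) * Q) (hJ : J = (1 + α) * (1 + δ) - β * γ) :
    |J * (P ^ 2 + Q ^ 2) - (p ^ 2 + q ^ 2) +
      ((α - δ) * (p ^ 2 - q ^ 2) + 2 * (β + γ) * (p * q))| ≤ 48 * s ^ 2 * (p ^ 2 + q ^ 2) := by
  have hs0 : 0 ≤ s := (abs_nonneg _).trans hα
  have hJ2 : 1 / 2 ≤ J := by
    have h1 : |β * γ| ≤ s ^ 2 := by
      rw [abs_mul, pow_two]; exact mul_le_mul hβ hγ (abs_nonneg _) hs0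
    have h2 := (abs_le.1 h1).2
    have h3 := (abs_le.1 hα).1
    have h4 := (abs_le.1 hδ).1
    have h5 : (1 - s) * (1 - s) ≤ (1 + α) * (1 + δ) :=
      mul_le_mul (by linarith) (by linarith) (by linarith) (by linarith)
    rw [hJ]
    nlinarith
  have h := alg_bound α β γ δ s p q hα hβ hγ hδ (by linarith)
  rw [← hJ] at h
  have e : ((1 + δ) * p - γ * q) ^ 2 + ((1 + α) * q - β * p) ^ 2 = J ^ 2 * (P ^ 2 + Q ^ 2) := by
    rw [hp, hq, hJ]; ring
  rw [e] at h
  have e2 : J ^ 2 * (P ^ 2 + Q ^ 2) - J * (p ^ 2 + q ^ 2 -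
      ((α - δ) * (p ^ 2 - q ^ 2) + 2 * (β + γ) * (p * q))) =
      J * (J * (P ^ 2 + Q ^ 2) - (p ^ 2 + q ^ 2) +
      ((α - δ) * (p ^ 2 - q ^ 2) + 2 * (β + γ) * (p * q))) := by ring
  rw [e2, abs_mul, abs_of_pos (by linarith : 0 < J)] at h
  have h6 : (1 / 2) * |J * (P ^ 2 + Q ^ 2) - (p ^ 2 + q ^ 2) +
      ((α - δ) * (p ^ 2 - q ^ 2) + 2 * (β + γ) * (p * q))| ≤
      J * |J * (P ^ 2 + Q ^ 2) - (p ^ 2 + q ^ 2) +
      ((α - δ) * (p ^ 2 - q ^ 2) + 2 * (β + γ) * (p * q))| :=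
    mul_le_mul_of_nonneg_right hJ2 (abs_nonneg _)
  linarith

theorem exists_bdd (ha : TF univ a) (hb : TF univ b) : ∃ B : ℝ, 1 ≤ B ∧
    ∀ z, |gx a z| ≤ B ∧ |gy a z| ≤ B ∧ |gx b z| ≤ B ∧ |gy b z| ≤ B := by
  obtain ⟨B1, h1⟩ := ha.gx_comp.exists_bound_of_continuous ha.gx_cont
  obtain ⟨B2, h2⟩ := ha.gy_comp.exists_bound_of_continuous ha.gy_cont
  obtain ⟨B3, h3⟩ := hb.gx_comp.exists_bound_of_continuous hb.gx_cont
  obtain ⟨B4, h4⟩ := hb.gy_comp.exists_bound_of_continuous hb.gy_cont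
  simp only [Real.norm_eq_abs] at h1 h2 h3 h4
  have n1 := (abs_nonneg _).trans (h1 0)
  have n2 := (abs_nonneg _).trans (h2 0)
  have n3 := (abs_nonneg _).trans (h3 0)
  have n4 := (abs_nonneg _).trans (h4 0)
  refine ⟨1 + B1 + B2 + B3 + B4, by linarith, fun z => ⟨?_, ?_, ?_, ?_⟩⟩
  · linarith [h1 z]
  · linarith [h2 z]
  · linarith [h3 z]
  · linarith [h4 z]

theorem JJ_cont (ha : TF univ a) (hb : TF univ b) (t : ℝ) : Continuous (JJ a b t) := by
  have h1 := ha.gx_cont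
  have h2 := ha.gy_cont
  have h3 := hb.gx_cont
  have h4 := hb.gy_cont
  unfold JJ
  fun_prop

/-- derivative of the composition -/
theorem g_comp (ha : TF univ a) (hb : TF univ b) (t : ℝ) {φ : ℂ → ℝ} (hφ : TF univ φ) (z : ℂ) :
    gx (fun z => φ (Ph a b t z)) z = (1 + t * gx a z) * gx φ (Ph a b t z) +
      (t * gx b z) * gy φ (Ph a b t z) ∧
    gy (fun z => φ (Ph a b t z)) z = (t * gy a z) * gx φ (Ph a b t z) +
      (1 + t * gy b z) * gy φ (Ph a b t z) := by
  have h := (hφ.diff (Ph a b t z)).hasFDerivAt.comp z (Ph_hasFDerivAt ha hb t z)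
  have h' : fderiv ℝ (fun z => φ (Ph a b t z)) z =
      (fderiv ℝ φ (Ph a b t z)).comp (DPh a b t z) := HasFDerivAt.fderiv h
  have lin : ∀ (A : ℂ →L[ℝ] ℝ) (x y : ℝ), A (x • (1 : ℂ) + y • Complex.I) =
      x * A 1 + y * A Complex.I := by
    intro A x y
    rw [map_add, map_smul, map_smul, smul_eq_mul, smul_eq_mul]
  constructor
  · unfold gx
    rw [h', ContinuousLinearMap.comp_apply]
    have e : DPh a b t z 1 = (1 + t * gx a z) • (1 : ℂ) + (t * gx b z) • Complex.I := by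
      simp only [DPh, gx, add_apply, smul_apply,
        ContinuousLinearMap.smulRight_apply, ContinuousLinearMap.coe_id', id_eq, add_smul,
        mul_smul, smul_add, one_smul]
      ring
    rw [e, lin]
    rfl
  · unfold gy
    rw [h', ContinuousLinearMap.comp_apply]
    have e : DPh a b t z Complex.I = (t * gy a z) • (1 : ℂ) + (1 + t * gy b z) • Complex.I := by
      simp only [DPh, gy, add_apply, smul_apply,
        ContinuousLinearMap.smulRight_apply, ContinuousLinearMap.coe_id', id_eq, add_smul,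
        mul_smul, smul_add, one_smul]
      ring
    rw [e, lin]
    rfl

/-- change of variables -/
theorem change (ha : TF univ a) (hb : TF univ b) {t : ℝ} (e : ℂ ≃ₜ ℂ)
    (he : ∀ z, e z = Ph a b t z) (hJ : ∀ z, 0 < JJ a b t z) {s : Set ℂ} (hs : MeasurableSet s)
    (g : ℂ → ℝ) : ∫ z in e '' s, g z = ∫ z in s, JJ a b t z * g (Ph a b t z) := by
  have hee : ⇑e = Ph a b t := funext he
  have h := integral_image_eq_integral_abs_det_fderiv_smul (volume : Measure ℂ) (s := s)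
    (f := Ph a b t) (f' := DPh a b t) hs
    (fun x _ => (Ph_hasFDerivAt ha hb t x).hasFDerivWithinAt)
    (by rw [← hee]; exact e.injective.injOn) g
  rw [hee, h]
  refine setIntegral_congr_fun hs fun z _ => ?_
  rw [DPh_det, abs_of_pos (hJ z), smul_eq_mul]

theorem change_univ (ha : TF univ a) (hb : TF univ b) {t : ℝ} (e : ℂ ≃ₜ ℂ)
    (he : ∀ z, e z = Ph a b t z) (hJ : ∀ z, 0 < JJ a b t z) (g : ℂ → ℝ) :
    ∫ z, g z = ∫ z, JJ a b t z * g (Ph a b t z) := by
  have h := change ha hb e he hJ MeasurableSet.univ g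
  rw [image_univ, e.surjective.range_eq, setIntegral_univ, setIntegral_univ] at h
  exact h

/-- the transport estimates -/
theorem transport (ha : TF univ a) (hb : TF univ b) {B : ℝ} (hB1 : 1 ≤ B)
    (hB : ∀ z, |gx a z| ≤ B ∧ |gy a z| ≤ B ∧ |gx b z| ≤ B ∧ |gy b z| ≤ B) {t : ℝ}
    (ht : |t| * B ≤ 1 / 8) (e : ℂ ≃ₜ ℂ) (he : ∀ z, e z = Ph a b t z)
    (hJ : ∀ z, 0 < JJ a b t z) {φ ψ : ℂ → ℝ} (hφ : TF univ φ) (hψ : TF univ ψ)
    (hφψ : ∀ z, ψ z = φ (Ph a b t z)) :
    |(∫ z, φ z) - (∫ z, ψ z) - t * ∫ z, ψ z * (gx a z + gy b z)| ≤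
      (48 * B ^ 2) * t ^ 2 * ∫ z, |ψ z| ∧
    |Ip φ φ - Ip ψ ψ - t * ∫ z, ψ z ^ 2 * (gx a z + gy b z)| ≤
      (48 * B ^ 2) * t ^ 2 * Ip ψ ψ ∧
    |En φ φ - En ψ ψ + t * ∫ z, ((gx a z - gy b z) * (gx ψ z ^ 2 - gy ψ z ^ 2) +
        2 * (gy a z + gx b z) * (gx ψ z * gy ψ z))| ≤ (48 * B ^ 2) * t ^ 2 * En ψ ψ := by
  have cgxa := ha.gx_cont
  have cgya := ha.gy_cont
  have cgxb := hb.gx_cont
  have cgyb := hb.gy_cont
  have cJ := JJ_cont ha hb t
  have cψ := hψ.cont
  have ht2 : t ^ 2 = |t| ^ 2 := (sq_abs t).symm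
  have hst : ∀ x : ℝ, |x| ≤ B → |t * x| ≤ |t| * B := fun x hx => by
    rw [abs_mul]; exact mul_le_mul_of_nonneg_left hx (abs_nonneg _)
  have hs2 : (|t| * B) ^ 2 = B ^ 2 * t ^ 2 := by rw [ht2]; ring
  -- the Jacobian remainder
  have hrem : ∀ z, |JJ a b t z - 1 - t * (gx a z + gy b z)| ≤ 48 * B ^ 2 * t ^ 2 := by
    intro z
    obtain ⟨h1, h2, h3, h4⟩ := hB z
    have e1 : JJ a b t z - 1 - t * (gx a z + gy b z) =
        (t * gx a z) * (t * gy b z) - (t * gy a z) * (t * gx b z) := by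
      unfold JJ; ring
    rw [e1]
    refine (abs_sub _ _).trans ?_
    have i1 : |(t * gx a z) * (t * gy b z)| ≤ (|t| * B) ^ 2 := by
      rw [abs_mul, pow_two]
      exact mul_le_mul (hst _ h1) (hst _ h4) (abs_nonneg _) (by positivity)
    have i2 : |(t * gy a z) * (t * gx b z)| ≤ (|t| * B) ^ 2 := by
      rw [abs_mul, pow_two]
      exact mul_le_mul (hst _ h2) (hst _ h3) (abs_nonneg _) (by positivity)
    rw [hs2] at i1 i2
    have : 0 ≤ B ^ 2 * t ^ 2 := by positivity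
    linarith
  -- general estimate for a continuous compactly supported function
  have gen : ∀ h : ℂ → ℝ, Continuous h → HasCompactSupport h →
      |(∫ z, JJ a b t z * h z) - (∫ z, h z) - t * ∫ z, h z * (gx a z + gy b z)| ≤
      (48 * B ^ 2) * t ^ 2 * ∫ z, |h z| := by
    intro h hc hcs
    have I1 : Integrable (fun z => JJ a b t z * h z) :=
      (cJ.mul hc).integrable_of_hasCompactSupport hcs.mul_left
    have I2 : Integrable h := hc.integrable_of_hasCompactSupport hcs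
    have I3 : Integrable (fun z => h z * (gx a z + gy b z)) :=
      (hc.mul (cgxa.add cgyb)).integrable_of_hasCompactSupport hcs.mul_right
    have I12 : Integrable (fun z => JJ a b t z * h z - h z) := I1.sub I2
    rw [← integral_const_mul, ← integral_sub I1 I2, ← integral_sub I12 (I3.const_mul t),
      ← integral_const_mul]
    refine (abs_integral_le_integral_abs).trans (integral_mono
      (I12.sub (I3.const_mul t)).abs (I2.abs.const_mul _) fun z => ?_)
    have e1 : JJ a b t z * h z - h z - t * (h z * (gx a z + gy b z)) =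
        (JJ a b t z - 1 - t * (gx a z + gy b z)) * h z := by ring
    rw [e1, abs_mul]
    exact mul_le_mul_of_nonneg_right (hrem z) (abs_nonneg _)
  refine ⟨?_, ?_, ?_⟩
  · rw [change_univ ha hb e he hJ φ]
    simp_rw [← hφψ]
    exact gen ψ cψ hψ.comp
  · rw [Ip_self, Ip_self, change_univ ha hb e he hJ (fun z => φ z ^ 2)]
    simp_rw [← hφψ]
    have h := gen (fun z => ψ z ^ 2) (cψ.pow 2) (IsCompact.of_isClosed_subset hψ.comp
      (isClosed_tsupport _) (tsupport_sub_of_zero (fun z h => by simp [h])))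
    have e1 : ∀ z, |ψ z ^ 2| = ψ z ^ 2 := fun z => abs_of_nonneg (sq_nonneg _)
    simp_rw [e1] at h
    exact h
  · rw [En_self, En_self, change_univ ha hb e he hJ (fun z => gx φ z ^ 2 + gy φ z ^ 2)]
    have cgxψ := hψ.gx_cont
    have cgyψ := hψ.gy_cont
    have cPh : Continuous (Ph a b t) := (Ph_smooth ha hb t).continuous
    have hcs : HasCompactSupport (fun z => gx φ (Ph a b t z) ^ 2 + gy φ (Ph a b t z) ^ 2) := by
      have h1 : HasCompactSupport (fun z => gx φ z ^ 2 + gy φ z ^ 2) := by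
        apply IsCompact.of_isClosed_subset hφ.comp (isClosed_tsupport _)
        apply closure_minimal _ (isClosed_tsupport _)
        intro z hz
        by_contra hcon
        apply hz
        simp [TF.gx_zero hcon, TF.gy_zero hcon]
      have h2 := h1.comp_homeomorph e
      have h3 : (fun z => gx φ z ^ 2 + gy φ z ^ 2) ∘ ⇑e =
          fun z => gx φ (Ph a b t z) ^ 2 + gy φ (Ph a b t z) ^ 2 := by
        funext z
        simp only [Function.comp, he]
      rw [h3] at h2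
      exact h2
    have cc : Continuous (fun z => gx φ (Ph a b t z) ^ 2 + gy φ (Ph a b t z) ^ 2) :=
      ((hφ.gx_cont.comp cPh).pow 2).add ((hφ.gy_cont.comp cPh).pow 2)
    have I1 : Integrable (fun z => JJ a b t z *
        (gx φ (Ph a b t z) ^ 2 + gy φ (Ph a b t z) ^ 2)) :=
      (cJ.mul cc).integrable_of_hasCompactSupport hcs.mul_left
    have I2 : Integrable (fun z => gx ψ z ^ 2 + gy ψ z ^ 2) := hψ.ensq_int
    have I3 : Integrable (fun z => (gx a z - gy b z) * (gx ψ z ^ 2 - gy ψ z ^ 2) +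
        2 * (gy a z + gx b z) * (gx ψ z * gy ψ z)) := by
      apply Continuous.integrable_of_hasCompactSupport
      · fun_prop
      · apply IsCompact.of_isClosed_subset hψ.comp (isClosed_tsupport _)
        apply closure_minimal _ (isClosed_tsupport _)
        intro z hz
        by_contra hcon
        apply hz
        simp [TF.gx_zero hcon, TF.gy_zero hcon]
    have I12 : Integrable (fun z => JJ a b t z *
        (gx φ (Ph a b t z) ^ 2 + gy φ (Ph a b t z) ^ 2) - (gx ψ z ^ 2 + gy ψ z ^ 2)) :=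
      I1.sub I2
    rw [← integral_const_mul, ← integral_sub I1 I2, ← integral_add I12 (I3.const_mul t),
      ← integral_const_mul]
    refine (abs_integral_le_integral_abs).trans (integral_mono
      (I12.add (I3.const_mul t)).abs (I2.const_mul _) fun z => ?_)
    obtain ⟨h1, h2, h3, h4⟩ := hB z
    obtain ⟨g1, g2⟩ := g_comp ha hb t hφ z
    have hψe : ψ = fun z => φ (Ph a b t z) := funext hφψ
    rw [← hψe] at g1 g2
    have h := en_point (t * gx a z) (t * gy a z) (t * gx b z) (t * gy b z) (|t| * B)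
      (gx φ (Ph a b t z)) (gy φ (Ph a b t z)) (hst _ h1) (hst _ h2) (hst _ h3) (hst _ h4) ht
      (gx ψ z) (gy ψ z) (JJ a b t z) g1 g2 rfl
    rw [hs2] at h
    have e1 : JJ a b t z * (gx φ (Ph a b t z) ^ 2 + gy φ (Ph a b t z) ^ 2) -
        (gx ψ z ^ 2 + gy ψ z ^ 2) +
        t * ((gx a z - gy b z) * (gx ψ z ^ 2 - gy ψ z ^ 2) +
        2 * (gy a z + gx b z) * (gx ψ z * gy ψ z)) =
        JJ a b t z * (gx φ (Ph a b t z) ^ 2 + gy φ (Ph a b t z) ^ 2) -
        (gx ψ z ^ 2 + gy ψ z ^ 2) +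
        ((t * gx a z - t * gy b z) * (gx ψ z ^ 2 - gy ψ z ^ 2) +
        2 * (t * gy a z + t * gx b z) * (gx ψ z * gy ψ z)) := by ring
    rw [e1]
    linarith

end DifX

open DifX in
theorem dif : S_DIF := by
  intro a b ha hb
  obtain ⟨L, hL0, hL⟩ := exists_lip ha hb
  obtain ⟨B, hB1, hB⟩ := exists_bdd ha hb
  refine ⟨1 / (8 * (L + B)), by positivity, 48 * B ^ 2, by positivity, fun t ht U hU hfin => ?_⟩
  have hLB : 0 < L + B := by linarith
  have htLB : |t| * (L + B) ≤ 1 / 8 := by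
    rw [le_div_iff₀ (by positivity)] at ht
    linarith
  have htL : |t| * L ≤ 1 / 2 := by
    have : |t| * L ≤ |t| * (L + B) := mul_le_mul_of_nonneg_left (by linarith) (abs_nonneg _)
    linarith
  have htB : |t| * B ≤ 1 / 8 :=
    (mul_le_mul_of_nonneg_left (by linarith : B ≤ L + B) (abs_nonneg _)).trans htLB
  obtain ⟨e, he⟩ := exists_homeo hL htL
  have hst : ∀ x : ℝ, |x| ≤ B → |t * x| ≤ 1 / 8 := fun x hx => by
    rw [abs_mul]; exact (mul_le_mul_of_nonneg_left hx (abs_nonneg _)).trans htB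
  have hJ' : ∀ z, 1 / 2 ≤ JJ a b t z ∧ JJ a b t z ≤ 2 := by
    intro z
    obtain ⟨h1, h2, h3, h4⟩ := hB z
    have i1 := abs_le.1 (hst _ h1)
    have i4 := abs_le.1 (hst _ h4)
    have i23 : |(t * gy a z) * (t * gx b z)| ≤ 1 / 64 := by
      rw [abs_mul]
      calc _ ≤ (1 / 8 : ℝ) * (1 / 8) :=
            mul_le_mul (hst _ h2) (hst _ h3) (abs_nonneg _) (by norm_num)
        _ = 1 / 64 := by norm_num
    have i23' := abs_le.1 i23
    unfold JJ
    constructor
    · nlinarith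
    · nlinarith
  have hJ : ∀ z, 0 < JJ a b t z := fun z => by linarith [(hJ' z).1]
  have hee : ⇑e = Ph a b t := funext he
  have cJ := JJ_cont ha hb t
  -- smooth inverse
  have hinv : ContDiff ℝ (⊤ : ℕ∞) e.symm := by
    refine e.contDiff_symm (f₀' := fun z => (DPh a b t z).toContinuousLinearEquivOfDetNeZero
      (by rw [DPh_det]; exact (hJ z).ne')) ?_ ?_
    · intro z
      rw [ContinuousLinearMap.coe_toContinuousLinearEquivOfDetNeZero, hee]
      exact Ph_hasFDerivAt ha hb t z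
    · rw [hee]; exact Ph_smooth ha hb t
  have hvol : volume (e '' U) ≠ ⊤ := by
    have h := lintegral_abs_det_fderiv_eq_addHaar_image (volume : Measure ℂ) (s := U)
      (f := Ph a b t) (f' := DPh a b t) hU.measurableSet
      (fun x _ => (Ph_hasFDerivAt ha hb t x).hasFDerivWithinAt)
      (by rw [← hee]; exact e.injective.injOn)
    rw [hee, ← h]
    have h2 : ∫⁻ x in U, ENNReal.ofReal |(DPh a b t x).det| ≤ ∫⁻ _x in U, ENNReal.ofReal 2 := by
      apply lintegral_mono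
      intro x
      apply ENNReal.ofReal_le_ofReal
      rw [DPh_det, abs_of_pos (hJ x)]
      exact (hJ' x).2
    refine ne_top_of_le_ne_top ?_ h2
    rw [lintegral_const, Measure.restrict_apply_univ]
    exact ENNReal.mul_ne_top ENNReal.ofReal_ne_top hfin
  refine ⟨e '' U, e.isOpenMap U hU, fun h => h.image _, hvol, ?_, ?_⟩
  · -- area
    have harV : ar (e '' U) = ∫ z in U, JJ a b t z := by
      have h := change ha hb e he hJ hU.measurableSet (fun _ => 1)
      simp only [mul_one] at h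
      rw [← h, integral_const, smul_eq_mul, mul_one]
      simp [ar, Measure.real]
    have harU : ar U = ∫ _z in U, (1 : ℝ) := by
      rw [integral_const, smul_eq_mul, mul_one]
      simp [ar, Measure.real]
    have : IsFiniteMeasure (volume.restrict U) := ⟨by
      rw [Measure.restrict_apply_univ]; exact lt_top_iff_ne_top.2 hfin⟩
    have I1 : Integrable (JJ a b t) (volume.restrict U) :=
      Integrable.of_bound cJ.aestronglyMeasurable 2 (ae_of_all _ fun z => by
        rw [Real.norm_eq_abs, abs_of_pos (hJ z)]; exact (hJ' z).2)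
    have I2 : Integrable (fun _ : ℂ => (1 : ℝ)) (volume.restrict U) := integrable_const _
    have I3 : Integrable (fun z => gx a z + gy b z) (volume.restrict U) :=
      Integrable.of_bound (ha.gx_cont.add hb.gy_cont).aestronglyMeasurable (2 * B)
        (ae_of_all _ fun z => by
          rw [Real.norm_eq_abs]
          refine (abs_add_le _ _).trans ?_
          linarith [(hB z).1, (hB z).2.2.2])
    have I12 : Integrable (fun z => JJ a b t z - 1) (volume.restrict U) := I1.sub I2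
    rw [harV, harU, ← integral_const_mul, ← integral_const_mul, ← integral_sub I1 I2,
      ← integral_sub I12 (I3.const_mul t)]
    refine (abs_integral_le_integral_abs).trans (integral_mono
      (I12.sub (I3.const_mul t)).abs (I2.const_mul _) fun z => ?_)
    simp only [mul_one]
    obtain ⟨h1, h2, h3, h4⟩ := hB z
    have e1 : JJ a b t z - 1 - t * (gx a z + gy b z) =
        t ^ 2 * (gx a z * gy b z - gy a z * gx b z) := by
      unfold JJ; ring
    rw [e1, abs_mul, abs_of_nonneg (sq_nonneg t)]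
    have i1 : |gx a z * gy b z| ≤ B ^ 2 := by
      rw [abs_mul, pow_two]; exact mul_le_mul h1 h4 (abs_nonneg _) (by linarith)
    have i2 : |gy a z * gx b z| ≤ B ^ 2 := by
      rw [abs_mul, pow_two]; exact mul_le_mul h2 h3 (abs_nonneg _) (by linarith)
    have i3 : |gx a z * gy b z - gy a z * gx b z| ≤ 2 * B ^ 2 :=
      (abs_sub _ _).trans (by linarith)
    have i4 := mul_le_mul_of_nonneg_left i3 (sq_nonneg t)
    have i5 : 0 ≤ B ^ 2 * t ^ 2 := by positivity
    linarith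
  · -- test functions
    intro T hT
    subst hT
    constructor
    · intro ψ hψ
      have hφ : TF (e '' U) (ψ ∘ e.symm) := by
        refine ⟨hψ.smooth.comp hinv, hψ.comp.comp_homeomorph e.symm, ?_⟩
        rw [tsupport_comp_eq_preimage]
        intro z hz
        exact ⟨e.symm z, hψ.supp hz, e.apply_symm_apply z⟩
      refine ⟨ψ ∘ e.symm, hφ, ?_⟩
      exact transport ha hb hB1 hB htB e he hJ (hφ.mono (subset_univ _))
        (hψ.mono (subset_univ _)) (fun z => by
          rw [← he z]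
          simp only [Function.comp, Homeomorph.symm_apply_apply])
    · intro φ hφ
      have hψ : TF U (φ ∘ e) := by
        refine ⟨?_, hφ.comp.comp_homeomorph e, ?_⟩
        · rw [hee]; exact hφ.smooth.comp (Ph_smooth ha hb t)
        · rw [tsupport_comp_eq_preimage]
          intro z hz
          obtain ⟨w, hw, hwz⟩ := hφ.supp hz
          rwa [e.injective hwz] at hw
      refine ⟨φ ∘ e, hψ, ?_⟩
      exact transport ha hb hB1 hB htB e he hJ (hφ.mono (subset_univ _))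
        (hψ.mono (subset_univ _)) (fun z => by
          rw [← he z]
          rfl)

end Pool.Agent.TH316.FQ
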