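import Pool.Agent.TH316.FQ.Stm
import Pool.Agent.TH316.FQ.Bas
set_option autoImplicit false

open MeasureTheory Metric Set Filter
open scoped Topology

namespace Pool.Agent.TH316.FQ

open Pool.Agent.Helper533.StarBox

namespace EigfX

theorem l2t_of {U : Set ℂ} {u : ℕ → ℂ → ℝ} {f p q : ℂ → ℝ} (hu : ∀ n, TF U (u n))
    (hw : HW U f p q)
    (h : Tendsto (fun n => ∫ z, ((u n z - f z) ^ 2 + (gx (u n) z - p z) ^ 2 +
      (gy (u n) z - q z) ^ 2)) atTop (𝓝 0)) :
    L2T u f ∧ L2T (fun n => gx (u n)) p ∧ L2T (fun n => gy (u n)) q := by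
  have m1 : ∀ n, MemLp (u n) 2 (volume : Measure ℂ) := fun n => (hu n).memLp
  have m2 : ∀ n, MemLp (gx (u n)) 2 (volume : Measure ℂ) := fun n => (hu n).gx_tf.memLp
  have m3 : ∀ n, MemLp (gy (u n)) 2 (volume : Measure ℂ) := fun n => (hu n).gy_tf.memLp
  have i1 : ∀ n, Integrable (fun z => (u n z - f z) ^ 2) := fun n => ((m1 n).sub hw.mf).integrable_sq
  have i2 : ∀ n, Integrable (fun z => (gx (u n) z - p z) ^ 2) := fun n =>
    ((m2 n).sub hw.mp).integrable_sq
  have i3 : ∀ n, Integrable (fun z => (gy (u n) z - q z) ^ 2) := fun n =>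
    ((m3 n).sub hw.mq).integrable_sq
  refine ⟨⟨m1, hw.mf, ?_⟩, ⟨m2, hw.mp, ?_⟩, ⟨m3, hw.mq, ?_⟩⟩
  · refine squeeze_zero (fun n => integral_nonneg fun z => sq_nonneg _) (fun n => ?_) h
    refine integral_mono (i1 n) (((i1 n).add (i2 n)).add (i3 n)) fun z => ?_
    show (u n z - f z) ^ 2 ≤ (u n z - f z) ^ 2 + (gx (u n) z - p z) ^ 2 + (gy (u n) z - q z) ^ 2
    nlinarith [sq_nonneg (gx (u n) z - p z), sq_nonneg (gy (u n) z - q z)]
  · refine squeeze_zero (fun n => integral_nonneg fun z => sq_nonneg _) (fun n => ?_) h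
    refine integral_mono (i2 n) (((i1 n).add (i2 n)).add (i3 n)) fun z => ?_
    show (gx (u n) z - p z) ^ 2 ≤
      (u n z - f z) ^ 2 + (gx (u n) z - p z) ^ 2 + (gy (u n) z - q z) ^ 2
    nlinarith [sq_nonneg (u n z - f z), sq_nonneg (gy (u n) z - q z)]
  · refine squeeze_zero (fun n => integral_nonneg fun z => sq_nonneg _) (fun n => ?_) h
    refine integral_mono (i3 n) (((i1 n).add (i2 n)).add (i3 n)) fun z => ?_
    show (gy (u n) z - q z) ^ 2 ≤
      (u n z - f z) ^ 2 + (gx (u n) z - p z) ^ 2 + (gy (u n) z - q z) ^ 2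
    nlinarith [sq_nonneg (u n z - f z), sq_nonneg (gx (u n) z - p z)]

theorem Qf_sub_le {U : Set ℂ} {u v : ℂ → ℝ} (hu : TF U u) (hv : TF U v) :
    Qf U (fun z => u z - v z) (fun z => u z - v z) ≤ 2 * Qf U u u + 2 * Qf U v v := by
  have h1 := Qf_add_le hu (hv.smul (-1))
  rw [Qf_smul_self (-1) hv] at h1
  have e : (fun z => u z + -1 * v z) = fun z => u z - v z := by ext z; ring
  rw [e] at h1
  linarith

theorem Ip_sub {U : Set ℂ} {u v : ℂ → ℝ} (hu : TF U u) (hv : TF U v) :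
    Ip (fun z => u z - v z) (fun z => u z - v z) = ‖cls u - cls v‖ ^ 2 := by
  rw [Ip_self, norm_cls_sub_sq hu.memLp hv.memLp]

theorem En_eq (U : Set ℂ) (u v : ℂ → ℝ) : En u v = Qf U u v + lambda1 U * Ip u v := by
  unfold Qf; ring

end EigfX

open EigfX

theorem eigf (hFK : S_FK) (hPOL : S_POL) (hGAP : S_GAP) (hCMP : S_CMP) : S_EIG := by
  intro U hU hc
  obtain ⟨F, hGS, hF1, hF0, γ, hγ, hgap⟩ := hGAP U hU hc
  set lam := lambda1 U with hlam
  have hlam0 : 0 ≤ lam := lambda1_nonneg U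
  have hex : ∀ n : ℕ, ∃ v, TF U v ∧ ‖cls v - F‖ ≤ 1 / ((n : ℝ) + 1) ∧ Qf U v v ≤ 1 / ((n : ℝ) + 1) :=
    fun n => hGS _ (by positivity)
  choose v hv hvF hvQ using hex
  have e0 : Tendsto (fun n : ℕ => 1 / ((n : ℝ) + 1)) atTop (𝓝 0) := tendsto_one_div_add_atTop_nhds_zero_nat
  have hcv : Tendsto (fun n => cls (v n)) atTop (𝓝 F) := by
    rw [tendsto_iff_norm_sub_tendsto_zero]
    exact squeeze_zero (fun n => norm_nonneg _) hvF e0
  have hQv : Tendsto (fun n => Qf U (v n) (v n)) atTop (𝓝 0) :=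
    squeeze_zero (fun n => Qf_nonneg (hv n)) hvQ e0
  have hIv : Tendsto (fun n => Ip (v n) (v n)) atTop (𝓝 1) := by
    have h1 := (hcv.norm).pow 2
    rw [hF1, one_pow] at h1
    exact h1.congr fun n => norm_cls_sq (hv n)
  -- Cauchy
  have hcau : ∀ ε > 0, ∃ N, ∀ m ≥ N, ∀ n ≥ N,
      Ip (fun z => v m z - v n z) (fun z => v m z - v n z) ≤ ε ∧
      En (fun z => v m z - v n z) (fun z => v m z - v n z) ≤ ε := by
    intro ε hε
    set η : ℝ := min 1 (ε / (4 * (lam + 2))) with hη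
    have hη0 : 0 < η := by rw [hη]; positivity
    have hη1 : η ≤ 1 := min_le_left _ _
    have hη2 : η * (4 * (lam + 2)) ≤ ε := by
      have h1 : η ≤ ε / (4 * (lam + 2)) := min_le_right _ _
      calc η * (4 * (lam + 2)) ≤ ε / (4 * (lam + 2)) * (4 * (lam + 2)) := by gcongr
        _ = ε := by field_simp
    obtain ⟨N, hN⟩ := (eventually_atTop.1 (e0.eventually (ge_mem_nhds hη0)))
    refine ⟨N, fun m hm n hn => ?_⟩
    have a1 := hN m hm
    have a2 := hN n hn
    have b1 := (hvF m).trans a1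
    have b2 := (hvF n).trans a2
    have b3 : ‖cls (v m) - cls (v n)‖ ≤ 2 * η := by
      calc ‖cls (v m) - cls (v n)‖ = ‖(cls (v m) - F) - (cls (v n) - F)‖ := by congr 1; abel
        _ ≤ ‖cls (v m) - F‖ + ‖cls (v n) - F‖ := norm_sub_le _ _
        _ ≤ 2 * η := by linarith
    have b4 : Ip (fun z => v m z - v n z) (fun z => v m z - v n z) ≤ 4 * η := by
      rw [Ip_sub (hv m) (hv n)]
      have h1 : ‖cls (v m) - cls (v n)‖ ^ 2 ≤ (2 * η) ^ 2 := pow_le_pow_left₀ (norm_nonneg _) b3 2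
      nlinarith
    have b5 := Qf_sub_le (hv m) (hv n)
    have c1 := (hvQ m).trans a1
    have c2 := (hvQ n).trans a2
    have b6 : En (fun z => v m z - v n z) (fun z => v m z - v n z) ≤ 4 * η + lam * (4 * η) := by
      rw [En_eq U]
      have := mul_le_mul_of_nonneg_left b4 hlam0
      linarith
    constructor
    · nlinarith
    · nlinarith
  obtain ⟨u, p, q, hw, hlim⟩ := hCMP U v hv hcau
  obtain ⟨l1, l2, l3⟩ := l2t_of hv hw hlim
  have hFu : F = cls u := tendsto_nhds_unique hcv l1.cls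
  have hnn : ∀ᵐ z, 0 ≤ u z := by
    have h1 := cls_coe hw.mf
    rw [← hFu] at h1
    filter_upwards [h1, hF0] with z h2 h3
    rw [← h2]; exact h3
  have hno : ∫ z, u z ^ 2 = 1 := by
    have h1 := tendsto_nhds_unique l1.sq (hIv.congr fun n => by rw [Ip_self])
    exact h1
  have hEl : ∀ (ψ : ℂ → ℝ), TF U ψ → Tendsto (fun n => En (v n) ψ) atTop
      (𝓝 (∫ z, (p z * gx ψ z + q z * gy ψ z))) := by
    intro ψ hψ
    have h1 := l2.mul (L2T.const hψ.gx_tf.memLp)
    have h2 := l3.mul (L2T.const hψ.gy_tf.memLp)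
    have h3 := h1.add h2
    have e : ∫ z, (p z * gx ψ z + q z * gy ψ z) = (∫ z, p z * gx ψ z) + ∫ z, q z * gy ψ z :=
      integral_add (hw.mp.integrable_mul hψ.gx_tf.memLp) (hw.mq.integrable_mul hψ.gy_tf.memLp)
    rw [e]
    refine h3.congr fun n => ?_
    exact (integral_add ((l2.ma n).integrable_mul hψ.gx_tf.memLp)
      ((l3.ma n).integrable_mul hψ.gy_tf.memLp)).symm
  have hEE : Tendsto (fun n => En (v n) (v n)) atTop (𝓝 (∫ z, (p z ^ 2 + q z ^ 2))) := by
    have h3 := l2.sq.add l3.sq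
    have e : ∫ z, (p z ^ 2 + q z ^ 2) = (∫ z, p z ^ 2) + ∫ z, q z ^ 2 :=
      integral_add hw.mp.integrable_sq hw.mq.integrable_sq
    rw [e]
    refine h3.congr fun n => ?_
    rw [En_self]
    exact (integral_add (l2.ma n).integrable_sq (l3.ma n).integrable_sq).symm
  have hen : ∫ z, (p z ^ 2 + q z ^ 2) = lam := by
    have h1 := hQv.add (hIv.const_mul lam)
    rw [zero_add, mul_one] at h1
    exact tendsto_nhds_unique hEE (h1.congr fun n => (En_eq U _ _).symm)
  have hwe : WE U p q (fun z => lam * u z) := by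
    intro ψ hψ
    have h1 : Tendsto (fun n => Qf U (v n) ψ) atTop (𝓝 0) := by
      have h2 : Tendsto (fun n => √(Qf U (v n) (v n)) * √(Qf U ψ ψ)) atTop (𝓝 0) := by
        have h3 := (Real.continuous_sqrt.tendsto 0).comp hQv
        rw [Real.sqrt_zero] at h3
        simpa using h3.mul_const (√(Qf U ψ ψ))
      exact squeeze_zero_norm (fun n => by rw [Real.norm_eq_abs]; exact Qf_abs_le (hv n) hψ) h2
    have h2 : Tendsto (fun n => Ip (v n) ψ) atTop (𝓝 (∫ z, u z * ψ z)) :=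
      l1.mul (L2T.const hψ.memLp)
    have h3 := h1.add (h2.const_mul lam)
    rw [zero_add] at h3
    have h4 := tendsto_nhds_unique (hEl ψ hψ) (h3.congr fun n => (En_eq U _ _).symm)
    rw [h4, ← integral_const_mul]
    congr 1; ext z; ring
  refine ⟨u, p, q, hw, hwe, hnn, hno, hen, ?_⟩
  -- stability
  intro φ hφ hI hE
  have hQφ : Tendsto (fun n => Qf U (φ n) (φ n)) atTop (𝓝 0) := by
    have h1 := hE.sub (hI.const_mul lam)
    rw [mul_one, sub_self] at h1
    exact h1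
  set ip : ℕ → ℝ := fun n => inner ℝ (cls (φ n)) F with hip
  have hcs : ∀ n, ip n ^ 2 ≤ Ip (φ n) (φ n) := by
    intro n
    have h1 := abs_real_inner_le_norm (cls (φ n)) F
    rw [hF1, mul_one] at h1
    rw [← norm_cls_sq (hφ n), ← sq_abs]
    exact pow_le_pow_left₀ (abs_nonneg _) h1 2
  have hdiff : Tendsto (fun n => Ip (φ n) (φ n) - ip n ^ 2) atTop (𝓝 0) := by
    have h1 : Tendsto (fun n => (1 / γ) * Qf U (φ n) (φ n)) atTop (𝓝 0) := by
      simpa using hQφ.const_mul (1 / γ)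
    refine squeeze_zero (fun n => by linarith [hcs n]) (fun n => ?_) h1
    have h2 := hgap (φ n) (hφ n)
    rw [one_div, inv_mul_eq_div, le_div_iff₀ hγ]
    linarith
  have hip2 : Tendsto (fun n => ip n ^ 2) atTop (𝓝 1) := by
    have h1 := hI.sub hdiff
    rw [sub_zero] at h1
    exact h1.congr fun n => by ring
  have hipa : Tendsto (fun n => |ip n|) atTop (𝓝 1) := by
    have h1 := (Real.continuous_sqrt.tendsto 1).comp hip2
    rw [Real.sqrt_one] at h1
    refine h1.congr fun n => ?_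
    show √(ip n ^ 2) = |ip n|
    exact Real.sqrt_sq_eq_abs _
  set s : ℕ → ℝ := fun n => if 0 ≤ ip n then 1 else -1 with hs
  have hs1 : ∀ n, s n = 1 ∨ s n = -1 := by
    intro n
    by_cases h : 0 ≤ ip n
    · left; simp [hs, h]
    · right; simp [hs, h]
  have hss : ∀ n, s n ^ 2 = 1 := by
    intro n; rcases hs1 n with h | h <;> rw [h] <;> norm_num
  have hsip : ∀ n, s n * ip n = |ip n| := by
    intro n
    by_cases h : 0 ≤ ip n
    · simp [hs, h, abs_of_nonneg h]
    · simp [hs, h, abs_of_neg (not_le.1 h)]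
  refine ⟨s, hs1, ?_⟩
  have hsφ : ∀ n, TF U (fun z => s n * φ n z) := fun n => (hφ n).smul _
  have hcn : Tendsto (fun n => cls (fun z => s n * φ n z)) atTop (𝓝 F) := by
    rw [tendsto_iff_norm_sub_tendsto_zero]
    have h1 : ∀ n, ‖cls (fun z => s n * φ n z) - F‖ ^ 2 = Ip (φ n) (φ n) - 2 * |ip n| + 1 := by
      intro n
      rw [norm_sub_sq_real, cls_smul (s n) (hφ n).memLp, norm_smul, mul_pow, Real.norm_eq_abs,
        sq_abs, hss, one_mul, norm_cls_sq (hφ n), inner_smul_left, hF1, ← hsip]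
      simp [hip]
    have h2 : Tendsto (fun n => ‖cls (fun z => s n * φ n z) - F‖ ^ 2) atTop (𝓝 0) := by
      have h3 := (hI.sub (hipa.const_mul 2)).add_const 1
      have e : (1 : ℝ) - 2 * 1 + 1 = 0 := by norm_num
      rw [e] at h3
      exact h3.congr fun n => (h1 n).symm
    have h3 := (Real.continuous_sqrt.tendsto 0).comp h2
    rw [Real.sqrt_zero] at h3
    refine h3.congr fun n => ?_
    show √(‖cls (fun z => s n * φ n z) - F‖ ^ 2) = _
    exact Real.sqrt_sq (norm_nonneg _)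
  have hL : L2T (fun n z => s n * φ n z) u := by
    rw [L2T_iff (fun n => (hsφ n).memLp) hw.mf, ← hFu]
    exact hcn
  -- the gradients
  set W : ℕ → ℂ → ℝ := fun n z => s n * φ n z - v n z with hW
  have hWt : ∀ n, TF U (W n) := fun n => (hsφ n).sub (hv n)
  have hWI : Tendsto (fun n => Ip (W n) (W n)) atTop (𝓝 0) := by
    have h1 := ((hcn.sub hcv).norm).pow 2
    rw [sub_self, norm_zero, zero_pow two_ne_zero] at h1
    exact h1.congr fun n => (Ip_sub (hsφ n) (hv n)).symm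
  have hWQ : Tendsto (fun n => Qf U (W n) (W n)) atTop (𝓝 0) := by
    have h1 := (hQφ.const_mul 2).add (hQv.const_mul 2)
    rw [mul_zero, add_zero] at h1
    refine squeeze_zero (fun n => Qf_nonneg (hWt n)) (fun n => ?_) h1
    have h2 := Qf_sub_le (hsφ n) (hv n)
    rw [Qf_smul_self (s n) (hφ n), hss, one_mul] at h2
    exact h2
  have hWE : Tendsto (fun n => En (W n) (W n)) atTop (𝓝 0) := by
    have h1 := hWQ.add (hWI.const_mul lam)
    rw [mul_zero, add_zero] at h1
    exact h1.congr fun n => (En_eq U _ _).symm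
  have gW : ∀ n z, gx (W n) z = s n * gx (φ n) z - gx (v n) z := by
    intro n z
    have h1 : gx (W n) z = gx (fun z => s n * φ n z) z - gx (v n) z := gx_sub ((hsφ n).diff z) ((hv n).diff z)
    rw [h1, gx_smul (s n) ((hφ n).diff z)]
  have gW' : ∀ n z, gy (W n) z = s n * gy (φ n) z - gy (v n) z := by
    intro n z
    have h1 : gy (W n) z = gy (fun z => s n * φ n z) z - gy (v n) z := gy_sub ((hsφ n).diff z) ((hv n).diff z)
    rw [h1, gy_smul (s n) ((hφ n).diff z)]
  have mx : ∀ n, MemLp (fun z => s n * gx (φ n) z - p z) 2 (volume : Measure ℂ) := fun n =>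
    ((hφ n).gx_tf.memLp.const_mul (s n)).sub hw.mp
  have my : ∀ n, MemLp (fun z => s n * gy (φ n) z - q z) 2 (volume : Measure ℂ) := fun n =>
    ((hφ n).gy_tf.memLp.const_mul (s n)).sub hw.mq
  have i1 : ∀ n, Integrable (fun z => (s n * φ n z - u z) ^ 2) := fun n => hL.sub_int n
  have i2 : ∀ n, Integrable (fun z => (s n * gx (φ n) z - p z) ^ 2) := fun n => (mx n).integrable_sq
  have i3 : ∀ n, Integrable (fun z => (s n * gy (φ n) z - q z) ^ 2) := fun n => (my n).integrable_sq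
  have hg : Tendsto (fun n => ∫ z, ((s n * gx (φ n) z - p z) ^ 2 + (s n * gy (φ n) z - q z) ^ 2)) atTop (𝓝 0) := by
    have h1 := ((hWE.const_mul 2).add ((l2.tt.add l3.tt).const_mul 2))
    rw [add_zero, mul_zero, add_zero] at h1
    refine squeeze_zero (fun n => integral_nonneg fun z => by positivity) (fun n => ?_) h1
    have j1 : Integrable (fun z => 2 * (gx (W n) z ^ 2 + gy (W n) z ^ 2)) := (hWt n).ensq_int.const_mul 2
    have j2 : Integrable (fun z => 2 * ((gx (v n) z - p z) ^ 2 + (gy (v n) z - q z) ^ 2)) :=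
      ((l2.sub_int n).add (l3.sub_int n)).const_mul 2
    have e1 : 2 * En (W n) (W n) + 2 * ((∫ z, (gx (v n) z - p z) ^ 2) + ∫ z, (gy (v n) z - q z) ^ 2) =
        ∫ z, (2 * (gx (W n) z ^ 2 + gy (W n) z ^ 2) + 2 * ((gx (v n) z - p z) ^ 2 + (gy (v n) z - q z) ^ 2)) := by
      rw [integral_add j1 j2, integral_const_mul, integral_const_mul, En_self,
        integral_add (l2.sub_int n) (l3.sub_int n)]
    rw [e1]
    refine integral_mono ((i2 n).add (i3 n)) (j1.add j2) fun z => ?_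
    show (s n * gx (φ n) z - p z) ^ 2 + (s n * gy (φ n) z - q z) ^ 2 ≤
      2 * (gx (W n) z ^ 2 + gy (W n) z ^ 2) + 2 * ((gx (v n) z - p z) ^ 2 + (gy (v n) z - q z) ^ 2)
    rw [gW, gW']
    nlinarith [sq_nonneg ((s n * gx (φ n) z - gx (v n) z) - (gx (v n) z - p z)),
      sq_nonneg ((s n * gy (φ n) z - gy (v n) z) - (gy (v n) z - q z))]
  have h5 := hL.tt.add hg
  rw [add_zero] at h5
  refine h5.congr fun n => ?_
  have i4 : Integrable (fun z => (s n * gx (φ n) z - p z) ^ 2 + (s n * gy (φ n) z - q z) ^ 2) :=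
    (i2 n).add (i3 n)
  rw [← integral_add (i1 n) i4]
  congr 1; ext z; ring

end Pool.Agent.TH316.FQ
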