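import Pool.Agent.TH316.FQ.Stm

set_option autoImplicit false

/-! Faber-Krahn with a crude constant. -/

open MeasureTheory Metric Set Filter
open scoped Topology

namespace Pool.Agent.TH316.FQ

open Pool.Agent.Helper533.StarBox

namespace FKX

theorem line_bound {f f' : ℝ → ℝ} (hf : ∀ y, HasDerivAt f (f' y) y) (hf' : Continuous f')
    (hc : HasCompactSupport f) (b : ℝ) : |f b| ≤ ∫ t, |f' t| := by
  have hd : deriv f = f' := funext fun y => (hf y).deriv
  have hC : ContDiff ℝ 1 f := by
    rw [contDiff_one_iff_deriv]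
    refine ⟨fun y => (hf y).differentiableAt, ?_⟩
    rw [hd]
    exact hf'
  have h1 := hc.integral_Iic_deriv_eq hC b
  rw [hd] at h1
  have hc' : HasCompactSupport f' := by
    rw [← hd]
    exact hc.deriv
  have hi : Integrable f' := hf'.integrable_of_hasCompactSupport hc'
  rw [← h1]
  refine abs_integral_le_integral_abs.trans ?_
  exact setIntegral_le_integral hi.abs (Eventually.of_forall fun t => abs_nonneg _)

theorem slice_x {u : ℂ → ℝ} (hu : HasCompactSupport u) (y : ℝ) :
    HasCompactSupport (fun x : ℝ => u ⟨x, y⟩) := by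
  have hK : IsCompact (Complex.re '' tsupport u) := hu.image Complex.continuous_re
  refine HasCompactSupport.intro hK fun x hx => ?_
  apply image_eq_zero_of_notMem_tsupport
  intro h
  exact hx ⟨_, h, rfl⟩

theorem slice_y {u : ℂ → ℝ} (hu : HasCompactSupport u) (x : ℝ) :
    HasCompactSupport (fun y : ℝ => u ⟨x, y⟩) := by
  have hK : IsCompact (Complex.im '' tsupport u) := hu.image Complex.continuous_im
  refine HasCompactSupport.intro hK fun y hy => ?_
  apply image_eq_zero_of_notMem_tsupport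
  intro h
  exact hy ⟨_, h, rfl⟩

theorem prod_eq (f : ℂ → ℝ) (hf : Integrable f) :
    ∫ z, f z = ∫ p : ℝ × ℝ, f ⟨p.1, p.2⟩ ∂(volume.prod volume) := by
  rw [integral_xy f hf, integral_prod _ (integrable_xy hf)]

theorem cs {U : Set ℂ} (hU : IsOpen U) (hfin : volume U ≠ ⊤) {g : ℂ → ℝ} (hg : Continuous g)
    (hc : HasCompactSupport g) (h0 : ∀ z, z ∉ U → g z = 0) :
    (∫ z, |g z|) ^ 2 ≤ ar U * ∫ z, g z ^ 2 := by
  have i1 : Integrable (fun z => |g z|) := (hg.integrable_of_hasCompactSupport hc).abs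
  have i2 : Integrable (fun z => g z ^ 2) :=
    (hg.pow 2).integrable_of_hasCompactSupport (IsCompact.of_isClosed_subset hc
      (isClosed_tsupport _) (tsupport_sub_of_zero (fun z h => by simp [h])))
  have hfin' : IsFiniteMeasure (volume.restrict U) :=
    ⟨by rw [Measure.restrict_apply_univ]; exact hfin.lt_top⟩
  have e1 : ∫ z in U, |g z| = ∫ z, |g z| :=
    setIntegral_eq_integral_of_forall_compl_eq_zero fun z hz => by rw [h0 z hz, abs_zero]
  have e2 : ∫ z in U, g z ^ 2 = ∫ z, g z ^ 2 :=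
    setIntegral_eq_integral_of_forall_compl_eq_zero fun z hz => by rw [h0 z hz]; ring
  have e3 : ∀ c : ℝ, ∫ _ in U, c = ar U * c := by
    intro c
    rw [setIntegral_const, smul_eq_mul]
    rfl
  have key : ∀ t : ℝ, 0 ≤ t ^ 2 * ar U - 2 * t * (∫ z, |g z|) + ∫ z, g z ^ 2 := by
    intro t
    have h1 : 0 ≤ ∫ z in U, (t - |g z|) ^ 2 := integral_nonneg fun z => sq_nonneg _
    have h2 : ∫ z in U, (t - |g z|) ^ 2 = ∫ z in U, (t ^ 2 - 2 * t * |g z| + g z ^ 2) := by
      refine integral_congr_ae (Eventually.of_forall fun z => ?_)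
      change (t - |g z|) ^ 2 = t ^ 2 - 2 * t * |g z| + g z ^ 2
      rw [← sq_abs (g z)]
      ring
    have j1 : Integrable (fun _ : ℂ => t ^ 2) (volume.restrict U) := integrable_const _
    have j2 : Integrable (fun z => 2 * t * |g z|) (volume.restrict U) := i1.restrict.const_mul _
    have j3 : Integrable (fun z => t ^ 2 - 2 * t * |g z|) (volume.restrict U) := j1.sub j2
    rw [h2, integral_add j3 i2.restrict, integral_sub j1 j2, e3, integral_const_mul, e1, e2,
      mul_comm (ar U)] at h1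
    exact h1
  have ha : 0 ≤ ar U := ENNReal.toReal_nonneg
  rcases ha.eq_or_lt with h | h
  · -- null set
    have h1 := key ((∫ z, g z ^ 2) + 1)
    have h2 := key 1
    have hb : 0 ≤ ∫ z, |g z| := integral_nonneg fun z => abs_nonneg _
    have hc2 : 0 ≤ ∫ z, g z ^ 2 := integral_nonneg fun z => sq_nonneg _
    have h0U : volume U = 0 := by
      have := h.symm
      unfold ar at this
      rw [ENNReal.toReal_eq_zero_iff] at this
      exact this.resolve_right hfin
    have e0 : ∫ z, |g z| = 0 := by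
      rw [← e1, Measure.restrict_eq_zero.2 h0U, integral_zero_measure]
    rw [e0, ← h]
    simp
  · have h1 := key ((∫ z, |g z|) / ar U)
    have h2 : ((∫ z, |g z|) / ar U) ^ 2 * ar U - 2 * ((∫ z, |g z|) / ar U) * (∫ z, |g z|) =
        -((∫ z, |g z|) ^ 2 / ar U) := by
      field_simp
      ring
    rw [h2] at h1
    have h3 : (∫ z, |g z|) ^ 2 / ar U ≤ ∫ z, g z ^ 2 := by linarith
    rw [div_le_iff₀ h] at h3
    linarith

theorem main {U : Set ℂ} {u : ℂ → ℝ} (hu : TF U u) :
    ∫ z, u z ^ 2 ≤ (∫ z, |gy u z|) * ∫ z, |gx u z| := by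
  have ix : Integrable (fun z => |gx u z|) :=
    (hu.gx_cont.integrable_of_hasCompactSupport hu.gx_comp).abs
  have iy : Integrable (fun z => |gy u z|) :=
    (hu.gy_cont.integrable_of_hasCompactSupport hu.gy_comp).abs
  set A : ℝ → ℝ := fun y => ∫ x, |gx u ⟨x, y⟩| with hA
  set B : ℝ → ℝ := fun x => ∫ y, |gy u ⟨x, y⟩| with hB
  have hAi : Integrable A := (integrable_xy ix).integral_prod_right
  have hBi : Integrable B := (integrable_xy iy).integral_prod_left
  have h1 : ∀ x y : ℝ, |u ⟨x, y⟩| ≤ A y := by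
    intro x y
    exact line_bound (fun x => line_x u hu.diff x y) (hu.gx_cont.comp (mk_cont_left y))
      (slice_x hu.comp y) x
  have h2 : ∀ x y : ℝ, |u ⟨x, y⟩| ≤ B x := by
    intro x y
    exact line_bound (fun y => line_y u hu.diff x y) (hu.gy_cont.comp (mk_cont_right x))
      (slice_y hu.comp x) y
  rw [integral_xy _ iy, integral_yx _ ix, prod_eq _ hu.sq_int, ← integral_prod_mul]
  refine integral_mono (integrable_xy hu.sq_int) (hBi.mul_prod hAi) fun p => ?_
  change u ⟨p.1, p.2⟩ ^ 2 ≤ B p.1 * A p.2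
  rw [← sq_abs, sq]
  exact mul_le_mul (h2 _ _) (h1 _ _) (abs_nonneg _) ((abs_nonneg _).trans (h2 p.1 p.2))

end FKX

theorem fk : S_FK := by
  intro U u hU hfin hu
  have h1 := FKX.main hu
  have hx := FKX.cs hU hfin hu.gx_cont hu.gx_comp (fun z hz => TF.gx_zero fun h => hz (hu.supp h))
  have hy := FKX.cs hU hfin hu.gy_cont hu.gy_comp (fun z hz => TF.gy_zero fun h => hz (hu.supp h))
  have ex : Integrable (fun z => gx u z ^ 2) :=
    (hu.gx_cont.pow 2).integrable_of_hasCompactSupport (IsCompact.of_isClosed_subset hu.gx_comp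
      (isClosed_tsupport _) (tsupport_sub_of_zero (fun z h => by simp [h])))
  have ey : Integrable (fun z => gy u z ^ 2) :=
    (hu.gy_cont.pow 2).integrable_of_hasCompactSupport (IsCompact.of_isClosed_subset hu.gy_comp
      (isClosed_tsupport _) (tsupport_sub_of_zero (fun z h => by simp [h])))
  rw [Ip_self, En_self, integral_add ex ey]
  set X := ∫ z, gx u z ^ 2
  set Y := ∫ z, gy u z ^ 2
  set P := ∫ z, |gx u z|
  set Q := ∫ z, |gy u z|
  have hX : 0 ≤ X := integral_nonneg fun z => sq_nonneg _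
  have hY : 0 ≤ Y := integral_nonneg fun z => sq_nonneg _
  have hP : 0 ≤ P := integral_nonneg fun z => abs_nonneg _
  have hQ : 0 ≤ Q := integral_nonneg fun z => abs_nonneg _
  have ha : 0 ≤ ar U := ENNReal.toReal_nonneg
  have h3 : (Q * P) ^ 2 ≤ (ar U * (X + Y) / 2) ^ 2 := by
    calc (Q * P) ^ 2 = Q ^ 2 * P ^ 2 := by ring
      _ ≤ (ar U * Y) * (ar U * X) := mul_le_mul hy hx (sq_nonneg _) (mul_nonneg ha hY)
      _ ≤ (ar U * (X + Y) / 2) ^ 2 := by nlinarith [sq_nonneg (ar U * (X - Y))]
  have h4 : Q * P ≤ ar U * (X + Y) / 2 :=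
    le_of_sq_le_sq h3 (by positivity)
  linarith

end Pool.Agent.TH316.FQ
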