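import Pool.Agent.TH316.FQ.Stm

/-!
# Ground state and spectral gap on connected open sets of finite area
-/

set_option autoImplicit false

open MeasureTheory Metric Set Filter
open scoped Topology

namespace Pool.Agent.TH316.FQ

open Pool.Agent.Helper533.StarBox

namespace GapX

/-- existence of a ground state -/
theorem exists_GSU (hREL : S_REL) {U : Set ℂ} (hU : IsOpen U) (hne : U.Nonempty) (hb : volume U ≠ ⊤) :
    ∃ F : L2, GS U F ∧ ‖F‖ = 1 := by
  have h1 : ∀ n : ℕ, ∃ u, IsTest U u ∧ Ip u u = 1 ∧ En u u < lambda1 U + 1 / ((n : ℝ) + 1) := fun n =>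
    exists_near hU hne (by positivity)
  choose u hu1 hu2 hu3 using h1
  obtain ⟨φ, hφ, F, hF⟩ := hREL U (lambda1 U + 1) u hU hb (fun n => (hu1 n).tf) (fun n => by
    have : 1 / ((n : ℝ) + 1) ≤ 1 := by rw [div_le_one (by positivity)]; linarith [Nat.cast_nonneg (α := ℝ) n]
    linarith [hu3 n])
  refine ⟨F, ?_, ?_⟩
  · intro ε hε
    have e1 : ∀ᶠ n in atTop, ‖cls (u (φ n)) - F‖ < ε := by
      have := (tendsto_iff_norm_sub_tendsto_zero.mp hF)
      exact this.eventually (gt_mem_nhds hε)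
    have e2 : ∀ᶠ n : ℕ in atTop, 1 / ((n : ℝ) + 1) < ε := by
      exact tendsto_one_div_add_atTop_nhds_zero_nat.eventually (gt_mem_nhds hε)
    obtain ⟨n, hn1, hn2⟩ := (e1.and (hφ.tendsto_atTop.eventually e2)).exists
    refine ⟨u (φ n), (hu1 _).tf, hn1.le, ?_⟩
    unfold Qf
    rw [hu2, mul_one]
    linarith [hu3 (φ n)]
  · have e1 : Tendsto (fun n => ‖cls (u (φ n))‖) atTop (𝓝 ‖F‖) := hF.norm
    have e2 : ∀ n, ‖cls (u (φ n))‖ = 1 := by
      intro n
      have := norm_cls_sq (hu1 (φ n)).tf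
      rw [hu2] at this
      have h0 := norm_nonneg (cls (u (φ n)))
      nlinarith
    simp only [e2] at e1
    exact tendsto_nhds_unique e1 tendsto_const_nhds

/-- existence of a nonnegative normalised ground state -/
theorem exists_groundU (hREL : S_REL) {U : Set ℂ} (hU : IsOpen U) (hne : U.Nonempty)
    (hpc : IsPreconnected U) (hb : volume U ≠ ⊤) : ∃ u : L2, GS U u ∧ ‖u‖ = 1 ∧ (∀ᵐ z, 0 ≤ (u : ℂ → ℝ) z) ∧ LocPos U u := by
  obtain ⟨F, hF, hF1⟩ := exists_GSU hREL hU hne hb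
  have aux : ∀ G : L2, GS U G → ‖G‖ = 1 → (∀ᵐ z, 0 ≤ (G : ℂ → ℝ) z) → ∃ u : L2, GS U u ∧ ‖u‖ = 1 ∧
      (∀ᵐ z, 0 ≤ (u : ℂ → ℝ) z) ∧ LocPos U u := by
    intro G hG hG1 hG0
    refine ⟨G, hG, hG1, hG0, hG.locPos hU hpc hG0 ?_⟩
    intro h; rw [h, norm_zero] at hG1; norm_num at hG1
  rcases hF.sign hU hne hpc with h | h
  · exact aux F hF hF1 h
  · apply aux ((-1 : ℝ) • F) (hF.smul _) (by rw [norm_smul, hF1]; norm_num)
    filter_upwards [h, Lp.coeFn_smul (-1 : ℝ) F] with z a b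
    rw [b, Pi.smul_apply, smul_eq_mul]; linarith

/-- the spectral gap inequality -/
theorem gapU' (hREL : S_REL) {U : Set ℂ} (hU : IsOpen U) (hne : U.Nonempty) (hpc : IsPreconnected U)
    (hb : volume U ≠ ⊤) {u : L2} (hu : GS U u) (hu0 : ∀ᵐ z, 0 ≤ (u : ℂ → ℝ) z) (hu1 : ‖u‖ = 1) :
    ∃ γ > 0, ∀ v, TF U v → γ * (Ip v v - (inner ℝ (cls v) u) ^ 2) ≤ Qf U v v := by
  by_contra hcon
  push Not at hcon
  have step : ∀ n : ℕ, ∃ w, TF U w ∧ Qf U w w ≤ 4 / ((n : ℝ) + 1) ∧ |‖cls w‖ - 1| ≤ 1 / ((n : ℝ) + 1) ∧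
      |inner ℝ (cls w) u| ≤ 1 / ((n : ℝ) + 1) := by
    intro n
    set γ : ℝ := 1 / ((n : ℝ) + 1) with hγ
    have hγ0 : 0 < γ := by positivity
    obtain ⟨v, hv, hv1⟩ := hcon γ hγ0
    have hd : 0 < Ip v v - (inner ℝ (cls v) u) ^ 2 := by
      have := Qf_nonneg hv
      by_contra hc
      push Not at hc
      have := mul_nonpos_of_nonneg_of_nonpos hγ0.le hc
      linarith
    set d := √(Ip v v - (inner ℝ (cls v) u) ^ 2) with hd'
    have hd0 : 0 < d := Real.sqrt_pos.mpr hd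
    have hdsq : d ^ 2 = Ip v v - (inner ℝ (cls v) u) ^ 2 := Real.sq_sqrt hd.le
    -- normalised function
    set v' : ℂ → ℝ := fun z => (1 / d) * v z with hv'
    have hv'T : TF U v' := hv.smul _
    have hcls' : cls v' = (1 / d) • cls v := cls_smul _ hv.memLp
    set c := inner ℝ (cls v') u with hc
    have hc1 : c = (1 / d) * inner ℝ (cls v) u := by rw [hc, hcls', real_inner_smul_left]
    have hQ' : Qf U v' v' ≤ γ := by
      rw [hv', Qf_smul_self _ hv]
      rw [← hdsq] at hv1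
      calc (1 / d) ^ 2 * Qf U v v ≤ (1 / d) ^ 2 * (γ * d ^ 2) := mul_le_mul_of_nonneg_left hv1.le (by positivity)
        _ = γ := by field_simp
    have hI' : ‖cls v'‖ ^ 2 - c ^ 2 = 1 := by
      rw [hcls', norm_smul, mul_pow, norm_cls_sq hv, hc1, mul_pow, Real.norm_eq_abs, sq_abs, ← mul_sub, ← hdsq]
      field_simp
    obtain ⟨w, hw, hw1, hw2⟩ := hu (γ / (1 + c ^ 2)) (by positivity)
    have hcabs : |c| ≤ 1 + c ^ 2 := by
      have := sq_abs c; nlinarith [sq_nonneg (|c| - 1)]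
    have hcη : |c| * (γ / (1 + c ^ 2)) ≤ γ := by
      rw [mul_div_assoc', div_le_iff₀ (by positivity)]
      nlinarith
    have hc2η : c ^ 2 * (γ / (1 + c ^ 2)) ≤ γ := by
      rw [mul_div_assoc', div_le_iff₀ (by positivity)]
      nlinarith
    have hT : TF U (fun z => v' z + (-c) * w z) := hv'T.add (hw.smul _)
    refine ⟨fun z => v' z + (-c) * w z, hT, ?_, ?_, ?_⟩
    · refine (Qf_add_le hv'T (hw.smul _)).trans ?_
      rw [Qf_smul_self _ hw]
      have : (-c) ^ 2 * Qf U w w ≤ γ := by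
        rw [neg_sq]; exact (mul_le_mul_of_nonneg_left hw2 (sq_nonneg c)).trans hc2η
      have e : 4 / ((n : ℝ) + 1) = 4 * γ := by rw [hγ]; ring
      rw [e]; linarith
    · have e1 : cls (fun z => v' z + (-c) * w z) = (cls v' - c • u) + (-c) • (cls w - u) := by
        rw [cls_add hv'T.memLp (hw.smul _).memLp, cls_smul _ hw.memLp]
        rw [smul_sub, neg_smul, neg_smul]; abel
      have e2 : ‖cls v' - c • u‖ = 1 := by
        have : ‖cls v' - c • u‖ ^ 2 = 1 := by
          rw [norm_sub_sq_real, norm_smul, hu1, real_inner_smul_right, ← hc, Real.norm_eq_abs, mul_one, sq_abs]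
          linarith
        have h0 := norm_nonneg (cls v' - c • u)
        nlinarith
      have e3 : ‖(-c) • (cls w - u)‖ ≤ γ := by
        rw [norm_smul, norm_neg, Real.norm_eq_abs]
        exact (mul_le_mul_of_nonneg_left hw1 (abs_nonneg c)).trans hcη
      rw [e1, ← e2]
      refine (abs_norm_sub_norm_le _ _).trans ?_
      rw [add_sub_cancel_left]; exact e3
    · have e1 : cls (fun z => v' z + (-c) * w z) = (cls v' - c • u) + (-c) • (cls w - u) := by
        rw [cls_add hv'T.memLp (hw.smul _).memLp, cls_smul _ hw.memLp]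
        rw [smul_sub, neg_smul, neg_smul]; abel
      have e2 : inner ℝ (cls v' - c • u) u = 0 := by
        rw [inner_sub_left, real_inner_smul_left, real_inner_self_eq_norm_sq, hu1, ← hc]; ring
      have e3 : ‖(-c) • (cls w - u)‖ ≤ γ := by
        rw [norm_smul, norm_neg, Real.norm_eq_abs]
        exact (mul_le_mul_of_nonneg_left hw1 (abs_nonneg c)).trans hcη
      rw [e1, inner_add_left, e2, zero_add]
      refine (abs_real_inner_le_norm _ _).trans ?_
      rw [hu1, mul_one]; exact e3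
  choose w hw hwQ hwN hwI using step
  have hl := lambda1_nonneg U
  have h1le : ∀ n : ℕ, 1 / ((n : ℝ) + 1) ≤ 1 := fun n => by
    rw [div_le_one (by positivity)]; linarith [Nat.cast_nonneg (α := ℝ) n]
  obtain ⟨φ, hφ, G, hG⟩ := hREL U (4 + lambda1 U * 4) w hU hb hw (fun n => by
    have e1 : Qf U (w n) (w n) ≤ 4 := by
      refine (hwQ n).trans ?_
      have := h1le n
      have e : 4 / ((n : ℝ) + 1) = 4 * (1 / ((n : ℝ) + 1)) := by ring
      rw [e]; linarith
    have e2 : Ip (w n) (w n) ≤ 4 := by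
      rw [← norm_cls_sq (hw n)]
      have h2 := (abs_le.mp ((hwN n).trans (h1le n))).2
      nlinarith [norm_nonneg (cls (w n))]
    unfold Qf at e1
    have e3 := mul_le_mul_of_nonneg_left e2 hl
    linarith)
  have hφt := hφ.tendsto_atTop
  have t1 : Tendsto (fun n => 1 / (((φ n : ℕ) : ℝ) + 1)) atTop (𝓝 0) :=
    tendsto_one_div_add_atTop_nhds_zero_nat.comp hφt
  have hGS : GS U G := by
    intro ε hε
    have e1 : ∀ᶠ n in atTop, ‖cls (w (φ n)) - G‖ < ε := by
      have := (tendsto_iff_norm_sub_tendsto_zero.mp hG)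
      exact this.eventually (gt_mem_nhds hε)
    have e2 : ∀ᶠ n in atTop, 1 / (((φ n : ℕ) : ℝ) + 1) < ε / 4 := t1.eventually (gt_mem_nhds (by positivity))
    obtain ⟨n, hn1, hn2⟩ := (e1.and e2).exists
    refine ⟨w (φ n), hw _, hn1.le, (hwQ _).trans ?_⟩
    have e : 4 / (((φ n : ℕ) : ℝ) + 1) = 4 * (1 / (((φ n : ℕ) : ℝ) + 1)) := by ring
    rw [e]; linarith
  have hGn : ‖G‖ = 1 := by
    have e1 : Tendsto (fun n => |‖cls (w (φ n))‖ - 1|) atTop (𝓝 |‖G‖ - 1|) := (hG.norm.sub_const 1).abs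
    have e2 : Tendsto (fun n => |‖cls (w (φ n))‖ - 1|) atTop (𝓝 0) :=
      squeeze_zero (fun n => abs_nonneg _) (fun n => hwN (φ n)) t1
    have := tendsto_nhds_unique e1 e2
    rw [abs_eq_zero] at this
    linarith
  have hGu : inner ℝ G u = 0 := by
    have e1 : Tendsto (fun n => |inner ℝ (cls (w (φ n))) u|) atTop (𝓝 |inner ℝ G u|) :=
      (hG.inner tendsto_const_nhds).abs
    have e2 : Tendsto (fun n => |inner ℝ (cls (w (φ n))) u|) atTop (𝓝 0) :=
      squeeze_zero (fun n => abs_nonneg _) (fun n => hwI (φ n)) t1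
    have := tendsto_nhds_unique e1 e2
    rwa [abs_eq_zero] at this
  have := hu.unique hU hne hpc hu0 hu1 hGS
  rw [hGu, zero_smul] at this
  rw [this, norm_zero] at hGn
  norm_num at hGn

end GapX

theorem gapU (hFK : S_FK) (hREL : S_REL) : S_GAP := by
  have _ := hFK
  rintro U ⟨hU, hne, hb⟩ hpc
  obtain ⟨u, hu, hu1, hu0, -⟩ := GapX.exists_groundU hREL hU hne hpc hb
  exact ⟨u, hu, hu1, hu0, GapX.gapU' hREL hU hne hpc hb hu hu0 hu1⟩

end Pool.Agent.TH316.FQ
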