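import Pool.Agent.TH316.FQ.Stm

set_option autoImplicit false

open MeasureTheory Metric Set Filter
open scoped Topology

namespace Pool.Agent.TH316.FQ

open Pool.Agent.Helper533.StarBox

namespace HopX

/-- a bounded functional on the range of a linear map into a Hilbert space is represented by a vector -/
theorem riesz {V H : Type*} [AddCommGroup V] [Module ℝ V] [NormedAddCommGroup H] [InnerProductSpace ℝ H]
    [CompleteSpace H] (T : V →ₗ[ℝ] H) (l : V →ₗ[ℝ] ℝ) (c : ℝ) (hc : 0 ≤ c) (h : ∀ v, |l v| ≤ c * ‖T v‖) :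
    ∃ G : H, ‖G‖ ≤ c ∧ ∀ v, l v = inner ℝ G (T v) := by
  have hk : LinearMap.ker T ≤ LinearMap.ker l := by
    intro v hv
    rw [LinearMap.mem_ker] at hv ⊢
    have := h v
    rw [hv, norm_zero, mul_zero] at this
    exact abs_nonpos_iff.mp this
  let l' : LinearMap.range T →ₗ[ℝ] ℝ := ((LinearMap.ker T).liftQ l hk).comp T.quotKerEquivRange.symm.toLinearMap
  have hl' : ∀ v, l' ⟨T v, LinearMap.mem_range_self T v⟩ = l v := by
    intro v
    have : T.quotKerEquivRange.symm ⟨T v, LinearMap.mem_range_self T v⟩ = (LinearMap.ker T).mkQ v := by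
      rw [LinearEquiv.symm_apply_eq]
      rfl
    show ((LinearMap.ker T).liftQ l hk) (T.quotKerEquivRange.symm ⟨T v, LinearMap.mem_range_self T v⟩) = l v
    rw [this]
    simp
  have hb : ∀ x : LinearMap.range T, ‖l' x‖ ≤ c * ‖x‖ := by
    rintro ⟨x, v, rfl⟩
    rw [hl' v]
    exact h v
  obtain ⟨g, hg1, hg2⟩ := exists_extension_norm_eq (LinearMap.range T) (l'.mkContinuous c hb)
  refine ⟨(InnerProductSpace.toDual ℝ H).symm g, ?_, ?_⟩
  · rw [LinearIsometryEquiv.norm_map, hg2]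
    exact LinearMap.mkContinuous_norm_le _ hc _
  · intro v
    rw [InnerProductSpace.toDual_symm_apply]
    have := hg1 ⟨T v, LinearMap.mem_range_self T v⟩
    rw [this]
    exact (hl' v).symm

theorem symm {u : ℂ → ℝ} (hu : TF univ u) : gx (gy u) = gy (gx u) := by
  ext z
  have h1 : DifferentiableAt ℝ (fderiv ℝ u) z :=
    ((hu.smooth.fderiv_right (m := (⊤ : ℕ∞)) (by simp)).differentiable (by simp)) z
  have h2 : IsSymmSndFDerivAt ℝ u z := by
    apply ContDiffAt.isSymmSndFDerivAt (n := (⊤ : ℕ∞)) hu.smooth.contDiffAt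
    rw [minSmoothness_of_isRCLikeNormedField]
    exact WithTop.coe_le_coe.mpr (le_top : (2 : ℕ∞) ≤ ⊤)
  have e1 : gx (gy u) z = fderiv ℝ (fderiv ℝ u) z 1 Complex.I := by
    unfold gx
    have : gy u = fun z => (fderiv ℝ u z) Complex.I := rfl
    rw [this, fderiv_clm_apply h1 (differentiableAt_const _)]
    simp
  have e2 : gy (gx u) z = fderiv ℝ (fderiv ℝ u) z Complex.I 1 := by
    unfold gy
    have : gx u = fun z => (fderiv ℝ u z) 1 := rfl
    rw [this, fderiv_clm_apply h1 (differentiableAt_const _)]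
    simp
  rw [e1, e2]
  exact h2 1 Complex.I

theorem ibx {u v : ℂ → ℝ} (hu : TF univ u) (hv : TF univ v) : ∫ z, u z * gx v z = - ∫ z, gx u z * v z :=
  integral_mul_fderiv_eq_neg_fderiv_mul_of_integrable (f := u) (g := v) (v := (1:ℂ))
      (hu.gx_tf.ip_int hv.cont) (hu.ip_int hv.gx_cont) (hu.ip_int hv.cont)
      (fun x _ => hu.diff x) (fun x _ => hv.diff x)

theorem iby {u v : ℂ → ℝ} (hu : TF univ u) (hv : TF univ v) : ∫ z, u z * gy v z = - ∫ z, gy u z * v z :=
  integral_mul_fderiv_eq_neg_fderiv_mul_of_integrable (f := u) (g := v) (v := Complex.I)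
      (hu.gy_tf.ip_int hv.cont) (hu.ip_int hv.gy_cont) (hu.ip_int hv.cont)
      (fun x _ => hu.diff x) (fun x _ => hv.diff x)

theorem hess {u : ℂ → ℝ} (hu : TF univ u) : ∫ z, gx (gx u) z * gy (gy u) z = ∫ z, gx (gy u) z ^ 2 := by
  have h1 := iby hu.gx_tf.gx_tf hu.gy_tf
  have h2 := ibx hu.gx_tf hu.gy_tf
  -- ∫ gx gx u * gy gy u = - ∫ gy gx gx u * gy u = - ∫ gx (gy gx u) * gy u = ∫ gy gx u * gx gy u
  have e : gy (gx (gx u)) = gx (gy (gx u)) := (symm hu.gx_tf).symm
  rw [h1, e]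
  have h3 := ibx hu.gy_tf hu.gx_tf.gy_tf
  have h4 : ∫ z, gx (gy (gx u)) z * gy u z = ∫ z, gy u z * gx (gy (gx u)) z := by
    congr 1; ext z; ring
  rw [h4, h3, neg_neg]
  congr 1; ext z
  rw [← symm hu]; ring

theorem lap_add {u v : ℂ → ℝ} (hu : TF univ u) (hv : TF univ v) :
    lap (fun z => u z + v z) = fun z => lap u z + lap v z := by
  have e1 : gx (fun z => u z + v z) = fun z => gx u z + gx v z := by
    ext z; exact gx_add (hu.diff z) (hv.diff z)
  have e2 : gy (fun z => u z + v z) = fun z => gy u z + gy v z := by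
    ext z; exact gy_add (hu.diff z) (hv.diff z)
  ext z
  unfold lap
  rw [e1, e2, gx_add (hu.gx_tf.diff z) (hv.gx_tf.diff z), gy_add (hu.gy_tf.diff z) (hv.gy_tf.diff z)]
  ring

theorem lap_smul {u : ℂ → ℝ} (c : ℝ) (hu : TF univ u) :
    lap (fun z => c * u z) = fun z => c * lap u z := by
  have e1 : gx (fun z => c * u z) = fun z => c * gx u z := by
    ext z; exact gx_smul c (hu.diff z)
  have e2 : gy (fun z => c * u z) = fun z => c * gy u z := by
    ext z; exact gy_smul c (hu.diff z)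
  ext z
  unfold lap
  rw [e1, e2, gx_smul c (hu.gx_tf.diff z), gy_smul c (hu.gy_tf.diff z)]
  ring

/-- the vector space of test functions -/
def TV : Submodule ℝ (ℂ → ℝ) where
  carrier := {u | TF univ u}
  add_mem' := fun ha hb => ha.add hb
  zero_mem' := TF.zero univ
  smul_mem' := fun c _ hu => hu.smul c

theorem mul_int {P : ℂ → ℝ} (hP : Integrable P) {φ : ℂ → ℝ} (hφ : TF univ φ) : Integrable (fun z => P z * φ z) := by
  obtain ⟨C, hC⟩ := hφ.comp.exists_bound_of_continuous hφ.cont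
  exact hP.mul_bdd (c := C) hφ.cont.aestronglyMeasurable (Eventually.of_forall hC)

theorem mul_int2 {F : ℂ → ℝ} (hF : MemLp F 2 (volume : Measure ℂ)) {φ : ℂ → ℝ} (hφ : TF univ φ) :
    Integrable (fun z => F z * φ z) := hF.integrable_mul hφ.memLp

/-- representation of `∫ P Δφ` -/
theorem repr {P : ℂ → ℝ} (hP : Integrable P) {c : ℝ} (hc : 0 ≤ c)
    (h : ∀ φ, TF univ φ → |∫ z, P z * lap φ z| ≤ c * ‖cls (lap φ)‖) :
    ∃ G : L2, ‖G‖ ≤ c ∧ ∀ φ, TF univ φ → ∫ z, P z * lap φ z = inner ℝ G (cls (lap φ)) := by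
  let T : TV →ₗ[ℝ] L2 :=
    { toFun := fun φ => cls (lap φ.1)
      map_add' := by
        rintro ⟨u, hu⟩ ⟨v, hv⟩
        have hu' : TF univ u := hu
        have hv' : TF univ v := hv
        show cls (lap (fun z => u z + v z)) = cls (lap u) + cls (lap v)
        rw [lap_add hu' hv', cls_add hu'.lap_tf.memLp hv'.lap_tf.memLp]
      map_smul' := by
        rintro a ⟨u, hu⟩
        have hu' : TF univ u := hu
        show cls (lap (fun z => a * u z)) = a • cls (lap u)
        rw [lap_smul a hu', cls_smul a hu'.lap_tf.memLp] }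
  let l : TV →ₗ[ℝ] ℝ :=
    { toFun := fun φ => ∫ z, P z * lap φ.1 z
      map_add' := by
        rintro ⟨u, hu⟩ ⟨v, hv⟩
        have hu' : TF univ u := hu
        have hv' : TF univ v := hv
        show ∫ z, P z * lap (fun z => u z + v z) z = (∫ z, P z * lap u z) + ∫ z, P z * lap v z
        rw [lap_add hu' hv', ← integral_add (mul_int hP hu'.lap_tf) (mul_int hP hv'.lap_tf)]
        congr 1; ext z; ring
      map_smul' := by
        rintro a ⟨u, hu⟩
        have hu' : TF univ u := hu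
        show ∫ z, P z * lap (fun z => a * u z) z = a • ∫ z, P z * lap u z
        rw [lap_smul a hu', smul_eq_mul, ← integral_const_mul]
        congr 1; ext z; ring }
  obtain ⟨G, hG1, hG2⟩ := riesz T l c hc (fun v => h v.1 v.2)
  exact ⟨G, hG1, fun φ hφ => hG2 ⟨φ, hφ⟩⟩

theorem final (hL : S_LIO) {P F : ℂ → ℝ} (hP : Integrable P) (hF : MemLp F 2 (volume : Measure ℂ))
    (Q : (ℂ → ℝ) → ℂ → ℝ) (hQ : ∀ φ, TF univ φ → TF univ (Q φ)) (hQ2 : ∀ φ, TF univ φ → Ip (Q φ) (Q φ) ≤ Ip (lap φ) (lap φ))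
    (h : ∀ φ, TF univ φ → ∫ z, P z * lap φ z = - ∫ z, F z * Q φ z) :
    MemLp P 2 (volume : Measure ℂ) ∧ ∫ z, P z ^ 2 ≤ ∫ z, F z ^ 2 := by
  have hb : ∀ φ, TF univ φ → |∫ z, P z * lap φ z| ≤ ‖cls F‖ * ‖cls (lap φ)‖ := by
    intro φ hφ
    rw [h φ hφ, abs_neg, ← inner_cls hF (hQ φ hφ).memLp]
    refine (abs_real_inner_le_norm _ _).trans ?_
    apply mul_le_mul_of_nonneg_left _ (norm_nonneg _)
    have := hQ2 φ hφ
    rw [← norm_cls_sq (hQ φ hφ), ← norm_cls_sq hφ.lap_tf] at this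
    exact (pow_le_pow_iff_left₀ (norm_nonneg _) (norm_nonneg _) two_ne_zero).mp this
  obtain ⟨G, hG1, hG2⟩ := repr hP (norm_nonneg _) hb
  have hGm : MemLp (G : ℂ → ℝ) 2 (volume : Measure ℂ) := Lp.memLp G
  have hPG : ∀ᵐ z, P z = (G : ℂ → ℝ) z := by
    apply hL P (G : ℂ → ℝ) hP hGm
    intro φ hφ
    have e1 : ∫ z, (P z - (G : ℂ → ℝ) z) * lap φ z = (∫ z, P z * lap φ z) - ∫ z, (G : ℂ → ℝ) z * lap φ z := by
      rw [← integral_sub (mul_int hP hφ.lap_tf) (mul_int2 hGm hφ.lap_tf)]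
      congr 1; ext z; ring
    rw [e1, hG2 φ hφ, ← inner_cls hGm hφ.lap_tf.memLp, cls_self, sub_self]
  have hPm : MemLp P 2 (volume : Measure ℂ) := (memLp_congr_ae hPG).mpr hGm
  refine ⟨hPm, ?_⟩
  have e1 : ∫ z, P z ^ 2 = ‖G‖ ^ 2 := by
    rw [← real_inner_self_eq_norm_sq, inner_eq]
    apply integral_congr_ae
    filter_upwards [hPG] with z hz
    rw [hz]; ring
  have e2 : ∫ z, F z ^ 2 = ‖cls F‖ ^ 2 := by
    rw [← real_inner_self_eq_norm_sq, inner_cls hF hF]
    congr 1; ext z; ring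
  rw [e1, e2]
  exact pow_le_pow_left₀ (norm_nonneg _) hG1 2

end HopX

open HopX in
theorem hop (hL : S_LIO) : S_HOP := by
  intro P R F hP hR hF hS
  have A : MemLp P 2 (volume : Measure ℂ) ∧ ∫ z, P z ^ 2 ≤ ∫ z, F z ^ 2 := by
    apply final hL hP hF (fun φ z => gx (gx φ) z - gy (gy φ) z)
    · intro φ hφ; exact hφ.gx_tf.gx_tf.sub hφ.gy_tf.gy_tf
    · intro φ hφ
      have h1 := hess hφ
      have h2 : Ip (lap φ) (lap φ) - Ip (fun z => gx (gx φ) z - gy (gy φ) z) (fun z => gx (gx φ) z - gy (gy φ) z) =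
          4 * ∫ z, gx (gx φ) z * gy (gy φ) z := by
        rw [Ip_self, Ip_self, ← integral_sub hφ.lap_tf.sq_int (hφ.gx_tf.gx_tf.sub hφ.gy_tf.gy_tf).sq_int, ← integral_const_mul]
        congr 1; ext z; unfold lap; ring
      rw [h1] at h2
      have h3 : 0 ≤ ∫ z, gx (gy φ) z ^ 2 := integral_nonneg fun z => sq_nonneg _
      linarith
    · intro φ hφ
      have h1 := hS (gx φ) (fun z => (-1) * gy φ z) hφ.gx_tf (hφ.gy_tf.smul (-1))
      have e1 : ∀ z, gx (fun z => (-1) * gy φ z) z = - gx (gy φ) z := fun z => by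
        rw [gx_smul (-1) (hφ.gy_tf.diff z)]; ring
      have e2 : ∀ z, gy (fun z => (-1) * gy φ z) z = - gy (gy φ) z := fun z => by
        rw [gy_smul (-1) (hφ.gy_tf.diff z)]; ring
      have e3 : (fun z => P z * (gx (gx φ) z - gy (fun z => (-1) * gy φ z) z) +
          R z * (gx (fun z => (-1) * gy φ z) z + gy (gx φ) z) + F z * (gx (gx φ) z + gy (fun z => (-1) * gy φ z) z)) =
          fun z => P z * lap φ z + F z * (gx (gx φ) z - gy (gy φ) z) := by
        ext z
        rw [e1, e2, symm hφ]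
        unfold lap; ring
      rw [e3, integral_add (mul_int hP hφ.lap_tf) (mul_int2 hF (hφ.gx_tf.gx_tf.sub hφ.gy_tf.gy_tf))] at h1
      linarith
  have B : MemLp R 2 (volume : Measure ℂ) ∧ ∫ z, R z ^ 2 ≤ ∫ z, F z ^ 2 := by
    apply final hL hR hF (fun φ z => 2 * gx (gy φ) z)
    · intro φ hφ; exact hφ.gy_tf.gx_tf.smul 2
    · intro φ hφ
      have h1 := hess hφ
      have h2 : Ip (lap φ) (lap φ) - 4 * (∫ z, gx (gx φ) z * gy (gy φ) z) =
          Ip (fun z => gx (gx φ) z - gy (gy φ) z) (fun z => gx (gx φ) z - gy (gy φ) z) := by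
        rw [Ip_self, Ip_self, ← integral_const_mul, ← integral_sub hφ.lap_tf.sq_int
          ((hφ.gx_tf.gx_tf.ip_int hφ.gy_tf.gy_tf.cont).const_mul 4)]
        congr 1; ext z; unfold lap; ring
      have h3 := Ip_nonneg (fun z => gx (gx φ) z - gy (gy φ) z)
      have h4 : Ip (fun z => 2 * gx (gy φ) z) (fun z => 2 * gx (gy φ) z) = 4 * ∫ z, gx (gy φ) z ^ 2 := by
        rw [Ip_self, ← integral_const_mul]
        congr 1; ext z; ring
      show Ip (fun z => 2 * gx (gy φ) z) (fun z => 2 * gx (gy φ) z) ≤ _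
      rw [h4, ← h1]
      linarith
    · intro φ hφ
      have h1 := hS (gy φ) (gx φ) hφ.gy_tf hφ.gx_tf
      have e3 : (fun z => P z * (gx (gy φ) z - gy (gx φ) z) + R z * (gx (gx φ) z + gy (gy φ) z) +
          F z * (gx (gy φ) z + gy (gx φ) z)) = fun z => R z * lap φ z + F z * (2 * gx (gy φ) z) := by
        ext z
        rw [symm hφ]
        unfold lap; ring
      rw [e3, integral_add (mul_int hR hφ.lap_tf) (mul_int2 hF (hφ.gy_tf.gx_tf.smul 2))] at h1
      linarith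
  exact ⟨A.1, B.1, A.2, B.2⟩

end Pool.Agent.TH316.FQ
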