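import Pool.Agent.TH316.FQ.Stm

set_option autoImplicit false

open MeasureTheory Metric Set Filter
open scoped Topology

namespace Pool.Agent.TH316.FQ

open Pool.Agent.Helper533.StarBox

namespace LebX

theorem mass {R : ℝ} (hR : 0 < R) (x : ℂ) : ∫ y, ww R (y - x) = m0 := by
  rw [integral_sub_right_eq_self (fun z => ww R z) x]
  have h := Measure.integral_comp_smul (volume : Measure ℂ) (fun z : ℂ => ww R z) R
  have e : ∀ z : ℂ, ww R (R • z) = (1 / R ^ 2) * ww 1 z := by
    intro z
    unfold ww
    rw [norm_smul, Real.norm_eq_abs, abs_of_pos hR]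
    have : (R * ‖z‖) ^ 2 / R ^ 2 = ‖z‖ ^ 2 / 1 ^ 2 := by
      field_simp
    rw [this]
    ring
  simp only [e] at h
  rw [integral_const_mul, Complex.finrank_real_complex, abs_of_pos (by positivity), smul_eq_mul] at h
  unfold m0
  have h2 : (R ^ 2 : ℝ) ≠ 0 := by positivity
  field_simp at h
  linarith

theorem m0_pos : 0 < m0 := by
  unfold m0
  have hc : HasCompactSupport (fun z : ℂ => ww 1 z) := by
    have := ww_comp (R := 1) one_pos 0
    simpa using this
  apply Continuous.integral_pos_of_hasCompactSupport_nonneg_nonzero (ww_cont 1) hc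
    (fun z => ww_nonneg 1 z) (x := ((3 / 4 : ℝ) : ℂ))
  apply ne_of_gt
  apply ww_pos one_pos
  · rw [Complex.norm_real, Real.norm_eq_abs, abs_of_pos] <;> norm_num
  · rw [Complex.norm_real, Real.norm_eq_abs, abs_of_pos] <;> norm_num

theorem int_mul {f : ℂ → ℝ} (hf : LocallyIntegrable f volume) {R : ℝ} (hR : 0 < R) (x : ℂ) :
    Integrable (fun y => f y * ww R (y - x)) := by
  have := hf.integrable_smul_right_of_hasCompactSupport
    (g := fun y => ww R (y - x)) ((ww_cont R).comp (continuous_id.sub continuous_const)) (ww_comp hR x)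
  simpa [smul_eq_mul] using this

theorem bound {f : ℂ → ℝ} (hf : LocallyIntegrable f volume) {R : ℝ} (hR : 0 < R) (x : ℂ) :
    ‖Av f R x - f x‖ ≤ (Real.pi / m0) * ⨍ y in closedBall x R, ‖f y - f x‖ := by
  have hm := m0_pos
  have hcI : Integrable (fun y => f x * ww R (y - x)) :=
    (((ww_cont R).comp (continuous_id.sub continuous_const)).integrable_of_hasCompactSupport
      (ww_comp hR x)).const_mul _
  have e1 : Av f R x - f x = (∫ y, (f y - f x) * ww R (y - x)) / m0 := by
    unfold Av
    have : ∫ y, (f y - f x) * ww R (y - x) = (∫ y, f y * ww R (y - x)) - f x * m0 := by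
      rw [← mass hR x, ← integral_const_mul, ← integral_sub (int_mul hf hR x) hcI]
      congr 1; ext y; ring
    rw [this, sub_div, mul_div_assoc, div_self hm.ne', mul_one]
  have hvol : (volume (closedBall x R)).toReal = Real.pi * R ^ 2 := by
    rw [Complex.volume_closedBall, ENNReal.toReal_mul, ENNReal.toReal_pow, ENNReal.toReal_ofReal hR.le]
    simp [NNReal.coe_real_pi]; ring
  have hi1 : IntegrableOn (fun y => ‖f y - f x‖) (closedBall x R) := by
    apply Integrable.norm
    exact (hf.integrableOn_isCompact (isCompact_closedBall x R)).sub (integrableOn_const (by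
      exact (isCompact_closedBall x R).measure_lt_top.ne))
  have e2 : ∫ y, (f y - f x) * ww R (y - x) = ∫ y in closedBall x R, (f y - f x) * ww R (y - x) := by
    symm
    apply setIntegral_eq_integral_of_forall_compl_eq_zero
    intro z hz
    rw [ww_zero hR, mul_zero]
    rw [mem_closedBall, not_le, dist_eq_norm] at hz
    exact hz.le
  have e3 : ‖∫ y in closedBall x R, (f y - f x) * ww R (y - x)‖ ≤
      ∫ y in closedBall x R, (1 / R ^ 2) * ‖f y - f x‖ := by
    apply norm_integral_le_of_norm_le (hi1.const_mul _)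
    apply Eventually.of_forall
    intro y
    rw [norm_mul, mul_comm, Real.norm_eq_abs (ww R (y - x)), abs_of_nonneg (ww_nonneg _ _)]
    exact mul_le_mul_of_nonneg_right (ww_le R _) (norm_nonneg _)
  rw [e1, norm_div, Real.norm_eq_abs m0, abs_of_pos hm, e2, div_le_iff₀ hm]
  refine e3.trans (le_of_eq ?_)
  rw [integral_const_mul, setAverage_eq, measureReal_def, hvol, smul_eq_mul]
  field_simp

end LebX

open LebX in
theorem leb : S_LEB := by
  intro f hf
  have hleb := IsUnifLocDoublingMeasure.ae_tendsto_average_norm_sub (volume : Measure ℂ) hf 1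
  filter_upwards [hleb] with x hx
  have h1 := hx (ι := ℝ) (l := 𝓝[>] 0) (fun _ => x) (fun R => R) tendsto_id (by
    filter_upwards [self_mem_nhdsWithin] with R hR
    rw [mem_closedBall, dist_self]; simp only [one_mul]; exact (mem_Ioi.mp hR).le)
  have h2 := h1.const_mul (Real.pi / m0)
  rw [mul_zero] at h2
  rw [tendsto_iff_norm_sub_tendsto_zero]
  apply squeeze_zero' (Eventually.of_forall fun R => norm_nonneg _) _ h2
  filter_upwards [self_mem_nhdsWithin] with R hR
  exact bound hf hR x

end Pool.Agent.TH316.FQ
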