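import Pool.Agent.TH316.FQ.Stm

set_option autoImplicit false

/-! Liouville's theorem in `L¹ + L²` of the plane. -/

open MeasureTheory Metric Set Filter
open scoped Topology

namespace Pool.Agent.TH316.FQ

open Pool.Agent.Helper533.StarBox

theorem Lio_ww_one_cs : HasCompactSupport (ww 1) := by
  have := ww_comp one_pos (0 : ℂ)
  simpa using this

theorem Lio_m0_pos : 0 < m0 := by
  unfold m0
  apply (ww_cont 1).integral_pos_of_hasCompactSupport_nonneg_nonzero Lio_ww_one_cs
    (fun z => ww_nonneg 1 z) (x := ((3 / 4 : ℝ) : ℂ))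
  have hn : ‖((3 / 4 : ℝ) : ℂ)‖ = 3 / 4 := by
    rw [Complex.norm_real, Real.norm_eq_abs, abs_of_pos (by norm_num)]
  have : 0 < ww 1 ((3 / 4 : ℝ) : ℂ) := ww_pos one_pos (by rw [hn]; norm_num) (by rw [hn]; norm_num)
  exact this.ne'

theorem Lio_mass {R : ℝ} (hR : 0 < R) (x : ℂ) : ∫ z, ww R (z - x) = m0 := by
  rw [integral_sub_right_eq_self (fun z => ww R z) x]
  have e : ∀ z : ℂ, ww R z = (1 / R ^ 2) * ww 1 (R⁻¹ • z) := by
    intro z
    unfold ww
    rw [norm_smul, norm_inv, Real.norm_eq_abs, abs_of_pos hR]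
    have : (R⁻¹ * ‖z‖) ^ 2 / 1 ^ 2 = ‖z‖ ^ 2 / R ^ 2 := by
      field_simp
    rw [this]
    field_simp
  simp_rw [e]
  rw [integral_const_mul, Measure.integral_comp_smul]
  rw [Complex.finrank_real_complex]
  unfold m0
  rw [smul_eq_mul, abs_of_pos (by positivity)]
  field_simp

theorem Lio_int {D : ℂ → ℝ} (hD : LocallyIntegrable D (volume : Measure ℂ)) {R : ℝ} (hR : 0 < R) (x : ℂ) :
    Integrable (fun z => D z * ww R (z - x)) := by
  have h := hD.integrable_smul_right_of_hasCompactSupport
    ((ww_cont R).comp (continuous_id.sub continuous_const)) (ww_comp hR x)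
  simpa [smul_eq_mul] using h

theorem Lio_eq {D : ℂ → ℝ} (hD : LocallyIntegrable D (volume : Measure ℂ))
    (h : ∀ φ, TF univ φ → ∫ z, D z * lap φ z = 0) {δ R : ℝ} (hδ : 0 < δ) (hδR : δ ≤ R) (x : ℂ) :
    ∫ z, D z * ww R (z - x) = ∫ z, D z * ww δ (z - x) := by
  have hR : 0 < R := hδ.trans_le hδR
  have ht := PP_tf (U := univ) hδ hδR x (subset_univ _)
  have h1 := h _ ht
  have e3 : ∫ z, D z * lap (fun z => PP δ R (qq x z)) z =
      4 * ((∫ z, D z * ww R (z - x)) - ∫ z, D z * ww δ (z - x)) := by
    rw [← integral_sub (Lio_int hD hR x) (Lio_int hD hδ x), ← integral_const_mul]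
    congr 1; ext z
    rw [PP_lap hδ hδR]
    unfold ww
    rw [qq_eq]
    ring
  rw [e3] at h1
  linarith

theorem Lio_bound {P G : ℂ → ℝ} (hP : Integrable P) (hG : MemLp G 2 (volume : Measure ℂ)) {R : ℝ} (hR : 0 < R)
    (x : ℂ) : |∫ z, (P z - G z) * ww R (z - x)| ≤
      (∫ z, |P z|) / R ^ 2 + ((∫ z, G z ^ 2) + Real.pi) / (2 * R) := by
  have hG2 : Integrable (fun z => G z ^ 2) := hG.integrable_sq
  have hGl : LocallyIntegrable G (volume : Measure ℂ) := hG.locallyIntegrable (by norm_num)
  have hPl : LocallyIntegrable P (volume : Measure ℂ) := hP.locallyIntegrable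
  have hwc : Continuous (fun z => ww R (z - x)) := (ww_cont R).comp (continuous_id.sub continuous_const)
  have e0 : ∫ z, (P z - G z) * ww R (z - x) = (∫ z, P z * ww R (z - x)) - ∫ z, G z * ww R (z - x) := by
    rw [← integral_sub (Lio_int hPl hR x) (Lio_int hGl hR x)]
    congr 1; ext z; ring
  have h1 : |∫ z, P z * ww R (z - x)| ≤ (∫ z, |P z|) / R ^ 2 := by
    calc |∫ z, P z * ww R (z - x)| ≤ ∫ z, |P z * ww R (z - x)| := abs_integral_le_integral_abs
      _ ≤ ∫ z, |P z| * (1 / R ^ 2) := by
          apply integral_mono (Lio_int hPl hR x).abs (hP.abs.mul_const _)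
          intro z
          show |P z * ww R (z - x)| ≤ |P z| * (1 / R ^ 2)
          rw [abs_mul, abs_of_nonneg (ww_nonneg R _)]
          exact mul_le_mul_of_nonneg_left (ww_le R _) (abs_nonneg _)
      _ = _ := by rw [integral_mul_const]; ring
  -- the square of the weight
  have hw2 : ∫ z, ww R (z - x) ^ 2 ≤ Real.pi / R ^ 2 := by
    have e1 : ∫ z, ww R (z - x) ^ 2 = ∫ z in closedBall x R, ww R (z - x) ^ 2 := by
      symm
      apply setIntegral_eq_integral_of_forall_compl_eq_zero
      intro z hz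
      rw [ww_zero hR]
      · ring
      rw [mem_closedBall, not_le, dist_eq_norm] at hz
      exact hz.le
    rw [e1]
    have hvol : (volume (closedBall x R)).toReal = Real.pi * R ^ 2 := by
      rw [Complex.volume_closedBall, ENNReal.toReal_mul, ENNReal.toReal_pow, ENNReal.toReal_ofReal hR.le]
      simp [NNReal.coe_real_pi]; ring
    calc ∫ z in closedBall x R, ww R (z - x) ^ 2 ≤ ∫ z in closedBall x R, (1 / R ^ 2) ^ 2 := by
          apply integral_mono
          · exact ((hwc.pow 2).continuousOn).integrableOn_compact (isCompact_closedBall x R)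
          · exact integrableOn_const (by exact (isCompact_closedBall x R).measure_lt_top.ne)
          · intro z
            exact pow_le_pow_left₀ (ww_nonneg R _) (ww_le R _) 2
      _ = Real.pi / R ^ 2 := by
          rw [setIntegral_const, measureReal_def, hvol, smul_eq_mul]
          field_simp
  have hw2i : Integrable (fun z => ww R (z - x) ^ 2) := (ww_memLp hR x).integrable_sq
  have h2 : |∫ z, G z * ww R (z - x)| ≤ ((∫ z, G z ^ 2) + Real.pi) / (2 * R) := by
    calc |∫ z, G z * ww R (z - x)| ≤ ∫ z, |G z * ww R (z - x)| := abs_integral_le_integral_abs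
      _ ≤ ∫ z, ((1 / (2 * R)) * G z ^ 2 + (R / 2) * ww R (z - x) ^ 2) := by
          apply integral_mono (Lio_int hGl hR x).abs ((hG2.const_mul _).add (hw2i.const_mul _))
          intro z
          show |G z * ww R (z - x)| ≤ (1 / (2 * R)) * G z ^ 2 + (R / 2) * ww R (z - x) ^ 2
          rw [abs_mul]
          have h3 : 0 ≤ (1 / (2 * R)) * (|G z| - R * |ww R (z - x)|) ^ 2 := by positivity
          have h4 : (1 / (2 * R)) * (|G z| - R * |ww R (z - x)|) ^ 2 =
              (1 / (2 * R)) * |G z| ^ 2 + (R / 2) * |ww R (z - x)| ^ 2 - |G z| * |ww R (z - x)| := by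
            field_simp
            ring
          rw [sq_abs, sq_abs] at h4
          linarith
      _ = (1 / (2 * R)) * (∫ z, G z ^ 2) + (R / 2) * ∫ z, ww R (z - x) ^ 2 := by
          rw [integral_add (hG2.const_mul _) (hw2i.const_mul _), integral_const_mul, integral_const_mul]
      _ ≤ (1 / (2 * R)) * (∫ z, G z ^ 2) + (R / 2) * (Real.pi / R ^ 2) := by
          have := mul_le_mul_of_nonneg_left hw2 (show 0 ≤ R / 2 by positivity)
          linarith
      _ = _ := by field_simp
  rw [e0]
  calc |(∫ z, P z * ww R (z - x)) - ∫ z, G z * ww R (z - x)| ≤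
        |∫ z, P z * ww R (z - x)| + |∫ z, G z * ww R (z - x)| := abs_sub _ _
    _ ≤ _ := add_le_add h1 h2

theorem Lio_zero {P G : ℂ → ℝ} (hP : Integrable P) (hG : MemLp G 2 (volume : Measure ℂ))
    (h : ∀ φ, TF univ φ → ∫ z, (P z - G z) * lap φ z = 0) {δ : ℝ} (hδ : 0 < δ) (x : ℂ) :
    ∫ z, (P z - G z) * ww δ (z - x) = 0 := by
  have hGl : LocallyIntegrable G (volume : Measure ℂ) := hG.locallyIntegrable (by norm_num)
  have hPl : LocallyIntegrable P (volume : Measure ℂ) := hP.locallyIntegrable
  have hD : LocallyIntegrable (fun z => P z - G z) (volume : Measure ℂ) := hPl.sub hGl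
  set A : ℝ := ∫ z, |P z|
  set B : ℝ := (∫ z, G z ^ 2) + Real.pi
  have hlim : Tendsto (fun R : ℝ => A / R ^ 2 + B / (2 * R)) atTop (𝓝 (0 + 0)) := by
    apply Tendsto.add
    · exact Tendsto.const_div_atTop (tendsto_pow_atTop two_ne_zero) A
    · exact Tendsto.const_div_atTop (tendsto_id.const_mul_atTop two_pos) B
  rw [add_zero] at hlim
  have hle : |∫ z, (P z - G z) * ww δ (z - x)| ≤ 0 := by
    apply ge_of_tendsto hlim
    filter_upwards [eventually_ge_atTop δ] with R hR
    rw [← Lio_eq hD h hδ hR x]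
    exact Lio_bound hP hG (hδ.trans_le hR) x
  exact abs_nonpos_iff.mp hle

theorem lio : S_LIO := by
  intro P G hP hG h
  have hGl : LocallyIntegrable G (volume : Measure ℂ) := hG.locallyIntegrable (by norm_num)
  have hPl : LocallyIntegrable P (volume : Measure ℂ) := hP.locallyIntegrable
  set D : ℂ → ℝ := fun z => P z - G z with hDdef
  have hloc : LocallyIntegrable D (volume : Measure ℂ) := hPl.sub hGl
  have hleb := IsUnifLocDoublingMeasure.ae_tendsto_average_norm_sub (volume : Measure ℂ) hloc 1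
  filter_upwards [hleb] with x hz
  set d : ℕ → ℝ := fun n => 1 / (n + 1) with hd
  have hdpos : ∀ n, 0 < d n := fun n => by simp only [hd]; positivity
  have hdt : Tendsto d atTop (𝓝 0) := tendsto_one_div_add_atTop_nhds_zero_nat (𝕜 := ℝ)
  have hdt' : Tendsto d atTop (𝓝[>] 0) :=
    tendsto_nhdsWithin_iff.mpr ⟨hdt, Eventually.of_forall hdpos⟩
  have h1 := hz (ι := ℕ) (l := atTop) (fun _ => x) d hdt' (Eventually.of_forall fun n => by
    rw [mem_closedBall, dist_self]; simp only [one_mul]; exact (hdpos n).le)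
  have h2 : ∀ n, |D x * m0| ≤ Real.pi * ⨍ y in closedBall x (d n), ‖D y - D x‖ := by
    intro n
    set δ := d n with hδ
    have hδ0 := hdpos n
    have hvol : (volume (closedBall x δ)).toReal = Real.pi * δ ^ 2 := by
      rw [Complex.volume_closedBall, ENNReal.toReal_mul, ENNReal.toReal_pow, ENNReal.toReal_ofReal hδ0.le]
      simp [NNReal.coe_real_pi]; ring
    have hi1 : IntegrableOn (fun y => ‖D y - D x‖) (closedBall x δ) := by
      apply Integrable.norm
      exact (hloc.integrableOn_isCompact (isCompact_closedBall x δ)).sub (integrableOn_const (by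
        exact (isCompact_closedBall x δ).measure_lt_top.ne))
    have hcl : LocallyIntegrable (fun _ : ℂ => D x) (volume : Measure ℂ) :=
      continuous_const.locallyIntegrable
    have hsub : LocallyIntegrable (fun z => D z - D x) (volume : Measure ℂ) := hloc.sub hcl
    have e0 : D x * m0 = - ∫ z, (D z - D x) * ww δ (z - x) := by
      have e1 : ∫ z, (D z - D x) * ww δ (z - x) =
          (∫ z, D z * ww δ (z - x)) - ∫ z, D x * ww δ (z - x) := by
        rw [← integral_sub (Lio_int hloc hδ0 x) (Lio_int hcl hδ0 x)]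
        congr 1; ext z; ring
      rw [e1, Lio_zero hP hG h hδ0 x, integral_const_mul, Lio_mass hδ0 x]
      ring
    rw [e0, abs_neg]
    have e1 : ∫ z, |(D z - D x) * ww δ (z - x)| = ∫ z in closedBall x δ, |(D z - D x) * ww δ (z - x)| := by
      symm
      apply setIntegral_eq_integral_of_forall_compl_eq_zero
      intro z hz
      rw [ww_zero hδ0, mul_zero, abs_zero]
      rw [mem_closedBall, not_le, dist_eq_norm] at hz
      exact hz.le
    calc |∫ z, (D z - D x) * ww δ (z - x)| ≤ ∫ z, |(D z - D x) * ww δ (z - x)| := abs_integral_le_integral_abs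
      _ = ∫ z in closedBall x δ, |(D z - D x) * ww δ (z - x)| := e1
      _ ≤ ∫ z in closedBall x δ, ‖D z - D x‖ * (1 / δ ^ 2) := by
          apply integral_mono (Lio_int hsub hδ0 x).abs.integrableOn (hi1.mul_const _)
          intro z
          show |(D z - D x) * ww δ (z - x)| ≤ ‖D z - D x‖ * (1 / δ ^ 2)
          rw [abs_mul, abs_of_nonneg (ww_nonneg δ _), Real.norm_eq_abs]
          exact mul_le_mul_of_nonneg_left (ww_le δ _) (abs_nonneg _)
      _ = Real.pi * ⨍ y in closedBall x δ, ‖D y - D x‖ := by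
          rw [integral_mul_const, setAverage_eq, measureReal_def, hvol, smul_eq_mul]
          field_simp
  have h3 : Tendsto (fun n => Real.pi * ⨍ y in closedBall x (d n), ‖D y - D x‖) atTop
      (𝓝 (Real.pi * 0)) := h1.const_mul _
  rw [mul_zero] at h3
  have h4 : |D x * m0| ≤ 0 := ge_of_tendsto' h3 h2
  have h5 : D x * m0 = 0 := abs_nonpos_iff.mp h4
  have h6 : D x = 0 := by
    rcases mul_eq_zero.mp h5 with h | h
    · exact h
    · exact absurd h Lio_m0_pos.ne'
  simp only [hDdef] at h6
  linarith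

end Pool.Agent.TH316.FQ
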