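import Pool.Agent.TH316.FQ.Stm

set_option autoImplicit false

open MeasureTheory Metric Set Filter
open scoped Topology

namespace Pool.Agent.TH316.FQ

open Pool.Agent.Helper533.StarBox

namespace LipX

theorem m0_pos : 0 < m0 := by
  unfold m0
  have hc : HasCompactSupport (fun z : ℂ => ww 1 z) := by
    have := ww_comp (R := 1) one_pos 0
    simpa using this
  apply Continuous.integral_pos_of_hasCompactSupport_nonneg_nonzero (ww_cont 1) hc
    (fun z => ww_nonneg 1 z) (x := ((3 / 4 : ℝ) : ℂ))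
  apply ne_of_gt
  apply ww_pos one_pos
  · rw [Complex.norm_real, Real.norm_eq_abs, abs_of_pos] <;> norm_num
  · rw [Complex.norm_real, Real.norm_eq_abs, abs_of_pos] <;> norm_num

theorem lip1 : ∃ K : ℝ, 0 ≤ K ∧ ∀ a b : ℂ, |ww 1 a - ww 1 b| ≤ K * ‖a - b‖ := by
  have hc : HasCompactSupport (fun z : ℂ => ww 1 z) := by
    have := ww_comp (R := 1) one_pos 0
    simpa using this
  have hs : ContDiff ℝ 1 (fun z : ℂ => ww 1 z) := by
    have h1 : ContDiff ℝ 1 (fun z : ℂ => ‖z‖ ^ 2 / (1:ℝ) ^ 2) := (contDiff_norm_sq ℝ).div_const _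
    have h2 : ContDiff ℝ 1 (fun t : ℝ => bb t) := bb_smooth.of_le (by
      exact_mod_cast le_top)
    exact (h2.comp h1).div_const _
  obtain ⟨K, hK⟩ := hs.lipschitzWith_of_hasCompactSupport hc one_ne_zero
  refine ⟨K, K.2, fun a b => ?_⟩
  have := hK.dist_le_mul a b
  rwa [Real.dist_eq, dist_eq_norm] at this

theorem lipt {K : ℝ} (hK : ∀ a b : ℂ, |ww 1 a - ww 1 b| ≤ K * ‖a - b‖) {t : ℝ} (ht : 0 < t) (a b : ℂ) :
    |ww t a - ww t b| ≤ K / t ^ 3 * ‖a - b‖ := by
  have e : ∀ z : ℂ, ww t z = (1 / t ^ 2) * ww 1 ((1 / t) • z) := by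
    intro z
    unfold ww
    rw [norm_smul, Real.norm_eq_abs, abs_of_pos (by positivity)]
    have : (1 / t * ‖z‖) ^ 2 / 1 ^ 2 = ‖z‖ ^ 2 / t ^ 2 := by
      field_simp
    rw [this]
    ring
  rw [e a, e b, ← mul_sub, abs_mul, abs_of_pos (by positivity)]
  have h := hK ((1 / t) • a) ((1 / t) • b)
  rw [← smul_sub, norm_smul, Real.norm_eq_abs, abs_of_pos (show (0:ℝ) < 1 / t by positivity)] at h
  calc 1 / t ^ 2 * |ww 1 ((1 / t) • a) - ww 1 ((1 / t) • b)| ≤ 1 / t ^ 2 * (K * (1 / t * ‖a - b‖)) :=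
        mul_le_mul_of_nonneg_left h (by positivity)
    _ = _ := by field_simp

theorem int_mul {f : ℂ → ℝ} (hf : LocallyIntegrable f volume) {R : ℝ} (hR : 0 < R) (x : ℂ) :
    Integrable (fun y => f y * ww R (y - x)) := by
  have := hf.integrable_smul_right_of_hasCompactSupport
    (g := fun y => ww R (y - x)) ((ww_cont R).comp (continuous_id.sub continuous_const)) (ww_comp hR x)
  simpa [smul_eq_mul] using this

theorem vol {x : ℂ} {R : ℝ} (hR : 0 < R) : (volume (closedBall x R)).toReal = Real.pi * R ^ 2 := by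
  rw [Complex.volume_closedBall, ENNReal.toReal_mul, ENNReal.toReal_pow, ENNReal.toReal_ofReal hR.le]
  simp [NNReal.coe_real_pi]; ring

end LipX

open LipX in
theorem lip : S_LIP := by
  obtain ⟨K, hK0, hK⟩ := lip1
  have hm := m0_pos
  refine ⟨2 * Real.pi * K / m0, by positivity, ?_⟩
  intro f H hf h0 h1 x y t ht
  have hloc : LocallyIntegrable f volume := hf.locallyIntegrable (by norm_num)
  have hH : 0 ≤ H := by
    obtain ⟨z, hz0, hz1⟩ := (h0.and h1).exists
    exact hz0.trans hz1
  set S : Set ℂ := closedBall x t ∪ closedBall y t with hS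
  have hSc : IsCompact S := (isCompact_closedBall x t).union (isCompact_closedBall y t)
  have hSv : (volume S).toReal ≤ 2 * Real.pi * t ^ 2 := by
    have h2 : volume S ≤ volume (closedBall x t) + volume (closedBall y t) := measure_union_le _ _
    have h3 := ENNReal.toReal_mono (ENNReal.add_ne_top.mpr ⟨(isCompact_closedBall x t).measure_lt_top.ne,
      (isCompact_closedBall y t).measure_lt_top.ne⟩) h2
    rw [ENNReal.toReal_add (isCompact_closedBall x t).measure_lt_top.ne
      (isCompact_closedBall y t).measure_lt_top.ne, vol ht, vol ht] at h3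
    linarith
  have e1 : Av f t x - Av f t y = (∫ z, f z * (ww t (z - x) - ww t (z - y))) / m0 := by
    unfold Av
    rw [← sub_div, ← integral_sub (int_mul hloc ht x) (int_mul hloc ht y)]
    congr 2; ext z; ring
  have e2 : ∫ z, f z * (ww t (z - x) - ww t (z - y)) = ∫ z in S, f z * (ww t (z - x) - ww t (z - y)) := by
    symm
    apply setIntegral_eq_integral_of_forall_compl_eq_zero
    intro z hz
    rw [hS, mem_union, not_or, mem_closedBall, mem_closedBall, not_le, not_le, dist_eq_norm, dist_eq_norm] at hz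
    rw [ww_zero ht hz.1.le, ww_zero ht hz.2.le, sub_zero, mul_zero]
  have e3 : ‖∫ z in S, f z * (ww t (z - x) - ww t (z - y))‖ ≤ ∫ z in S, H * (K / t ^ 3 * ‖x - y‖) := by
    apply norm_integral_le_of_norm_le (integrableOn_const (hSc.measure_lt_top.ne))
    apply ae_restrict_of_ae
    filter_upwards [h0, h1] with z hz0 hz1
    rw [norm_mul, Real.norm_eq_abs, Real.norm_eq_abs, abs_of_nonneg hz0]
    apply mul_le_mul hz1 _ (abs_nonneg _) hH
    have := lipt hK ht (z - x) (z - y)
    have e : z - x - (z - y) = -(x - y) := by ring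
    rwa [e, norm_neg] at this
  rw [e1, abs_div, abs_of_pos hm, e2, ← Real.norm_eq_abs]
  rw [div_le_iff₀ hm]
  refine e3.trans ?_
  rw [setIntegral_const, smul_eq_mul, measureReal_def]
  calc (volume S).toReal * (H * (K / t ^ 3 * ‖x - y‖)) ≤ (2 * Real.pi * t ^ 2) * (H * (K / t ^ 3 * ‖x - y‖)) :=
        mul_le_mul_of_nonneg_right hSv (by positivity)
    _ = _ := by field_simp

end Pool.Agent.TH316.FQ
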