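import Pool.Agent.TH316.FQ.Stm

set_option autoImplicit false

/-! Perforated squares: `sup λ₁ T / |Ω| = 1`. -/

open MeasureTheory Metric Set Filter
open scoped Topology

namespace Pool.Agent.TH316.FQ

open Pool.Agent.Helper533.StarBox

theorem pf_open (N : ℕ) (δ : ℝ) : IsOpen (Perf N δ) := by
  have h : Perf N δ = {z : ℂ | 0 < z.re} ∩ {z : ℂ | z.re < N} ∩ {z : ℂ | 0 < z.im} ∩ {z : ℂ | z.im < N} ∩
      ⋂ i ∈ Finset.range N, ⋂ j ∈ Finset.range N, {z : ℂ | δ < ‖z - (⟨(i : ℝ) + 1 / 2, (j : ℝ) + 1 / 2⟩ : ℂ)‖} := by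
    ext z
    simp only [Perf, mem_setOf_eq, mem_inter_iff, mem_iInter, Finset.mem_range]
    tauto
  rw [h]
  refine IsOpen.inter (IsOpen.inter (IsOpen.inter (IsOpen.inter ?_ ?_) ?_) ?_) ?_
  · exact isOpen_lt continuous_const Complex.continuous_re
  · exact isOpen_lt Complex.continuous_re continuous_const
  · exact isOpen_lt continuous_const Complex.continuous_im
  · exact isOpen_lt Complex.continuous_im continuous_const
  · refine isOpen_biInter_finset fun i _ => isOpen_biInter_finset fun j _ => ?_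
    exact isOpen_lt continuous_const (by fun_prop)

theorem pf_vol (N : ℕ) (δ : ℝ) : volume (Perf N δ) ≤ ENNReal.ofReal ((N : ℝ) ^ 2) := by
  have h : Perf N δ ⊆ (Ioo (0 : ℝ) N) ×ℂ (Ioo (0 : ℝ) N) := by
    intro z hz
    rw [Complex.mem_reProdIm]
    exact ⟨⟨hz.1, hz.2.1⟩, ⟨hz.2.2.1, hz.2.2.2.1⟩⟩
  refine (measure_mono h).trans ?_
  have e : (Ioo (0 : ℝ) N) ×ℂ (Ioo (0 : ℝ) N) = Complex.measurableEquivRealProd ⁻¹' ((Ioo (0 : ℝ) N) ×ˢ (Ioo (0 : ℝ) N)) := by
    ext z; simp [Complex.mem_reProdIm]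
  rw [e, Complex.volume_preserving_equiv_real_prod.measure_preimage
    (measurableSet_Ioo.prod measurableSet_Ioo).nullMeasurableSet, Measure.volume_eq_prod, Measure.prod_prod,
    Real.volume_Ioo, sub_zero, ← ENNReal.ofReal_mul (by positivity), pow_two]

theorem perf (hPOL : S_POL) (hPL : S_PLAM) (hPT : S_PTOR) : S_PERF := by
  intro δ' hδ'
  set ε : ℝ := min (δ' / 2) (1 / 2) with hε
  have hε0 : 0 < ε := lt_min (by linarith) (by norm_num)
  have hε1 : ε ≤ 1 / 2 := min_le_right _ _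
  have hε2 : 2 * ε ≤ δ' := by have := min_le_left (δ' / 2) (1 / 2 : ℝ); rw [← hε] at this; linarith
  obtain ⟨C, hC, h1⟩ := hPL
  obtain ⟨δ₀, hδ₀, h2⟩ := hPT ε hε0
  -- choice of δ
  set B : ℝ := 4 * C / ε + 1 with hB
  have hB0 : 0 < B := by positivity
  set δ : ℝ := min (min (δ₀ / 2) (1 / 8)) (Real.exp (-(2 * Real.pi * B ^ 2))) with hδ
  have hδpos : 0 < δ := lt_min (lt_min (by linarith) (by norm_num)) (Real.exp_pos _)
  have hδa : δ < δ₀ := lt_of_le_of_lt ((min_le_left _ _).trans (min_le_left _ _)) (by linarith)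
  have hδb : δ < 1 / 4 := lt_of_le_of_lt ((min_le_left _ _).trans (min_le_right _ _)) (by norm_num)
  have hδb' : δ ≤ 1 / 8 := (min_le_left _ _).trans (min_le_right _ _)
  have hδc : δ ≤ Real.exp (-(2 * Real.pi * B ^ 2)) := min_le_right _ _
  set l : ℝ := Real.log (1 / δ) / (2 * Real.pi) with hl
  set l' : ℝ := Real.log (1 / (2 * δ)) / (2 * Real.pi) with hl'
  have hpi := Real.pi_pos
  have hll : l' ≤ l := by
    apply div_le_div_of_nonneg_right _ (by positivity)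
    apply Real.log_le_log (by positivity)
    apply one_div_le_one_div_of_le hδpos; linarith
  have hl'0 : 0 < l' := by
    apply div_pos _ (by positivity)
    apply Real.log_pos
    rw [lt_div_iff₀ (by positivity)]; linarith
  have hlB : B ^ 2 ≤ l := by
    rw [hl, le_div_iff₀ (by positivity), one_div, Real.log_inv]
    have := Real.log_le_log hδpos hδc
    rw [Real.log_exp] at this
    linarith
  have hsl : B ≤ √l := Real.le_sqrt_of_sq_le hlB
  have hl0 : 0 < l := hl'0.trans_le hll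
  have hsq : √l' ≤ √l := Real.sqrt_le_sqrt hll
  have hsl2 : √l ^ 2 = l := Real.sq_sqrt hl0.le
  obtain ⟨N, hN, u, hu, hEn, hbd⟩ := h2 δ hδpos hδa
  have hUo := pf_open N δ
  have hne : ∃ z, u z ≠ 0 := by
    by_contra hcon
    push Not at hcon
    have : u = fun _ => 0 := funext hcon
    rw [this, En_self] at hEn
    simp [gx, gy] at hEn
  have hNe : (Perf N δ).Nonempty := by
    obtain ⟨z, hz⟩ := hne
    exact ⟨z, hu.supp (subset_tsupport _ hz)⟩
  have hAdm : Adm (Perf N δ) := ⟨hUo, hNe, ne_top_of_le_ne_top ENNReal.ofReal_ne_top (pf_vol N δ)⟩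
  refine ⟨Perf N δ, hAdm, ?_⟩
  obtain ⟨p1, p2, p3, p4, p5, p6, p7, p8⟩ := hPOL _ hAdm
  have har : ar (Perf N δ) ≤ (N : ℝ) ^ 2 := ENNReal.toReal_le_of_le_ofReal (by positivity) (pf_vol N δ)
  -- eigenvalue
  set D : ℝ := (√l' + C) ^ 2 with hD
  have hD0 : 0 < D := by have : 0 < √l' := Real.sqrt_pos.2 hl'0; positivity
  have hlam : 1 / D ≤ lambda1 (Perf N δ) := by
    apply le_lambda1 hUo hNe
    intro v hv
    rw [rayleigh_eq, div_le_div_iff₀ hD0 (Ip_pos hv), one_mul, mul_comm]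
    exact h1 δ hδpos hδb N hN v hv.tf
  -- torsion
  have htor : (1 - ε) * (N : ℝ) ^ 2 * l ≤ tor (Perf N δ) := by
    have k1 : (∫ z, u z) ^ 2 / En u u ≤ tor (Perf N δ) :=
      le_csSup p1 ⟨u, ⟨hu.1, hu.2, hu.3, hne⟩, rfl⟩
    refine le_trans ?_ k1
    rw [le_div_iff₀ hEn]
    exact hbd
  -- comparison
  have hkey : (1 - ε) * D ≤ l := by
    have k1 : √l' + C ≤ √l * (1 + ε / 4) := by
      have : C ≤ √l * (ε / 4) := by
        have h3 : C = (4 * C / ε) * (ε / 4) := by field_simp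
        calc C = (4 * C / ε) * (ε / 4) := h3
          _ ≤ √l * (ε / 4) := mul_le_mul_of_nonneg_right (by linarith) (by positivity)
      linarith
    have k2 : D ≤ l * (1 + ε / 4) ^ 2 := by
      calc D ≤ (√l * (1 + ε / 4)) ^ 2 := pow_le_pow_left₀ (by positivity) k1 2
        _ = l * (1 + ε / 4) ^ 2 := by rw [mul_pow, hsl2]
    have k3 : (1 - ε) * (1 + ε / 4) ^ 2 ≤ 1 := by nlinarith [sq_nonneg ε]
    calc (1 - ε) * D ≤ (1 - ε) * (l * (1 + ε / 4) ^ 2) := mul_le_mul_of_nonneg_left k2 (by linarith)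
      _ = l * ((1 - ε) * (1 + ε / 4) ^ 2) := by ring
      _ ≤ l * 1 := mul_le_mul_of_nonneg_left k3 hl0.le
      _ = l := mul_one l
  have hN2 : (0 : ℝ) ≤ (N : ℝ) ^ 2 := by positivity
  have hfin : (1 - ε) * ((1 - ε) * (N : ℝ) ^ 2) ≤ lambda1 (Perf N δ) * tor (Perf N δ) := by
    calc (1 - ε) * ((1 - ε) * (N : ℝ) ^ 2) = (1 / D) * ((1 - ε) * (N : ℝ) ^ 2 * ((1 - ε) * D)) := by field_simp
      _ ≤ (1 / D) * ((1 - ε) * (N : ℝ) ^ 2 * l) := by
        apply mul_le_mul_of_nonneg_left _ (by positivity)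
        apply mul_le_mul_of_nonneg_left hkey
        exact mul_nonneg (by linarith) hN2
      _ ≤ lambda1 (Perf N δ) * tor (Perf N δ) := mul_le_mul hlam htor
        (mul_nonneg (mul_nonneg (by linarith) hN2) hl0.le) p2.le
  refine le_trans ?_ hfin
  by_cases hd : 1 - δ' ≤ 0
  · have : (1 - δ') * ar (Perf N δ) ≤ 0 := mul_nonpos_of_nonpos_of_nonneg hd p4.le
    refine this.trans ?_
    exact mul_nonneg (by linarith) (mul_nonneg (by linarith) hN2)
  · push Not at hd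
    calc (1 - δ') * ar (Perf N δ) ≤ (1 - δ') * (N : ℝ) ^ 2 := mul_le_mul_of_nonneg_left har hd.le
      _ ≤ ((1 - ε) * (1 - ε)) * (N : ℝ) ^ 2 := by
        apply mul_le_mul_of_nonneg_right _ hN2
        nlinarith [sq_nonneg ε]
      _ = (1 - ε) * ((1 - ε) * (N : ℝ) ^ 2) := by ring

end Pool.Agent.TH316.FQ
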