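import Pool.Agent.TH316.FQ.Stm

set_option autoImplicit false

open MeasureTheory Metric Set Filter
open scoped Topology

namespace Pool.Agent.TH316.FQ

open Pool.Agent.Helper533.StarBox

namespace PlamX

/-- the centres -/
noncomputable def xc (p : ℕ × ℕ) : ℂ := ⟨(p.1 : ℝ) + 1 / 2, (p.2 : ℝ) + 1 / 2⟩

theorem mem_cell {p : ℕ × ℕ} {z : ℂ} :
    z ∈ Cell (xc p) ↔ (p.1 : ℝ) < z.re ∧ z.re < p.1 + 1 ∧ (p.2 : ℝ) < z.im ∧ z.im < p.2 + 1 := by
  unfold Cell xc
  simp only [mem_ofPred_eq, abs_lt]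
  constructor
  · rintro ⟨⟨h1, h2⟩, h3, h4⟩
    refine ⟨?_, ?_, ?_, ?_⟩ <;> linarith
  · rintro ⟨h1, h2, h3, h4⟩
    refine ⟨⟨?_, ?_⟩, ?_, ?_⟩ <;> linarith

theorem meas_cell (x : ℂ) : MeasurableSet (Cell x) := by
  have h : IsOpen (Cell x) := by
    unfold Cell
    refine IsOpen.and ?_ ?_
    · exact isOpen_lt (by fun_prop) continuous_const
    · exact isOpen_lt (by fun_prop) continuous_const
  exact h.measurableSet

theorem disj_cell {p q : ℕ × ℕ} (h : p ≠ q) : Disjoint (Cell (xc p)) (Cell (xc q)) := by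
  rw [Set.disjoint_left]
  intro z h1 h2
  rw [mem_cell] at h1 h2
  apply h
  obtain ⟨a1, a2, a3, a4⟩ := h1
  obtain ⟨b1, b2, b3, b4⟩ := h2
  have e1 : p.1 = q.1 := by
    have c1 : (p.1 : ℝ) < (q.1 : ℝ) + 1 := by linarith
    have c2 : (q.1 : ℝ) < (p.1 : ℝ) + 1 := by linarith
    have c1' : p.1 < q.1 + 1 := by exact_mod_cast c1
    have c2' : q.1 < p.1 + 1 := by exact_mod_cast c2
    omega
  have e2 : p.2 = q.2 := by
    have c1 : (p.2 : ℝ) < (q.2 : ℝ) + 1 := by linarith
    have c2 : (q.2 : ℝ) < (p.2 : ℝ) + 1 := by linarith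
    have c1' : p.2 < q.2 + 1 := by exact_mod_cast c1
    have c2' : q.2 < p.2 + 1 := by exact_mod_cast c2
    omega
  exact Prod.ext e1 e2

theorem null_re (c : ℝ) : volume {z : ℂ | z.re = c} = 0 := by
  have h : {z : ℂ | z.re = c} = Complex.measurableEquivRealProd ⁻¹' ({c} ×ˢ univ) := by
    ext z
    simp [Complex.measurableEquivRealProd_apply]
  rw [h, Complex.volume_preserving_equiv_real_prod.measure_preimage
    ((measurableSet_singleton c).prod MeasurableSet.univ).nullMeasurableSet,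
    Measure.volume_eq_prod, Measure.prod_prod]
  simp

theorem null_im (c : ℝ) : volume {z : ℂ | z.im = c} = 0 := by
  have h : {z : ℂ | z.im = c} = Complex.measurableEquivRealProd ⁻¹' (univ ×ˢ {c}) := by
    ext z
    simp [Complex.measurableEquivRealProd_apply]
  rw [h, Complex.volume_preserving_equiv_real_prod.measure_preimage
    (MeasurableSet.univ.prod (measurableSet_singleton c)).nullMeasurableSet,
    Measure.volume_eq_prod, Measure.prod_prod]
  simp

/-- the grid lines -/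
def grid : Set ℂ := ⋃ n : ℕ, ({z : ℂ | z.re = n} ∪ {z : ℂ | z.im = n})

theorem null_grid : volume grid = 0 := by
  refine measure_iUnion_null fun n => measure_union_null (null_re _) (null_im _)

theorem cover {N : ℕ} {z : ℂ} (h1 : 0 < z.re) (h2 : z.re < N) (h3 : 0 < z.im) (h4 : z.im < N)
    (hz : z ∉ grid) : z ∈ ⋃ p ∈ Finset.range N ×ˢ Finset.range N, Cell (xc p) := by
  have hg : ∀ n : ℕ, z.re ≠ n ∧ z.im ≠ n := by
    intro n
    constructor
    · intro h
      exact hz (mem_iUnion.2 ⟨n, Or.inl h⟩)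
    · intro h
      exact hz (mem_iUnion.2 ⟨n, Or.inr h⟩)
  have f1 := Nat.floor_le h1.le
  have f2 := Nat.lt_floor_add_one z.re
  have f3 := Nat.floor_le h3.le
  have f4 := Nat.lt_floor_add_one z.im
  refine mem_iUnion₂.2 ⟨(⌊z.re⌋₊, ⌊z.im⌋₊), ?_, ?_⟩
  · rw [Finset.mem_product, Finset.mem_range, Finset.mem_range]
    constructor
    · exact (Nat.floor_lt h1.le).2 h2
    · exact (Nat.floor_lt h3.le).2 h4
  · rw [mem_cell]
    exact ⟨lt_of_le_of_ne f1 (hg _).1.symm, f2, lt_of_le_of_ne f3 (hg _).2.symm, f4⟩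

theorem split {N : ℕ} {g : ℂ → ℝ} (hg : Integrable g)
    (h0 : ∀ z, g z ≠ 0 → 0 < z.re ∧ z.re < N ∧ 0 < z.im ∧ z.im < N) :
    ∫ z, g z = ∑ p ∈ Finset.range N ×ˢ Finset.range N, ∫ z in Cell (xc p), g z := by
  rw [← integral_biUnion_finset]
  · rw [setIntegral_eq_integral_of_ae_compl_eq_zero]
    have : ∀ᵐ z : ℂ, z ∉ grid := by
      rw [ae_iff]
      simpa using null_grid
    filter_upwards [this] with z hz hz2
    by_contra h
    obtain ⟨h1, h2, h3, h4⟩ := h0 z h
    exact hz2 (cover h1 h2 h3 h4 hz)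
  · intro p _
    exact meas_cell _
  · intro p _ q _ hpq
    exact disj_cell hpq
  · intro p _
    exact hg.integrableOn

end PlamX

open PlamX in
theorem plam (hC : S_CELL) : S_PLAM := by
  obtain ⟨C, hC0, hC⟩ := hC
  refine ⟨C, hC0, fun δ hδ hδ4 N _ u hu => ?_⟩
  have hz0 : ∀ z, z ∉ Perf N δ → u z = 0 ∧ gx u z = 0 ∧ gy u z = 0 := by
    intro z hz
    have h1 : z ∉ tsupport u := fun h => hz (hu.supp h)
    exact ⟨image_eq_zero_of_notMem_tsupport h1, TF.gx_zero h1, TF.gy_zero h1⟩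
  have hsq : ∀ z, z ∈ Perf N δ → 0 < z.re ∧ z.re < N ∧ 0 < z.im ∧ z.im < N :=
    fun z hz => ⟨hz.1, hz.2.1, hz.2.2.1, hz.2.2.2.1⟩
  have hu' : TF univ u := ⟨hu.smooth, hu.comp, subset_univ _⟩
  have i1 : Integrable (fun z => u z ^ 2) := by
    have hc : HasCompactSupport (fun z => u z ^ 2) :=
      hu.comp.comp_left (g := fun t : ℝ => t ^ 2) (by norm_num)
    exact (hu.smooth.continuous.pow 2).integrable_of_hasCompactSupport hc
  have i2 : Integrable (fun z => gx u z ^ 2 + gy u z ^ 2) := by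
    have hc1 : HasCompactSupport (fun z => gx u z ^ 2) :=
      (hu.gx_comp).comp_left (g := fun t : ℝ => t ^ 2) (by norm_num)
    have hc2 : HasCompactSupport (fun z => gy u z ^ 2) :=
      (hu.gy_comp).comp_left (g := fun t : ℝ => t ^ 2) (by norm_num)
    exact ((hu.gx_cont.pow 2).integrable_of_hasCompactSupport hc1).add
      ((hu.gy_cont.pow 2).integrable_of_hasCompactSupport hc2)
  have s1 := split (N := N) i1 (fun z hz => by
    apply hsq
    by_contra h
    exact hz (by simp [(hz0 z h).1]))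
  have s2 := split (N := N) i2 (fun z hz => by
    apply hsq
    by_contra h
    exact hz (by simp [(hz0 z h).2]))
  rw [Ip_self, En_self, s1, s2, Finset.mul_sum]
  refine Finset.sum_le_sum fun p hp => ?_
  rw [Finset.mem_product, Finset.mem_range, Finset.mem_range] at hp
  refine hC δ hδ hδ4 (xc p) u hu' fun z hz => ?_
  refine (hz0 z fun h => ?_).1
  have h1 := h.2.2.2.2 p.1 hp.1 p.2 hp.2
  rw [mem_ball, Complex.dist_eq] at hz
  exact absurd h1 (not_lt.2 hz.le)

end Pool.Agent.TH316.FQ
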