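import Pool.Agent.TH316.FQ.Stm

set_option autoImplicit false

open MeasureTheory Metric Set Filter
open scoped Topology

namespace Pool.Agent.TH316.FQ

open Pool.Agent.Helper533.StarBox

namespace PolX

theorem ar_pos {U : Set ℂ} (hU : Adm U) : 0 < ar U := by
  obtain ⟨h1, h2, h3⟩ := hU
  exact ENNReal.toReal_pos (h1.measure_pos volume h2).ne' h3

theorem tf_int {U : Set ℂ} {u : ℂ → ℝ} (hu : TF U u) : Integrable u :=
  hu.cont.integrable_of_hasCompactSupport hu.comp

theorem zero_out {U : Set ℂ} {u : ℂ → ℝ} (hu : TF U u) {z : ℂ} (hz : z ∉ U) : u z = 0 := by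
  by_contra h
  exact hz (hu.supp (subset_tsupport _ h))

/-- Cauchy-Schwarz -/
theorem int_sq_le {U : Set ℂ} {u : ℂ → ℝ} (hU : Adm U) (hu : TF U u) :
    (∫ z, u z) ^ 2 ≤ ar U * Ip u u := by
  have ha := ar_pos hU
  have hm : MeasurableSet U := hU.1.measurableSet
  have key : ∀ t : ℝ, 0 ≤ Ip u u - 2 * t * (∫ z, u z) + t ^ 2 * ar U := by
    intro t
    have e1 : ∫ z in U, (u z - t) ^ 2 = Ip u u - 2 * t * (∫ z, u z) + t ^ 2 * ar U := by
      have i1 : IntegrableOn (fun z => u z ^ 2) U := hu.sq_int.integrableOn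
      have i2 : IntegrableOn (fun z => 2 * t * u z) U := ((tf_int hu).const_mul _).integrableOn
      have i3 : IntegrableOn (fun _ : ℂ => t ^ 2) U := by
        apply integrableOn_const hU.2.2
      have e2 : ∫ z in U, (u z - t) ^ 2 = ∫ z in U, ((u z ^ 2 - 2 * t * u z) + t ^ 2) := by
        congr 1; ext z; ring
      have e3 : ∫ z in U, u z ^ 2 = ∫ z, u z ^ 2 := by
        apply setIntegral_eq_integral_of_forall_compl_eq_zero
        intro z hz
        rw [zero_out hu hz]; ring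
      have e4 : ∫ z in U, 2 * t * u z = 2 * t * ∫ z, u z := by
        rw [integral_const_mul]
        congr 1
        apply setIntegral_eq_integral_of_forall_compl_eq_zero
        intro z hz
        exact zero_out hu hz
      have e5 : ∫ _ in U, t ^ 2 = t ^ 2 * ar U := by
        rw [setIntegral_const, smul_eq_mul, mul_comm]
        rfl
      have e6 : ∫ z in U, ((u z ^ 2 - 2 * t * u z) + t ^ 2)
          = (∫ z in U, (u z ^ 2 - 2 * t * u z)) + ∫ _ in U, t ^ 2 :=
        integral_add (i1.sub i2) i3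
      have e7 : ∫ z in U, (u z ^ 2 - 2 * t * u z)
          = (∫ z in U, u z ^ 2) - ∫ z in U, 2 * t * u z := integral_sub i1 i2
      rw [e2, e6, e7, e3, e4, e5, ← Ip_self]
    rw [← e1]
    exact integral_nonneg fun z => by positivity
  have h := key ((∫ z, u z) / ar U)
  have e : Ip u u - 2 * ((∫ z, u z) / ar U) * (∫ z, u z) + ((∫ z, u z) / ar U) ^ 2 * ar U
      = Ip u u - (∫ z, u z) ^ 2 / ar U := by
    field_simp; ring
  rw [e, sub_nonneg, div_le_iff₀ ha] at h
  linarith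

theorem En_pos (hFK : S_FK) {U : Set ℂ} {u : ℂ → ℝ} (hU : Adm U) (hu : IsTest U u) :
    0 < En u u := by
  have h1 := Ip_pos hu
  have h2 := hFK U u hU.1 hU.2.2 hu.tf
  have ha := ar_pos hU
  by_contra h
  push Not at h
  nlinarith

theorem quot_le (hFK : S_FK) {U : Set ℂ} {u : ℂ → ℝ} (hU : Adm U) (hu : IsTest U u) :
    (∫ z, u z) ^ 2 / En u u ≤ ar U ^ 2 / 2 := by
  have h1 := int_sq_le hU hu.tf
  have h2 := hFK U u hU.1 hU.2.2 hu.tf
  have ha := ar_pos hU
  rw [div_le_iff₀ (En_pos hFK hU hu)]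
  nlinarith

theorem En_smul_self {U : Set ℂ} {u : ℂ → ℝ} (c : ℝ) (hu : TF U u) :
    En (fun z => c * u z) (fun z => c * u z) = c ^ 2 * En u u := by
  rw [En_smul_left c hu, En_comm u, En_smul_left c hu]; ring

theorem exists_pos {U : Set ℂ} (hU : Adm U) : ∃ u, IsTest U u ∧ 0 < ∫ z, u z := by
  obtain ⟨u, hu⟩ := exists_test hU.1 hU.2.1
  have h1 := hu.tf.mul_smooth hu.tf.smooth
  refine ⟨fun z => u z * u z, ⟨h1.smooth, h1.comp, h1.supp, ?_⟩, ?_⟩
  · obtain ⟨z, hz⟩ := hu.2.2.2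
    exact ⟨z, mul_ne_zero hz hz⟩
  · exact Ip_pos hu

end PolX

open PolX

theorem pol (hFK : S_FK) : S_POL := by
  intro U hU
  have ha := ar_pos hU
  have hbdd : BddAbove {r : ℝ | ∃ u : ℂ → ℝ, IsTest U u ∧ r = (∫ z, u z) ^ 2 / En u u} := by
    refine ⟨ar U ^ 2 / 2, ?_⟩
    rintro r ⟨u, hu, rfl⟩
    exact quot_le hFK hU hu
  have hne : {r : ℝ | ∃ u : ℂ → ℝ, IsTest U u ∧ r = (∫ z, u z) ^ 2 / En u u}.Nonempty := by
    obtain ⟨u, hu⟩ := exists_test hU.1 hU.2.1
    exact ⟨_, u, hu, rfl⟩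
  have hlam : 0 < lambda1 U := by
    have : 2 / ar U ≤ lambda1 U := by
      apply le_lambda1 hU.1 hU.2.1
      intro u hu
      rw [rayleigh_eq, div_le_div_iff₀ ha (Ip_pos hu)]
      have h2 := hFK U u hU.1 hU.2.2 hu.tf
      linarith
    exact lt_of_lt_of_le (by positivity) this
  have htor : 0 < tor U := by
    obtain ⟨u, hu, hpos⟩ := exists_pos hU
    have h1 : (∫ z, u z) ^ 2 / En u u ≤ tor U := le_csSup hbdd ⟨u, hu, rfl⟩
    have h2 : 0 < (∫ z, u z) ^ 2 / En u u := div_pos (by positivity) (En_pos hFK hU hu)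
    linarith
  refine ⟨hbdd, hlam, htor, ha, ?_, ?_, ?_, ?_⟩
  · have : tor U ≤ ar U ^ 2 / 2 := by
      apply csSup_le hne
      rintro r ⟨u, hu, rfl⟩
      exact quot_le hFK hU hu
    linarith
  · have : tor U ≤ ar U / lambda1 U := by
      apply csSup_le hne
      rintro r ⟨u, hu, rfl⟩
      rw [div_le_div_iff₀ (En_pos hFK hU hu) hlam]
      have h1 := int_sq_le hU hu.tf
      have h2 := lambda1_mul_le hu.tf
      nlinarith
    rw [le_div_iff₀ hlam] at this
    linarith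
  · intro u hu
    by_cases hz : ∃ z, u z ≠ 0
    · have ht : IsTest U u := ⟨hu.1, hu.2, hu.3, hz⟩
      have hE := En_pos hFK hU ht
      have h1 : (∫ z, u z) ^ 2 / En u u ≤ tor U := le_csSup hbdd ⟨u, ht, rfl⟩
      have h2 : 2 * (∫ z, u z) - En u u ≤ (∫ z, u z) ^ 2 / En u u := by
        rw [le_div_iff₀ hE]
        nlinarith [sq_nonneg ((∫ z, u z) - En u u)]
      linarith
    · push Not at hz
      have h1 : ∫ z, u z = 0 := by simp [hz]
      have h2 := En_nonneg u
      rw [h1]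
      linarith
  · intro ε hε
    obtain ⟨r, ⟨u, hu, rfl⟩, hr⟩ := exists_lt_of_lt_csSup hne
      (show tor U - ε < sSup {r : ℝ | ∃ u : ℂ → ℝ, IsTest U u ∧ r = (∫ z, u z) ^ 2 / En u u} by
        unfold tor; linarith)
    have hE := En_pos hFK hU hu
    refine ⟨fun z => ((∫ z, u z) / En u u) * u z, hu.tf.smul _, ?_⟩
    have e1 : ∫ z, ((∫ z, u z) / En u u) * u z = ((∫ z, u z) / En u u) * ∫ z, u z := by
      rw [integral_const_mul]
    have e2 : En (fun z => ((∫ z, u z) / En u u) * u z) (fun z => ((∫ z, u z) / En u u) * u z)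
        = ((∫ z, u z) / En u u) ^ 2 * En u u := by
      exact En_smul_self _ hu.tf
    rw [e1, e2]
    refine hr.le.trans (le_of_eq ?_)
    field_simp
    ring

end Pool.Agent.TH316.FQ
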