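import Pool.Agent.TH316.FQ.Stm

set_option autoImplicit false

/-! Facts on the truncated logarithm `PP`. -/

open MeasureTheory Metric Set Filter
open scoped Topology

namespace Pool.Agent.TH316.FQ

open Pool.Agent.Helper533.StarBox

namespace PpfX

/-- radial integration in the plane -/
theorem rad (h : ℝ → ℝ) : ∫ z : ℂ, h (‖z‖ ^ 2) = Real.pi * ∫ t in Ioi (0:ℝ), h t := by
  have h1 := integral_fun_norm_addHaar (volume : Measure ℂ) (fun y : ℝ => h (y ^ 2))
  have h2 := integral_comp_rpow_Ioi_of_pos (g := h) (p := 2) two_pos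
  have e : ∫ x in Ioi (0:ℝ), ((2:ℝ) * x ^ ((2:ℝ) - 1)) • h (x ^ (2:ℝ)) =
      2 * ∫ y in Ioi (0:ℝ), y * h (y ^ 2) := by
    rw [← integral_const_mul]
    refine setIntegral_congr_fun measurableSet_Ioi fun x _ => ?_
    simp only [smul_eq_mul]
    rw [show ((2:ℝ) - 1) = 1 by norm_num, Real.rpow_one, Real.rpow_two]
    ring
  rw [e] at h2
  rw [h1, ← h2, Complex.finrank_real_complex]
  have hv : (volume : Measure ℂ).real (ball 0 1) = Real.pi := by
    simp [Measure.real, Complex.volume_ball]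
  rw [hv]
  simp only [smul_eq_mul, nsmul_eq_mul]
  have : ∫ y in Ioi (0:ℝ), y ^ (2 - 1) * h (y ^ 2) = ∫ y in Ioi (0:ℝ), y * h (y ^ 2) := by
    simp
  rw [this]
  push_cast
  ring

theorem rad_at (h : ℝ → ℝ) (x : ℂ) : ∫ z : ℂ, h (qq x z) = Real.pi * ∫ t in Ioi (0:ℝ), h t := by
  rw [← rad h, ← integral_sub_right_eq_self (fun z : ℂ => h (‖z‖ ^ 2)) x]
  simp only [qq_eq]

theorem Ioi_cut {h : ℝ → ℝ} {b : ℝ} (hb : 0 ≤ b) (h0 : ∀ t, b ≤ t → h t = 0) :
    ∫ t in Ioi (0:ℝ), h t = ∫ t in (0:ℝ)..b, h t := by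
  rw [intervalIntegral.integral_of_le hb]
  exact setIntegral_eq_of_subset_of_forall_sdiff_eq_zero measurableSet_Ioi Ioc_subset_Ioi_self
    fun t ht => h0 t (by
      by_contra hcon
      exact ht.2 ⟨ht.1, (not_le.1 hcon).le⟩)

theorem rad_cut {h : ℝ → ℝ} {b : ℝ} (hb : 0 ≤ b) (h0 : ∀ t, b ≤ t → h t = 0) (x : ℂ) :
    ∫ z : ℂ, h (qq x z) = Real.pi * ∫ t in (0:ℝ)..b, h t := by
  rw [rad_at, Ioi_cut hb h0]

theorem SS_one_pos : 0 < SS 1 := by
  unfold SS
  rw [← intervalIntegral.integral_add_adjacent_intervals (bb_cont.intervalIntegrable 0 (1/2))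
    (bb_cont.intervalIntegrable (1/2) 1)]
  have h1 : 0 ≤ ∫ τ in (0:ℝ)..(1/2), bb τ :=
    intervalIntegral.integral_nonneg (by norm_num) fun t _ => bb_nonneg t
  have h2 : 0 < ∫ τ in (1/2:ℝ)..1, bb τ := by
    apply intervalIntegral.intervalIntegral_pos_of_pos_on (bb_cont.intervalIntegrable _ _) _
      (by norm_num)
    intro t ht
    exact bb_pos (by linarith [ht.1]) ht.2
  linarith

/-- the first moment of the profile -/
noncomputable def b1 : ℝ := ∫ s in (0:ℝ)..1, s * bb s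

theorem b1_nonneg : 0 ≤ b1 :=
  intervalIntegral.integral_nonneg (by norm_num) fun t ht => mul_nonneg ht.1 (bb_nonneg t)

theorem b1_le : b1 ≤ SS 1 := by
  unfold b1 SS
  apply intervalIntegral.integral_mono_on (by norm_num)
    ((continuous_id.mul bb_cont).intervalIntegrable _ _) (bb_cont.intervalIntegrable _ _)
  intro t ht
  have := bb_nonneg t
  show t * bb t ≤ bb t
  nlinarith [ht.2]

theorem mass_r {R b : ℝ} (hR : 0 < R) (hb : R ^ 2 ≤ b) :
    ∫ t in (0:ℝ)..b, bb (t / R ^ 2) / R ^ 2 = SS 1 := by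
  have hR2 : 0 < R ^ 2 := by positivity
  rw [intervalIntegral.integral_div, intervalIntegral.integral_comp_div (fun t => bb t) hR2.ne']
  rw [zero_div, smul_eq_mul]
  have : ∫ x in (0:ℝ)..(b / R ^ 2), bb x = SS 1 := SS_one (by rw [le_div_iff₀ hR2]; linarith)
  rw [this]; field_simp

theorem mom_r {R b : ℝ} (hR : 0 < R) (hb : R ^ 2 ≤ b) :
    ∫ t in (0:ℝ)..b, t * (bb (t / R ^ 2) / R ^ 2) = R ^ 2 * b1 := by
  have hR2 : 0 < R ^ 2 := by positivity
  have hc : Continuous fun s : ℝ => s * bb s := continuous_id.mul bb_cont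
  have e : (fun t : ℝ => t * (bb (t / R ^ 2) / R ^ 2)) =
      fun t => (fun s : ℝ => s * bb s) (t / R ^ 2) := by
    ext t; show _ = t / R ^ 2 * bb (t / R ^ 2); ring
  rw [e, intervalIntegral.integral_comp_div (fun s => s * bb s) hR2.ne', zero_div, smul_eq_mul]
  congr 1
  have h1 : 1 ≤ b / R ^ 2 := by rw [le_div_iff₀ hR2]; linarith
  rw [← intervalIntegral.integral_add_adjacent_intervals (hc.intervalIntegrable 0 1)
    (hc.intervalIntegrable 1 _)]
  have h2 : ∫ s in (1:ℝ)..(b / R ^ 2), s * bb s = 0 := by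
    rw [intervalIntegral.integral_congr (g := fun _ => 0)]
    · simp
    · intro s hs
      rw [uIcc_of_le h1] at hs
      show s * bb s = 0
      rw [bb_zero (Or.inr hs.1), mul_zero]
  rw [h2, add_zero]; rfl

theorem ww_eq (R : ℝ) (x z : ℂ) : ww R (z - x) = bb (qq x z / R ^ 2) / R ^ 2 := by
  unfold ww; rw [qq_eq]

theorem ww_tail {R : ℝ} (hR : 0 < R) {t : ℝ} (ht : R ^ 2 ≤ t) : bb (t / R ^ 2) / R ^ 2 = 0 := by
  rw [bb_zero (Or.inr (by rw [le_div_iff₀ (by positivity)]; linarith)), zero_div]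

theorem mass' {R : ℝ} (hR : 0 < R) (x : ℂ) : ∫ z, ww R (z - x) = Real.pi * SS 1 := by
  simp_rw [ww_eq]
  rw [rad_cut (h := fun t => bb (t / R ^ 2) / R ^ 2) (sq_nonneg R) (fun t ht => ww_tail hR ht),
    mass_r hR le_rfl]

theorem m0_eq' : m0 = Real.pi * SS 1 := by
  have := mass' one_pos 0
  simp only [sub_zero] at this
  exact this

theorem m0_pos' : 0 < m0 := by rw [m0_eq']; exact mul_pos Real.pi_pos SS_one_pos

variable {δ R : ℝ}

theorem gg_cont (hδ : 0 < δ) (hδR : δ ≤ R) : Continuous (gg δ R) := (gg_smooth hδ hδR).continuous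
theorem TT_cont (δ R : ℝ) : Continuous (TT δ R) := (TT_smooth δ R).continuous
theorem PP_cont (hδ : 0 < δ) (hδR : δ ≤ R) : Continuous (PP δ R) := (PP_smooth hδ hδR).continuous

theorem gg_nonneg (hδ : 0 < δ) (hδR : δ ≤ R) {t : ℝ} (ht : 0 ≤ t) : 0 ≤ gg δ R t :=
  div_nonneg (TT_nonneg hδ hδR ht) ht

theorem SS_nonneg {t : ℝ} (ht : 0 ≤ t) : 0 ≤ SS t := by
  have := SS_mono ht
  rwa [SS_zero (t := 0) (by norm_num)] at this

theorem SS_le (t : ℝ) : SS t ≤ SS 1 := by
  rcases le_total t 1 with h | h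
  · exact SS_mono h
  · exact (SS_one h).le

theorem TT_le (δ R : ℝ) {t : ℝ} (ht : 0 ≤ t) : TT δ R t ≤ SS 1 := by
  unfold TT
  have h1 := SS_le (t / δ ^ 2)
  have h2 : 0 ≤ SS (t / R ^ 2) := SS_nonneg (by positivity)
  linarith

theorem PP_sub (hδ : 0 < δ) (hδR : δ ≤ R) (s t : ℝ) :
    PP δ R s - PP δ R t = ∫ τ in s..t, gg δ R τ := by
  have hc := gg_cont hδ hδR
  unfold PP
  rw [← intervalIntegral.integral_add_adjacent_intervals (hc.intervalIntegrable (R ^ 2) s)
    (hc.intervalIntegrable s t)]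
  ring

theorem PP_zero (hδ : 0 < δ) (hδR : δ ≤ R) : PP δ R 0 = ∫ τ in (0:ℝ)..(R ^ 2), gg δ R τ := by
  rw [← PP_sub hδ hδR, PP_large hδ hδR le_rfl, sub_zero]

theorem anti' (hδ : 0 < δ) (hδR : δ ≤ R) {s t : ℝ} (hs : 0 ≤ s) (hst : s ≤ t) :
    PP δ R t ≤ PP δ R s := by
  have h := PP_sub hδ hδR s t
  have h2 : 0 ≤ ∫ τ in s..t, gg δ R τ :=
    intervalIntegral.integral_nonneg hst fun τ hτ => gg_nonneg hδ hδR (hs.trans hτ.1)
  linarith

theorem flat' (hδ : 0 < δ) (hδR : δ ≤ R) {t : ℝ} (h0 : 0 ≤ t) (ht : t ≤ δ ^ 2 / 4) :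
    PP δ R t = PP δ R 0 := by
  have h := PP_sub hδ hδR 0 t
  have h2 : ∫ τ in (0:ℝ)..t, gg δ R τ = 0 := by
    rw [intervalIntegral.integral_congr (g := fun _ => 0)]
    · simp
    · intro τ hτ
      rw [uIcc_of_le h0] at hτ
      show TT δ R τ / τ = 0
      rw [TT_small hδ hδR (hτ.2.trans ht), zero_div]
  linarith

theorem scal' {c : ℝ} (hc : 0 < c) (δ R t : ℝ) :
    PP (c * δ) (c * R) (c ^ 2 * t) = PP δ R t := by
  unfold PP
  have hc2 : c ^ 2 ≠ 0 := by positivity
  have e : ∀ s, gg (c * δ) (c * R) (c ^ 2 * s) = (c ^ 2)⁻¹ * gg δ R s := by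
    intro s
    unfold gg TT
    have e1 : c ^ 2 * s / (c * δ) ^ 2 = s / δ ^ 2 := by
      rw [mul_pow, mul_div_mul_left _ _ hc2]
    have e2 : c ^ 2 * s / (c * R) ^ 2 = s / R ^ 2 := by
      rw [mul_pow, mul_div_mul_left _ _ hc2]
    rw [e1, e2]
    rw [div_mul_eq_div_div_swap, div_eq_mul_inv (_ / s) (c ^ 2)]
    ring
  have h := intervalIntegral.integral_comp_mul_left (a := R ^ 2) (b := t)
    (fun τ => gg (c * δ) (c * R) τ) hc2
  simp only [e] at h
  rw [intervalIntegral.integral_const_mul, smul_eq_mul] at h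
  have h2 := mul_left_cancel₀ (inv_ne_zero hc2) h
  rw [mul_pow, ← h2]

/-- `s ↦ SS s / s` -/
noncomputable def ss (s : ℝ) : ℝ := SS s / s

theorem ss_cont : Continuous ss := by
  rw [continuous_iff_continuousAt]
  intro t
  rcases lt_or_ge t (1 / 4) with h | h
  · have : ss =ᶠ[𝓝 t] fun _ => 0 := by
      filter_upwards [Iio_mem_nhds h] with s hs
      unfold ss; rw [SS_zero (le_of_lt hs), zero_div]
    exact continuousAt_const.congr this.symm
  · have ht : t ≠ 0 := by linarith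
    exact SS_smooth.continuous.continuousAt.div continuousAt_id ht

theorem top' (hδ : 0 < δ) (hδR : δ ≤ R) : PP δ R 0 = 2 * SS 1 * Real.log (R / δ) := by
  have hR : 0 < R := hδ.trans_le hδR
  have hδ2 : δ ^ 2 ≠ 0 := by positivity
  have hR2 : R ^ 2 ≠ 0 := by positivity
  rw [PP_zero hδ hδR]
  have e : ∀ t, gg δ R t = ss (t / δ ^ 2) / δ ^ 2 - ss (t / R ^ 2) / R ^ 2 := by
    intro t
    unfold gg TT ss
    by_cases ht : t = 0
    · subst ht; simp
    · field_simp
  simp_rw [e]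
  have hc1 : Continuous fun t => ss (t / δ ^ 2) / δ ^ 2 :=
    (ss_cont.comp (continuous_id.div_const _)).div_const _
  have hc2 : Continuous fun t => ss (t / R ^ 2) / R ^ 2 :=
    (ss_cont.comp (continuous_id.div_const _)).div_const _
  rw [intervalIntegral.integral_sub (hc1.intervalIntegrable _ _) (hc2.intervalIntegrable _ _),
    intervalIntegral.integral_div, intervalIntegral.integral_div,
    intervalIntegral.integral_comp_div (fun t => ss t) hδ2,
    intervalIntegral.integral_comp_div (fun t => ss t) hR2, zero_div, zero_div, div_self hR2,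
    smul_eq_mul, smul_eq_mul, mul_div_cancel_left₀ _ hδ2, mul_div_cancel_left₀ _ hR2]
  have h1 : 1 ≤ R ^ 2 / δ ^ 2 := by
    rw [le_div_iff₀ (by positivity), one_mul]
    exact pow_le_pow_left₀ hδ.le hδR 2
  rw [← intervalIntegral.integral_add_adjacent_intervals (ss_cont.intervalIntegrable 0 1)
    (ss_cont.intervalIntegrable 1 _), add_sub_cancel_left]
  have h2 : ∫ t in (1:ℝ)..(R ^ 2 / δ ^ 2), ss t = ∫ t in (1:ℝ)..(R ^ 2 / δ ^ 2), SS 1 * t⁻¹ := by
    apply intervalIntegral.integral_congr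
    intro t ht
    rw [uIcc_of_le h1] at ht
    show SS t / t = SS 1 * t⁻¹
    rw [SS_one ht.1, div_eq_mul_inv]
  rw [h2, intervalIntegral.integral_const_mul, integral_inv_of_pos one_pos (by linarith), div_one,
    ← div_pow, Real.log_pow]
  push_cast; ring

/-- `∫ PP` -/
theorem int_PP (hδ : 0 < δ) (hδR : δ ≤ R) :
    ∫ t in (0:ℝ)..(R ^ 2), PP δ R t = (R ^ 2 - δ ^ 2) * b1 := by
  have hR : 0 < R := hδ.trans_le hδR
  have hd : ∀ t ∈ uIcc (0:ℝ) (R ^ 2), HasDerivAt (fun t => t * PP δ R t + t * TT δ R t)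
      (PP δ R t + (t * (bb (t / δ ^ 2) / δ ^ 2) - t * (bb (t / R ^ 2) / R ^ 2))) t := by
    intro t _
    have h1 := ((hasDerivAt_id t).mul (PP_deriv hδ hδR t)).add
      ((hasDerivAt_id t).mul (TT_deriv δ R t))
    refine HasDerivAt.congr_deriv (f := fun t => t * PP δ R t + t * TT δ R t) h1 ?_
    have := mul_gg hδ hδR t
    simp only [id]
    linarith
  have c1 : Continuous fun t : ℝ => t * (bb (t / δ ^ 2) / δ ^ 2) :=
    continuous_id.mul ((bb_cont.comp (continuous_id.div_const _)).div_const _)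
  have c2 : Continuous fun t : ℝ => t * (bb (t / R ^ 2) / R ^ 2) :=
    continuous_id.mul ((bb_cont.comp (continuous_id.div_const _)).div_const _)
  have c3 := PP_cont hδ hδR
  have h := intervalIntegral.integral_eq_sub_of_hasDerivAt hd
    ((c3.add (c1.sub c2)).intervalIntegrable _ _)
  rw [PP_large hδ hδR le_rfl, TT_large hδ hδR le_rfl] at h
  simp only [mul_zero, zero_mul, add_zero, sub_self] at h
  have c4 : Continuous fun t : ℝ => t * (bb (t / δ ^ 2) / δ ^ 2) - t * (bb (t / R ^ 2) / R ^ 2) :=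
    c1.sub c2
  rw [intervalIntegral.integral_add (c3.intervalIntegrable _ _) (c4.intervalIntegrable _ _),
    intervalIntegral.integral_sub (c1.intervalIntegrable _ _) (c2.intervalIntegrable _ _),
    mom_r hδ (pow_le_pow_left₀ hδ.le hδR 2), mom_r hR le_rfl] at h
  linarith

/-- `∫ PP²` -/
theorem int_PP_sq (hδ : 0 < δ) (hδR : δ ≤ R) :
    ∫ t in (0:ℝ)..(R ^ 2), PP δ R t ^ 2 ≤ 2 * SS 1 ^ 2 * R ^ 2 := by
  have hR : 0 < R := hδ.trans_le hδR
  have hd : ∀ t ∈ uIcc (0:ℝ) (R ^ 2), HasDerivAt (fun t => t * PP δ R t ^ 2)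
      (PP δ R t ^ 2 - 2 * (PP δ R t * TT δ R t)) t := by
    intro t _
    have h1 := (hasDerivAt_id t).mul ((PP_deriv hδ hδR t).pow 2)
    refine HasDerivAt.congr_deriv (f := fun t => t * PP δ R t ^ 2) h1 ?_
    have := mul_gg hδ hδR t
    simp only [id, Pi.pow_apply]
    rw [← this]; push_cast; ring
  have c1 := PP_cont hδ hδR
  have c2 := TT_cont δ R
  have h := intervalIntegral.integral_eq_sub_of_hasDerivAt hd
    (((c1.pow 2).sub (continuous_const.mul (c1.mul c2))).intervalIntegrable _ _)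
  rw [PP_large hδ hδR le_rfl] at h
  simp only [zero_mul, sub_self, ne_eq, OfNat.ofNat_ne_zero, not_false_eq_true,
    zero_pow, mul_zero] at h
  have c3 : Continuous fun t : ℝ => PP δ R t ^ 2 := c1.pow 2
  have c4 : Continuous fun t : ℝ => 2 * (PP δ R t * TT δ R t) := continuous_const.mul (c1.mul c2)
  rw [intervalIntegral.integral_sub (c3.intervalIntegrable _ _) (c4.intervalIntegrable _ _),
    intervalIntegral.integral_const_mul] at h
  have h2 : ∫ t in (0:ℝ)..(R ^ 2), PP δ R t * TT δ R t ≤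
      ∫ t in (0:ℝ)..(R ^ 2), SS 1 * PP δ R t := by
    apply intervalIntegral.integral_mono_on (by positivity)
      ((c1.mul c2).intervalIntegrable _ _) ((continuous_const.mul c1).intervalIntegrable _ _)
    intro t ht
    show PP δ R t * TT δ R t ≤ SS 1 * PP δ R t
    rw [mul_comm (SS 1)]
    exact mul_le_mul_of_nonneg_left (TT_le δ R ht.1) (PP_nonneg hδ hδR ht.1)
  rw [intervalIntegral.integral_const_mul, int_PP hδ hδR] at h2
  have h3 : (R ^ 2 - δ ^ 2) * b1 ≤ R ^ 2 * SS 1 := by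
    have := b1_le
    have := b1_nonneg
    have : 0 ≤ δ ^ 2 := sq_nonneg δ
    have : 0 ≤ R ^ 2 := sq_nonneg R
    nlinarith
  have h4 := mul_le_mul_of_nonneg_left h3 SS_one_pos.le
  linarith

theorem en' (hδ : 0 < δ) (hδR : δ ≤ R) (x : ℂ) :
    En (fun z => PP δ R (qq x z)) (fun z => PP δ R (qq x z)) ≤ 4 * m0 * PP δ R 0 := by
  have hR : 0 < R := hδ.trans_le hδR
  have hq : Differentiable ℝ (qq x) := (qq_smooth x).differentiable (by simp)
  have e : ∀ z, gx (fun z => PP δ R (qq x z)) z ^ 2 + gy (fun z => PP δ R (qq x z)) z ^ 2 =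
      4 * (gg δ R (qq x z) * TT δ R (qq x z)) := by
    intro z
    have hP := (PP_deriv hδ hδR (qq x z)).differentiableAt
    rw [gx_comp' (hq z) hP, gy_comp' (hq z) hP, gx_qq, gy_qq, (PP_deriv hδ hδR (qq x z)).deriv,
      ← mul_gg hδ hδR (qq x z)]
    have : qq x z = (z.re - x.re) ^ 2 + (z.im - x.im) ^ 2 := rfl
    generalize gg δ R (qq x z) = g
    rw [this]; ring
  rw [En_self]
  simp_rw [e]
  rw [rad_cut (h := fun t => 4 * (gg δ R t * TT δ R t)) (sq_nonneg R)
    (fun t ht => by simp [TT_large hδ hδR ht]), intervalIntegral.integral_const_mul]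
  have h2 : ∫ t in (0:ℝ)..(R ^ 2), gg δ R t * TT δ R t ≤
      ∫ t in (0:ℝ)..(R ^ 2), SS 1 * gg δ R t := by
    have c1 := gg_cont hδ hδR
    apply intervalIntegral.integral_mono_on (by positivity)
      ((c1.mul (TT_cont δ R)).intervalIntegrable _ _)
      ((continuous_const.mul c1).intervalIntegrable _ _)
    intro t ht
    show gg δ R t * TT δ R t ≤ SS 1 * gg δ R t
    rw [mul_comm (SS 1)]
    exact mul_le_mul_of_nonneg_left (TT_le δ R ht.1) (gg_nonneg hδ hδR ht.1)
  rw [intervalIntegral.integral_const_mul, ← PP_zero hδ hδR] at h2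
  rw [m0_eq']
  have := mul_le_mul_of_nonneg_left h2 Real.pi_pos.le
  linarith

theorem green' (hδ : 0 < δ) (hδR : δ ≤ R) (x : ℂ) (f : ℂ → ℝ)
    (hf : LocallyIntegrable f volume) :
    ∫ z, f z * lap (fun y => PP δ R (qq x y)) z = 4 * m0 * (Av f R x - Av f δ x) := by
  have hR : 0 < R := hδ.trans_le hδR
  have hi : ∀ r : ℝ, 0 < r → Integrable fun z => f z * ww r (z - x) := by
    intro r hr
    have := hf.integrable_smul_right_of_hasCompactSupport (g := fun z => ww r (z - x))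
      ((ww_cont r).comp (continuous_id.sub continuous_const)) (ww_comp hr x)
    simpa only [smul_eq_mul] using this
  have e : ∀ z, f z * lap (fun y => PP δ R (qq x y)) z =
      4 * (f z * ww R (z - x) - f z * ww δ (z - x)) := by
    intro z
    rw [PP_lap hδ hδR, ww_eq, ww_eq]; ring
  simp_rw [e]
  rw [integral_const_mul, integral_sub (hi R hR) (hi δ hδ)]
  unfold Av
  have := m0_pos'.ne'
  field_simp

end PpfX

open PpfX in
theorem ppf : S_PPF where
  m0_pos := m0_pos'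
  m0_eq := m0_eq'
  mass := fun R hR x => by rw [mass' hR, m0_eq']
  top := fun δ R hδ hδR => top' hδ hδR
  anti := fun δ R s t hδ hδR hs hst => anti' hδ hδR hs hst
  flat := fun δ R t hδ hδR h0 ht => flat' hδ hδR h0 ht
  scal := fun c δ R t hc _ _ => scal' hc δ R t
  second := by
    have hS := SS_one_pos
    refine ⟨b1 / SS 1, div_nonneg b1_nonneg hS.le, (div_le_one hS).2 b1_le, ?_, ?_⟩
    · intro R hR x
      simp_rw [ww_eq]
      rw [rad_cut (h := fun t => t * (bb (t / R ^ 2) / R ^ 2)) (sq_nonneg R)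
        (fun t ht => by rw [ww_tail hR ht, mul_zero]), mom_r hR le_rfl, m0_eq']
      field_simp
    · intro δ R x hδ hδR
      rw [rad_cut (h := fun t => PP δ R t) (sq_nonneg R) (fun t ht => PP_large hδ hδR ht),
        int_PP hδ hδR, m0_eq']
      field_simp
  sq := by
    refine ⟨Real.pi * (2 * SS 1 ^ 2), by positivity, ?_⟩
    intro δ R x hδ hδR
    rw [rad_cut (h := fun t => PP δ R t ^ 2) (sq_nonneg R)
      (fun t ht => by rw [PP_large hδ hδR ht]; norm_num)]
    have := mul_le_mul_of_nonneg_left (int_PP_sq hδ hδR) Real.pi_pos.le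
    linarith
  en := fun δ R x hδ hδR => en' hδ hδR x
  green := fun δ R x f hf hδ hδR => green' hδ hδR x f hf

end Pool.Agent.TH316.FQ
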