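import Pool.Agent.TH316.FQ.Cell

set_option autoImplicit false

open MeasureTheory Metric Set Filter
open scoped Topology Manifold ContDiff

namespace Pool.Agent.TH316.FQ

open Pool.Agent.Helper533.StarBox

namespace PtorX

/-- centres of the cells -/
noncomputable def ctr (p : ℕ × ℕ) : ℂ := ⟨(p.1 : ℝ) + 1 / 2, (p.2 : ℝ) + 1 / 2⟩

theorem nat_eq {a b : ℕ} (h : |(a : ℝ) - b| < 1) : a = b := by
  rw [abs_lt] at h
  have h1 : (a : ℝ) < b + 1 := by linarith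
  have h2 : (b : ℝ) < a + 1 := by linarith
  have h3 : a < b + 1 := by exact_mod_cast h1
  have h4 : b < a + 1 := by exact_mod_cast h2
  omega

theorem ctr_sep {p q : ℕ × ℕ} {z : ℂ} (hp : qq (ctr p) z < 1 / 4) (hq : qq (ctr q) z < 1 / 4) : p = q := by
  unfold qq ctr at hp hq
  simp only at hp hq
  have a1 : (z.re - ((p.1 : ℝ) + 1 / 2)) ^ 2 < (1 / 2) ^ 2 := by nlinarith [sq_nonneg (z.im - ((p.2 : ℝ) + 1 / 2))]
  have a2 : (z.im - ((p.2 : ℝ) + 1 / 2)) ^ 2 < (1 / 2) ^ 2 := by nlinarith [sq_nonneg (z.re - ((p.1 : ℝ) + 1 / 2))]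
  have a3 : (z.re - ((q.1 : ℝ) + 1 / 2)) ^ 2 < (1 / 2) ^ 2 := by nlinarith [sq_nonneg (z.im - ((q.2 : ℝ) + 1 / 2))]
  have a4 : (z.im - ((q.2 : ℝ) + 1 / 2)) ^ 2 < (1 / 2) ^ 2 := by nlinarith [sq_nonneg (z.re - ((q.1 : ℝ) + 1 / 2))]
  have b1 := abs_lt_of_sq_lt_sq a1 (by norm_num)
  have b2 := abs_lt_of_sq_lt_sq a2 (by norm_num)
  have b3 := abs_lt_of_sq_lt_sq a3 (by norm_num)
  have b4 := abs_lt_of_sq_lt_sq a4 (by norm_num)
  rw [abs_lt] at b1 b2 b3 b4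
  apply Prod.ext
  · apply nat_eq
    rw [abs_lt]; constructor <;> linarith
  · apply nat_eq
    rw [abs_lt]; constructor <;> linarith

section sums
variable {ι : Type*} {U : Set ℂ}

theorem tf_sum (s : Finset ι) (f : ι → ℂ → ℝ) (h : ∀ i ∈ s, TF U (f i)) : TF U (fun z => ∑ i ∈ s, f i z) := by
  classical
  induction s using Finset.induction_on with
  | empty => simpa using TF.zero U
  | insert a s ha ih =>
    simp_rw [Finset.sum_insert ha]
    exact (h a (Finset.mem_insert_self _ _)).add (ih (fun i hi => h i (Finset.mem_insert_of_mem hi)))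

theorem gx_sum (s : Finset ι) (f : ι → ℂ → ℝ) (h : ∀ i ∈ s, TF U (f i)) (z : ℂ) :
    gx (fun z => ∑ i ∈ s, f i z) z = ∑ i ∈ s, gx (f i) z := by
  unfold gx
  rw [fderiv_fun_sum (fun i hi => (h i hi).diff z)]
  simp

theorem gy_sum (s : Finset ι) (f : ι → ℂ → ℝ) (h : ∀ i ∈ s, TF U (f i)) (z : ℂ) :
    gy (fun z => ∑ i ∈ s, f i z) z = ∑ i ∈ s, gy (f i) z := by
  unfold gy
  rw [fderiv_fun_sum (fun i hi => (h i hi).diff z)]
  simp

theorem sum_sq (s : Finset ι) (a : ι → ℝ) (h : ∀ p ∈ s, ∀ q ∈ s, p ≠ q → a p * a q = 0) :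
    (∑ p ∈ s, a p) ^ 2 = ∑ p ∈ s, a p ^ 2 := by
  rw [sq, Finset.sum_mul_sum]
  apply Finset.sum_congr rfl
  intro p hp
  rw [Finset.sum_eq_single p]
  · ring
  · intro q hq hne; exact h p hp q hq (Ne.symm hne)
  · intro h; exact absurd hp h

end sums

/-- the unit square -/
def US : Set ℂ := {z | 0 < z.re ∧ z.re < 1 ∧ 0 < z.im ∧ z.im < 1}

theorem US_open : IsOpen US := by
  have h : US = ({z : ℂ | 0 < z.re} ∩ {z : ℂ | z.re < 1}) ∩ ({z : ℂ | 0 < z.im} ∩ {z : ℂ | z.im < 1}) := by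
    ext z
    simp only [US, mem_ofPred_eq, mem_inter_iff]
    tauto
  rw [h]
  exact ((isOpen_lt continuous_const Complex.continuous_re).inter (isOpen_lt Complex.continuous_re continuous_const)).inter
    ((isOpen_lt continuous_const Complex.continuous_im).inter (isOpen_lt Complex.continuous_im continuous_const))

theorem US_bdd : US ⊆ ball 0 2 := by
  rintro z ⟨h1, h2, h3, h4⟩
  rw [mem_ball, dist_zero_right]
  have := Complex.norm_le_abs_re_add_abs_im z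
  rw [abs_of_pos h1, abs_of_pos h3] at this
  linarith

/-- a cutoff in the unit square with integral close to one -/
theorem cut {τ : ℝ} (hτ : 0 < τ) (hτ1 : τ < 1 / 2) : ∃ ψ, TF US ψ ∧ (∀ z, 0 ≤ ψ z) ∧ (∀ z, ψ z ≤ 1) ∧
    (1 - 2 * τ) ^ 2 ≤ ∫ z, ψ z := by
  set K : Set ℂ := {w | w.re ∈ Icc τ (1 - τ) ∧ w.im ∈ Icc τ (1 - τ)} with hK
  have hKc : IsClosed K := (isClosed_Icc.preimage Complex.continuous_re).inter (isClosed_Icc.preimage Complex.continuous_im)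
  have hKU : K ⊆ US := by
    rintro z ⟨h1, h2⟩
    exact ⟨by linarith [h1.1], by linarith [h1.2], by linarith [h2.1], by linarith [h2.2]⟩
  obtain ⟨f, hf0, hf1, hf2⟩ := exists_contMDiffMap_zero_one_nhds_of_isClosed (𝓘(ℝ, ℂ)) (n := (⊤ : ℕ∞)) US_open.isClosed_compl hKc
    (by rw [disjoint_compl_left_iff_subset]; exact hKU)
  have hs : tsupport f ⊆ US := by
    obtain ⟨V, hV1, hV2, hV3⟩ := (mem_nhdsSet_iff_exists).mp hf0
    have h1 : tsupport f ⊆ Vᶜ := by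
      apply closure_minimal _ hV1.isClosed_compl
      intro z hz hzV
      exact hz (hV3 hzV)
    intro z hz
    by_contra hcon
    exact h1 hz (hV2 hcon)
  have hcomp : HasCompactSupport f :=
    IsCompact.of_isClosed_subset (isCompact_closedBall (0:ℂ) 2) (isClosed_tsupport _)
      ((hs.trans US_bdd).trans ball_subset_closedBall)
  have htf : TF US f := ⟨f.contMDiff.contDiff, hcomp, hs⟩
  refine ⟨f, htf, fun z => (hf2 z).1, fun z => (hf2 z).2, ?_⟩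
  have h1 : ∀ z ∈ K, f z = 1 := fun z hz => hf1.self_of_nhdsSet z hz
  have hint : Integrable f := htf.cont.integrable_of_hasCompactSupport htf.comp
  have hKv : (volume K).toReal = (1 - 2 * τ) ^ 2 := by
    rw [hK, vol_rect measurableSet_Icc measurableSet_Icc, Real.volume_Icc, ENNReal.toReal_mul,
      ENNReal.toReal_ofReal (by linarith)]
    ring
  calc (1 - 2 * τ) ^ 2 = ∫ z in K, f z := by
        rw [setIntegral_congr_fun hKc.measurableSet h1, setIntegral_const, measureReal_def, hKv]; simp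
    _ ≤ ∫ z, f z := setIntegral_le_integral hint (Eventually.of_forall fun z => (hf2 z).1)

theorem dil_int (w : ℂ → ℝ) {c : ℝ} (_hc : 0 < c) : ∫ z, w (c • z) = (c ^ 2)⁻¹ * ∫ z, w z := by
  have := Measure.integral_comp_smul (volume : Measure ℂ) w c
  rw [Complex.finrank_real_complex, abs_of_nonneg (by positivity), smul_eq_mul] at this
  exact this

section main

variable {ρ P0 : ℝ}

/-- one bump -/
noncomputable def eta (ρ : ℝ) (p : ℕ × ℕ) (z : ℂ) : ℝ := PP ρ (1 / 2) (qq (ctr p) z)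

/-- index set -/
def II (N : ℕ) : Finset (ℕ × ℕ) := Finset.range N ×ˢ Finset.range N

theorem II_card (N : ℕ) : ((II N).card : ℝ) = (N : ℝ) ^ 2 := by
  unfold II; rw [Finset.card_product, Finset.card_range]; push_cast; ring

/-- sum of bumps -/
noncomputable def SB (ρ : ℝ) (N : ℕ) (z : ℂ) : ℝ := ∑ p ∈ II N, eta ρ p z / PP ρ (1 / 2) 0

theorem PP0_pos (hPP : PPF) (hρ : 0 < ρ) (hρ2 : ρ < 1 / 2) : 0 < PP ρ (1 / 2) 0 := by
  rw [hPP.top ρ (1 / 2) hρ hρ2.le]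
  have h1 : 0 < SS 1 := by
    have := hPP.m0_pos
    rw [hPP.m0_eq] at this
    exact (pos_iff_pos_of_mul_pos this).mp Real.pi_pos
  have h2 : 0 < Real.log (1 / 2 / ρ) := by
    apply Real.log_pos
    rw [lt_div_iff₀ hρ]; linarith
  positivity

theorem eta_tf (hρ : 0 < ρ) (hρ2 : ρ ≤ 1 / 2) (p : ℕ × ℕ) : TF univ (eta ρ p) := PP_tf hρ hρ2 _ (subset_univ _)

theorem eta_zero (hρ : 0 < ρ) (hρ2 : ρ ≤ 1 / 2) {p : ℕ × ℕ} {z : ℂ} (h : ¬ qq (ctr p) z < 1 / 4) :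
    eta ρ p z = 0 ∧ gx (eta ρ p) z = 0 ∧ gy (eta ρ p) z = 0 := by
  have h' : (1 / 2 : ℝ) ^ 2 ≤ qq (ctr p) z := by norm_num; linarith
  have h2 := CellX.gPP_zero hρ hρ2 (ctr p) z h'
  exact ⟨PP_large hρ hρ2 h', h2.1, h2.2⟩

theorem qq_nonneg (x z : ℂ) : 0 ≤ qq x z := by unfold qq; positivity

theorem div_tf {U : Set ℂ} {u : ℂ → ℝ} (hu : TF U u) (c : ℝ) : TF U (fun z => u z / c) := by
  have := hu.smul c⁻¹
  refine (funext fun z => ?_ : (fun z => c⁻¹ * u z) = fun z => u z / c) ▸ this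
  rw [div_eq_inv_mul]

theorem SB_tf (hρ : 0 < ρ) (hρ2 : ρ ≤ 1 / 2) (N : ℕ) : TF univ (SB ρ N) := by
  apply tf_sum
  intro p _
  exact div_tf (eta_tf hρ hρ2 p) _

theorem SB_nonneg (hPP : PPF) (hρ : 0 < ρ) (hρ2 : ρ < 1 / 2) (N : ℕ) (z : ℂ) : 0 ≤ SB ρ N z :=
  Finset.sum_nonneg fun p _ => div_nonneg (PP_nonneg hρ hρ2.le (qq_nonneg _ _)) (PP0_pos hPP hρ hρ2).le

theorem SB_le (hPP : PPF) (hρ : 0 < ρ) (hρ2 : ρ < 1 / 2) (N : ℕ) (z : ℂ) : SB ρ N z ≤ 1 := by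
  have hP := PP0_pos hPP hρ hρ2
  have h0 := SB_nonneg hPP hρ hρ2 N z
  have h1 : SB ρ N z ^ 2 ≤ SB ρ N z := by
    unfold SB
    rw [sum_sq]
    · apply Finset.sum_le_sum
      intro p _
      have h2 : 0 ≤ eta ρ p z / PP ρ (1 / 2) 0 := div_nonneg (PP_nonneg hρ hρ2.le (qq_nonneg _ _)) hP.le
      have h3 : eta ρ p z / PP ρ (1 / 2) 0 ≤ 1 := by
        rw [div_le_one hP]
        exact hPP.anti ρ (1 / 2) 0 _ hρ hρ2.le le_rfl (qq_nonneg _ _)
      nlinarith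
    · intro p _ q _ hne
      by_cases hp : qq (ctr p) z < 1 / 4
      · have hq : ¬ qq (ctr q) z < 1 / 4 := fun hq => hne (ctr_sep hp hq)
        rw [(eta_zero hρ hρ2.le hq).1]; simp
      · rw [(eta_zero hρ hρ2.le hp).1]; simp
  nlinarith

theorem SB_one (hPP : PPF) (hρ : 0 < ρ) (hρ2 : ρ < 1 / 2) (N : ℕ) {p : ℕ × ℕ} (hp : p ∈ II N) {z : ℂ}
    (hz : z ∈ ball (ctr p) (ρ / 2)) : SB ρ N z = 1 := by
  have hP := PP0_pos hPP hρ hρ2
  apply le_antisymm (SB_le hPP hρ hρ2 N z)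
  have h1 : eta ρ p z / PP ρ (1 / 2) 0 = 1 := by
    rw [div_eq_one_iff_eq hP.ne']
    apply hPP.flat ρ (1 / 2) _ hρ hρ2.le (qq_nonneg _ _)
    rw [qq_eq, ← dist_eq_norm]
    rw [mem_ball] at hz
    have := pow_le_pow_left₀ dist_nonneg hz.le 2
    linarith
  calc (1 : ℝ) = eta ρ p z / PP ρ (1 / 2) 0 := h1.symm
    _ ≤ SB ρ N z := Finset.single_le_sum (f := fun p => eta ρ p z / PP ρ (1 / 2) 0)
        (fun q _ => div_nonneg (PP_nonneg hρ hρ2.le (qq_nonneg _ _)) hP.le) hp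

theorem gx_div {u : ℂ → ℝ} (hu : TF univ u) (c : ℝ) (z : ℂ) : gx (fun z => u z / c) z = gx u z / c := by
  have : (fun z => u z / c) = fun z => c⁻¹ * u z := by ext z; rw [div_eq_inv_mul]
  rw [this, gx_smul _ (hu.diff z), div_eq_inv_mul]

theorem gy_div {u : ℂ → ℝ} (hu : TF univ u) (c : ℝ) (z : ℂ) : gy (fun z => u z / c) z = gy u z / c := by
  have : (fun z => u z / c) = fun z => c⁻¹ * u z := by ext z; rw [div_eq_inv_mul]
  rw [this, gy_smul _ (hu.diff z), div_eq_inv_mul]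

theorem SB_en (hPP : PPF) (hρ : 0 < ρ) (hρ2 : ρ < 1 / 2) (N : ℕ) :
    En (SB ρ N) (SB ρ N) ≤ (N : ℝ) ^ 2 * (4 * m0 / PP ρ (1 / 2) 0) := by
  have hP := PP0_pos hPP hρ hρ2
  set P := PP ρ (1 / 2) 0 with hPdef
  have ht : ∀ p ∈ II N, TF univ (fun z => eta ρ p z / P) := fun p _ => div_tf (eta_tf hρ hρ2.le p) P
  have e1 : ∀ z, gx (SB ρ N) z ^ 2 + gy (SB ρ N) z ^ 2 =
      ∑ p ∈ II N, (gx (eta ρ p) z ^ 2 + gy (eta ρ p) z ^ 2) * (P⁻¹) ^ 2 := by
    intro z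
    have a1 : gx (SB ρ N) z = ∑ p ∈ II N, gx (eta ρ p) z / P := by
      unfold SB
      rw [gx_sum _ _ ht]
      exact Finset.sum_congr rfl fun p _ => gx_div (eta_tf hρ hρ2.le p) P z
    have a2 : gy (SB ρ N) z = ∑ p ∈ II N, gy (eta ρ p) z / P := by
      unfold SB
      rw [gy_sum _ _ ht]
      exact Finset.sum_congr rfl fun p _ => gy_div (eta_tf hρ hρ2.le p) P z
    rw [a1, a2, sum_sq, sum_sq, ← Finset.sum_add_distrib]
    · apply Finset.sum_congr rfl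
      intro p _
      rw [div_eq_mul_inv, div_eq_mul_inv]; ring
    · intro p _ q _ hne
      by_cases hp : qq (ctr p) z < 1 / 4
      · have hq : ¬ qq (ctr q) z < 1 / 4 := fun hq => hne (ctr_sep hp hq)
        rw [(eta_zero hρ hρ2.le hq).2.2]; simp
      · rw [(eta_zero hρ hρ2.le hp).2.2]; simp
    · intro p _ q _ hne
      by_cases hp : qq (ctr p) z < 1 / 4
      · have hq : ¬ qq (ctr q) z < 1 / 4 := fun hq => hne (ctr_sep hp hq)
        rw [(eta_zero hρ hρ2.le hq).2.1]; simp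
      · rw [(eta_zero hρ hρ2.le hp).2.1]; simp
  rw [En_self]
  simp_rw [e1]
  rw [integral_finsetSum _ (fun p _ => (eta_tf hρ hρ2.le p).ensq_int.mul_const _)]
  have h1 : ∀ p ∈ II N, ∫ z, (gx (eta ρ p) z ^ 2 + gy (eta ρ p) z ^ 2) * (P⁻¹) ^ 2 ≤ 4 * m0 / P := by
    intro p _
    rw [integral_mul_const, ← En_self]
    have := hPP.en ρ (1 / 2) (ctr p) hρ hρ2.le
    calc En (eta ρ p) (eta ρ p) * P⁻¹ ^ 2 ≤ (4 * m0 * P) * P⁻¹ ^ 2 := mul_le_mul_of_nonneg_right this (sq_nonneg _)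
      _ = 4 * m0 / P := by field_simp
  calc ∑ p ∈ II N, ∫ z, (gx (eta ρ p) z ^ 2 + gy (eta ρ p) z ^ 2) * (P⁻¹) ^ 2 ≤ ∑ p ∈ II N, 4 * m0 / P := Finset.sum_le_sum h1
    _ = (N : ℝ) ^ 2 * (4 * m0 / P) := by rw [Finset.sum_const, nsmul_eq_mul, II_card]

theorem SB_int (hPP : PPF) (hρ : 0 < ρ) (hρ2 : ρ < 1 / 2) (N : ℕ) :
    ∫ z, SB ρ N z ≤ (N : ℝ) ^ 2 * (m0 / PP ρ (1 / 2) 0) := by
  have hP := PP0_pos hPP hρ hρ2
  have hm := hPP.m0_pos
  set P := PP ρ (1 / 2) 0 with hPdef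
  unfold SB
  have hi : ∀ p, Integrable (eta ρ p) := fun p =>
    (eta_tf hρ hρ2.le p).cont.integrable_of_hasCompactSupport (eta_tf hρ hρ2.le p).comp
  rw [integral_finsetSum _ (fun p _ => (hi p).div_const _)]
  obtain ⟨κ, hκ0, hκ1, _, hκ⟩ := hPP.second
  have h1 : ∀ p ∈ II N, ∫ z, eta ρ p z / P ≤ m0 / P := by
    intro p _
    rw [integral_div]
    apply div_le_div_of_nonneg_right _ hP.le
    have h2 := hκ ρ (1 / 2) (ctr p) hρ hρ2.le
    show ∫ z, PP ρ (1 / 2) (qq (ctr p) z) ≤ m0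
    rw [h2]
    have h3 : κ * ((1 / 2) ^ 2 - ρ ^ 2) ≤ 1 := by nlinarith [sq_nonneg ρ]
    calc m0 * κ * ((1 / 2) ^ 2 - ρ ^ 2) = m0 * (κ * ((1 / 2) ^ 2 - ρ ^ 2)) := by ring
      _ ≤ m0 * 1 := mul_le_mul_of_nonneg_left h3 hm.le
      _ = m0 := mul_one _
  calc ∑ p ∈ II N, ∫ z, eta ρ p z / P ≤ ∑ p ∈ II N, m0 / P := Finset.sum_le_sum h1
    _ = (N : ℝ) ^ 2 * (m0 / P) := by rw [Finset.sum_const, nsmul_eq_mul, II_card]

/-- the test function -/
theorem test (hPP : PPF) {δ : ℝ} (hδ : 0 < δ) (hδ8 : δ < 1 / 8) {N : ℕ} (hN : 1 ≤ N) {ψ : ℂ → ℝ} (hψ : TF US ψ)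
    (hψ0 : ∀ z, 0 ≤ ψ z) (hψ1 : ∀ z, ψ z ≤ 1) {θ : ℝ} (hθ : 0 < θ) :
    ∃ u, TF (Perf N δ) u ∧ (N : ℝ) ^ 2 * ((∫ z, ψ z) - m0 / PP (4 * δ) (1 / 2) 0) ≤ ∫ z, u z ∧
      En u u ≤ (1 + θ) * ((N : ℝ) ^ 2 * (4 * m0 / PP (4 * δ) (1 / 2) 0)) + (1 + 1 / θ) * En ψ ψ := by
  have hρ : 0 < 4 * δ := by positivity
  have hρ2 : 4 * δ < 1 / 2 := by linarith
  have hN0 : (0 : ℝ) < N := by exact_mod_cast hN
  set c : ℝ := 1 / N with hc
  have hc0 : 0 < c := by positivity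
  have hcN : c * N = 1 := by rw [hc]; field_simp
  set χ : ℂ → ℝ := fun z => ψ (c • z) with hχ
  have hχt : TF {z | c • z ∈ US} χ := dil_tf hψ hc0.ne'
  set S := SB (4 * δ) N with hS
  have hSt : TF univ S := SB_tf hρ hρ2.le N
  have hS0 := SB_nonneg hPP hρ hρ2 N
  have hS1 := SB_le hPP hρ hρ2 N
  have h1S : ContDiff ℝ (⊤ : ℕ∞) (fun z => 1 - S z) := contDiff_const.sub hSt.smooth
  have hut : TF {z | c • z ∈ US} (fun z => (1 - S z) * χ z) := hχt.mul_smooth h1S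
  set u : ℂ → ℝ := fun z => (1 - S z) * χ z with hu
  have hup : TF (Perf N δ) u := by
    refine ⟨hut.smooth, hut.comp, ?_⟩
    intro z hz
    have h1 : c • z ∈ US := hut.supp hz
    obtain ⟨b1, b2, b3, b4⟩ := h1
    simp only [Complex.smul_re, Complex.smul_im, smul_eq_mul] at b1 b2 b3 b4
    refine ⟨by_contra fun h => ?_, by_contra fun h => ?_, by_contra fun h => ?_, by_contra fun h => ?_, ?_⟩
    · push Not at h; nlinarith
    · push Not at h; nlinarith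
    · push Not at h; nlinarith
    · push Not at h; nlinarith
    · intro i hi j hj
      by_contra hcon
      push Not at hcon
      have hp : (i, j) ∈ II N := by
        unfold II; rw [Finset.mem_product, Finset.mem_range, Finset.mem_range]; exact ⟨hi, hj⟩
      have hb : z ∈ ball (ctr (i, j)) (4 * δ / 2) := by
        rw [mem_ball, dist_eq_norm]
        have : ctr (i, j) = (⟨(i : ℝ) + 1 / 2, (j : ℝ) + 1 / 2⟩ : ℂ) := rfl
        rw [this]; linarith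
      have hz2 : z ∉ tsupport u := by
        rw [notMem_tsupport_iff_eventuallyEq]
        filter_upwards [isOpen_ball.mem_nhds hb] with y hy
        show (1 - S y) * χ y = 0
        rw [hS, SB_one hPP hρ hρ2 N hp hy]; ring
      exact hz2 hz
  refine ⟨u, hup, ?_, ?_⟩
  · have hχi : Integrable χ := hχt.cont.integrable_of_hasCompactSupport hχt.comp
    have hSi : Integrable S := hSt.cont.integrable_of_hasCompactSupport hSt.comp
    have hui : Integrable u := hut.cont.integrable_of_hasCompactSupport hut.comp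
    have h1 : (∫ z, χ z) - ∫ z, S z ≤ ∫ z, u z := by
      rw [← integral_sub hχi hSi]
      apply integral_mono (hχi.sub hSi) hui
      intro z
      show χ z - S z ≤ (1 - S z) * χ z
      have h2 : χ z ≤ 1 := hψ1 _
      have h3 : 0 ≤ χ z := hψ0 _
      nlinarith [hS0 z, hS1 z]
    have h2 : ∫ z, χ z = (N : ℝ) ^ 2 * ∫ z, ψ z := by
      rw [hχ, dil_int ψ hc0, hc]; field_simp
    have h3 := SB_int hPP hρ hρ2 N
    rw [h2] at h1
    linarith
  · have hE : En χ χ = En ψ ψ := dil_En hψ hc0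
    have h3 := SB_en hPP hρ hρ2 N
    rw [← hE]
    have h4 : En u u ≤ (1 + θ) * En S S + (1 + 1 / θ) * En χ χ := by
      rw [En_self, En_self, En_self, ← integral_const_mul, ← integral_const_mul,
        ← integral_add (hSt.ensq_int.const_mul _) (hχt.ensq_int.const_mul _)]
      apply integral_mono hut.ensq_int ((hSt.ensq_int.const_mul _).add (hχt.ensq_int.const_mul _))
      intro z
      show gx u z ^ 2 + gy u z ^ 2 ≤ (1 + θ) * (gx S z ^ 2 + gy S z ^ 2) + (1 + 1 / θ) * (gx χ z ^ 2 + gy χ z ^ 2)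
      have hd : DifferentiableAt ℝ (fun z => 1 - S z) z := (differentiableAt_const _).sub (hSt.diff z)
      have g1 : gx (fun z => 1 - S z) z = - gx S z := by
        unfold gx; rw [fderiv_const_sub]; rfl
      have g2 : gy (fun z => 1 - S z) z = - gy S z := by
        unfold gy; rw [fderiv_const_sub]; rfl
      have e1 : gx u z = (1 - S z) * gx χ z - χ z * gx S z := by
        rw [hu, gx_mul hd (hχt.diff z), g1]; ring
      have e2 : gy u z = (1 - S z) * gy χ z - χ z * gy S z := by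
        rw [hu, gy_mul hd (hχt.diff z), g2]; ring
      have key : ∀ a b s x : ℝ, 0 ≤ s → s ≤ 1 → 0 ≤ x → x ≤ 1 →
          (s * a - x * b) ^ 2 ≤ (1 + θ) * b ^ 2 + (1 + 1 / θ) * a ^ 2 := by
        intro a b s x hs0 hs1 hx0 hx1
        have k1 : (s * a) ^ 2 ≤ a ^ 2 := by
          rw [mul_pow]; nlinarith [sq_nonneg a, mul_nonneg hs0 hs0, pow_le_one₀ (n := 2) hs0 hs1]
        have k2 : (x * b) ^ 2 ≤ b ^ 2 := by
          rw [mul_pow]; nlinarith [sq_nonneg b, mul_nonneg hx0 hx0, pow_le_one₀ (n := 2) hx0 hx1]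
        have k3 : (s * a - x * b) ^ 2 ≤ (1 + θ) * (x * b) ^ 2 + (1 + 1 / θ) * (s * a) ^ 2 := by
          have k4 : 0 ≤ θ * (x * b + (1 / θ) * (s * a)) ^ 2 := by positivity
          have k5 : θ * (x * b + (1 / θ) * (s * a)) ^ 2 = θ * (x * b) ^ 2 + 2 * (x * b) * (s * a) + (1 / θ) * (s * a) ^ 2 := by
            field_simp; ring
          rw [k5] at k4
          nlinarith
        have k6 : (1 + θ) * (x * b) ^ 2 ≤ (1 + θ) * b ^ 2 := mul_le_mul_of_nonneg_left k2 (by positivity)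
        have k7 : (1 + 1 / θ) * (s * a) ^ 2 ≤ (1 + 1 / θ) * a ^ 2 := mul_le_mul_of_nonneg_left k1 (by positivity)
        linarith
      have i1 := key (gx χ z) (gx S z) (1 - S z) (χ z) (by linarith [hS1 z]) (by linarith [hS0 z]) (hψ0 _) (hψ1 _)
      have i2 := key (gy χ z) (gy S z) (1 - S z) (χ z) (by linarith [hS1 z]) (by linarith [hS0 z]) (hψ0 _) (hψ1 _)
      rw [e1, e2]
      linarith
    have h5 : (1 + θ) * En S S ≤ (1 + θ) * ((N : ℝ) ^ 2 * (4 * m0 / PP (4 * δ) (1 / 2) 0)) :=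
      mul_le_mul_of_nonneg_left h3 (by positivity)
    linarith

end main

theorem En_pos_of_int {U : Set ℂ} {u : ℂ → ℝ} (hu : TF U u) {R : ℝ} (hR : 0 ≤ R) (hU : U ⊆ ball 0 R) (h : 0 < ∫ z, u z) :
    0 < En u u := by
  have h1 := poincare_ball hu R hR hU
  have hne : ∃ z, u z ≠ 0 := by
    by_contra hcon
    push Not at hcon
    have : ∫ z, u z = 0 := by simp [hcon]
    linarith
  have h2 := Ip_pos (U := U) ⟨hu.smooth, hu.comp, hu.supp, hne⟩
  by_contra hcon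
  push Not at hcon
  have h3 : En u u = 0 := le_antisymm hcon (En_nonneg u)
  rw [h3, mul_zero] at h1
  linarith

end PtorX

open PtorX in
theorem ptor (hPP : S_PPF) : S_PTOR := by
  have hPP' : PPF := hPP
  -- reduce to ε < 1
  suffices H : ∀ ε : ℝ, 0 < ε → ε < 1 → ∃ δ₀ > 0, ∀ δ, 0 < δ → δ < δ₀ → ∃ N : ℕ, 1 ≤ N ∧ ∃ u, TF (Perf N δ) u ∧
      0 < En u u ∧ (1 - ε) * (N : ℝ) ^ 2 * (Real.log (1 / δ) / (2 * Real.pi)) * En u u ≤ (∫ z, u z) ^ 2 by
    intro ε hε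
    obtain ⟨δ₀, h1, h2⟩ := H (min ε (1 / 2)) (lt_min hε (by norm_num)) (lt_of_le_of_lt (min_le_right _ _) (by norm_num))
    refine ⟨min δ₀ 1, lt_min h1 one_pos, ?_⟩
    intro δ hδ hδ0
    obtain ⟨N, hN, u, hu1, hu2, hu3⟩ := h2 δ hδ (lt_of_lt_of_le hδ0 (min_le_left _ _))
    refine ⟨N, hN, u, hu1, hu2, le_trans ?_ hu3⟩
    have hl : 0 ≤ Real.log (1 / δ) / (2 * Real.pi) := by
      apply div_nonneg (Real.log_nonneg _) (by positivity)
      rw [le_div_iff₀ hδ]; linarith [lt_of_lt_of_le hδ0 (min_le_right _ _)]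
    apply mul_le_mul_of_nonneg_right _ hu2.le
    apply mul_le_mul_of_nonneg_right _ hl
    apply mul_le_mul_of_nonneg_right _ (sq_nonneg _)
    linarith [min_le_left ε (1 / 2)]
  intro ε hε hε1
  have hm := hPP'.m0_pos
  have hSS : 0 < SS 1 := by
    rw [hPP'.m0_eq] at hm
    exact (pos_iff_pos_of_mul_pos hm).mp Real.pi_pos
  have hpi := Real.pi_pos
  -- the cutoff
  obtain ⟨ψ, hψ, hψ0, hψ1, hψi⟩ := cut (τ := ε ^ 2 / 16) (by positivity) (by nlinarith)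
  set J := ∫ z, ψ z with hJ
  have hJ1 : 1 - ε ^ 2 / 4 ≤ J := by
    refine le_trans ?_ hψi
    nlinarith [sq_nonneg (ε ^ 2)]
  -- limit δ → 0
  have hlog : Tendsto (fun δ : ℝ => Real.log (1 / δ)) (𝓝[>] 0) atTop := by
    have h1 : Tendsto (fun δ : ℝ => 1 / δ) (𝓝[>] 0) atTop := by
      simpa using tendsto_inv_nhdsGT_zero (𝕜 := ℝ)
    exact Real.tendsto_log_atTop.comp h1
  have hP : ∀ δ : ℝ, 0 < δ → δ < 1 / 8 → PP (4 * δ) (1 / 2) 0 = 2 * SS 1 * (Real.log (1 / δ) - Real.log 8) := by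
    intro δ h1 h2
    rw [hPP'.top (4 * δ) (1 / 2) (by positivity) (by linarith)]
    congr 1
    rw [← Real.log_div (by positivity) (by norm_num)]
    congr 1
    field_simp
    ring
  have hT : ∀ᶠ L : ℝ in atTop, Real.log 8 < L ∧
      (1 - ε ^ 2) * (L / (L - Real.log 8)) < (J - m0 / (2 * SS 1 * (L - Real.log 8))) ^ 2 ∧
      0 < J - m0 / (2 * SS 1 * (L - Real.log 8)) := by
    have t1 : Tendsto (fun L : ℝ => L - Real.log 8) atTop atTop := tendsto_atTop_add_const_right _ _ tendsto_id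
    have t2 : Tendsto (fun L : ℝ => m0 / (2 * SS 1 * (L - Real.log 8))) atTop (𝓝 0) :=
      Tendsto.const_div_atTop (t1.const_mul_atTop (by positivity)) _
    have t3 : Tendsto (fun L : ℝ => L / (L - Real.log 8)) atTop (𝓝 1) := by
      have : Tendsto (fun L : ℝ => 1 + Real.log 8 / (L - Real.log 8)) atTop (𝓝 (1 + 0)) :=
        tendsto_const_nhds.add (Tendsto.const_div_atTop t1 _)
      rw [add_zero] at this
      refine this.congr' ?_
      filter_upwards [eventually_gt_atTop (Real.log 8)] with L hL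
      have : L - Real.log 8 ≠ 0 := by linarith [sub_pos.mpr hL]
      field_simp
      ring
    have t4 : Tendsto (fun L : ℝ => (1 - ε ^ 2) * (L / (L - Real.log 8))) atTop (𝓝 ((1 - ε ^ 2) * 1)) := t3.const_mul _
    have t5 : Tendsto (fun L : ℝ => J - m0 / (2 * SS 1 * (L - Real.log 8))) atTop (𝓝 (J - 0)) := tendsto_const_nhds.sub t2
    have t6 := t5.pow 2
    rw [sub_zero] at t5 t6
    rw [mul_one] at t4
    have hlt : 1 - ε ^ 2 < J ^ 2 := by nlinarith [sq_nonneg (ε ^ 2)]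
    have hJ0 : 0 < J := by nlinarith
    filter_upwards [eventually_gt_atTop (Real.log 8), t4.eventually_lt t6 hlt, t5.eventually (lt_mem_nhds hJ0)] with L h1 h2 h3
    exact ⟨h1, h2, h3⟩
  have hT2 := hlog.eventually hT
  rw [eventually_nhdsWithin_iff, Metric.eventually_nhds_iff] at hT2
  obtain ⟨δ₁, hδ₁, hT3⟩ := hT2
  refine ⟨min δ₁ (1 / 8), lt_min hδ₁ (by norm_num), ?_⟩
  intro δ hδ hδ0
  have hδ8 : δ < 1 / 8 := lt_of_lt_of_le hδ0 (min_le_right _ _)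
  have hδ11 : δ < δ₁ := lt_of_lt_of_le hδ0 (min_le_left _ _)
  obtain ⟨hL1, hL2, hL3⟩ := hT3 (y := δ) (by rw [Real.dist_eq, sub_zero, abs_of_pos hδ]; exact hδ11) hδ
  set L := Real.log (1 / δ) with hL
  set l := L - Real.log 8 with hl
  have hl0 : 0 < l := by rw [hl]; linarith
  have hlog8 : 0 < Real.log 8 := Real.log_pos (by norm_num)
  have hL0 : 0 < L := by linarith
  have hPδ := hP δ hδ hδ8
  -- limit N → ∞
  set A := J - m0 / (2 * SS 1 * l) with hA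
  set D := En ψ ψ with hD
  have hD0 : 0 ≤ D := En_nonneg ψ
  have hN : ∀ᶠ N : ℕ in atTop, (1 - ε ^ 2) * (L / l) + (1 - ε) * (1 + 1 / ε) * D * (L / (2 * Real.pi)) * (1 / (N : ℝ)) ^ 2 < A ^ 2 := by
    have t1 : Tendsto (fun N : ℕ => (1 - ε ^ 2) * (L / l) + (1 - ε) * (1 + 1 / ε) * D * (L / (2 * Real.pi)) * (1 / (N : ℝ)) ^ 2) atTop
        (𝓝 ((1 - ε ^ 2) * (L / l) + (1 - ε) * (1 + 1 / ε) * D * (L / (2 * Real.pi)) * 0 ^ 2)) :=
      tendsto_const_nhds.add ((tendsto_one_div_atTop_nhds_zero_nat.pow 2).const_mul _)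
    have : (1 - ε ^ 2) * (L / l) + (1 - ε) * (1 + 1 / ε) * D * (L / (2 * Real.pi)) * 0 ^ 2 = (1 - ε ^ 2) * (L / l) := by ring
    rw [this] at t1
    exact t1.eventually (gt_mem_nhds hL2)
  obtain ⟨N, hN1, hN2⟩ := (hN.and (eventually_ge_atTop 1)).exists
  have hN0 : (0 : ℝ) < N := by exact_mod_cast hN2
  obtain ⟨u, hu1, hu2, hu3⟩ := test hPP' hδ hδ8 hN2 hψ hψ0 hψ1 hε
  rw [hPδ] at hu2 hu3
  have hu2' : (N : ℝ) ^ 2 * A ≤ ∫ z, u z := hu2
  have hA0 : 0 < A := hL3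
  have hpos : 0 < ∫ z, u z := lt_of_lt_of_le (by positivity) hu2'
  have hbd : Perf N δ ⊆ ball 0 (2 * N) := by
    rintro z ⟨h1, h2, h3, h4, _⟩
    rw [mem_ball, dist_zero_right]
    have := Complex.norm_le_abs_re_add_abs_im z
    rw [abs_of_pos h1, abs_of_pos h3] at this
    linarith
  refine ⟨N, hN2, u, hu1, En_pos_of_int hu1 (by positivity) hbd hpos, ?_⟩
  have hμ : 4 * m0 / (2 * SS 1 * l) = 2 * Real.pi / l := by
    rw [hPP'.m0_eq]; field_simp; ring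
  have hE : En u u ≤ (1 + ε) * ((N : ℝ) ^ 2 * (2 * Real.pi / l)) + (1 + 1 / ε) * D := by
    have := hu3
    rw [hμ] at this
    exact this
  have hc0 : 0 ≤ (1 - ε) * (N : ℝ) ^ 2 * (L / (2 * Real.pi)) := by
    have : 0 < 1 - ε := by linarith
    positivity
  calc (1 - ε) * (N : ℝ) ^ 2 * (L / (2 * Real.pi)) * En u u
      ≤ (1 - ε) * (N : ℝ) ^ 2 * (L / (2 * Real.pi)) * ((1 + ε) * ((N : ℝ) ^ 2 * (2 * Real.pi / l)) + (1 + 1 / ε) * D) :=
        mul_le_mul_of_nonneg_left hE hc0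
    _ = (N : ℝ) ^ 4 * ((1 - ε ^ 2) * (L / l) + (1 - ε) * (1 + 1 / ε) * D * (L / (2 * Real.pi)) * (1 / (N : ℝ)) ^ 2) := by
        field_simp
        ring
    _ ≤ (N : ℝ) ^ 4 * A ^ 2 := mul_le_mul_of_nonneg_left hN1.le (by positivity)
    _ = ((N : ℝ) ^ 2 * A) ^ 2 := by ring
    _ ≤ (∫ z, u z) ^ 2 := pow_le_pow_left₀ (by positivity) hu2' 2

end Pool.Agent.TH316.FQ
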