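import Pool.Agent.TH316.FQ.Bas

set_option autoImplicit false

/-! Punching small holes in a maximiser. -/

open MeasureTheory Metric Set Filter
open scoped Topology

namespace Pool.Agent.TH316.FQ

open Pool.Agent.Helper533.StarBox

theorem pn_e : Tendsto (fun δ : ℝ => 2 * Real.pi / Real.log (1 / δ)) (𝓝[>] 0) (𝓝 0) := by
  have h1 : Tendsto (fun δ : ℝ => Real.log (1 / δ)) (𝓝[>] 0) atTop := by
    have := Real.tendsto_log_atTop.comp (tendsto_inv_nhdsGT_zero (𝕜 := ℝ))
    refine this.congr fun δ => ?_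
    simp
  exact h1.const_div_atTop _

/-- the real variable argument -/
theorem pn_alg {l T q A B e l' T' : ℝ} (hl : 0 < l) (hT : 0 < T) (hq : 1 < q) (he : 0 < e)
    (h1 : l + e * A ≤ l') (h2 : T - e * B ≤ T') (h3 : 0 ≤ l + e * A) (h4 : 0 ≤ T - e * B)
    (h : l' * T' ^ q ≤ l * T ^ q) : A - l * q * B / T ≤ e * (q * A * B / T) := by
  have k1 : (T - e * B) ^ q ≤ T' ^ q := Real.rpow_le_rpow h4 h2 (by linarith)
  have k2 : (l + e * A) * (T - e * B) ^ q ≤ l * T ^ q := by
    refine le_trans ?_ h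
    exact mul_le_mul h1 k1 (Real.rpow_nonneg h4 _) (h3.trans h1)
  have k3 : T - e * B = T * (1 + (-(e * B / T))) := by field_simp; ring
  have k4 : -1 ≤ -(e * B / T) := by
    rw [neg_le_neg_iff, div_le_one hT]; linarith
  have k5 := one_add_mul_self_le_rpow_one_add k4 hq.le
  have hTq : 0 < T ^ q := Real.rpow_pos_of_pos hT q
  rw [k3, Real.mul_rpow hT.le (by linarith)] at k2
  have k6 : (l + e * A) * (1 + q * (-(e * B / T))) ≤ l := by
    have k7 : (l + e * A) * (1 + -(e * B / T)) ^ q ≤ l := by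
      have : (l + e * A) * (1 + -(e * B / T)) ^ q * T ^ q ≤ l * T ^ q := by
        calc _ = (l + e * A) * (T ^ q * (1 + -(e * B / T)) ^ q) := by ring
          _ ≤ _ := k2
      exact le_of_mul_le_mul_right this hTq
    exact (mul_le_mul_of_nonneg_left k5 h3).trans k7
  have k8 : e * (A - l * q * B / T) ≤ e * (e * (q * A * B / T)) := by
    have : (l + e * A) * (1 + q * (-(e * B / T))) = l + e * (A - l * q * B / T) - e * (e * (q * A * B / T)) := by
      field_simp; ring
    rw [this] at k6; linarith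
  exact le_of_mul_le_mul_left k8 he

theorem pun (hPOL : S_POL) (hPT : S_PUNT) (hPL : S_PUNL) (hUSC : S_USC) (hLEB : S_LEB) (hSUB : S_SUB)
    (hWD : S_WD) (hOUT : S_OUT) : S_PUN := by
  intro q U w wx wy u ux uy hq hM hT hE c hc hc2
  have hU := hM.1.1
  have hf := hM.1.2.2
  obtain ⟨-, p2, p3, p4, -, -, -, -⟩ := hPOL U hM.1
  have hSub : SubL w 1 := by
    intro φ hφ hφ0
    have k1 := hSUB U w wx wy (ind U) hU hT.hw hT.nn (ind_memLp hU hf)
      (Eventually.of_forall fun z => ind_nonneg U z) hT.we.ind φ hφ hφ0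
    rw [hWD U w wx wy hT.hw φ hφ] at k1
    have k2 : ∫ z, ind U z * φ z ≤ 1 * ∫ z, φ z := by
      rw [one_mul]
      apply integral_mono
      · exact (ind_memLp hU hf).integrable_mul hφ.memLp
      · exact hφ.cont.integrable_of_hasCompactSupport hφ.comp
      · intro z
        show ind U z * φ z ≤ φ z
        calc ind U z * φ z ≤ 1 * φ z := mul_le_mul_of_nonneg_right (ind_le_one U z) (hφ0 z)
          _ = φ z := one_mul _
    linarith
  have hul : LocallyIntegrable u (volume : Measure ℂ) := hE.hw.mf.locallyIntegrable (by norm_num)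
  filter_upwards [hUSC w 1 hT.hw.mf (by norm_num) hSub, hLEB u hul, hT.nn, hE.nn,
    hOUT U w wx wy hU hT.hw, hOUT U u ux uy hU hE.hw] with z z1 z2 z3 z4 z5 z6
  by_cases hz : z ∈ U
  swap
  · rw [(z5 hz).1, (z6 hz).1, mul_zero]
  -- the key inequality for fixed ε, R
  have key : ∀ (R M : ℝ), 0 < R → closedBall z R ⊆ U → (∀ᵐ y, y ∈ ball z R → w y ≤ M) → ∀ ε > 0,
      c ^ 2 * (Av u R z ^ 2 - ε) ≤ M ^ 2 + ε := by
    intro R M hR hRU hMw ε hε
    set A := Av u R z ^ 2 - ε with hA
    set B := M ^ 2 + ε with hB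
    obtain ⟨δ₁, hδ₁, g1⟩ := hPT U w wx wy hM.1 hT z R M hR hMw ε hε
    obtain ⟨δ₂, hδ₂, g2⟩ := hPL U u ux uy hM.1 hE z R hR hRU ε hε
    have hlim : A - lambda1 U * q * B / tor U ≤ 0 := by
      have t1 : Tendsto (fun δ : ℝ => 2 * Real.pi / Real.log (1 / δ) * (q * A * B / tor U)) (𝓝[>] 0) (𝓝 0) := by
        have := pn_e.mul_const (q * A * B / tor U)
        rwa [zero_mul] at this
      refine ge_of_tendsto t1 ?_
      have t2 : Tendsto (fun δ : ℝ => lambda1 U + 2 * Real.pi / Real.log (1 / δ) * A) (𝓝[>] 0) (𝓝 (lambda1 U)) := by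
        have := (pn_e.mul_const A).const_add (lambda1 U)
        rwa [zero_mul, add_zero] at this
      have t3 : Tendsto (fun δ : ℝ => tor U - 2 * Real.pi / Real.log (1 / δ) * B) (𝓝[>] 0) (𝓝 (tor U)) := by
        have := (pn_e.mul_const B).const_sub (tor U)
        rwa [zero_mul, sub_zero] at this
      have t4 : Tendsto (fun δ : ℝ => ENNReal.ofReal (Real.pi * δ ^ 2)) (𝓝[>] 0) (𝓝 0) := by
        have : Tendsto (fun δ : ℝ => Real.pi * δ ^ 2) (𝓝[>] 0) (𝓝 0) := by
          have h5 : Continuous fun δ : ℝ => Real.pi * δ ^ 2 := by fun_prop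
          have := (h5.tendsto 0).mono_left (nhdsWithin_le_nhds (s := Ioi 0))
          simpa using this
        have := ENNReal.tendsto_ofReal this
        rwa [ENNReal.ofReal_zero] at this
      have hUpos : 0 < volume U := hU.measure_pos _ hM.1.2.1
      filter_upwards [Ioo_mem_nhdsGT hδ₁, Ioo_mem_nhdsGT hδ₂, Ioo_mem_nhdsGT (show (0 : ℝ) < 1 by norm_num),
        t2.eventually (lt_mem_nhds p2), t3.eventually (lt_mem_nhds p3), t4.eventually (gt_mem_nhds hUpos)]
        with δ a1 a2 a3 a4 a5 a6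
      have hδ := a1.1
      have hvol : volume (closedBall z δ) < volume U := by
        rw [Complex.volume_closedBall]
        refine lt_of_eq_of_lt ?_ a6
        rw [ENNReal.ofReal_mul Real.pi_pos.le, ENNReal.ofReal_pow hδ.le, mul_comm]
        congr 1
        exact (ENNReal.ofReal_coe_nnreal (p := NNReal.pi)).symm
      have hVo : IsOpen (U \ closedBall z δ) := hU.sdiff isClosed_closedBall
      have hVne : (U \ closedBall z δ).Nonempty := by
        rw [Set.nonempty_iff_ne_empty]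
        intro h
        rw [Set.sdiff_eq_empty] at h
        exact absurd (measure_mono h) (not_le.2 hvol)
      have hVf : volume (U \ closedBall z δ) ≠ ⊤ := ne_top_of_le_ne_top hf (measure_mono sdiff_subset)
      have hV : Adm (U \ closedBall z δ) := ⟨hVo, hVne, hVf⟩
      obtain ⟨-, q2, q3, q4, -, -, -, -⟩ := hPOL _ hV
      have hmax := hM.2 _ hV
      have hel : 0 < 2 * Real.pi / Real.log (1 / δ) := by
        apply div_pos (by have := Real.pi_pos; positivity)
        apply Real.log_pos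
        rw [lt_div_iff₀ hδ, one_mul]; exact a3.2
      have harle : ar (U \ closedBall z δ) ≤ ar U :=
        ENNReal.toReal_mono hf (measure_mono sdiff_subset)
      have hprod : lambda1 (U \ closedBall z δ) * tor (U \ closedBall z δ) ^ q ≤ lambda1 U * tor U ^ q := by
        unfold Fc at hmax
        have r1 : 0 < ar (U \ closedBall z δ) ^ (2 * q - 1) := Real.rpow_pos_of_pos q4 _
        have r2 : 0 < ar U ^ (2 * q - 1) := Real.rpow_pos_of_pos p4 _
        have r3 : ar (U \ closedBall z δ) ^ (2 * q - 1) ≤ ar U ^ (2 * q - 1) :=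
          Real.rpow_le_rpow q4.le harle (by linarith)
        rw [div_le_div_iff₀ r1 r2] at hmax
        have r4 : lambda1 U * tor U ^ q * ar (U \ closedBall z δ) ^ (2 * q - 1) ≤
            lambda1 U * tor U ^ q * ar U ^ (2 * q - 1) :=
          mul_le_mul_of_nonneg_left r3 (mul_nonneg p2.le (Real.rpow_nonneg p3.le _))
        exact le_of_mul_le_mul_right (hmax.trans r4) r2
      exact pn_alg p2 p3 hq hel (g2 δ hδ a2.2) (g1 δ hδ a1.2) a4.le a5.le hprod
    have hq0 : 0 < q := by linarith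
    have k1 : A ≤ q * lambda1 U / tor U * B := by
      have : lambda1 U * q * B / tor U = q * lambda1 U / tor U * B := by ring
      linarith
    calc c ^ 2 * A ≤ c ^ 2 * (q * lambda1 U / tor U * B) := mul_le_mul_of_nonneg_left k1 (sq_nonneg _)
      _ = B := by rw [hc2]; field_simp
  have key2 : ∀ (R M : ℝ), 0 < R → closedBall z R ⊆ U → (∀ᵐ y, y ∈ ball z R → w y ≤ M) →
      c ^ 2 * Av u R z ^ 2 ≤ M ^ 2 := by
    intro R M hR hRU hMw
    have h1 := key R M hR hRU hMw
    have t1 : Tendsto (fun ε : ℝ => c ^ 2 * (Av u R z ^ 2 - ε)) (𝓝[>] 0) (𝓝 (c ^ 2 * Av u R z ^ 2)) := by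
      have h5 : Continuous fun ε : ℝ => c ^ 2 * (Av u R z ^ 2 - ε) := by fun_prop
      have := (h5.tendsto 0).mono_left (nhdsWithin_le_nhds (s := Ioi 0))
      simpa using this
    have t2 : Tendsto (fun ε : ℝ => M ^ 2 + ε) (𝓝[>] 0) (𝓝 (M ^ 2)) := by
      have h5 : Continuous fun ε : ℝ => M ^ 2 + ε := by fun_prop
      have := (h5.tendsto 0).mono_left (nhdsWithin_le_nhds (s := Ioi 0))
      simpa using this
    refine le_of_tendsto_of_tendsto t1 t2 ?_
    filter_upwards [self_mem_nhdsWithin] with ε hε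
    exact h1 ε hε
  -- let R → 0
  have key3 : ∀ ε > 0, c ^ 2 * u z ^ 2 ≤ (w z + ε) ^ 2 := by
    intro ε hε
    obtain ⟨R₀, hR₀, hR₀w⟩ := z1 ε hε
    obtain ⟨R₁, hR₁, hR₁U⟩ := Metric.isOpen_iff.1 hU z hz
    have t1 : Tendsto (fun R : ℝ => c ^ 2 * Av u R z ^ 2) (𝓝[>] 0) (𝓝 (c ^ 2 * u z ^ 2)) :=
      (z2.pow 2).const_mul _
    refine le_of_tendsto t1 ?_
    filter_upwards [Ioo_mem_nhdsGT hR₀, Ioo_mem_nhdsGT hR₁] with R b1 b2
    apply key2 R _ b1.1 ((closedBall_subset_ball b2.2).trans hR₁U)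
    filter_upwards [hR₀w] with y hy hyR
    exact hy (ball_subset_ball b1.2.le hyR)
  have key4 : c ^ 2 * u z ^ 2 ≤ w z ^ 2 := by
    have t2 : Tendsto (fun ε : ℝ => (w z + ε) ^ 2) (𝓝[>] 0) (𝓝 (w z ^ 2)) := by
      have h5 : Continuous fun ε : ℝ => (w z + ε) ^ 2 := by fun_prop
      have := (h5.tendsto 0).mono_left (nhdsWithin_le_nhds (s := Ioi 0))
      simpa using this
    refine ge_of_tendsto t2 ?_
    filter_upwards [self_mem_nhdsWithin] with ε hε
    exact key3 ε hε
  rw [← mul_pow] at key4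
  exact (abs_le_of_sq_le_sq' key4 z3).2

end Pool.Agent.TH316.FQ
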