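import Pool.Agent.TH316.FQ.Bas

set_option autoImplicit false

/-! The first eigenvalue of a set with a small hole. -/

open MeasureTheory Metric Set Filter
open scoped Topology

namespace Pool.Agent.TH316.FQ

open Pool.Agent.Helper533.StarBox

namespace PunLX

/-- Cauchy-Schwarz -/
theorem cs {f g : ℂ → ℝ} (hf : MemLp f 2 (volume : Measure ℂ)) (hg : MemLp g 2 (volume : Measure ℂ)) :
    |∫ z, f z * g z| ≤ √(∫ z, f z ^ 2) * √(∫ z, g z ^ 2) := by
  have h := abs_real_inner_le_norm (cls f) (cls g)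
  rw [inner_cls hf hg] at h
  have e : ∀ k : ℂ → ℝ, MemLp k 2 (volume : Measure ℂ) → ‖cls k‖ = √(∫ z, k z ^ 2) := by
    intro k hk
    have h1 : ‖cls k‖ ^ 2 = ∫ z, k z ^ 2 := by
      rw [← real_inner_self_eq_norm_sq, inner_cls hk hk]
      congr 1; ext z; ring
    rw [← h1, Real.sqrt_sq (norm_nonneg _)]
  rw [e f hf, e g hg] at h
  exact h

/-- Green's formula for a test function that vanishes near `x` -/
theorem en_pp {U : Set ℂ} {χ : ℂ → ℝ} {x : ℂ} {δ R : ℝ} (hδ : 0 < δ) (hδR : δ ≤ R) (hm : 0 < m0)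
    (hχ : TF (U \ closedBall x δ) χ) :
    En χ (fun z => PP δ R (qq x z)) = - (4 * m0 * Av χ R x) := by
  have ht := PP_tf (U := univ) hδ hδR x (subset_univ _)
  rw [ibp hχ ht]
  have e : ∀ z, χ z * lap (fun z => PP δ R (qq x z)) z = 4 * (χ z * ww R (z - x)) := by
    intro z
    rw [PP_lap hδ hδR]
    have h1 : bb (qq x z / R ^ 2) / R ^ 2 = ww R (z - x) := by unfold ww; rw [qq_eq]
    have h2 : bb (qq x z / δ ^ 2) / δ ^ 2 = ww δ (z - x) := by unfold ww; rw [qq_eq]
    rw [h1, h2]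
    have h3 : χ z * ww δ (z - x) = 0 := by
      by_cases hz : z ∈ closedBall x δ
      · rw [image_eq_zero_of_notMem_tsupport (fun h => (hχ.supp h).2 hz), zero_mul]
      · rw [ww_zero hδ, mul_zero]
        rw [mem_closedBall, not_le, dist_eq_norm] at hz
        exact hz.le
    linarith
  simp_rw [e]
  rw [integral_const_mul]
  unfold Av
  field_simp

theorem main_bound {U : Set ℂ} {χ u : ℂ → ℝ} {x : ℂ} {δ R C : ℝ} (hPP : S_PPF) (hδ : 0 < δ) (hδR : δ < R)
    (hb : closedBall x R ⊆ U) (hC : ∫ z, PP δ R (qq x z) ^ 2 ≤ C * R ^ 2)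
    (hχ : TF (U \ closedBall x δ) χ) (hu : MemLp u 2 (volume : Measure ℂ)) (hu0 : ∀ᵐ z, 0 ≤ u z) :
    2 * Real.pi * (max (Av χ R x - lambda1 U * (√(∫ z, (χ z - u z) ^ 2) * √(C * R ^ 2)) / (4 * m0)) 0) ^ 2 ≤
      Real.log (R / δ) * Qf U χ χ := by
  have hR : 0 < R := hδ.trans hδR
  have hm := hPP.m0_pos
  have hφ := PP_tf (U := U) hδ hδR.le x hb
  have hχU : TF U χ := hχ.mono sdiff_subset
  set φ : ℂ → ℝ := fun z => PP δ R (qq x z) with hφd
  have hφ0 : ∀ z, 0 ≤ φ z := fun z => PP_nonneg hδ hδR.le (by unfold qq; positivity)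
  have hlog : 0 < Real.log (R / δ) := Real.log_pos (by rw [lt_div_iff₀ hδ]; linarith)
  have hl := lambda1_nonneg U
  -- the mixed product
  have h1 : -(√(∫ z, (χ z - u z) ^ 2) * √(C * R ^ 2)) ≤ Ip χ φ := by
    have e1 : Ip χ φ = (∫ z, (χ z - u z) * φ z) + ∫ z, u z * φ z := by
      unfold Ip
      have i1 : Integrable fun z => (χ z - u z) * φ z := (hχU.memLp.sub hu).integrable_mul hφ.memLp
      have i2 : Integrable fun z => u z * φ z := hu.integrable_mul hφ.memLp
      rw [← integral_add i1 i2]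
      congr 1; ext z
      ring
    have e2 : 0 ≤ ∫ z, u z * φ z := by
      apply integral_nonneg_of_ae
      filter_upwards [hu0] with z hz
      exact mul_nonneg hz (hφ0 z)
    have e3 := cs (hχU.memLp.sub hu) hφ.memLp
    have e4 : √(∫ z, φ z ^ 2) ≤ √(C * R ^ 2) := Real.sqrt_le_sqrt hC
    have e5 := mul_le_mul_of_nonneg_left e4 (Real.sqrt_nonneg (∫ z, (χ z - u z) ^ 2))
    have e6 := (abs_le.1 (e3.trans e5)).1
    simp only [Pi.sub_apply] at e6
    rw [e1]
    linarith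
  have h2 := en_pp hδ hδR.le hm hχ
  set A := Av χ R x - lambda1 U * (√(∫ z, (χ z - u z) ^ 2) * √(C * R ^ 2)) / (4 * m0) with hA
  have h3 : 4 * m0 * A ≤ - Qf U χ φ := by
    have h4 := mul_le_mul_of_nonneg_left h1 hl
    unfold Qf
    rw [h2, hA]
    have e : 4 * m0 * (Av χ R x - lambda1 U * (√(∫ z, (χ z - u z) ^ 2) * √(C * R ^ 2)) / (4 * m0)) =
      4 * m0 * Av χ R x - lambda1 U * (√(∫ z, (χ z - u z) ^ 2) * √(C * R ^ 2)) := by
      field_simp
    rw [e]
    linarith
  have h5 : (4 * m0 * max A 0) ^ 2 ≤ Qf U χ φ ^ 2 := by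
    rcases le_total A 0 with h | h
    · rw [max_eq_right h, mul_zero]
      have := sq_nonneg (Qf U χ φ)
      linarith
    · rw [max_eq_left h, ← neg_sq (Qf U χ φ)]
      exact pow_le_pow_left₀ (by positivity) h3 2
  have h6 := Qf_cs hχU hφ
  have h7 : Qf U φ φ ≤ 4 * m0 * PP δ R 0 := by
    have h8 := hPP.en δ R x hδ hδR.le
    have h9 := Ip_nonneg φ
    unfold Qf
    have := mul_nonneg hl h9
    linarith
  rw [hPP.top δ R hδ hδR.le] at h7
  have hQ := Qf_nonneg hχU
  have h8 := mul_le_mul_of_nonneg_left h7 hQ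
  have hpi := Real.pi_pos
  have h9 : 4 * m0 * (2 * SS 1 * Real.log (R / δ)) = 8 * m0 ^ 2 / Real.pi * Real.log (R / δ) := by
    rw [hPP.m0_eq]; field_simp; ring
  rw [h9] at h8
  have h10 : (4 * m0 * max A 0) ^ 2 ≤ Qf U χ χ * (8 * m0 ^ 2 / Real.pi * Real.log (R / δ)) :=
    (h5.trans h6).trans h8
  have h11 : 8 * m0 ^ 2 * (2 * Real.pi * max A 0 ^ 2) ≤
      8 * m0 ^ 2 * (Real.log (R / δ) * Qf U χ χ) := by
    have := mul_le_mul_of_nonneg_left h10 hpi.le
    have e : Real.pi * (Qf U χ χ * (8 * m0 ^ 2 / Real.pi * Real.log (R / δ))) =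
        8 * m0 ^ 2 * (Real.log (R / δ) * Qf U χ χ) := by field_simp
    rw [e] at this
    linarith
  exact le_of_mul_le_mul_left h11 (by positivity)

end PunLX

open PunLX in
theorem punL (hPP : S_PPF) (hPOL : S_POL) : S_PUNL := by
  intro U u ux uy hA hE x R hR hb ε hε
  by_contra hcon
  push Not at hcon
  have hm := hPP.m0_pos
  obtain ⟨C, hC0, hC⟩ := hPP.sq
  have hd : ∀ n : ℕ, ∃ δ : ℝ, 0 < δ ∧ δ < min (R / 2) (1 / ((n : ℝ) + 2)) ∧
      lambda1 (U \ closedBall x δ) <
        lambda1 U + 2 * Real.pi / Real.log (1 / δ) * (Av u R x ^ 2 - ε) := by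
    intro n
    obtain ⟨δ, h1, h2, h3⟩ := hcon (min (R / 2) (1 / ((n : ℝ) + 2))) (by positivity)
    exact ⟨δ, h1, h2, h3⟩
  choose δ hδ hδm hδl using hd
  have hδR : ∀ n, δ n < R := fun n => ((hδm n).trans_le (min_le_left _ _)).trans (by linarith)
  have hδn : ∀ n, δ n < 1 / ((n : ℝ) + 2) := fun n => (hδm n).trans_le (min_le_right _ _)
  set L : ℕ → ℝ := fun n => Real.log (1 / δ n) with hL
  have hLn : ∀ n : ℕ, Real.log ((n : ℝ) + 2) ≤ L n := by
    intro n
    apply Real.log_le_log (by positivity)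
    rw [le_div_iff₀ (hδ n)]
    have := hδn n
    rw [lt_div_iff₀ (by positivity)] at this
    linarith
  have hL0 : ∀ n, 0 < L n := fun n =>
    (Real.log_pos (by have : (0:ℝ) ≤ n := Nat.cast_nonneg n
                      linarith)).trans_le (hLn n)
  have hLt : Tendsto L atTop atTop := by
    refine tendsto_atTop_mono hLn ?_
    exact Real.tendsto_log_atTop.comp (tendsto_atTop_add_const_right _ _ tendsto_natCast_atTop_atTop)
  set l : ℕ → ℝ := fun n => 2 * Real.pi / L n with hl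
  have hl0 : ∀ n, 0 < l n := fun n => div_pos (by positivity) (hL0 n)
  have hlt : Tendsto l atTop (𝓝 0) := hLt.const_div_atTop _
  have hUo : ∀ n, IsOpen (U \ closedBall x (δ n)) := fun n => hA.1.sdiff isClosed_closedBall
  have hUne : ∀ n, (U \ closedBall x (δ n)).Nonempty := by
    intro n
    refine ⟨x + (R : ℂ), hb ?_, ?_⟩
    · rw [mem_closedBall, dist_eq_norm]; simp [abs_of_pos hR]
    · rw [mem_closedBall, dist_eq_norm, not_le]
      simp only [add_sub_cancel_left, Complex.norm_real, Real.norm_eq_abs, abs_of_pos hR]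
      exact hδR n
  have hψ : ∀ n, ∃ ψ, IsTest (U \ closedBall x (δ n)) ψ ∧ Ip ψ ψ = 1 ∧
      En ψ ψ < lambda1 (U \ closedBall x (δ n)) + l n * (ε / 4) := fun n =>
    exists_near (hUo n) (hUne n) (mul_pos (hl0 n) (by positivity))
  choose ψ hψT hψ1 hψE using hψ
  have hψU : ∀ n, TF U (ψ n) := fun n => (hψT n).tf.mono sdiff_subset
  have hup : ∀ n, En (ψ n) (ψ n) ≤ lambda1 U + l n * (Av u R x ^ 2 - 3 * ε / 4) := by
    intro n
    have h1 := hδl n
    have h2 := hψE n
    have e : 2 * Real.pi / Real.log (1 / δ n) = l n := rfl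
    rw [e] at h1
    linarith
  have hlo : ∀ n, lambda1 U ≤ En (ψ n) (ψ n) := by
    intro n
    have := lambda1_mul_le (hψU n)
    rw [hψ1, mul_one] at this
    exact this
  have hEt : Tendsto (fun n => En (ψ n) (ψ n)) atTop (𝓝 (lambda1 U)) := by
    refine tendsto_of_tendsto_of_tendsto_of_le_of_le tendsto_const_nhds ?_ hlo hup
    simpa using (hlt.mul_const (Av u R x ^ 2 - 3 * ε / 4)).const_add (lambda1 U)
  obtain ⟨s, hs, hst⟩ := hE.st ψ hψU (by simp only [hψ1]; exact tendsto_const_nhds) hEt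
  set χ : ℕ → ℂ → ℝ := fun n z => s n * ψ n z with hχ
  have hχT : ∀ n, TF (U \ closedBall x (δ n)) (χ n) := fun n => (hψT n).tf.smul (s n)
  have hχU : ∀ n, TF U (χ n) := fun n => (hχT n).mono sdiff_subset
  have hχL : L2T χ u := by
    refine ⟨fun n => (hχU n).memLp, hE.hw.mf, ?_⟩
    refine squeeze_zero (fun n => integral_nonneg fun z => sq_nonneg _) (fun n => ?_) hst
    have i1 : Integrable fun z => (s n * ψ n z - u z) ^ 2 := ((hχU n).memLp.sub hE.hw.mf).integrable_sq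
    have i2 : Integrable fun z => (s n * gx (ψ n) z - ux z) ^ 2 :=
      (((hψU n).gx_tf.smul (s n)).memLp.sub hE.hw.mp).integrable_sq
    have i3 : Integrable fun z => (s n * gy (ψ n) z - uy z) ^ 2 :=
      (((hψU n).gy_tf.smul (s n)).memLp.sub hE.hw.mq).integrable_sq
    apply integral_mono i1 ((i1.add i2).add i3)
    intro z
    show (s n * ψ n z - u z) ^ 2 ≤ (s n * ψ n z - u z) ^ 2 + (s n * gx (ψ n) z - ux z) ^ 2 +
      (s n * gy (ψ n) z - uy z) ^ 2
    have := sq_nonneg (s n * gx (ψ n) z - ux z)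
    have := sq_nonneg (s n * gy (ψ n) z - uy z)
    linarith
  have hQ : ∀ n, Qf U (χ n) (χ n) ≤ l n * (Av u R x ^ 2 - 3 * ε / 4) := by
    intro n
    have h1 := Qf_smul_self (s n) (hψU n)
    have h2 : s n ^ 2 = 1 := by rcases hs n with h | h <;> rw [h] <;> norm_num
    rw [h2, one_mul] at h1
    show Qf U (fun z => s n * ψ n z) (fun z => s n * ψ n z) ≤ _
    rw [h1]
    unfold Qf
    rw [hψ1]
    have := hup n
    linarith
  have hAt : Tendsto (fun n => Av (χ n) R x) atTop (𝓝 (Av u R x)) :=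
    (hχL.mul (L2T.const (ww_memLp hR x))).div_const _
  have het : Tendsto (fun n => √(∫ z, (χ n z - u z) ^ 2)) atTop (𝓝 0) := by
    have := (Real.continuous_sqrt.tendsto 0).comp hχL.tt
    rwa [Real.sqrt_zero] at this
  have hub : 0 ≤ Av u R x := by
    apply div_nonneg _ hm.le
    apply integral_nonneg_of_ae
    filter_upwards [hE.nn] with z hz
    exact mul_nonneg hz (ww_nonneg _ _)
  set g : ℕ → ℝ := fun n =>
    max (Av (χ n) R x - lambda1 U * (√(∫ z, (χ n z - u z) ^ 2) * √(C * R ^ 2)) / (4 * m0)) 0 with hg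
  have hgt : Tendsto g atTop (𝓝 (Av u R x)) := by
    have h1 := hAt.sub (((het.mul_const (√(C * R ^ 2))).const_mul (lambda1 U)).div_const (4 * m0))
    simp only [zero_mul, mul_zero, zero_div, sub_zero] at h1
    have h2 := h1.max (tendsto_const_nhds (x := (0:ℝ)))
    rwa [max_eq_left hub] at h2
  have hineq : ∀ n, g n ^ 2 ≤ (1 + Real.log R / L n) * (Av u R x ^ 2 - 3 * ε / 4) := by
    intro n
    have h1 := main_bound hPP (hδ n) (hδR n) hb (hC (δ n) R x (hδ n) (hδR n).le) (hχT n) hE.hw.mf hE.nn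
    have h2 : Real.log (R / δ n) = Real.log R + L n := by
      rw [hL]
      show _ = Real.log R + Real.log (1 / δ n)
      rw [← Real.log_mul hR.ne' (by have := hδ n; positivity)]
      congr 1; field_simp
    have h3 : 0 < Real.log (R / δ n) := Real.log_pos (by rw [lt_div_iff₀ (hδ n)]; linarith [hδR n])
    have h4 := mul_le_mul_of_nonneg_left (hQ n) h3.le
    have h5 : 2 * Real.pi * g n ^ 2 ≤ 2 * Real.pi * ((1 + Real.log R / L n) * (Av u R x ^ 2 - 3 * ε / 4)) := by
      refine (h1.trans h4).trans_eq ?_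
      rw [h2, hl]
      have := (hL0 n).ne'
      show (Real.log R + L n) * (2 * Real.pi / L n * (Av u R x ^ 2 - 3 * ε / 4)) = _
      field_simp
      ring
    exact le_of_mul_le_mul_left h5 (by positivity)
  have hlim : Tendsto (fun n => (1 + Real.log R / L n) * (Av u R x ^ 2 - 3 * ε / 4)) atTop
      (𝓝 ((1 + 0) * (Av u R x ^ 2 - 3 * ε / 4))) :=
    ((hLt.const_div_atTop (Real.log R)).const_add 1).mul_const _
  have := le_of_tendsto_of_tendsto' (hgt.pow 2) hlim hineq
  linarith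

end Pool.Agent.TH316.FQ
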