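import Pool.Agent.TH316.FQ.Stm
import Pool.Agent.TH316.FQ.Bas
set_option autoImplicit false

/-! Torsional rigidity of a set with a small hole. -/

open MeasureTheory Metric Set Filter
open scoped Topology

namespace Pool.Agent.TH316.FQ

open Pool.Agent.Helper533.StarBox

namespace PunTX

/-- the core inequality: cutting off with `1 - η` -/
theorem core {U V : Set ℂ} {w wx wy : ℂ → ℝ} (hU : IsOpen U) (hUf : volume U ≠ ⊤) (hT : Tors U w wx wy)
    (hV : ∀ φ, TF V φ → 2 * (∫ z, φ z) - En φ φ ≤ tor V)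
    {η : ℂ → ℝ} (hη : TF univ η) (hζ : ∀ v, TF U v → TF V (fun z => (1 - η z) * v z))
    {M : ℝ} (hw : ∀ᵐ z, (η z ≠ 0 ∨ gx η z ≠ 0 ∨ gy η z ≠ 0) → w z ≤ M) :
    tor U - (M * (∫ z, η z ^ 2) + M ^ 2 * En η η) ≤ tor V := by
  obtain ⟨u, hu, h1, h2, h3⟩ := hT.hw.seq
  obtain ⟨C, hC0, hCη, hCx, hCy⟩ := TF_bdd hη
  have hζb : ∀ z, |1 - η z| ≤ 1 + C := fun z =>
    (abs_sub _ _).trans (by rw [abs_one]; linarith [hCη z])
  have hζm : AEStronglyMeasurable (fun z => 1 - η z) (volume : Measure ℂ) :=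
    (continuous_const.sub hη.cont).aestronglyMeasurable
  have hI := ind_memLp hU hUf
  -- the limits
  have L0 : L2T (fun n z => (1 - η z) * u n z) (fun z => (1 - η z) * w z) := h1.bmul hζm hζb
  have LA : L2T (fun n z => (1 - η z) * gx (u n) z - gx η z * u n z)
      (fun z => (1 - η z) * wx z - gx η z * w z) :=
    (h2.bmul hζm hζb).sub (h1.bmul hη.gx_cont.aestronglyMeasurable hCx)
  have LB : L2T (fun n z => (1 - η z) * gy (u n) z - gy η z * u n z)
      (fun z => (1 - η z) * wy z - gy η z * w z) :=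
    (h3.bmul hζm hζb).sub (h1.bmul hη.gy_cont.aestronglyMeasurable hCy)
  have e1 : ∀ n, (∫ z, (1 - η z) * u n z) = ∫ z, ind U z * ((1 - η z) * u n z) := fun n => by
    have : TF U (fun z => (1 - η z) * u n z) := (hu n).mul_smooth (contDiff_const.sub hη.smooth)
    rw [integral_ind_mul_tf this]
  have e2 : ∀ n, En (fun z => (1 - η z) * u n z) (fun z => (1 - η z) * u n z) =
      (∫ z, ((1 - η z) * gx (u n) z - gx η z * u n z) ^ 2) +
      ∫ z, ((1 - η z) * gy (u n) z - gy η z * u n z) ^ 2 := fun n => by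
    rw [En_self, ← integral_add (LA.ma n).integrable_sq (LB.ma n).integrable_sq]
    congr 1; ext z
    have hd : DifferentiableAt ℝ (fun z => 1 - η z) z := (differentiableAt_const _).sub (hη.diff z)
    have g1 : gx (fun z => 1 - η z) z = - gx η z := by
      have := gx_sub (u := fun _ => (1:ℝ)) (v := η) (z := z) (differentiableAt_const _) (hη.diff z)
      rw [this]
      have : gx (fun _ => (1:ℝ)) z = 0 := by unfold gx; simp
      rw [this]; ring
    have g2 : gy (fun z => 1 - η z) z = - gy η z := by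
      have := gy_sub (u := fun _ => (1:ℝ)) (v := η) (z := z) (differentiableAt_const _) (hη.diff z)
      rw [this]
      have : gy (fun _ => (1:ℝ)) z = 0 := by unfold gy; simp
      rw [this]; ring
    rw [gx_mul hd ((hu n).diff z), gy_mul hd ((hu n).diff z), g1, g2]
    ring
  have key : 2 * (∫ z, ind U z * ((1 - η z) * w z)) -
      ((∫ z, ((1 - η z) * wx z - gx η z * w z) ^ 2) + ∫ z, ((1 - η z) * wy z - gy η z * w z) ^ 2) ≤ tor V := by
    have t1 := (((L2T.const hI).mul L0).const_mul 2).sub (LA.sq.add LB.sq)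
    refine le_of_tendsto t1 (Eventually.of_forall fun n => ?_)
    have := hV _ (hζ _ (hu n))
    rw [e1, e2] at this
    exact this
  -- the two identities
  have hwe := hT.we.ind
  have E1 := hwe.hw hT.hw.mp hT.hw.mq hI hT.hw
  have hθ : TF univ (fun z => 2 * η z - η z * η z) :=
    (hη.smul 2).sub (hη.mul_smooth hη.smooth)
  have E2 := hwe.hw hT.hw.mp hT.hw.mq hI (hT.hw.mul_tf hθ)
  have gθx : ∀ z, gx (fun z => 2 * η z - η z * η z) z = 2 * (1 - η z) * gx η z := fun z => by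
    rw [gx_sub ((hη.smul 2).diff z) ((hη.mul_smooth hη.smooth).diff z), gx_smul 2 (hη.diff z),
      gx_mul (hη.diff z) (hη.diff z)]
    ring
  have gθy : ∀ z, gy (fun z => 2 * η z - η z * η z) z = 2 * (1 - η z) * gy η z := fun z => by
    rw [gy_sub ((hη.smul 2).diff z) ((hη.mul_smooth hη.smooth).diff z), gy_smul 2 (hη.diff z),
      gy_mul (hη.diff z) (hη.diff z)]
    ring
  have E1' : ∫ z, ind U z * w z = tor U := by
    rw [← E1, ← hT.en]; congr 1; ext z; ring
  have mgx : MemLp (fun z => gx η z * w z) 2 (volume : Measure ℂ) :=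
    (h1.bmul hη.gx_cont.aestronglyMeasurable hCx).mf
  have mgy : MemLp (fun z => gy η z * w z) 2 (volume : Measure ℂ) :=
    (h1.bmul hη.gy_cont.aestronglyMeasurable hCy).mf
  have iW : Integrable (fun z => (gx η z * w z) ^ 2 + (gy η z * w z) ^ 2) := mgx.integrable_sq.add mgy.integrable_sq
  have iG : Integrable (fun z => wx z ^ 2 + wy z ^ 2) := hT.hw.mp.integrable_sq.add hT.hw.mq.integrable_sq
  have hM2 := hT.hw.mul_tf hθ
  have iE2 : Integrable (fun z => wx z * ((2 * η z - η z * η z) * wx z + gx (fun z => 2 * η z - η z * η z) z * w z) +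
      wy z * ((2 * η z - η z * η z) * wy z + gy (fun z => 2 * η z - η z * η z) z * w z)) :=
    (hT.hw.mp.integrable_mul hM2.mp).add (hT.hw.mq.integrable_mul hM2.mq)
  have iGE : Integrable (fun z => (wx z ^ 2 + wy z ^ 2) -
      (wx z * ((2 * η z - η z * η z) * wx z + gx (fun z => 2 * η z - η z * η z) z * w z) +
      wy z * ((2 * η z - η z * η z) * wy z + gy (fun z => 2 * η z - η z * η z) z * w z))) := iG.sub iE2
  have F1 : (∫ z, ((1 - η z) * wx z - gx η z * w z) ^ 2) + (∫ z, ((1 - η z) * wy z - gy η z * w z) ^ 2) =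
      tor U - (∫ z, ind U z * ((2 * η z - η z * η z) * w z)) +
        ∫ z, ((gx η z * w z) ^ 2 + (gy η z * w z) ^ 2) := by
    rw [← E2, ← hT.en, ← integral_sub iG iE2, ← integral_add iGE iW,
      ← integral_add LA.mf.integrable_sq LB.mf.integrable_sq]
    congr 1; ext z
    rw [gθx, gθy]
    ring
  have mη : MemLp (fun z => η z * w z) 2 (volume : Measure ℂ) := (h1.bmul hη.cont.aestronglyMeasurable hCη).mf
  have i1 : Integrable (fun z => ind U z * ((1 - η z) * w z)) := hI.integrable_mul L0.mf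
  have i2 : Integrable (fun z => ind U z * ((2 * η z - η z * η z) * w z)) := hI.integrable_mul hM2.mf
  have i3 : Integrable (fun z => ind U z * w z) := hI.integrable_mul hT.hw.mf
  have i4 : Integrable (fun z => ind U z * (η z ^ 2 * w z)) := by
    have m4 : MemLp (fun z => η z ^ 2 * w z) 2 (volume : Measure ℂ) := by
      refine (h1.bmul (hη.cont.pow 2).aestronglyMeasurable (C := C ^ 2) (fun z => ?_)).mf
      show |η z ^ 2| ≤ C ^ 2
      rw [abs_pow]
      exact pow_le_pow_left₀ (abs_nonneg _) (hCη z) 2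
    exact hI.integrable_mul m4
  have F2 : 2 * (∫ z, ind U z * ((1 - η z) * w z)) + (∫ z, ind U z * ((2 * η z - η z * η z) * w z)) =
      2 * tor U - ∫ z, ind U z * (η z ^ 2 * w z) := by
    rw [← E1', ← integral_const_mul, ← integral_const_mul, ← integral_add (i1.const_mul 2) i2,
      ← integral_sub (i3.const_mul 2) i4]
    congr 1; ext z
    ring
  -- the bounds
  have G1 : ∫ z, ind U z * (η z ^ 2 * w z) ≤ M * ∫ z, η z ^ 2 := by
    rw [← integral_const_mul]
    apply integral_mono_ae i4 (hη.sq_int.const_mul M)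
    filter_upwards [hw, hT.nn] with z a b
    show ind U z * (η z ^ 2 * w z) ≤ M * η z ^ 2
    by_cases h0 : η z = 0
    · rw [h0]; simp
    · have h4 := a (Or.inl h0)
      have h5 : 0 ≤ η z ^ 2 * w z := mul_nonneg (sq_nonneg _) b
      calc ind U z * (η z ^ 2 * w z) ≤ 1 * (η z ^ 2 * w z) := mul_le_mul_of_nonneg_right (ind_le_one U z) h5
        _ = η z ^ 2 * w z := one_mul _
        _ ≤ η z ^ 2 * M := mul_le_mul_of_nonneg_left h4 (sq_nonneg _)
        _ = M * η z ^ 2 := mul_comm _ _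
  have G2 : ∫ z, ((gx η z * w z) ^ 2 + (gy η z * w z) ^ 2) ≤ M ^ 2 * En η η := by
    rw [En_self, ← integral_const_mul]
    apply integral_mono_ae iW (hη.ensq_int.const_mul _)
    filter_upwards [hw, hT.nn] with z a b
    show (gx η z * w z) ^ 2 + (gy η z * w z) ^ 2 ≤ M ^ 2 * (gx η z ^ 2 + gy η z ^ 2)
    by_cases h0 : gx η z ≠ 0 ∨ gy η z ≠ 0
    · have h4 := a (Or.inr h0)
      have h5 : w z ^ 2 ≤ M ^ 2 := pow_le_pow_left₀ b h4 2
      calc (gx η z * w z) ^ 2 + (gy η z * w z) ^ 2 = w z ^ 2 * (gx η z ^ 2 + gy η z ^ 2) := by ring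
        _ ≤ M ^ 2 * (gx η z ^ 2 + gy η z ^ 2) := mul_le_mul_of_nonneg_right h5 (by positivity)
    · push Not at h0
      rw [h0.1, h0.2]; simp
  rw [F1] at key
  linarith

/-- the support of the truncated logarithm -/
theorem supp_PP {δ R : ℝ} (hδ : 0 < δ) (hδR : δ ≤ R) (x : ℂ) (c : ℝ) {z : ℂ}
    (hz : c * PP δ R (qq x z) ≠ 0 ∨ gx (fun z => c * PP δ R (qq x z)) z ≠ 0 ∨
      gy (fun z => c * PP δ R (qq x z)) z ≠ 0) : z ∈ closedBall x R := by
  have hT : TF (closedBall x R) (fun z => c * PP δ R (qq x z)) :=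
    (PP_tf hδ hδR x (Subset.refl _)).smul c
  by_contra hcon
  have h1 : z ∉ tsupport (fun z => c * PP δ R (qq x z)) := fun h => hcon (hT.supp h)
  rcases hz with h | h | h
  · exact h (image_eq_zero_of_notMem_tsupport (f := fun z => c * PP δ R (qq x z)) h1)
  · exact h (TF.gx_zero h1)
  · exact h (TF.gy_zero h1)

/-- cutting off near the hole -/
theorem cut_tf {U : Set ℂ} {η : ℂ → ℝ} (hη : TF univ η) {x : ℂ} {δ : ℝ} (hδ : 0 < δ)
    (h1 : ∀ z ∈ closedBall x (2 * δ), η z = 1) {v : ℂ → ℝ} (hv : TF U v) :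
    TF (U \ closedBall x δ) (fun z => (1 - η z) * v z) := by
  have h : TF U (fun z => (1 - η z) * v z) := hv.mul_smooth (contDiff_const.sub hη.smooth)
  refine ⟨h.smooth, h.comp, fun z hz => ⟨h.supp hz, fun hzb => ?_⟩⟩
  revert hz
  show z ∉ tsupport _
  rw [notMem_tsupport_iff_eventuallyEq]
  have hz2 : z ∈ ball x (2 * δ) := by
    rw [mem_closedBall] at hzb; rw [mem_ball]; linarith
  filter_upwards [isOpen_ball.mem_nhds hz2] with y hy
  rw [h1 y (ball_subset_closedBall hy)]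
  simp

end PunTX

open PunTX in
theorem punT (hPP : S_PPF) (hPOL : S_POL) : S_PUNT := by
  intro U w wx wy hA hT x R M hR hM ε hε
  obtain ⟨hUo, hUne, hUf⟩ := hA
  have hSS : 0 < SS 1 := by
    have h1 := hPP.m0_pos
    rw [hPP.m0_eq] at h1
    exact (mul_pos_iff_of_pos_left Real.pi_pos).1 h1
  have hM0 : 0 ≤ M := by
    have h1 : ∀ᵐ z, z ∈ ball x R → (0 ≤ w z ∧ w z ≤ M) := by
      filter_upwards [hM, hT.nn] with z a b hz
      exact ⟨b, a hz⟩
    obtain ⟨z, _, h2, h3⟩ := ball_not_null x hR h1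
    exact h2.trans h3
  obtain ⟨C, hC0, hC⟩ := hPP.sq
  have harU : 0 < ar U := (hPOL U ⟨hUo, hUne, hUf⟩).2.2.2.1
  set R' : ℝ := min (R / 2) (1 / 2) with hR'
  have hR'0 : 0 < R' := by positivity
  have hR'1 : R' ≤ 1 / 2 := min_le_right _ _
  have hR'R : R' < R := lt_of_le_of_lt (min_le_left _ _) (by linarith)
  set c : ℝ := Real.log (4 / R') with hc
  have hc0 : 0 ≤ c := Real.log_nonneg (by rw [le_div_iff₀ hR'0]; linarith)
  set A : ℝ := M * (C * R' ^ 2) / (2 * SS 1) ^ 2 with hA'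
  have hA0 : 0 ≤ A := by positivity
  set K : ℝ := max 1 ((A + c * A + 2 * Real.pi * M ^ 2 * c) / (2 * Real.pi * ε)) with hK
  have hK1 : 1 ≤ K := le_max_left _ _
  set δ₁ : ℝ := √(ar U / Real.pi) with hδ₁
  have hδ₁0 : 0 < δ₁ := by positivity
  refine ⟨min (R' / 4 * Real.exp (-K)) δ₁, by positivity, ?_⟩
  intro δ hδ hδ'
  have hδa : δ < R' / 4 * Real.exp (-K) := lt_of_lt_of_le hδ' (min_le_left _ _)
  have hδb : δ < δ₁ := lt_of_lt_of_le hδ' (min_le_right _ _)
  set ℓ : ℝ := Real.log (R' / (4 * δ)) with hℓ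
  have hℓK : K < ℓ := by
    rw [hℓ, Real.lt_log_iff_exp_lt (by positivity), lt_div_iff₀ (by positivity)]
    have h1 : Real.exp K * Real.exp (-K) = 1 := by rw [← Real.exp_add]; simp
    have h2 := mul_lt_mul_of_pos_left hδa (Real.exp_pos K)
    nlinarith
  have hℓ1 : 1 < ℓ := lt_of_le_of_lt hK1 hℓK
  have hℓ0 : 0 < ℓ := by linarith
  have h4δ : 4 * δ ≤ R' := by
    by_contra hcon
    push Not at hcon
    have : ℓ ≤ 0 := by
      rw [hℓ]; apply Real.log_nonpos (by positivity)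
      rw [div_le_one (by positivity)]; exact hcon.le
    linarith
  have h4δ0 : 0 < 4 * δ := by linarith
  have hL : Real.log (1 / δ) = ℓ + c := by
    rw [hℓ, hc, ← Real.log_mul (by positivity) (by positivity)]
    congr 1; field_simp
  set P0 : ℝ := PP (4 * δ) R' 0 with hP0
  have hP0e : P0 = 2 * SS 1 * ℓ := hPP.top _ _ h4δ0 h4δ
  have hP00 : 0 < P0 := by rw [hP0e]; positivity
  set η : ℂ → ℝ := fun z => P0⁻¹ * PP (4 * δ) R' (qq x z) with hη
  have hPPt : TF univ (fun z => PP (4 * δ) R' (qq x z)) := PP_tf h4δ0 h4δ x (subset_univ _)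
  have hηt : TF univ η := hPPt.smul _
  have hη1 : ∀ z ∈ closedBall x (2 * δ), η z = 1 := by
    intro z hz
    rw [mem_closedBall, dist_eq_norm] at hz
    have h1 : PP (4 * δ) R' (qq x z) = P0 := by
      apply hPP.flat _ _ _ h4δ0 h4δ
      · rw [qq_eq]; positivity
      · rw [qq_eq]
        have := pow_le_pow_left₀ (norm_nonneg _) hz 2
        nlinarith
    show P0⁻¹ * PP (4 * δ) R' (qq x z) = 1
    rw [h1, inv_mul_cancel₀ hP00.ne']
  -- the perforated set is admissible
  have hV : Adm (U \ closedBall x δ) := by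
    refine ⟨hUo.sdiff isClosed_closedBall, ?_, ?_⟩
    · by_contra hne
      rw [Set.not_nonempty_iff_eq_empty, Set.sdiff_eq_empty] at hne
      have h1 : volume U ≤ volume (closedBall x δ) := measure_mono hne
      rw [Complex.volume_closedBall] at h1
      have h2 : ar U ≤ δ ^ 2 * Real.pi := by
        unfold ar
        have h3 := ENNReal.toReal_mono (by
          exact ENNReal.mul_ne_top (by simp) (by simp)) h1
        rw [ENNReal.toReal_mul, ENNReal.toReal_pow, ENNReal.toReal_ofReal hδ.le] at h3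
        simpa using h3
      have h3 : δ ^ 2 < δ₁ ^ 2 := pow_lt_pow_left₀ hδb hδ.le (by norm_num)
      rw [hδ₁, Real.sq_sqrt (by positivity), lt_div_iff₀ Real.pi_pos] at h3
      linarith
    · exact ne_top_of_le_ne_top hUf (measure_mono Set.sdiff_subset)
  have hVp := (hPOL _ hV).2.2.2.2.2.2.1
  have hcore := core hUo hUf hT hVp hηt (fun v hv => cut_tf hηt hδ hη1 hv) (M := M) (by
    filter_upwards [hM] with z hz h0
    apply hz
    have h1 := supp_PP h4δ0 h4δ x P0⁻¹ h0
    rw [mem_closedBall] at h1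
    rw [mem_ball]
    linarith)
  have hsq : ∫ z, η z ^ 2 ≤ C * R' ^ 2 / P0 ^ 2 := by
    have e1 : (fun z => η z ^ 2) = fun z => (P0⁻¹) ^ 2 * PP (4 * δ) R' (qq x z) ^ 2 := by
      ext z; rw [hη]; ring
    rw [e1, integral_const_mul, inv_pow, div_eq_inv_mul]
    exact mul_le_mul_of_nonneg_left (hC _ _ x h4δ0 h4δ) (by positivity)
  have hen : En η η ≤ 2 * Real.pi / ℓ := by
    have e1 : En η η = (P0⁻¹) ^ 2 * En (fun z => PP (4 * δ) R' (qq x z)) (fun z => PP (4 * δ) R' (qq x z)) := by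
      rw [hη, En_smul_left _ hPPt, En_comm, En_smul_left _ hPPt]; ring
    have h1 := hPP.en _ _ x h4δ0 h4δ
    rw [e1]
    calc (P0⁻¹) ^ 2 * En (fun z => PP (4 * δ) R' (qq x z)) (fun z => PP (4 * δ) R' (qq x z))
        ≤ (P0⁻¹) ^ 2 * (4 * m0 * P0) := mul_le_mul_of_nonneg_left h1 (by positivity)
      _ = 2 * Real.pi / ℓ := by
        rw [hPP.m0_eq, hP0e]; field_simp; ring
  -- conclusion
  have h1 : M * (∫ z, η z ^ 2) + M ^ 2 * En η η ≤ A / ℓ ^ 2 + M ^ 2 * (2 * Real.pi / ℓ) := by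
    have h2 : M * (∫ z, η z ^ 2) ≤ M * (C * R' ^ 2 / P0 ^ 2) := mul_le_mul_of_nonneg_left hsq hM0
    have h3 : M ^ 2 * En η η ≤ M ^ 2 * (2 * Real.pi / ℓ) := mul_le_mul_of_nonneg_left hen (sq_nonneg _)
    have h4 : M * (C * R' ^ 2 / P0 ^ 2) = A / ℓ ^ 2 := by
      rw [hA', hP0e]; field_simp
    linarith
  have h2 : A / ℓ ^ 2 + M ^ 2 * (2 * Real.pi / ℓ) ≤ 2 * Real.pi / Real.log (1 / δ) * (M ^ 2 + ε) := by
    rw [hL, div_mul_eq_mul_div, le_div_iff₀ (by positivity)]
    have h3 : (A + c * A + 2 * Real.pi * M ^ 2 * c) / (2 * Real.pi * ε) < ℓ := lt_of_le_of_lt (le_max_right _ _) hℓK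
    rw [div_lt_iff₀ (by positivity)] at h3
    have h4 : (A / ℓ ^ 2 + M ^ 2 * (2 * Real.pi / ℓ)) * (ℓ + c) =
        A / ℓ + c * A / ℓ ^ 2 + 2 * Real.pi * M ^ 2 + 2 * Real.pi * M ^ 2 * c / ℓ := by
      field_simp
      ring
    rw [h4]
    have h5 : c * A / ℓ ^ 2 ≤ c * A / ℓ := by
      apply div_le_div_of_nonneg_left (by positivity) hℓ0
      nlinarith
    have h6 : A / ℓ + c * A / ℓ + 2 * Real.pi * M ^ 2 * c / ℓ ≤ 2 * Real.pi * ε := by
      rw [← add_div, ← add_div, div_le_iff₀ hℓ0]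
      nlinarith
    nlinarith
  linarith

end Pool.Agent.TH316.FQ
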