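import Pool.Agent.TH316.FQ.Stm
import Pool.Agent.Helper533.StarBox.Cut

set_option autoImplicit false

/-! Rellich compactness on open sets of finite area (helper55, job FQ-REL). -/

open MeasureTheory Metric Set Filter
open scoped Topology

namespace Pool.Agent.TH316.FQ

open Pool.Agent.Helper533.StarBox

namespace RelX

/-- the part of finite measure set far away is small -/
theorem tail (U : Set ℂ) (hU : IsOpen U) (hv : volume U ≠ ⊤) (η : ℝ) (hη : 0 < η) :
    ∃ R : ℝ, 1 ≤ R ∧ ar (U \ closedBall 0 R) ≤ η := by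
  have h1 : Tendsto (fun n : ℕ => volume (U \ closedBall (0 : ℂ) n)) atTop
      (𝓝 (volume (⋂ n : ℕ, U \ closedBall (0 : ℂ) n))) := by
    apply tendsto_measure_iInter_atTop
    · intro n
      exact (hU.measurableSet.diff measurableSet_closedBall).nullMeasurableSet
    · intro m n hmn
      exact sdiff_subset_sdiff_right (closedBall_subset_closedBall (by exact_mod_cast hmn))
    · exact ⟨0, ne_top_of_le_ne_top hv (measure_mono sdiff_subset)⟩
  have h2 : (⋂ n : ℕ, U \ closedBall (0 : ℂ) n) = ∅ := by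
    rw [eq_empty_iff_forall_notMem]
    intro z hz
    rw [mem_iInter] at hz
    obtain ⟨n, hn⟩ := exists_nat_ge ‖z‖
    exact (hz n).2 (by rw [mem_closedBall, dist_zero_right]; exact hn)
  rw [h2, measure_empty] at h1
  have h3 : ∀ᶠ n : ℕ in atTop, volume (U \ closedBall (0 : ℂ) n) < ENNReal.ofReal η :=
    h1.eventually_lt_const (by simpa using hη)
  obtain ⟨n, hn1, hn2⟩ := (h3.and (eventually_ge_atTop 1)).exists
  refine ⟨n, by exact_mod_cast hn2, ?_⟩
  unfold ar
  exact ENNReal.toReal_le_of_le_ofReal hη.le hn1.le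

theorem eta_nonneg (R : ℝ) (w : ℂ) : 0 ≤ eta 0 R w := mul_nonneg (ch_nonneg _) (ch_nonneg _)

theorem eta_le_one (R : ℝ) (w : ℂ) : eta 0 R w ≤ 1 :=
  mul_le_one₀ (ch_le_one _) (ch_nonneg _) (ch_le_one _)

theorem mul_smooth' {U V : Set ℂ} {u χ : ℂ → ℝ} (hu : TF U u) (hχ : TF V χ) :
    TF (U ∩ V) (fun z => χ z * u z) := by
  have h := hu.mul_smooth hχ.smooth
  refine ⟨h.smooth, h.comp, ?_⟩
  apply subset_inter h.supp
  exact (tsupport_sub_of_zero (fun z h => by simp [h])).trans hχ.supp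

/-- the energy of the truncated function -/
theorem en_cut {U : Set ℂ} {u : ℂ → ℝ} (hu : TF U u) {R : ℝ} (hR : 1 ≤ R) :
    En (fun z => eta 0 R z * u z) (fun z => eta 0 R z * u z) ≤ 2 * En u u + 16 * Cs ^ 2 * Ip u u := by
  have he := eta_tf 0 (show 0 < R by linarith)
  have h := hu.mul_smooth he.smooth
  rw [En_self, En_self, Ip_self, ← integral_const_mul, ← integral_const_mul,
    ← integral_add (hu.ensq_int.const_mul _) (hu.sq_int.const_mul _)]
  apply integral_mono h.ensq_int ((hu.ensq_int.const_mul _).add (hu.sq_int.const_mul _))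
  intro z
  show gx (fun z => eta 0 R z * u z) z ^ 2 + gy (fun z => eta 0 R z * u z) z ^ 2 ≤
    2 * (gx u z ^ 2 + gy u z ^ 2) + 16 * Cs ^ 2 * u z ^ 2
  rw [gx_mul (he.diff z) (hu.diff z), gy_mul (he.diff z) (hu.diff z)]
  have h1 := gd_eta_le 0 (show 0 < R by linarith) z
  unfold gd at h1
  have h2 : 8 * Cs ^ 2 / R ^ 2 ≤ 8 * Cs ^ 2 := by
    apply div_le_self (by positivity)
    nlinarith
  have h0 := eta_nonneg R z
  have h01 := eta_le_one R z
  set f := eta 0 R z
  set p := gx u z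
  set q := gy u z
  set s := gx (eta 0 R) z
  set t := gy (eta 0 R) z
  have f1 : f ^ 2 ≤ 1 := pow_le_one₀ h0 h01
  have g1 : (f * p + u z * s) ^ 2 ≤ 2 * (f ^ 2 * p ^ 2) + 2 * (u z ^ 2 * s ^ 2) := by
    nlinarith [sq_nonneg (f * p - u z * s)]
  have g2 : (f * q + u z * t) ^ 2 ≤ 2 * (f ^ 2 * q ^ 2) + 2 * (u z ^ 2 * t ^ 2) := by
    nlinarith [sq_nonneg (f * q - u z * t)]
  have g3 : f ^ 2 * p ^ 2 ≤ 1 * p ^ 2 := mul_le_mul_of_nonneg_right f1 (sq_nonneg _)
  have g4 : f ^ 2 * q ^ 2 ≤ 1 * q ^ 2 := mul_le_mul_of_nonneg_right f1 (sq_nonneg _)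
  have g5 : u z ^ 2 * (s ^ 2 + t ^ 2) ≤ u z ^ 2 * (8 * Cs ^ 2) :=
    mul_le_mul_of_nonneg_left (h1.trans h2) (sq_nonneg _)
  nlinarith

theorem cut_supp (R : ℝ) (hR : 1 ≤ R) : OS 0 (3 * R) ⊆ ball (0 : ℂ) (6 * R) := by
  intro w hw
  obtain ⟨h1, h2⟩ := hw
  simp only [Complex.zero_re, Complex.zero_im, sub_zero] at h1 h2
  rw [mem_ball, dist_zero_right]
  have := Complex.norm_le_abs_re_add_abs_im w
  linarith

theorem far_tf {U : Set ℂ} {u : ℂ → ℝ} (hu : TF U u) {R : ℝ} (hR : 0 < R) :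
    TF (U \ closedBall 0 (R / 2)) (fun z => u z - eta 0 R z * u z) := by
  have he := eta_tf 0 hR
  have h := hu.sub (hu.mul_smooth he.smooth)
  refine ⟨h.smooth, h.comp, ?_⟩
  intro z hz
  refine ⟨h.supp hz, ?_⟩
  intro hz2
  have hsub : tsupport (fun z => u z - eta 0 R z * u z) ⊆ (ball (0 : ℂ) R)ᶜ := by
    apply closure_minimal _ isOpen_ball.isClosed_compl
    intro y hy hy2
    apply hy
    have hy3 : y ∈ SQ 0 R := by
      rw [mem_SQ]
      rw [mem_ball, dist_zero_right] at hy2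
      have h1 := abs_lt.1 (lt_of_le_of_lt (Complex.abs_re_le_norm y) hy2)
      have h2 := abs_lt.1 (lt_of_le_of_lt (Complex.abs_im_le_norm y) hy2)
      simp only [Complex.zero_re, Complex.zero_im]
      exact ⟨⟨by linarith, by linarith⟩, by linarith, by linarith⟩
    show u y - eta 0 R y * u y = 0
    rw [(eta_in hR hy3).1]
    ring
  have h1 := hsub hz
  apply h1
  rw [mem_closedBall, dist_zero_right] at hz2
  rw [mem_ball, dist_zero_right]
  linarith

/-- test functions in `U` with bounded energy -/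
def bset (U : Set ℂ) (M : ℝ) : Set L2 := {F | ∃ u, TF U u ∧ En u u ≤ M ∧ F = cls u}

theorem tb (hFK : S_FK) (U : Set ℂ) (hU : IsOpen U) (hv : volume U ≠ ⊤) (M : ℝ) (hM : 0 ≤ M) :
    TotallyBounded (bset U M) := by
  rw [Metric.totallyBounded_iff]
  intro ε hε
  have ha : 0 ≤ ar U := ENNReal.toReal_nonneg
  set P := ar U / 2 * M with hP
  have hP0 : 0 ≤ P := by positivity
  set M' := 2 * M + 16 * Cs ^ 2 * P with hM'
  have hM'0 : 0 ≤ M' := by positivity
  obtain ⟨r, hr1, hr2⟩ := tail U hU hv (ε ^ 2 / (16 * (M + M' + 1))) (by positivity)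
  have hR : (1 : ℝ) ≤ 2 * r := by linarith
  have hB := totallyBounded_bddSet (6 * (2 * r)) M' (by linarith)
  rw [Metric.totallyBounded_iff] at hB
  obtain ⟨t, ht, htB⟩ := hB (ε / 2) (by positivity)
  refine ⟨t, ht, ?_⟩
  rintro F ⟨u, hu, hE, rfl⟩
  have hIp : Ip u u ≤ P := by
    have := hFK U u hU hv hu
    have h2 : ar U * En u u ≤ ar U * M := mul_le_mul_of_nonneg_left hE ha
    rw [hP]
    linarith
  have he := eta_tf 0 (show 0 < 2 * r by linarith)
  have hv1 : TF (ball 0 (6 * (2 * r))) (fun z => eta 0 (2 * r) z * u z) :=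
    (mul_smooth' hu he).mono (inter_subset_right.trans (cut_supp _ hR))
  have hE1 : En (fun z => eta 0 (2 * r) z * u z) (fun z => eta 0 (2 * r) z * u z) ≤ M' := by
    refine (en_cut hu hR).trans ?_
    have : 16 * Cs ^ 2 * Ip u u ≤ 16 * Cs ^ 2 * P := mul_le_mul_of_nonneg_left hIp (by positivity)
    rw [hM']
    linarith
  have hv2 := far_tf hu (show 0 < 2 * r by linarith)
  rw [show 2 * r / 2 = r by ring] at hv2
  have hE2 := En_sub_le hu hv1
  have hI2 := hFK _ _ (hU.sdiff isClosed_closedBall)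
    (ne_top_of_le_ne_top hv (measure_mono sdiff_subset)) hv2
  have hI3 : Ip (fun z => u z - eta 0 (2 * r) z * u z) (fun z => u z - eta 0 (2 * r) z * u z) ≤
      ε ^ 2 / 16 := by
    have h1 : ar (U \ closedBall 0 r) * En (fun z => u z - eta 0 (2 * r) z * u z)
        (fun z => u z - eta 0 (2 * r) z * u z) ≤
        ε ^ 2 / (16 * (M + M' + 1)) * (2 * (M + M' + 1)) := by
      apply mul_le_mul hr2 (by linarith) (En_nonneg _) (by positivity)
    have h2 : ε ^ 2 / (16 * (M + M' + 1)) * (2 * (M + M' + 1)) = 2 * (ε ^ 2 / 16) := by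
      field_simp
    linarith
  have hd : dist (cls u) (cls fun z => eta 0 (2 * r) z * u z) < ε / 2 := by
    rw [dist_eq_norm, ← cls_sub hu.memLp hv1.memLp]
    rw [← norm_cls_sq hv2] at hI3
    apply lt_of_pow_lt_pow_left₀ 2 (by positivity)
    have : 0 < ε ^ 2 := by positivity
    linarith
  have hmem : cls (fun z => eta 0 (2 * r) z * u z) ∈ bddSet (6 * (2 * r)) M' :=
    ⟨_, hv1, hE1, rfl⟩
  obtain ⟨y, hy, hy2⟩ := mem_iUnion₂.1 (htB hmem)
  refine mem_iUnion₂.2 ⟨y, hy, ?_⟩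
  rw [mem_ball] at hy2 ⊢
  have := dist_triangle (cls u) (cls fun z => eta 0 (2 * r) z * u z) y
  linarith

end RelX

theorem rel (hFK : S_FK) : S_REL := by
  intro U M u hU hv hu hE
  have hM : 0 ≤ M := (En_nonneg (u 0)).trans (hE 0)
  have hc : IsCompact (closure (RelX.bset U M)) :=
    (RelX.tb hFK U hU hv M hM).closure.isCompact_of_isClosed isClosed_closure
  obtain ⟨F, _, φ, hφ, hF⟩ := hc.tendsto_subseq (x := fun n => cls (u n))
    (fun n => subset_closure ⟨u n, hu n, hE n, rfl⟩)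
  exact ⟨φ, hφ, F, hF⟩

end Pool.Agent.TH316.FQ
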