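import Pool.Agent.TH316.FQ.Stm
import Pool.Agent.Helper533.StarBox.Scale

set_option autoImplicit false

open MeasureTheory Metric Set Filter
open scoped Topology Pointwise

namespace Pool.Agent.TH316.FQ.ScaX

open Pool.Agent.Helper533.StarBox

theorem test_dil {U : Set ℂ} {u : ℂ → ℝ} (h : IsTest U u) {c : ℝ} (hc : 0 < c) :
    IsTest {z | c • z ∈ U} (fun z => u (c • z)) := by
  have h1 := dil_tf h.tf hc.ne'
  refine ⟨h1.smooth, h1.comp, h1.supp, ?_⟩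
  obtain ⟨z, hz⟩ := h.2.2.2
  refine ⟨c⁻¹ • z, ?_⟩
  simpa [smul_smul, hc.ne'] using hz

theorem set_back (U : Set ℂ) {c : ℝ} (hc : 0 < c) : {z : ℂ | c⁻¹ • z ∈ {z | c • z ∈ U}} = U := by
  ext z
  simp only [mem_setOf_eq]
  rw [smul_inv_smul₀ hc.ne']

theorem fun_back (v : ℂ → ℝ) {c : ℝ} (hc : 0 < c) :
    (fun z => (fun y => v (c⁻¹ • y)) (c • z)) = v := by
  funext z
  simp only
  rw [inv_smul_smul₀ hc.ne']

theorem int_dil (u : ℂ → ℝ) {c : ℝ} (hc : 0 < c) :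
    ∫ z, u (c • z) = (c ^ 2)⁻¹ * ∫ z, u z := by
  have := Measure.integral_comp_smul (volume : Measure ℂ) u c
  rw [Complex.finrank_real_complex, abs_of_nonneg (by positivity), smul_eq_mul] at this
  exact this

theorem tor_set (U : Set ℂ) {c : ℝ} (hc : 0 < c) :
    {r : ℝ | ∃ u : ℂ → ℝ, IsTest {z | c • z ∈ U} u ∧ r = (∫ z, u z) ^ 2 / En u u} =
      (c ^ 4)⁻¹ • {r : ℝ | ∃ u : ℂ → ℝ, IsTest U u ∧ r = (∫ z, u z) ^ 2 / En u u} := by
  have key : ∀ u, IsTest U u → (∫ z, u (c • z)) ^ 2 / En (fun z => u (c • z)) (fun z => u (c • z)) =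
      (c ^ 4)⁻¹ * ((∫ z, u z) ^ 2 / En u u) := by
    intro u hu
    rw [int_dil u hc, dil_En hu.tf hc]
    field_simp
  ext r
  rw [mem_smul_set]
  constructor
  · rintro ⟨v, hv, rfl⟩
    have h1 := test_dil hv (inv_pos.2 hc)
    rw [set_back U hc] at h1
    refine ⟨_, ⟨_, h1, rfl⟩, ?_⟩
    rw [smul_eq_mul, ← key _ h1]
    simp_rw [inv_smul_smul₀ hc.ne']
  · rintro ⟨_, ⟨u, hu, rfl⟩, rfl⟩
    exact ⟨_, test_dil hu hc, by rw [smul_eq_mul, key u hu]⟩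

theorem lam_set (U : Set ℂ) {c : ℝ} (hc : 0 < c) :
    {r : ℝ | ∃ u : ℂ → ℝ, IsTest {z | c • z ∈ U} u ∧ r = rayleigh u} =
      (c ^ 2) • {r : ℝ | ∃ u : ℂ → ℝ, IsTest U u ∧ r = rayleigh u} := by
  have key : ∀ u, IsTest U u → rayleigh (fun z => u (c • z)) = c ^ 2 * rayleigh u := by
    intro u hu
    rw [rayleigh_eq, rayleigh_eq, dil_Ip u hc, dil_En hu.tf hc]
    have := (Ip_pos hu).ne'
    field_simp
  ext r
  rw [mem_smul_set]
  constructor
  · rintro ⟨v, hv, rfl⟩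
    have h1 := test_dil hv (inv_pos.2 hc)
    rw [set_back U hc] at h1
    refine ⟨_, ⟨_, h1, rfl⟩, ?_⟩
    rw [smul_eq_mul, ← key _ h1]
    simp_rw [inv_smul_smul₀ hc.ne']
  · rintro ⟨_, ⟨u, hu, rfl⟩, rfl⟩
    exact ⟨_, test_dil hu hc, by rw [smul_eq_mul, key u hu]⟩

theorem vol (U : Set ℂ) {c : ℝ} (hc : 0 < c) :
    volume {z : ℂ | c • z ∈ U} = ENNReal.ofReal (c ^ 2)⁻¹ * volume U := by
  have h1 := Measure.addHaar_preimage_smul (volume : Measure ℂ) hc.ne' U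
  have e : (fun x : ℂ => c • x) ⁻¹' U = {z : ℂ | c • z ∈ U} := rfl
  rw [e, Complex.finrank_real_complex, abs_of_nonneg (by positivity)] at h1
  exact h1

end Pool.Agent.TH316.FQ.ScaX

namespace Pool.Agent.TH316.FQ

open Pool.Agent.Helper533.StarBox ScaX

/-- dilations -/
theorem sca : S_SCA := by
  intro U c hU hc
  obtain ⟨h1, ⟨z, hz⟩, h3⟩ := hU
  refine ⟨⟨h1.preimage (continuous_const_smul c), ⟨c⁻¹ • z, ?_⟩, ?_⟩, ?_, ?_, ?_⟩
  · show c • c⁻¹ • z ∈ U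
    rwa [smul_inv_smul₀ hc.ne']
  · rw [vol U hc]
    exact ENNReal.mul_ne_top ENNReal.ofReal_ne_top h3
  · unfold lambda1
    rw [lam_set U hc, Real.sInf_smul_of_nonneg (by positivity), smul_eq_mul]
  · unfold tor
    rw [tor_set U hc, Real.sSup_smul_of_nonneg (by positivity), smul_eq_mul]
    field_simp
  · unfold ar
    rw [vol U hc, ENNReal.toReal_mul, ENNReal.toReal_ofReal (by positivity)]
    field_simp

end Pool.Agent.TH316.FQ
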