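import Pool.Agent.TH316.FQ.Stm

set_option autoImplicit false

/-! Selection of scales. -/

open MeasureTheory Metric Set Filter
open scoped Topology

namespace Pool.Agent.TH316.FQ

/-- upper bound for the decrease over `n` steps starting at `a` -/
theorem Sel_up (s : ℕ → ℝ) (hc : ∀ k, s (k + 1) - s (k + 2) ≤ s k - s (k + 1)) (a n : ℕ) :
    s a - s (a + n) ≤ n * (s a - s (a + 1)) := by
  have hanti : ∀ m, s (a + m) - s (a + m + 1) ≤ s a - s (a + 1) := by
    intro m
    induction m with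
    | zero => simp
    | succ m ih =>
      have := hc (a + m)
      have e1 : a + (m + 1) = a + m + 1 := by ring
      rw [e1]
      linarith
  induction n with
  | zero => simp
  | succ n ih =>
    have := hanti n
    have e1 : a + (n + 1) = a + n + 1 := by ring
    rw [e1]
    push_cast
    linarith

/-- lower bound for the decrease over the first `n` steps -/
theorem Sel_lo (s : ℕ → ℝ) (hc : ∀ k, s (k + 1) - s (k + 2) ≤ s k - s (k + 1)) (n : ℕ) :
    n * (s n - s (n + 1)) ≤ s 0 - s n := by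
  induction n with
  | zero => simp
  | succ n ih =>
    have h := hc n
    push_cast
    have hn : (0 : ℝ) ≤ n := Nat.cast_nonneg n
    nlinarith [mul_le_mul_of_nonneg_left h hn]

theorem sel : S_SEL := by
  intro s K hK hd hc hlim h0 hKK
  have hKr : (10 : ℝ) ≤ K := by exact_mod_cast hK
  have hKpos : (0 : ℝ) < K := by linarith
  have hmono : Antitone s := antitone_nat_of_succ_le hd
  -- differences
  have hdK : s K - s (K + 1) ≤ 0.03 / K := by
    have h1 := Sel_lo s hc K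
    rw [le_div_iff₀ hKpos]
    linarith
  have hdanti : ∀ a m, s (a + m) - s (a + m + 1) ≤ s a - s (a + 1) := by
    intro a m
    induction m with
    | zero => simp
    | succ m ih =>
      have := hc (a + m)
      have e1 : a + (m + 1) = a + m + 1 := by ring
      rw [e1]
      linarith
  have hdm : ∀ m, K ≤ m → s m - s (m + 1) ≤ 0.03 / K := by
    intro m hm
    obtain ⟨r, rfl⟩ := Nat.exists_eq_add_of_le hm
    exact le_trans (hdanti K r) hdK
  -- first index
  have hex : ∃ k, s k ≤ 0.9 := by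
    have := hlim.eventually (Iic_mem_nhds (show (0 : ℝ) < 0.9 by norm_num))
    obtain ⟨k, hk⟩ := this.exists
    exact ⟨k, hk⟩
  classical
  obtain ⟨k₁, hk1, hmin⟩ : ∃ k₁, s k₁ ≤ 0.9 ∧ ∀ m < k₁, ¬ s m ≤ 0.9 :=
    ⟨Nat.find hex, Nat.find_spec hex, fun m hm => Nat.find_min hex hm⟩
  have hKk : K < k₁ := by
    by_contra hcon
    push Not at hcon
    have := hmono hcon
    linarith
  have h4K : 4 * K ≤ k₁ := by
    obtain ⟨n, rfl⟩ := Nat.exists_eq_add_of_le hKk.le
    have h1 := Sel_up s hc K n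
    have h2 : (n : ℝ) * (s K - s (K + 1)) ≤ n * (0.03 / K) :=
      mul_le_mul_of_nonneg_left hdK (Nat.cast_nonneg n)
    have h3 : (0.09 : ℝ) ≤ n * (0.03 / K) := by linarith
    have h4 : (n : ℝ) * (0.03 / K) = n * 0.03 / K := by ring
    rw [h4, le_div_iff₀ hKpos] at h3
    have h5 : (3 : ℝ) * K ≤ n := by linarith
    have h6 : 3 * K ≤ n := by exact_mod_cast h5
    omega
  have h4Kr : (4 : ℝ) * K ≤ k₁ := by exact_mod_cast h4K
  have hk1r : (40 : ℝ) ≤ k₁ := by linarith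
  have hk1pos : (0 : ℝ) < k₁ := by linarith
  -- value at k₁
  have hval : (0.897 : ℝ) ≤ s k₁ := by
    obtain ⟨m, hm⟩ : ∃ m, k₁ = m + 1 := ⟨k₁ - 1, by omega⟩
    have h1 : ¬ s m ≤ 0.9 := hmin m (by omega)
    have h2 : s m - s (m + 1) ≤ 0.03 / K := hdm m (by omega)
    have h3 : (0.03 : ℝ) / K ≤ 0.003 := by
      rw [div_le_iff₀ hKpos]; linarith
    push Not at h1
    rw [hm]
    linarith
  refine ⟨k₁, ⌈6.25 * (k₁ : ℝ)⌉₊, h4K, hk1, ?_, ?_, ?_, ?_⟩
  · intro j hj
    obtain ⟨a, ha⟩ : ∃ a, k₁ = a + j := ⟨k₁ - j, by omega⟩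
    have haK : K ≤ a := by omega
    have e1 : k₁ - j = a := by omega
    rw [e1, ha]
    have h1 := Sel_up s hc a j
    have h2 : (j : ℝ) * (s a - s (a + 1)) ≤ j * (0.03 / K) :=
      mul_le_mul_of_nonneg_left (hdm a haK) (Nat.cast_nonneg j)
    linarith
  · set ℓ := ⌈6.25 * (k₁ : ℝ)⌉₊ with hℓ
    have hℓ1 : (ℓ : ℝ) ≤ 6.25 * k₁ + 1 := by
      exact (Nat.ceil_lt_add_one (a := 6.25 * (k₁ : ℝ)) (by positivity)).le
    have h1 := Sel_up s hc k₁ ℓ
    have h2 := Sel_lo s hc k₁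
    have h3 : s k₁ - s (k₁ + 1) ≤ 0.123 / k₁ := by
      rw [le_div_iff₀ hk1pos]; linarith
    have h4 : (ℓ : ℝ) * (s k₁ - s (k₁ + 1)) ≤ (6.25 * k₁ + 1) * (0.123 / k₁) := by
      apply mul_le_mul hℓ1 h3
      · linarith [hd k₁]
      · positivity
    have h5 : (6.25 * (k₁ : ℝ) + 1) * (0.123 / k₁) = 6.25 * 0.123 + 0.123 / k₁ := by
      field_simp
    have h6 : (0.123 : ℝ) / k₁ ≤ 0.0031 := by
      rw [div_le_iff₀ hk1pos]; linarith
    linarith
  · have := Nat.le_ceil (6.25 * (k₁ : ℝ))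
    linarith
  · have h1 := Nat.le_ceil (6.25 * (k₁ : ℝ))
    have h2 : (25 : ℝ) * K ≤ (⌈6.25 * (k₁ : ℝ)⌉₊ : ℝ) := by linarith
    exact_mod_cast h2

end Pool.Agent.TH316.FQ
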