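import Pool.Agent.TH316.FQ.Stm
import Pool.Agent.TH316.FQ.Bas

set_option autoImplicit false

/-! First variation of `F_q` at a maximiser. -/

open MeasureTheory Metric Set Filter
open scoped Topology

namespace Pool.Agent.TH316.FQ

open Pool.Agent.Helper533.StarBox

namespace StaX

/-- the quadratic form of the gradient -/
noncomputable def MM (a b f g : ℂ → ℝ) : ℝ :=
  ∫ z, ((gx a z - gy b z) * (f z ^ 2 - g z ^ 2) + 2 * (gy a z + gx b z) * (f z * g z))

/-- the quadratic form of the function -/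
noncomputable def NN (a b f : ℂ → ℝ) : ℝ := ∫ z, f z ^ 2 * (gx a z + gy b z)

/-- the linear form -/
noncomputable def Sc (a b f : ℂ → ℝ) : ℝ := ∫ z, f z * (gx a z + gy b z)

/-- transport estimates -/
structure Tr (a b : ℂ → ℝ) (C t : ℝ) (φ ψ : ℂ → ℝ) : Prop where
  i : |(∫ z, φ z) - (∫ z, ψ z) - t * Sc a b ψ| ≤ C * t ^ 2 * ∫ z, |ψ z|
  p : |Ip φ φ - Ip ψ ψ - t * NN a b ψ| ≤ C * t ^ 2 * Ip ψ ψ
  e : |En φ φ - En ψ ψ + t * MM a b (gx ψ) (gy ψ)| ≤ C * t ^ 2 * En ψ ψ

variable {a b : ℂ → ℝ}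

theorem exists_bd (ha : TF univ a) (hb : TF univ b) : ∃ B : ℝ, 0 ≤ B ∧
    (∀ z, |gx a z - gy b z| ≤ B) ∧ (∀ z, |gy a z + gx b z| ≤ B) ∧ (∀ z, |gx a z + gy b z| ≤ B) := by
  obtain ⟨A, hA, _, h1, h2⟩ := TF_bdd ha
  obtain ⟨B, hB, _, h3, h4⟩ := TF_bdd hb
  refine ⟨A + B, by linarith, fun z => ?_, fun z => ?_, fun z => ?_⟩
  · exact (abs_sub _ _).trans (add_le_add (h1 z) (h4 z))
  · exact (abs_add_le _ _).trans (add_le_add (h2 z) (h3 z))
  · exact (abs_add_le _ _).trans (add_le_add (h1 z) (h4 z))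

section int

variable (ha : TF univ a) (hb : TF univ b)
include ha hb

theorem c1 : Continuous fun z => gx a z - gy b z := ha.gx_cont.sub hb.gy_cont
theorem c2 : Continuous fun z => gy a z + gx b z := ha.gy_cont.add hb.gx_cont
theorem c3 : Continuous fun z => gx a z + gy b z := ha.gx_cont.add hb.gy_cont

theorem dv_tf : TF univ fun z => gx a z + gy b z := ha.gx_tf.add hb.gy_tf

theorem int_p1 {f g : ℂ → ℝ} (hf : MemLp f 2 (volume : Measure ℂ))
    (hg : MemLp g 2 (volume : Measure ℂ)) :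
    Integrable fun z => (gx a z - gy b z) * (f z * g z) := by
  obtain ⟨B, _, h, _, _⟩ := exists_bd ha hb
  exact (hf.integrable_mul hg).bdd_mul (c1 ha hb).aestronglyMeasurable
    (Eventually.of_forall fun z => h z)

theorem int_p2 {f g : ℂ → ℝ} (hf : MemLp f 2 (volume : Measure ℂ))
    (hg : MemLp g 2 (volume : Measure ℂ)) :
    Integrable fun z => (gy a z + gx b z) * (f z * g z) := by
  obtain ⟨B, _, _, h, _⟩ := exists_bd ha hb
  exact (hf.integrable_mul hg).bdd_mul (c2 ha hb).aestronglyMeasurable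
    (Eventually.of_forall fun z => h z)

theorem int_p3 {f g : ℂ → ℝ} (hf : MemLp f 2 (volume : Measure ℂ))
    (hg : MemLp g 2 (volume : Measure ℂ)) :
    Integrable fun z => (gx a z + gy b z) * (f z * g z) := by
  obtain ⟨B, _, _, _, h⟩ := exists_bd ha hb
  exact (hf.integrable_mul hg).bdd_mul (c3 ha hb).aestronglyMeasurable
    (Eventually.of_forall fun z => h z)

theorem int_MM {f g : ℂ → ℝ} (hf : MemLp f 2 (volume : Measure ℂ))
    (hg : MemLp g 2 (volume : Measure ℂ)) :
    Integrable fun z => (gx a z - gy b z) * (f z ^ 2 - g z ^ 2) +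
      2 * (gy a z + gx b z) * (f z * g z) := by
  have h1 := ((int_p1 ha hb hf hf).sub (int_p1 ha hb hg hg)).add
    ((int_p2 ha hb hf hg).const_mul 2)
  refine h1.congr (Eventually.of_forall fun z => ?_)
  simp only [Pi.add_apply, Pi.sub_apply]
  ring

theorem int_NN {f : ℂ → ℝ} (hf : MemLp f 2 (volume : Measure ℂ)) :
    Integrable fun z => f z ^ 2 * (gx a z + gy b z) := by
  refine (int_p3 ha hb hf hf).congr (Eventually.of_forall fun z => ?_)
  simp only
  ring

theorem int_Sc {f : ℂ → ℝ} (hf : MemLp f 2 (volume : Measure ℂ)) :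
    Integrable fun z => f z * (gx a z + gy b z) :=
  hf.integrable_mul (dv_tf ha hb).memLp

theorem MM_lim {f g : ℕ → ℂ → ℝ} {F G : ℂ → ℝ} (hf : L2T f F) (hg : L2T g G) :
    Tendsto (fun n => MM a b (f n) (g n)) atTop (𝓝 (MM a b F G)) := by
  obtain ⟨B, _, h1, h2, _⟩ := exists_bd ha hb
  have k1 := (hf.bmul (c1 ha hb).aestronglyMeasurable h1).mul hf
  have k2 := (hg.bmul (c1 ha hb).aestronglyMeasurable h1).mul hg
  have k3 := (hf.bmul (c2 ha hb).aestronglyMeasurable h2).mul hg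
  have key : ∀ {p q : ℂ → ℝ}, MemLp p 2 (volume : Measure ℂ) → MemLp q 2 (volume : Measure ℂ) →
      MM a b p q = (∫ z, (gx a z - gy b z) * p z * p z) - (∫ z, (gx a z - gy b z) * q z * q z) +
        2 * ∫ z, (gy a z + gx b z) * p z * q z := by
    intro p q hp hq
    have i1 : Integrable fun z => (gx a z - gy b z) * p z * p z :=
      (int_p1 ha hb hp hp).congr (Eventually.of_forall fun z => by simp only; ring)
    have i2 : Integrable fun z => (gx a z - gy b z) * q z * q z :=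
      (int_p1 ha hb hq hq).congr (Eventually.of_forall fun z => by simp only; ring)
    have i3 : Integrable fun z => (gy a z + gx b z) * p z * q z :=
      (int_p2 ha hb hp hq).congr (Eventually.of_forall fun z => by simp only; ring)
    have i12 : Integrable fun z => (gx a z - gy b z) * p z * p z -
      (gx a z - gy b z) * q z * q z := i1.sub i2
    rw [← integral_const_mul, ← integral_sub i1 i2, ← integral_add i12 (i3.const_mul 2)]
    unfold MM
    congr 1; ext z; ring
  rw [key hf.mf hg.mf]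
  exact ((k1.sub k2).add (k3.const_mul 2)).congr fun n => (key (hf.ma n) (hg.ma n)).symm

theorem NN_lim {f : ℕ → ℂ → ℝ} {F : ℂ → ℝ} (hf : L2T f F) :
    Tendsto (fun n => NN a b (f n)) atTop (𝓝 (NN a b F)) := by
  obtain ⟨B, _, _, _, h3⟩ := exists_bd ha hb
  have k1 := (hf.bmul (c3 ha hb).aestronglyMeasurable h3).mul hf
  have key : ∀ p : ℂ → ℝ, NN a b p = ∫ z, (gx a z + gy b z) * p z * p z := by
    intro p; unfold NN; congr 1; ext z; ring
  rw [key]
  exact k1.congr fun n => (key _).symm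

theorem Sc_lim {f : ℕ → ℂ → ℝ} {F : ℂ → ℝ} (hf : L2T f F) :
    Tendsto (fun n => Sc a b (f n)) atTop (𝓝 (Sc a b F)) :=
  hf.mul (L2T.const (dv_tf ha hb).memLp)

theorem NN_le {B : ℝ} (h3 : ∀ z, |gx a z + gy b z| ≤ B) {U : Set ℂ} {ψ : ℂ → ℝ} (hψ : TF U ψ) :
    |NN a b ψ| ≤ B * Ip ψ ψ := by
  unfold NN
  rw [Ip_self, ← integral_const_mul]
  refine abs_integral_le_integral_abs.trans (integral_mono (int_NN ha hb hψ.memLp).abs
    (hψ.sq_int.const_mul B) fun z => ?_)
  simp only
  rw [abs_mul, abs_of_nonneg (sq_nonneg (ψ z)), mul_comm]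
  exact mul_le_mul_of_nonneg_right (h3 z) (sq_nonneg _)

theorem MM_le {B : ℝ} (h1 : ∀ z, |gx a z - gy b z| ≤ B) (h2 : ∀ z, |gy a z + gx b z| ≤ B)
    {U : Set ℂ} {ψ : ℂ → ℝ} (hψ : TF U ψ) :
    |MM a b (gx ψ) (gy ψ)| ≤ 2 * B * En ψ ψ := by
  have hB : 0 ≤ B := (abs_nonneg _).trans (h1 0)
  unfold MM
  rw [En_self, ← integral_const_mul]
  refine abs_integral_le_integral_abs.trans (integral_mono
    (int_MM ha hb hψ.gx_tf.memLp hψ.gy_tf.memLp).abs (hψ.ensq_int.const_mul (2 * B)) fun z => ?_)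
  simp only
  set p := gx ψ z
  set q := gy ψ z
  refine (abs_add_le _ _).trans ?_
  have e1 : |(gx a z - gy b z) * (p ^ 2 - q ^ 2)| ≤ B * (p ^ 2 + q ^ 2) := by
    rw [abs_mul]
    refine mul_le_mul (h1 z) ?_ (abs_nonneg _) hB
    rw [abs_le]; constructor <;> nlinarith [sq_nonneg p, sq_nonneg q]
  have e2 : |2 * (gy a z + gx b z) * (p * q)| ≤ B * (p ^ 2 + q ^ 2) := by
    have : 2 * (gy a z + gx b z) * (p * q) = (gy a z + gx b z) * (2 * (p * q)) := by ring
    rw [this, abs_mul]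
    refine mul_le_mul (h2 z) ?_ (abs_nonneg _) hB
    rw [abs_le]; constructor <;> nlinarith [sq_nonneg (p - q), sq_nonneg (p + q)]
  linarith

end int

/-- functions of `H¹₀` vanish outside -/
theorem zero_out {U : Set ℂ} (hU : IsOpen U) {f p q : ℂ → ℝ} (h : HW U f p q) :
    (fun z => ind U z * f z) =ᵐ[volume] f := by
  obtain ⟨u, hu, h1, _, _⟩ := h.seq
  have hm : AEStronglyMeasurable (fun z => 1 - ind U z) (volume : Measure ℂ) :=
    aestronglyMeasurable_const.sub
      ((measurable_const.indicator hU.measurableSet).aestronglyMeasurable)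
  have hbd : ∀ z, |1 - ind U z| ≤ 1 := fun z => by
    have := ind_nonneg U z
    have := ind_le_one U z
    rw [abs_le]; constructor <;> linarith
  have h2 := h1.bmul hm hbd
  have h3 : ∀ n z, (1 - ind U z) * u n z = 0 := by
    intro n z
    by_cases hz : z ∈ U
    · rw [ind_of_mem hz]; ring
    · have : u n z = 0 := image_eq_zero_of_notMem_tsupport fun h => hz ((hu n).supp h)
      rw [this, mul_zero]
  have h4 := h2.tt
  simp only [h3, zero_sub, neg_sq] at h4
  have h5 : ∫ z, ((1 - ind U z) * f z) ^ 2 = 0 := tendsto_nhds_unique tendsto_const_nhds h4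
  have h6 : (fun z => ((1 - ind U z) * f z) ^ 2) =ᵐ[volume] 0 :=
    (integral_eq_zero_iff_of_nonneg (fun z => sq_nonneg _) h2.mf.integrable_sq).1 h5
  filter_upwards [h6] with z hz
  have h7 : ((1 - ind U z) * f z) = 0 := by simpa using hz
  linarith

/-- difference quotients of the logarithm -/
theorem log_lim {x l : ℝ} (hx : 0 < x) {xs ts : ℕ → ℝ} (ht : ∀ n, 0 < ts n)
    (ht0 : Tendsto ts atTop (𝓝 0)) (h : Tendsto (fun n => (xs n - x) / ts n) atTop (𝓝 l)) :
    Tendsto (fun n => (Real.log (xs n) - Real.log x) / ts n) atTop (𝓝 (l / x)) := by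
  have hxs : Tendsto xs atTop (𝓝 x) := by
    have h1 := (h.mul ht0).add_const x
    rw [mul_zero, zero_add] at h1
    refine h1.congr fun n => ?_
    have := (ht n).ne'
    field_simp
    ring
  have hd : ContinuousAt (dslope Real.log x) x :=
    continuousAt_dslope_same.2 (Real.differentiableAt_log hx.ne')
  have h2 := hd.tendsto.comp hxs
  rw [dslope_same, Real.deriv_log] at h2
  have h3 := h.mul h2
  rw [← div_eq_mul_inv] at h3
  refine h3.congr fun n => ?_
  have h4 := sub_smul_dslope Real.log x (xs n)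
  rw [smul_eq_mul] at h4
  simp only [Function.comp]
  rw [← h4]
  ring

theorem En_lim {f : ℕ → ℂ → ℝ} {p q : ℂ → ℝ} (h2 : L2T (fun n => gx (f n)) p)
    (h3 : L2T (fun n => gy (f n)) q) :
    Tendsto (fun n => En (f n) (f n)) atTop (𝓝 (∫ z, (p z ^ 2 + q z ^ 2))) := by
  have h := h2.sq.add h3.sq
  rw [← integral_add h2.mf.integrable_sq h3.mf.integrable_sq] at h
  refine h.congr fun n => ?_
  rw [En_self]
  exact (integral_add (h2.ma n).integrable_sq (h3.ma n).integrable_sq).symm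

theorem Ip_lim {f : ℕ → ℂ → ℝ} {F : ℂ → ℝ} (h : L2T f F) :
    Tendsto (fun n => Ip (f n) (f n)) atTop (𝓝 (∫ z, F z ^ 2)) := by
  refine h.sq.congr fun n => ?_
  rw [Ip_self]

/-- lower bound of the torsional rigidity -/
theorem tor_low (hPOL : S_POL) (ha : TF univ a) (hb : TF univ b) {U V : Set ℂ} (hV : Adm V)
    (hU : Adm U) {w wx wy : ℂ → ℝ} (hT : Tors U w wx wy) {C t : ℝ}
    (htr : ∀ ψ, TF U ψ → ∃ φ, TF V φ ∧ Tr a b C t φ ψ) :
    tor U + t * (MM a b wx wy + 2 * Sc a b w) -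
      C * t ^ 2 * (2 * (∫ z, ind U z * |w z|) + tor U) ≤ tor V := by
  obtain ⟨v, hv, h1, h2, h3⟩ := hT.hw.seq
  have hind := ind_memLp hU.1 hU.2.2
  have lim1 : Tendsto (fun n => ∫ z, v n z) atTop (𝓝 (tor U)) := by
    have h := (L2T.const hind).mul h1
    have e : ∫ z, ind U z * w z = tor U := by
      rw [← hT.it]
      exact integral_congr_ae (zero_out hU.1 hT.hw)
    rw [e] at h
    exact h.congr fun n => integral_ind_mul_tf (hv n)
  have lim2 : Tendsto (fun n => En (v n) (v n)) atTop (𝓝 (tor U)) := by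
    have := En_lim h2 h3
    rwa [hT.en] at this
  have lim3 := MM_lim ha hb h2 h3
  have lim4 := Sc_lim ha hb h1
  have lim5 : Tendsto (fun n => ∫ z, |v n z|) atTop (𝓝 (∫ z, ind U z * |w z|)) := by
    have h := (L2T.const hind).mul (h1.comp_lip (β := fun x => |x|) (C := 1)
      (fun s t => by rw [one_mul]; exact abs_abs_sub_abs_le_abs_sub s t) abs_zero)
    refine h.congr fun n => ?_
    congr 1; ext z
    by_cases hz : z ∈ U
    · rw [ind_of_mem hz, one_mul]
    · have : v n z = 0 := image_eq_zero_of_notMem_tsupport fun h => hz ((hv n).supp h)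
      rw [this, abs_zero, mul_zero]
  have key : ∀ n, (2 * (∫ z, v n z) - En (v n) (v n)) +
      t * (MM a b (gx (v n)) (gy (v n)) + 2 * Sc a b (v n)) -
      C * t ^ 2 * (2 * (∫ z, |v n z|) + En (v n) (v n)) ≤ tor V := by
    intro n
    obtain ⟨φ, hφ, tr⟩ := htr _ (hv n)
    have k1 := (hPOL V hV).2.2.2.2.2.2.1 φ hφ
    have k2 := abs_le.1 tr.i
    have k3 := abs_le.1 tr.e
    linarith [k2.1, k3.2]
  have lim : Tendsto (fun n => (2 * (∫ z, v n z) - En (v n) (v n)) +
      t * (MM a b (gx (v n)) (gy (v n)) + 2 * Sc a b (v n)) -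
      C * t ^ 2 * (2 * (∫ z, |v n z|) + En (v n) (v n))) atTop
      (𝓝 ((2 * tor U - tor U) + t * (MM a b wx wy + 2 * Sc a b w) -
      C * t ^ 2 * (2 * (∫ z, ind U z * |w z|) + tor U))) :=
    (((lim1.const_mul 2).sub lim2).add ((lim3.add (lim4.const_mul 2)).const_mul t)).sub
      (((lim5.const_mul 2).add lim2).const_mul (C * t ^ 2))
  have := le_of_tendsto' lim key
  linarith

/-- upper bound of the first eigenvalue -/
theorem lam_up (ha : TF univ a) (hb : TF univ b) {U V : Set ℂ} {u ux uy : ℂ → ℝ}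
    (hE : Eig U u ux uy) {C t : ℝ} (htr : ∀ ψ, TF U ψ → ∃ φ, TF V φ ∧ Tr a b C t φ ψ) :
    lambda1 V * (1 + t * NN a b u - C * t ^ 2) ≤
      lambda1 U - t * MM a b ux uy + C * t ^ 2 * lambda1 U := by
  obtain ⟨v, hv, h1, h2, h3⟩ := hE.hw.seq
  have lim1 : Tendsto (fun n => Ip (v n) (v n)) atTop (𝓝 1) := by
    have := Ip_lim h1
    rwa [hE.no] at this
  have lim2 : Tendsto (fun n => En (v n) (v n)) atTop (𝓝 (lambda1 U)) := by
    have := En_lim h2 h3
    rwa [hE.en] at this
  have lim3 := MM_lim ha hb h2 h3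
  have lim4 := NN_lim ha hb h1
  have key : ∀ n, lambda1 V * (Ip (v n) (v n) + t * NN a b (v n) - C * t ^ 2 * Ip (v n) (v n)) ≤
      En (v n) (v n) - t * MM a b (gx (v n)) (gy (v n)) + C * t ^ 2 * En (v n) (v n) := by
    intro n
    obtain ⟨φ, hφ, tr⟩ := htr _ (hv n)
    have k1 := lambda1_mul_le hφ
    have k2 := abs_le.1 tr.p
    have k3 := abs_le.1 tr.e
    have k4 : lambda1 V * (Ip (v n) (v n) + t * NN a b (v n) - C * t ^ 2 * Ip (v n) (v n)) ≤
        lambda1 V * Ip φ φ := mul_le_mul_of_nonneg_left (by linarith [k2.1]) (lambda1_nonneg V)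
    linarith [k3.2]
  have l1 : Tendsto (fun n => lambda1 V * (Ip (v n) (v n) + t * NN a b (v n) -
      C * t ^ 2 * Ip (v n) (v n))) atTop (𝓝 (lambda1 V * (1 + t * NN a b u - C * t ^ 2 * 1))) :=
    ((lim1.add (lim4.const_mul t)).sub (lim1.const_mul (C * t ^ 2))).const_mul _
  have l2 : Tendsto (fun n => En (v n) (v n) - t * MM a b (gx (v n)) (gy (v n)) +
      C * t ^ 2 * En (v n) (v n)) atTop
      (𝓝 (lambda1 U - t * MM a b ux uy + C * t ^ 2 * lambda1 U)) :=
    (lim2.sub (lim3.const_mul t)).add (lim2.const_mul (C * t ^ 2))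
  have := le_of_tendsto_of_tendsto' l1 l2 key
  rwa [mul_one] at this

/-- the lower bound of the first eigenvalue along a sequence -/
theorem lam_seq (ha : TF univ a) (hb : TF univ b) {U : Set ℂ} {u ux uy : ℂ → ℝ}
    (hE : Eig U u ux uy) {C : ℝ} (hC : 0 ≤ C) {V : ℕ → Set ℂ} {t : ℕ → ℝ}
    (ht : ∀ n, 0 < t n) (ht0 : Tendsto t atTop (𝓝 0)) (hV : ∀ n, IsOpen (V n))
    (hVn : ∀ n, (V n).Nonempty)
    (htr : ∀ n ψ, TF U ψ → ∃ φ, TF (V n) φ ∧ Tr a b C (t n) φ ψ)
    (htr' : ∀ n φ, TF (V n) φ → ∃ ψ, TF U ψ ∧ Tr a b C (t n) φ ψ) :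
    ∃ r : ℕ → ℝ, Tendsto r atTop (𝓝 (-(lambda1 U * NN a b u + MM a b ux uy))) ∧
      ∀ n, lambda1 U + t n * r n ≤ lambda1 (V n) := by
  obtain ⟨B, hB, b1, b2, b3⟩ := exists_bd ha hb
  have hnear : ∀ n, ∃ φ, IsTest (V n) φ ∧ Ip φ φ = 1 ∧ En φ φ < lambda1 (V n) + t n ^ 2 :=
    fun n => exists_near (hV n) (hVn n) (pow_pos (ht n) 2)
  choose φ hφ hφ1 hφ2 using hnear
  have hps : ∀ n, ∃ ψ, TF U ψ ∧ Tr a b C (t n) (φ n) ψ := fun n => htr' n _ (hφ n).tf
  choose ψ hψ tr using hps
  have hl0 := lambda1_nonneg U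
  -- notation
  set x : ℕ → ℝ := fun n => Ip (ψ n) (ψ n) with hx
  set y : ℕ → ℝ := fun n => En (ψ n) (ψ n) with hy
  set N : ℕ → ℝ := fun n => NN a b (ψ n) with hN
  set M : ℕ → ℝ := fun n => MM a b (gx (ψ n)) (gy (ψ n)) with hM
  have hx0 : ∀ n, 0 ≤ x n := fun n => Ip_nonneg _
  have hy0 : ∀ n, 0 ≤ y n := fun n => En_nonneg _
  have hNb : ∀ n, |N n| ≤ B * x n := fun n => NN_le ha hb b3 (hψ n)
  have hMb : ∀ n, |M n| ≤ 2 * B * y n := fun n => MM_le ha hb b1 b2 (hψ n)
  have k1 : ∀ n, |1 - x n - t n * N n| ≤ C * t n ^ 2 * x n := fun n => by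
    have := (tr n).p; rwa [hφ1 n] at this
  have k2 : ∀ n, |En (φ n) (φ n) - y n + t n * M n| ≤ C * t n ^ 2 * y n := fun n => (tr n).e
  have k3 : ∀ n, lambda1 U * x n ≤ y n := fun n => lambda1_mul_le (hψ n)
  set δ : ℕ → ℝ := fun n => t n * (2 * B) + C * t n ^ 2 with hδ
  have hδ0 : Tendsto δ atTop (𝓝 0) := by
    have := (ht0.mul_const (2 * B)).add ((ht0.pow 2).const_mul C)
    simpa using this
  have hδn : ∀ n, 0 ≤ δ n := fun n => by
    have := ht n
    simp only [hδ]; positivity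
  have hx1 : ∀ n, x n * (1 - δ n) ≤ 1 ∧ 1 ≤ x n * (1 + δ n) := by
    intro n
    have i1 := abs_le.1 (k1 n)
    have i2 := abs_le.1 (hNb n)
    have i3 := (ht n).le
    have i4 : t n * N n ≤ t n * (B * x n) := mul_le_mul_of_nonneg_left i2.2 i3
    have i5 : -(t n * (B * x n)) ≤ t n * N n := by
      have := mul_le_mul_of_nonneg_left i2.1 i3; linarith
    have i6 : 0 ≤ t n * (B * x n) := mul_nonneg i3 (mul_nonneg hB (hx0 n))
    have e : x n * δ n = 2 * (t n * (B * x n)) + C * t n ^ 2 * x n := by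
      simp only [hδ]; ring
    constructor
    · rw [mul_sub, mul_one, e]; linarith [i1.1]
    · rw [mul_add, mul_one, e]; linarith [i1.2]
  have hy1 : ∀ n, y n * (1 - δ n) ≤ lambda1 (V n) + t n ^ 2 := by
    intro n
    have i1 := abs_le.1 (k2 n)
    have i2 := abs_le.1 (hMb n)
    have i3 := (ht n).le
    have i4 : t n * M n ≤ t n * (2 * B * y n) := mul_le_mul_of_nonneg_left i2.2 i3
    have e : y n * δ n = t n * (2 * B * y n) + C * t n ^ 2 * y n := by
      simp only [hδ]; ring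
    have := hφ2 n
    rw [mul_sub, mul_one, e]; linarith [i1.1]
  have one_d : Tendsto (fun n => 1 - δ n) atTop (𝓝 1) := by simpa using hδ0.const_sub 1
  have one_a : Tendsto (fun n => 1 + δ n) atTop (𝓝 1) := by simpa using hδ0.const_add 1
  have ev1 : ∀ᶠ n in atTop, 0 < 1 - δ n := one_d.eventually (lt_mem_nhds one_pos)
  -- convergence of the norms
  have xlim : Tendsto x atTop (𝓝 1) := by
    have l1 : Tendsto (fun n => 1 / (1 + δ n)) atTop (𝓝 1) := by
      have h := (tendsto_const_nhds (x := (1:ℝ)) (f := atTop)).div one_a one_ne_zero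
      rw [div_one] at h
      exact h
    have l2 : Tendsto (fun n => 1 / (1 - δ n)) atTop (𝓝 1) := by
      have h := (tendsto_const_nhds (x := (1:ℝ)) (f := atTop)).div one_d one_ne_zero
      rw [div_one] at h
      exact h
    refine tendsto_of_tendsto_of_tendsto_of_le_of_le' l1 l2 (Eventually.of_forall fun n => ?_) ?_
    · rw [div_le_iff₀ (by linarith [hδn n])]
      exact (hx1 n).2
    · filter_upwards [ev1] with n hn
      rw [le_div_iff₀ hn]
      exact (hx1 n).1
  -- upper bound of the eigenvalues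
  have dlim : Tendsto (fun n => 1 + t n * NN a b u - C * t n ^ 2) atTop (𝓝 1) := by
    have := (((ht0.mul_const (NN a b u)).const_add 1)).sub ((ht0.pow 2).const_mul C)
    simpa using this
  have nlim : Tendsto (fun n => lambda1 U - t n * MM a b ux uy + C * t n ^ 2 * lambda1 U) atTop
      (𝓝 (lambda1 U)) := by
    have := ((ht0.mul_const (MM a b ux uy)).const_sub (lambda1 U)).add
      (((ht0.pow 2).const_mul C).mul_const (lambda1 U))
    simpa using this
  have ev2 : ∀ᶠ n in atTop, 0 < 1 + t n * NN a b u - C * t n ^ 2 :=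
    dlim.eventually (lt_mem_nhds one_pos)
  have ylim : Tendsto y atTop (𝓝 (lambda1 U)) := by
    have l1 : Tendsto (fun n => lambda1 U * x n) atTop (𝓝 (lambda1 U)) := by
      simpa using xlim.const_mul (lambda1 U)
    have l2 : Tendsto (fun n => ((lambda1 U - t n * MM a b ux uy + C * t n ^ 2 * lambda1 U) /
        (1 + t n * NN a b u - C * t n ^ 2) + t n ^ 2) / (1 - δ n)) atTop (𝓝 (lambda1 U)) := by
      have h := ((nlim.div dlim one_ne_zero).add (ht0.pow 2)).div one_d one_ne_zero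
      have e : (lambda1 U / 1 + 0 ^ 2) / 1 = lambda1 U := by ring
      rw [e] at h
      exact h
    refine tendsto_of_tendsto_of_tendsto_of_le_of_le' l1 l2 (Eventually.of_forall k3) ?_
    filter_upwards [ev1, ev2] with n h1 h2
    rw [le_div_iff₀ h1]
    refine (hy1 n).trans ?_
    have := lam_up ha hb hE (htr n)
    rw [← le_div_iff₀ h2] at this
    linarith
  -- stability
  obtain ⟨σ, hσ, hst⟩ := hE.st ψ hψ xlim ylim
  have hsu : ∀ n, MemLp (fun z => σ n * ψ n z) 2 (volume : Measure ℂ) := fun n =>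
    (hψ n).memLp.const_mul _
  have hsx : ∀ n, MemLp (fun z => σ n * gx (ψ n) z) 2 (volume : Measure ℂ) := fun n =>
    (hψ n).gx_tf.memLp.const_mul _
  have hsy : ∀ n, MemLp (fun z => σ n * gy (ψ n) z) 2 (volume : Measure ℂ) := fun n =>
    (hψ n).gy_tf.memLp.const_mul _
  have i1 : ∀ n, Integrable fun z => (σ n * ψ n z - u z) ^ 2 := fun n =>
    ((hsu n).sub hE.hw.mf).integrable_sq
  have i2 : ∀ n, Integrable fun z => (σ n * gx (ψ n) z - ux z) ^ 2 := fun n =>
    ((hsx n).sub hE.hw.mp).integrable_sq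
  have i3 : ∀ n, Integrable fun z => (σ n * gy (ψ n) z - uy z) ^ 2 := fun n =>
    ((hsy n).sub hE.hw.mq).integrable_sq
  have itot : ∀ n, Integrable fun z => ((σ n * ψ n z - u z) ^ 2 +
      (σ n * gx (ψ n) z - ux z) ^ 2 + (σ n * gy (ψ n) z - uy z) ^ 2) := fun n =>
    ((i1 n).add (i2 n)).add (i3 n)
  have L1 : L2T (fun n z => σ n * ψ n z) u := by
    refine ⟨hsu, hE.hw.mf, ?_⟩
    refine squeeze_zero (fun n => integral_nonneg fun z => sq_nonneg _) (fun n => ?_) hst
    refine integral_mono (i1 n) (itot n) fun z => ?_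
    simp only
    nlinarith [sq_nonneg (σ n * gx (ψ n) z - ux z), sq_nonneg (σ n * gy (ψ n) z - uy z)]
  have L2 : L2T (fun n z => σ n * gx (ψ n) z) ux := by
    refine ⟨hsx, hE.hw.mp, ?_⟩
    refine squeeze_zero (fun n => integral_nonneg fun z => sq_nonneg _) (fun n => ?_) hst
    refine integral_mono (i2 n) (itot n) fun z => ?_
    simp only
    nlinarith [sq_nonneg (σ n * ψ n z - u z), sq_nonneg (σ n * gy (ψ n) z - uy z)]
  have L3 : L2T (fun n z => σ n * gy (ψ n) z) uy := by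
    refine ⟨hsy, hE.hw.mq, ?_⟩
    refine squeeze_zero (fun n => integral_nonneg fun z => sq_nonneg _) (fun n => ?_) hst
    refine integral_mono (i3 n) (itot n) fun z => ?_
    simp only
    nlinarith [sq_nonneg (σ n * ψ n z - u z), sq_nonneg (σ n * gx (ψ n) z - ux z)]
  have hσ2 : ∀ n, σ n * σ n = 1 := fun n => by
    rcases hσ n with h | h <;> rw [h] <;> norm_num
  have Mlim : Tendsto M atTop (𝓝 (MM a b ux uy)) := by
    refine (MM_lim ha hb L2 L3).congr fun n => ?_
    simp only [hM, MM]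
    congr 1; ext z
    have e1 : ∀ p q : ℝ, σ n * p * (σ n * q) = p * q := fun p q => by
      calc σ n * p * (σ n * q) = (σ n * σ n) * (p * q) := by ring
        _ = p * q := by rw [hσ2, one_mul]
    have e2 : ∀ p : ℝ, (σ n * p) ^ 2 = p ^ 2 := fun p => by
      rw [pow_two, e1, pow_two]
    rw [e1, e2, e2]
  have Nlim : Tendsto N atTop (𝓝 (NN a b u)) := by
    refine (NN_lim ha hb L1).congr fun n => ?_
    simp only [hN, NN]
    congr 1; ext z
    have e2 : ∀ p : ℝ, (σ n * p) ^ 2 = p ^ 2 := fun p => by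
      calc (σ n * p) ^ 2 = (σ n * σ n) * p ^ 2 := by ring
        _ = p ^ 2 := by rw [hσ2, one_mul]
    rw [e2]
  refine ⟨fun n => -(lambda1 U * N n + M n) - t n * (1 + C * y n + lambda1 U * C * x n), ?_, ?_⟩
  · have l1 := ((Nlim.const_mul (lambda1 U)).add Mlim).neg
    have l2 : Tendsto (fun n => t n * (1 + C * y n + lambda1 U * C * x n)) atTop
        (𝓝 (0 * (1 + C * lambda1 U + lambda1 U * C * 1))) :=
      ht0.mul (((ylim.const_mul C).const_add 1).add (xlim.const_mul (lambda1 U * C)))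
    have := l1.sub l2
    simpa using this
  · intro n
    have j1 := (abs_le.1 (k1 n))
    have j2 := (abs_le.1 (k2 n))
    have j3 := k3 n
    have j4 := hφ2 n
    have j5 : 1 - t n * N n - C * t n ^ 2 * x n ≤ x n := by linarith [j1.2]
    have j6 := mul_le_mul_of_nonneg_left j5 hl0
    have e : lambda1 U + t n * (-(lambda1 U * N n + M n) -
        t n * (1 + C * y n + lambda1 U * C * x n)) =
        lambda1 U * (1 - t n * N n - C * t n ^ 2 * x n) - t n * M n - C * t n ^ 2 * y n -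
          t n ^ 2 := by ring
    rw [e]
    linarith [j2.1, j2.2]

/-- the main inequality -/
theorem main_ineq (hPOL : S_POL) (hDIF : S_DIF) {q : ℝ} {U : Set ℂ} {w wx wy u ux uy : ℂ → ℝ}
    (hq : 1 < q) (hmax : IsMaxi q U) (hT : Tors U w wx wy) (hE : Eig U u ux uy)
    (ha : TF univ a) (hb : TF univ b) :
    -(lambda1 U * NN a b u + MM a b ux uy) / lambda1 U +
      q * ((MM a b wx wy + 2 * Sc a b w) / tor U) -
      (2 * q - 1) * ((∫ z in U, (gx a z + gy b z)) / ar U) ≤ 0 := by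
  obtain ⟨t₀, ht₀, C, hC, hdif⟩ := hDIF a b ha hb
  obtain ⟨hU, hmx⟩ := hmax
  obtain ⟨_, hlam, htor, har, _⟩ := hPOL U hU
  set t : ℕ → ℝ := fun n => t₀ / ((n : ℝ) + 1) with htdef
  have ht : ∀ n, 0 < t n := fun n => by simp only [htdef]; positivity
  have htle : ∀ n, |t n| ≤ t₀ := fun n => by
    rw [abs_of_pos (ht n)]
    exact div_le_self ht₀.le (by linarith [Nat.cast_nonneg (α := ℝ) n])
  have ht0 : Tendsto t atTop (𝓝 0) := by
    have h := (tendsto_one_div_add_atTop_nhds_zero_nat (𝕜 := ℝ)).const_mul t₀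
    rw [mul_zero] at h
    refine h.congr fun n => ?_
    simp only [htdef]; ring
  have hex : ∀ n, ∃ V : Set ℂ, Adm V ∧
      |ar V - ar U - t n * ∫ z in U, (gx a z + gy b z)| ≤ C * t n ^ 2 * ar U ∧
      (∀ ψ, TF U ψ → ∃ φ, TF V φ ∧ Tr a b C (t n) φ ψ) ∧
      (∀ φ, TF V φ → ∃ ψ, TF U ψ ∧ Tr a b C (t n) φ ψ) := by
    intro n
    obtain ⟨V, h1, h2, h3, h4, h5⟩ := hdif (t n) (htle n) U hU.1 hU.2.2
    obtain ⟨h6, h7⟩ := h5 _ rfl
    refine ⟨V, ⟨h1, h2 hU.2.1, h3⟩, h4, fun ψ hψ => ?_, fun φ hφ => ?_⟩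
    · obtain ⟨φ, hφ, g1, g2, g3⟩ := h6 ψ hψ
      exact ⟨φ, hφ, g1, g2, g3⟩
    · obtain ⟨ψ, hψ, g1, g2, g3⟩ := h7 φ hφ
      exact ⟨ψ, hψ, g1, g2, g3⟩
  choose V hV harV htr htr' using hex
  obtain ⟨r, hr, hlow⟩ := lam_seq ha hb hE hC.le ht ht0 (fun n => (hV n).1)
    (fun n => (hV n).2.1) htr htr'
  set A' := ∫ z in U, (gx a z + gy b z) with hA'
  set T' := MM a b wx wy + 2 * Sc a b w with hT'
  set K' := 2 * (∫ z, ind U z * |w z|) + tor U with hK'
  have hlowT : ∀ n, tor U + t n * T' - C * t n ^ 2 * K' ≤ tor (V n) := fun n =>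
    tor_low hPOL ha hb (hV n) hU hT (htr n)
  -- comparison sequences
  set l : ℕ → ℝ := fun n => lambda1 U + t n * r n with hl
  set τ : ℕ → ℝ := fun n => tor U + t n * T' - C * t n ^ 2 * K' with hτ
  set α : ℕ → ℝ := fun n => ar U + t n * A' + C * t n ^ 2 * ar U with hα
  have sl : Tendsto (fun n => (l n - lambda1 U) / t n) atTop
      (𝓝 (-(lambda1 U * NN a b u + MM a b ux uy))) := by
    refine hr.congr fun n => ?_
    have := (ht n).ne'
    simp only [hl]; field_simp; ring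
  have sτ : Tendsto (fun n => (τ n - tor U) / t n) atTop (𝓝 T') := by
    have h := ((ht0.const_mul (C * K')).const_sub T')
    rw [mul_zero, sub_zero] at h
    refine h.congr fun n => ?_
    have := (ht n).ne'
    simp only [hτ]; field_simp; ring
  have sα : Tendsto (fun n => (α n - ar U) / t n) atTop (𝓝 A') := by
    have h := ((ht0.const_mul (C * ar U)).const_add A')
    rw [mul_zero, add_zero] at h
    refine h.congr fun n => ?_
    have := (ht n).ne'
    simp only [hα]; field_simp; ring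
  have cvl : Tendsto l atTop (𝓝 (lambda1 U)) := by
    have := (ht0.mul hr).const_add (lambda1 U)
    simpa using this
  have cvτ : Tendsto τ atTop (𝓝 (tor U)) := by
    have := ((ht0.mul_const T').const_add (tor U)).sub (((ht0.pow 2).const_mul C).mul_const K')
    simpa using this
  have ll := log_lim hlam ht ht0 sl
  have lτ := log_lim htor ht ht0 sτ
  have lα := log_lim har ht ht0 sα
  have lim := (ll.add (lτ.const_mul q)).sub (lα.const_mul (2 * q - 1))
  refine le_of_tendsto lim ?_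
  filter_upwards [cvl.eventually (lt_mem_nhds hlam), cvτ.eventually (lt_mem_nhds htor)] with n h1 h2
  obtain ⟨_, hlamV, htorV, harV0, _⟩ := hPOL (V n) (hV n)
  have hFU : Real.log (Fc q U) = Real.log (lambda1 U) + q * Real.log (tor U) -
      (2 * q - 1) * Real.log (ar U) := by
    unfold Fc
    rw [Real.log_div (mul_pos hlam (Real.rpow_pos_of_pos htor q)).ne'
      (Real.rpow_pos_of_pos har _).ne', Real.log_mul hlam.ne' (Real.rpow_pos_of_pos htor q).ne',
      Real.log_rpow htor, Real.log_rpow har]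
  have hFV : Real.log (Fc q (V n)) = Real.log (lambda1 (V n)) + q * Real.log (tor (V n)) -
      (2 * q - 1) * Real.log (ar (V n)) := by
    unfold Fc
    rw [Real.log_div (mul_pos hlamV (Real.rpow_pos_of_pos htorV q)).ne'
      (Real.rpow_pos_of_pos harV0 _).ne', Real.log_mul hlamV.ne'
      (Real.rpow_pos_of_pos htorV q).ne', Real.log_rpow htorV, Real.log_rpow harV0]
  have hFpos : 0 < Fc q (V n) := by
    unfold Fc
    exact div_pos (mul_pos hlamV (Real.rpow_pos_of_pos htorV q)) (Real.rpow_pos_of_pos harV0 _)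
  have hlog := Real.log_le_log hFpos (hmx (V n) (hV n))
  rw [hFU, hFV] at hlog
  have j1 : Real.log (l n) ≤ Real.log (lambda1 (V n)) := Real.log_le_log h1 (hlow n)
  have j2 : Real.log (τ n) ≤ Real.log (tor (V n)) := Real.log_le_log h2 (hlowT n)
  have j3 : Real.log (ar (V n)) ≤ Real.log (α n) := by
    apply Real.log_le_log harV0
    have := (abs_le.1 (harV n)).2
    simp only [hα]; linarith
  have j4 : q * Real.log (τ n) ≤ q * Real.log (tor (V n)) :=
    mul_le_mul_of_nonneg_left j2 (by linarith)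
  have j5 : (2 * q - 1) * Real.log (ar (V n)) ≤ (2 * q - 1) * Real.log (α n) :=
    mul_le_mul_of_nonneg_left j3 (by linarith)
  have e : (Real.log (l n) - Real.log (lambda1 U)) / t n +
      q * ((Real.log (τ n) - Real.log (tor U)) / t n) -
      (2 * q - 1) * ((Real.log (α n) - Real.log (ar U)) / t n) =
      ((Real.log (l n) + q * Real.log (τ n) - (2 * q - 1) * Real.log (α n)) -
        (Real.log (lambda1 U) + q * Real.log (tor U) - (2 * q - 1) * Real.log (ar U))) / t n := by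
    ring
  rw [e]
  apply div_nonpos_of_nonpos_of_nonneg _ (ht n).le
  linarith

/-- sign changes of the vector field -/
theorem neg_tf (ha : TF univ a) : TF univ (fun z => (-1) * a z) := ha.smul (-1)

theorem MM_neg (ha : TF univ a) (hb : TF univ b) (f g : ℂ → ℝ) :
    MM (fun z => (-1) * a z) (fun z => (-1) * b z) f g = -MM a b f g := by
  unfold MM
  rw [← integral_neg]
  congr 1; ext z
  rw [gx_smul (-1) (ha.diff z), gy_smul (-1) (ha.diff z), gx_smul (-1) (hb.diff z),
    gy_smul (-1) (hb.diff z)]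
  ring

theorem NN_neg (ha : TF univ a) (hb : TF univ b) (f : ℂ → ℝ) :
    NN (fun z => (-1) * a z) (fun z => (-1) * b z) f = -NN a b f := by
  unfold NN
  rw [← integral_neg]
  congr 1; ext z
  rw [gx_smul (-1) (ha.diff z), gy_smul (-1) (hb.diff z)]
  ring

theorem Sc_neg (ha : TF univ a) (hb : TF univ b) (f : ℂ → ℝ) :
    Sc (fun z => (-1) * a z) (fun z => (-1) * b z) f = -Sc a b f := by
  unfold Sc
  rw [← integral_neg]
  congr 1; ext z
  rw [gx_smul (-1) (ha.diff z), gy_smul (-1) (hb.diff z)]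
  ring

end StaX

open StaX in
theorem sta (hPOL : S_POL) (hDIF : S_DIF) : S_STA := by
  intro q U w wx wy u ux uy hq hmax hT hE c hc hc2 a b ha hb
  have hU := hmax.1
  obtain ⟨_, hlam, htor, har, _⟩ := hPOL U hU
  have h1 := main_ineq hPOL hDIF hq hmax hT hE ha hb
  have h2 := main_ineq hPOL hDIF hq hmax hT hE (neg_tf ha) (neg_tf hb)
  rw [MM_neg ha hb, MM_neg ha hb, NN_neg ha hb, Sc_neg ha hb] at h2
  have e1 : ∫ z in U, (gx (fun z => (-1) * a z) z + gy (fun z => (-1) * b z) z) =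
      -∫ z in U, (gx a z + gy b z) := by
    rw [← integral_neg]
    congr 1; ext z
    rw [gx_smul (-1) (ha.diff z), gy_smul (-1) (hb.diff z)]
    ring
  rw [e1] at h2
  set A' := ∫ z in U, (gx a z + gy b z) with hA'
  have hL : -(lambda1 U * NN a b u + MM a b ux uy) / lambda1 U +
      q * ((MM a b wx wy + 2 * Sc a b w) / tor U) - (2 * q - 1) * (A' / ar U) = 0 := by
    apply le_antisymm h1
    have e2 : -(lambda1 U * -NN a b u + -MM a b ux uy) / lambda1 U +
        q * ((-MM a b wx wy + 2 * -Sc a b w) / tor U) - (2 * q - 1) * (-A' / ar U) =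
        -(-(lambda1 U * NN a b u + MM a b ux uy) / lambda1 U +
        q * ((MM a b wx wy + 2 * Sc a b w) / tor U) - (2 * q - 1) * (A' / ar U)) := by
      ring
    rw [e2] at h2
    linarith
  -- the integral
  have iw := int_MM ha hb hT.hw.mp hT.hw.mq
  have iu := int_MM ha hb hE.hw.mp hE.hw.mq
  have is := int_Sc ha hb hT.hw.mf
  have inn := int_NN ha hb hE.hw.mf
  have ii := int_Sc ha hb (ind_memLp hU.1 hU.2.2)
  have eA : A' = ∫ z, ind U z * (gx a z + gy b z) := by
    rw [hA', integral_ind_mul hU.1]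
  set κ := (2 * q - 1) * tor U / (q * ar U) with hκ
  have hint : ∫ z, (HP wx wy (fun z => c * ux z) (fun z => c * uy z) z * (gx a z - gy b z) +
      HR wx wy (fun z => c * ux z) (fun z => c * uy z) z * (gx b z + gy a z) +
      (2 * w z - lambda1 U * (c * u z) ^ 2 - κ * ind U z) * (gx a z + gy b z)) =
      MM a b wx wy - c ^ 2 * MM a b ux uy + 2 * Sc a b w - lambda1 U * c ^ 2 * NN a b u -
        κ * A' := by
    have j1 : Integrable fun z => ((gx a z - gy b z) * (wx z ^ 2 - wy z ^ 2) +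
        2 * (gy a z + gx b z) * (wx z * wy z)) - c ^ 2 * ((gx a z - gy b z) *
        (ux z ^ 2 - uy z ^ 2) + 2 * (gy a z + gx b z) * (ux z * uy z)) :=
      iw.sub (iu.const_mul (c ^ 2))
    have j2 : Integrable fun z => ((gx a z - gy b z) * (wx z ^ 2 - wy z ^ 2) +
        2 * (gy a z + gx b z) * (wx z * wy z)) - c ^ 2 * ((gx a z - gy b z) *
        (ux z ^ 2 - uy z ^ 2) + 2 * (gy a z + gx b z) * (ux z * uy z)) +
        2 * (w z * (gx a z + gy b z)) := j1.add (is.const_mul 2)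
    have j3 : Integrable fun z => ((gx a z - gy b z) * (wx z ^ 2 - wy z ^ 2) +
        2 * (gy a z + gx b z) * (wx z * wy z)) - c ^ 2 * ((gx a z - gy b z) *
        (ux z ^ 2 - uy z ^ 2) + 2 * (gy a z + gx b z) * (ux z * uy z)) +
        2 * (w z * (gx a z + gy b z)) - lambda1 U * c ^ 2 * (u z ^ 2 * (gx a z + gy b z)) :=
      j2.sub (inn.const_mul _)
    rw [eA]
    unfold MM Sc NN
    rw [← integral_const_mul, ← integral_const_mul, ← integral_const_mul, ← integral_const_mul,
      ← integral_sub iw (iu.const_mul (c ^ 2)), ← integral_add j1 (is.const_mul 2),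
      ← integral_sub j2 (inn.const_mul _), ← integral_sub j3 (ii.const_mul κ)]
    congr 1; ext z
    unfold HP HR
    ring
  rw [hint]
  have hq0 : 0 < q := by linarith
  have e3 : MM a b wx wy - c ^ 2 * MM a b ux uy + 2 * Sc a b w - lambda1 U * c ^ 2 * NN a b u -
        κ * A' = tor U / q * (-(lambda1 U * NN a b u + MM a b ux uy) / lambda1 U +
      q * ((MM a b wx wy + 2 * Sc a b w) / tor U) - (2 * q - 1) * (A' / ar U)) := by
    rw [hc2, hκ]
    field_simp
    ring
  rw [e3, hL, mul_zero]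

end Pool.Agent.TH316.FQ
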