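import Pool.Agent.TH316.FQ.Bas

set_option autoImplicit false

/-! The subsolution property across the boundary. -/

open MeasureTheory Metric Set Filter
open scoped Topology

namespace Pool.Agent.TH316.FQ

open Pool.Agent.Helper533.StarBox

namespace SubsX

/-- the derivative of `bet δ` -/
noncomputable def B (δ s : ℝ) : ℝ := s / √(s ^ 2 + δ ^ 2)

variable {δ : ℝ}

theorem B_smooth (hδ : 0 < δ) : ContDiff ℝ (⊤ : ℕ∞) (B δ) := by
  unfold B
  apply ContDiff.div contDiff_id
  · apply ContDiff.sqrt (by fun_prop)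
    intro t; positivity
  · intro t; positivity

theorem B_zero (δ : ℝ) : B δ 0 = 0 := by simp [B]

theorem B_le (δ s : ℝ) : |B δ s| ≤ 1 := by
  unfold B
  rw [abs_div, abs_of_nonneg (Real.sqrt_nonneg _)]
  apply div_le_one_of_le₀ _ (Real.sqrt_nonneg _)
  apply Real.abs_le_sqrt; nlinarith [sq_nonneg δ]

theorem B_deriv (hδ : 0 < δ) (s : ℝ) : HasDerivAt (B δ) (δ ^ 2 / √(s ^ 2 + δ ^ 2) ^ 3) s := by
  have h1 : HasDerivAt (fun t : ℝ => t ^ 2 + δ ^ 2) (2 * s) s := by
    simpa using ((hasDerivAt_pow 2 s).add_const (δ ^ 2))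
  have h2 := h1.sqrt (by positivity)
  rw [mul_div_mul_left _ _ (two_ne_zero)] at h2
  have hr : 0 < √(s ^ 2 + δ ^ 2) := by positivity
  have h3 := (hasDerivAt_id s).div h2 hr.ne'
  have h4 : (fun t : ℝ => id t / √(t ^ 2 + δ ^ 2)) = B δ := by ext t; rfl
  have h5 : HasDerivAt (B δ) ((1 * √(s ^ 2 + δ ^ 2) - id s * (s / √(s ^ 2 + δ ^ 2))) / √(s ^ 2 + δ ^ 2) ^ 2) s := h3
  convert h5 using 1
  have hsq : √(s ^ 2 + δ ^ 2) ^ 2 = s ^ 2 + δ ^ 2 := Real.sq_sqrt (by positivity)
  rw [div_eq_div_iff (by positivity) (by positivity)]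
  set r := √(s ^ 2 + δ ^ 2)
  field_simp
  simp only [id]
  nlinarith

theorem B_deriv_nonneg (hδ : 0 < δ) (s : ℝ) : 0 ≤ deriv (B δ) s := by
  rw [(B_deriv hδ s).deriv]; positivity

theorem B_deriv_le (hδ : 0 < δ) (s : ℝ) : deriv (B δ) s ≤ 1 / δ := by
  rw [(B_deriv hδ s).deriv]
  have hr : δ ≤ √(s ^ 2 + δ ^ 2) := by
    rw [Real.le_sqrt hδ.le (by positivity)]; nlinarith [sq_nonneg s]
  rw [div_le_div_iff₀ (by positivity) hδ]
  have : δ ^ 3 ≤ √(s ^ 2 + δ ^ 2) ^ 3 := pow_le_pow_left₀ hδ.le hr 3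
  nlinarith

theorem B_lip (hδ : 0 < δ) (s t : ℝ) : |B δ s - B δ t| ≤ 1 / δ * |s - t| := by
  have := Convex.norm_image_sub_le_of_norm_deriv_le (f := B δ) (C := 1 / δ) (s := univ) (x := t) (y := s)
    (fun x _ => (B_deriv hδ x).differentiableAt) (fun x _ => by
      rw [Real.norm_eq_abs, abs_of_nonneg (B_deriv_nonneg hδ x)]; exact B_deriv_le hδ x) convex_univ
    (mem_univ _) (mem_univ _)
  exact this

theorem bet_lip (hδ : 0 < δ) (s t : ℝ) : |bet δ s - bet δ t| ≤ 1 * |s - t| := by
  have := Convex.norm_image_sub_le_of_norm_deriv_le (f := bet δ) (C := 1) (s := univ) (x := t) (y := s)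
    (fun x _ => (bet_deriv hδ x).differentiableAt) (fun x _ => by
      rw [Real.norm_eq_abs, (bet_deriv hδ x).deriv]; exact B_le δ x) convex_univ
    (mem_univ _) (mem_univ _)
  exact this

theorem wd {U : Set ℂ} {f p q : ℂ → ℝ} (h : HW U f p q) {φ : ℂ → ℝ} (hφ : TF univ φ) :
    ∫ z, (p z * gx φ z + q z * gy φ z) = - ∫ z, f z * lap φ z := by
  obtain ⟨u, hu, h1, h2, h3⟩ := h.seq
  have k1 := h2.mul (L2T.const hφ.gx_tf.memLp)
  have k2 := h3.mul (L2T.const hφ.gy_tf.memLp)
  have k3 := (h1.mul (L2T.const hφ.lap_tf.memLp)).neg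
  have k4 := k1.add k2
  have e : ∫ z, (p z * gx φ z + q z * gy φ z) = (∫ z, p z * gx φ z) + ∫ z, q z * gy φ z :=
    integral_add (h.mp.integrable_mul hφ.gx_tf.memLp) (h.mq.integrable_mul hφ.gy_tf.memLp)
  rw [e]
  refine tendsto_nhds_unique k4 (k3.congr fun n => ?_)
  rw [← ibp (hu n) hφ]
  exact integral_add ((h2.ma n).integrable_mul hφ.gx_tf.memLp) ((h3.ma n).integrable_mul hφ.gy_tf.memLp)

end SubsX

open SubsX in
theorem subs : S_SUB := by
  intro U f p q h hU hf hf0 hh hh0 hw φ hφ hφ0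
  obtain ⟨u, hu, h1, h2, h3⟩ := hf.seq
  obtain ⟨K, hK0, hK, hKx, hKy⟩ := TF_bdd hφ
  have hhφ : Integrable (fun z => h z * φ z) := hh.integrable_mul hφ.memLp
  have hlap : Integrable (lap φ) := hφ.lap_tf.cont.integrable_of_hasCompactSupport hφ.lap_tf.comp
  have main : ∀ δ > 0, ∫ z, (p z * gx φ z + q z * gy φ z) ≤ (∫ z, h z * φ z) + δ * ∫ z, |lap φ z| := by
    intro δ hδ
    -- the limits
    have hβ := h1.comp_lip (β := B δ) (B_lip hδ) (B_zero δ)
    have hβx := hβ.bmul hφ.gx_cont.aestronglyMeasurable hKx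
    have hβy := hβ.bmul hφ.gy_cont.aestronglyMeasurable hKy
    -- (B) the inequality in the limit
    have hB : (∫ z, p z * (gx φ z * B δ (f z))) + ∫ z, q z * (gy φ z * B δ (f z)) ≤ ∫ z, h z * φ z := by
      have l1 := (L2T.const hf.mp).mul hβx
      have l2 := (L2T.const hf.mq).mul hβy
      have l3 := (h2.tt.add h3.tt).const_mul (K / (4 * δ))
      have l4 := (l1.add l2).sub l3
      simp only [add_zero, mul_zero, sub_zero] at l4
      refine le_of_tendsto l4 (Eventually.of_forall fun n => ?_)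
      have hun := hu n
      have hd : ∀ z, DifferentiableAt ℝ (B δ) (u n z) := fun z => (B_deriv hδ _).differentiableAt
      have hψ : TF U (fun z => φ z * B δ (u n z)) := (hun.comp_smooth (B_smooth hδ) (B_zero δ)).mul_smooth hφ.smooth
      have hBc : TF U (fun z => B δ (u n z)) := hun.comp_smooth (B_smooth hδ) (B_zero δ)
      have e1 := hw _ hψ
      have egx : ∀ z, gx (fun z => φ z * B δ (u n z)) z =
          gx φ z * B δ (u n z) + φ z * (deriv (B δ) (u n z) * gx (u n) z) := by
        intro z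
        rw [gx_mul (hφ.diff z) (hBc.diff z), gx_comp' (hun.diff z) (hd z)]; ring
      have egy : ∀ z, gy (fun z => φ z * B δ (u n z)) z =
          gy φ z * B δ (u n z) + φ z * (deriv (B δ) (u n z) * gy (u n) z) := by
        intro z
        rw [gy_mul (hφ.diff z) (hBc.diff z), gy_comp' (hun.diff z) (hd z)]; ring
      have i1 : Integrable (fun z => p z * gx (fun z => φ z * B δ (u n z)) z) :=
        hf.mp.integrable_mul hψ.gx_tf.memLp
      have i2 : Integrable (fun z => q z * gy (fun z => φ z * B δ (u n z)) z) :=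
        hf.mq.integrable_mul hψ.gy_tf.memLp
      have i3 : Integrable (fun z => p z * (gx φ z * B δ (u n z))) :=
        hf.mp.integrable_mul (hβx.ma n)
      have i4 : Integrable (fun z => q z * (gy φ z * B δ (u n z))) :=
        hf.mq.integrable_mul (hβy.ma n)
      have i5 := h2.sub_int n
      have i6 := h3.sub_int n
      have hle : ∫ z, h z * (φ z * B δ (u n z)) ≤ ∫ z, h z * φ z := by
        apply integral_mono_ae (hh.integrable_mul hψ.memLp) hhφ
        filter_upwards [hh0] with z hz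
        show h z * (φ z * B δ (u n z)) ≤ h z * φ z
        apply mul_le_mul_of_nonneg_left _ hz
        have := (abs_le.1 (B_le δ (u n z))).2
        nlinarith [hφ0 z]
      rw [← e1] at hle
      refine le_trans ?_ hle
      have e2 : (∫ z, p z * (gx φ z * B δ (u n z))) + (∫ z, q z * (gy φ z * B δ (u n z))) -
          K / (4 * δ) * ((∫ z, (gx (u n) z - p z) ^ 2) + ∫ z, (gy (u n) z - q z) ^ 2) =
          ∫ z, ((p z * (gx φ z * B δ (u n z)) + q z * (gy φ z * B δ (u n z))) -
            K / (4 * δ) * ((gx (u n) z - p z) ^ 2 + (gy (u n) z - q z) ^ 2)) := by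
        have a1 := integral_sub (i3.add i4) ((i5.add i6).const_mul (K / (4 * δ)))
        have a2 := integral_add i3 i4
        have a3 := integral_add i5 i6
        simp only [Pi.add_apply] at a1
        rw [a1, integral_const_mul, a2, a3]
      rw [e2]
      apply integral_mono ((i3.add i4).sub ((i5.add i6).const_mul _)) (i1.add i2)
      intro z
      show (p z * (gx φ z * B δ (u n z)) + q z * (gy φ z * B δ (u n z))) -
            K / (4 * δ) * ((gx (u n) z - p z) ^ 2 + (gy (u n) z - q z) ^ 2) ≤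
        p z * gx (fun z => φ z * B δ (u n z)) z + q z * gy (fun z => φ z * B δ (u n z)) z
      rw [egx, egy]
      have c1 : 0 ≤ φ z * deriv (B δ) (u n z) := mul_nonneg (hφ0 z) (B_deriv_nonneg hδ _)
      have c2 : φ z * deriv (B δ) (u n z) ≤ K * (1 / δ) :=
        mul_le_mul ((le_abs_self _).trans (hK z)) (B_deriv_le hδ _) (B_deriv_nonneg hδ _) hK0
      set c := φ z * deriv (B δ) (u n z) with hc
      set X := gx (u n) z
      set Y := gy (u n) z
      have c3 : 0 ≤ (K * (1 / δ) - c) * ((X - p z) ^ 2 + (Y - q z) ^ 2) :=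
        mul_nonneg (sub_nonneg.2 c2) (by positivity)
      have c4 : 0 ≤ c * ((X - p z + -2 * X) ^ 2 + (Y - q z + -2 * Y) ^ 2) := by positivity
      have c5 : K / (4 * δ) = (K * (1 / δ)) / 4 := by field_simp
      rw [c5]
      have c6 : φ z * (deriv (B δ) (u n z) * X) = c * X := by rw [hc]; ring
      have c7 : φ z * (deriv (B δ) (u n z) * Y) = c * Y := by rw [hc]; ring
      rw [c6, c7]
      nlinarith
    -- (C) the left side
    have hC : (∫ z, p z * (gx φ z * B δ (f z))) + (∫ z, q z * (gy φ z * B δ (f z))) =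
        - ∫ z, bet δ (f z) * lap φ z := by
      have l1 := h2.mul hβx
      have l2 := h3.mul hβy
      have hT := h1.comp_lip (β := bet δ) (bet_lip hδ) (bet_zero hδ)
      have l3 := (hT.mul (L2T.const hφ.lap_tf.memLp)).neg
      refine tendsto_nhds_unique (l1.add l2) (l3.congr fun n => ?_)
      have hun := hu n
      have hd : ∀ z, DifferentiableAt ℝ (bet δ) (u n z) := fun z => (bet_deriv hδ _).differentiableAt
      have hTn : TF U (fun z => bet δ (u n z)) := hun.comp_smooth (bet_smooth hδ) (bet_zero hδ)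
      have j1 : Integrable (fun z => gx (u n) z * (gx φ z * B δ (u n z))) := (h2.ma n).integrable_mul (hβx.ma n)
      have j2 : Integrable (fun z => gy (u n) z * (gy φ z * B δ (u n z))) := (h3.ma n).integrable_mul (hβy.ma n)
      rw [← ibp hTn hφ, ← integral_add j1 j2]
      unfold En
      congr 1; ext z
      rw [gx_comp' (hun.diff z) (hd z), gy_comp' (hun.diff z) (hd z), (bet_deriv hδ _).deriv]
      show _ = gx (u n) z * (gx φ z * B δ (u n z)) + gy (u n) z * (gy φ z * B δ (u n z))
      unfold B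
      ring
    -- (E)
    have hT := h1.comp_lip (β := bet δ) (bet_lip hδ) (bet_zero hδ)
    rw [wd hf hφ]
    have i1 : Integrable (fun z => f z * lap φ z) := hf.mf.integrable_mul hφ.lap_tf.memLp
    have i2 : Integrable (fun z => bet δ (f z) * lap φ z) := hT.mf.integrable_mul hφ.lap_tf.memLp
    have hE : ∫ z, (bet δ (f z) * lap φ z - f z * lap φ z) ≤ δ * ∫ z, |lap φ z| := by
      rw [← integral_const_mul]
      apply integral_mono_ae (i2.sub i1) (hlap.abs.const_mul δ)
      filter_upwards [hf0] with z hz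
      show bet δ (f z) * lap φ z - f z * lap φ z ≤ δ * |lap φ z|
      rw [← sub_mul]
      refine (le_abs_self _).trans ?_
      rw [abs_mul]
      apply mul_le_mul_of_nonneg_right _ (abs_nonneg _)
      have a1 := bet_le hδ (f z)
      have a2 := le_bet hδ (f z)
      rw [abs_of_nonneg hz] at a1 a2
      rw [abs_le]; constructor <;> linarith
    rw [integral_sub i2 i1] at hE
    linarith
  have hlim : Tendsto (fun δ : ℝ => (∫ z, h z * φ z) + δ * ∫ z, |lap φ z|) (𝓝[>] 0)
      (𝓝 ((∫ z, h z * φ z) + 0 * ∫ z, |lap φ z|)) := by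
    apply Tendsto.mono_left _ nhdsWithin_le_nhds
    exact tendsto_const_nhds.add (tendsto_id.mul_const _)
  rw [zero_mul, add_zero] at hlim
  exact ge_of_tendsto hlim (by filter_upwards [self_mem_nhdsWithin] with δ hδ using main δ hδ)

end Pool.Agent.TH316.FQ
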