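import Pool.Agent.TH316.FQ.Bas

set_option autoImplicit false

/-! A universal bound for the torsion function. -/

open MeasureTheory Metric Set Filter
open scoped Topology

namespace Pool.Agent.TH316.FQ

open Pool.Agent.Helper533.StarBox

namespace SupX

theorem m0_pos : 0 < m0 := by
  unfold m0
  have hc : HasCompactSupport (ww 1) := by simpa using ww_comp one_pos 0
  refine (ww_cont 1).integral_pos_of_hasCompactSupport_nonneg_nonzero hc (fun z => ww_nonneg 1 z)
    (x := ((3 / 4 : ℝ) : ℂ)) (ne_of_gt (ww_pos one_pos ?_ ?_))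
  · rw [Complex.norm_real, Real.norm_eq_abs, abs_of_pos (by norm_num)]; norm_num
  · rw [Complex.norm_real, Real.norm_eq_abs, abs_of_pos (by norm_num)]; norm_num

noncomputable def D (x z : ℂ) : ℝ := 1 + qq x z / 4

noncomputable def psi (x z : ℂ) : ℝ := (D x z)⁻¹

theorem qq_nonneg (x z : ℂ) : 0 ≤ qq x z := by unfold qq; positivity

theorem D_pos (x z : ℂ) : 0 < D x z := by
  unfold D; have := qq_nonneg x z; positivity

theorem D_ge (x z : ℂ) : 1 ≤ D x z := by
  unfold D; have := qq_nonneg x z; linarith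

theorem D_smooth (x : ℂ) : ContDiff ℝ (⊤ : ℕ∞) (D x) := by
  unfold D
  exact contDiff_const.add ((qq_smooth x).div_const 4)

theorem psi_smooth (x : ℂ) : ContDiff ℝ (⊤ : ℕ∞) (psi x) := by
  unfold psi
  exact (D_smooth x).inv (fun z => (D_pos x z).ne')

theorem psi_pos (x z : ℂ) : 0 < psi x z := inv_pos.2 (D_pos x z)

theorem psi_le_one (x z : ℂ) : psi x z ≤ 1 := inv_le_one_of_one_le₀ (D_ge x z)

theorem D_mul_psi (x z : ℂ) : D x z * psi x z = 1 := mul_inv_cancel₀ (D_pos x z).ne'

theorem gx_D (x z : ℂ) : gx (D x) z = (z.re - x.re) / 2 := by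
  have h1 : D x = fun z => (fun _ => (1:ℝ)) z + (1 / 4) * qq x z := by ext z; unfold D; ring
  have hq : DifferentiableAt ℝ (qq x) z := ((qq_smooth x).differentiable (by simp)) z
  rw [h1, gx_add (by fun_prop) (hq.const_mul _), gx_smul _ hq, gx_qq]
  have : gx (fun _ : ℂ => (1:ℝ)) z = 0 := by unfold gx; simp
  rw [this]; ring

theorem gy_D (x z : ℂ) : gy (D x) z = (z.im - x.im) / 2 := by
  have h1 : D x = fun z => (fun _ => (1:ℝ)) z + (1 / 4) * qq x z := by ext z; unfold D; ring
  have hq : DifferentiableAt ℝ (qq x) z := ((qq_smooth x).differentiable (by simp)) z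
  rw [h1, gy_add (by fun_prop) (hq.const_mul _), gy_smul _ hq, gy_qq]
  have : gy (fun _ : ℂ => (1:ℝ)) z = 0 := by unfold gy; simp
  rw [this]; ring

theorem gx_psi (x z : ℂ) : gx (psi x) z = - ((z.re - x.re) / 2 * psi x z ^ 2) := by
  have hD : DifferentiableAt ℝ (D x) z := ((D_smooth x).differentiable (by simp)) z
  have hp : DifferentiableAt ℝ (psi x) z := ((psi_smooth x).differentiable (by simp)) z
  have h1 : (fun z => D x z * psi x z) = fun _ => (1:ℝ) := by ext z; exact D_mul_psi x z
  have h2 := gx_mul hD hp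
  rw [h1, gx_D] at h2
  have h3 : gx (fun _ : ℂ => (1:ℝ)) z = 0 := by unfold gx; simp
  rw [h3] at h2
  have h4 := D_mul_psi x z
  have h5 : psi x z * (D x z * gx (psi x) z + psi x z * ((z.re - x.re) / 2)) = 0 := by
    rw [← h2, mul_zero]
  have h6 : psi x z * (D x z * gx (psi x) z + psi x z * ((z.re - x.re) / 2)) =
    (D x z * psi x z) * gx (psi x) z + psi x z ^ 2 * ((z.re - x.re) / 2) := by ring
  rw [h6, h4] at h5
  linarith

theorem gy_psi (x z : ℂ) : gy (psi x) z = - ((z.im - x.im) / 2 * psi x z ^ 2) := by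
  have hD : DifferentiableAt ℝ (D x) z := ((D_smooth x).differentiable (by simp)) z
  have hp : DifferentiableAt ℝ (psi x) z := ((psi_smooth x).differentiable (by simp)) z
  have h1 : (fun z => D x z * psi x z) = fun _ => (1:ℝ) := by ext z; exact D_mul_psi x z
  have h2 := gy_mul hD hp
  rw [h1, gy_D] at h2
  have h3 : gy (fun _ : ℂ => (1:ℝ)) z = 0 := by unfold gy; simp
  rw [h3] at h2
  have h4 := D_mul_psi x z
  have h5 : psi x z * (D x z * gy (psi x) z + psi x z * ((z.im - x.im) / 2)) = 0 := by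
    rw [← h2, mul_zero]
  have h6 : psi x z * (D x z * gy (psi x) z + psi x z * ((z.im - x.im) / 2)) =
    (D x z * psi x z) * gy (psi x) z + psi x z ^ 2 * ((z.im - x.im) / 2) := by ring
  rw [h6, h4] at h5
  linarith

theorem grad_psi (x z : ℂ) : gx (psi x) z ^ 2 + gy (psi x) z ^ 2 ≤ psi x z ^ 2 / 4 := by
  rw [gx_psi, gy_psi]
  have h1 : (-((z.re - x.re) / 2 * psi x z ^ 2)) ^ 2 + (-((z.im - x.im) / 2 * psi x z ^ 2)) ^ 2 =
      (qq x z / 4 * psi x z ^ 2) * psi x z ^ 2 := by unfold qq; ring
  rw [h1]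
  have h2 : qq x z / 4 * psi x z ^ 2 ≤ 1 / 4 := by
    have h3 : qq x z / 4 = D x z - 1 := by unfold D; ring
    rw [h3]
    have h4 := D_mul_psi x z
    have h5 : (D x z - 1) * psi x z ^ 2 = psi x z - psi x z ^ 2 := by
      calc (D x z - 1) * psi x z ^ 2 = (D x z * psi x z) * psi x z - psi x z ^ 2 := by ring
        _ = _ := by rw [h4, one_mul]
    rw [h5]
    nlinarith [sq_nonneg (psi x z - 1 / 2)]
  nlinarith [sq_nonneg (psi x z)]

theorem abs_gx_psi (x z : ℂ) : |gx (psi x) z| ≤ 1 / 2 := by
  have h1 := grad_psi x z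
  have h2 := psi_le_one x z
  have h3 := psi_pos x z
  have h4 : psi x z ^ 2 ≤ 1 := by nlinarith
  apply abs_le_of_sq_le_sq _ (by norm_num)
  nlinarith [sq_nonneg (gy (psi x) z)]

theorem abs_gy_psi (x z : ℂ) : |gy (psi x) z| ≤ 1 / 2 := by
  have h1 := grad_psi x z
  have h2 := psi_le_one x z
  have h3 := psi_pos x z
  have h4 : psi x z ^ 2 ≤ 1 := by nlinarith
  apply abs_le_of_sq_le_sq _ (by norm_num)
  nlinarith [sq_nonneg (gx (psi x) z)]

theorem psi_trans (x z : ℂ) : psi x z = psi 0 (z - x) := by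
  unfold psi D qq; simp

theorem psi_sq_int (x : ℂ) : Integrable (fun z => psi x z ^ 2) := by
  have h0 : Integrable (fun z => psi 0 z ^ 2) := by
    have h1 : Integrable (fun z : ℂ => ((1:ℝ) + ‖z‖ ^ 2) ^ (-(4:ℝ) / 2)) :=
      integrable_rpow_neg_one_add_norm_sq (by rw [Complex.finrank_real_complex]; norm_num)
    refine (h1.const_mul 16).mono' ((psi_smooth 0).continuous.pow 2).aestronglyMeasurable
      (Eventually.of_forall fun z => ?_)
    have h2 : ((1:ℝ) + ‖z‖ ^ 2) ^ (-(4:ℝ) / 2) = ((1 + ‖z‖ ^ 2) ^ 2)⁻¹ := by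
      rw [show (-(4:ℝ) / 2) = -(2:ℕ) by norm_num, Real.rpow_neg (by positivity), Real.rpow_natCast]
    rw [h2, Real.norm_eq_abs, abs_of_nonneg (sq_nonneg _)]
    unfold psi
    rw [inv_pow]
    have h3 : D 0 z = 1 + ‖z‖ ^ 2 / 4 := by unfold D; rw [qq_eq, sub_zero]
    rw [h3, ← div_eq_mul_inv, ← one_div, div_le_div_iff₀ (by positivity) (by positivity)]
    have h4 : 0 ≤ ‖z‖ ^ 2 := sq_nonneg _
    nlinarith
  have := h0.comp_sub_right x
  exact this.congr (Eventually.of_forall fun z => by simp only [← psi_trans])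

theorem psi_sq_eq (x : ℂ) : ∫ z, psi x z ^ 2 = ∫ z, psi 0 z ^ 2 := by
  rw [← integral_sub_right_eq_self (fun z => psi 0 z ^ 2) x]
  congr 1; ext z
  rw [psi_trans]

theorem psi_memLp (x : ℂ) : MemLp (psi x) 2 (volume : Measure ℂ) :=
  (memLp_two_iff_integrable_sq (psi_smooth x).continuous.aestronglyMeasurable).2 (psi_sq_int x)

end SupX

open SupX in
theorem supw (hSUB : S_SUB) (hWD : S_WD) (hAV : S_AV) : S_SUP := by
  obtain ⟨κ, hκ0, hκ1, hav⟩ := hAV
  have hm := m0_pos
  set C₀ : ℝ := ∫ z, psi 0 z ^ 2 with hC₀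
  refine ⟨max 1 (25 / 16 * C₀ / m0 + 3 / 4), le_max_left _ _, ?_⟩
  intro U w wx wy hU hUf hw hwe hw0 hP
  have hind := ind_memLp hU hUf
  -- local bound
  have hloc : ∀ x, ∫ z, (psi x z * w z) ^ 2 ≤ 2 * C₀ := by
    intro x
    have hF := hw.mul_smooth (psi_smooth x) (C := 1)
      (fun z => by rw [abs_of_pos (psi_pos x z)]; exact psi_le_one x z)
      (fun z => (abs_gx_psi x z).trans (by norm_num)) (fun z => (abs_gy_psi x z).trans (by norm_num))
    have hd : Differentiable ℝ (psi x) := (psi_smooth x).differentiable (by simp)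
    have egx : ∀ z, gx (fun z => psi x z * psi x z) z = 2 * (psi x z * gx (psi x) z) := by
      intro z; rw [gx_mul (hd z) (hd z)]; ring
    have egy : ∀ z, gy (fun z => psi x z * psi x z) z = 2 * (psi x z * gy (psi x) z) := by
      intro z; rw [gy_mul (hd z) (hd z)]; ring
    have hG := hw.mul_smooth (χ := fun z => psi x z * psi x z) ((psi_smooth x).mul (psi_smooth x)) (C := 1)
      (fun z => by
        rw [abs_of_pos (mul_pos (psi_pos x z) (psi_pos x z))]
        have := psi_pos x z; have := psi_le_one x z; nlinarith)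
      (fun z => by
        rw [egx, abs_mul, abs_mul, abs_of_pos (psi_pos x z), abs_of_pos (by norm_num : (0:ℝ) < 2)]
        have h1 := psi_pos x z; have h2 := psi_le_one x z
        have h3 := abs_gx_psi x z; have h4 := abs_nonneg (gx (psi x) z)
        nlinarith)
      (fun z => by
        rw [egy, abs_mul, abs_mul, abs_of_pos (psi_pos x z), abs_of_pos (by norm_num : (0:ℝ) < 2)]
        have h1 := psi_pos x z; have h2 := psi_le_one x z
        have h3 := abs_gy_psi x z; have h4 := abs_nonneg (gy (psi x) z)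
        nlinarith)
    -- Poincare
    have hpo : ∫ z, (psi x z * w z) ^ 2 ≤ ∫ z, ((psi x z * wx z + gx (psi x) z * w z) ^ 2 +
        (psi x z * wy z + gy (psi x) z * w z) ^ 2) := by
      obtain ⟨u, hu, h1, h2, h3⟩ := hF.seq
      rw [integral_add hF.mp.integrable_sq hF.mq.integrable_sq]
      refine le_of_tendsto_of_tendsto' h1.sq (h2.sq.add h3.sq) (fun n => ?_)
      have := hP _ (hu n)
      rw [Ip_self, En_self] at this
      rwa [integral_add (h2.ma n).integrable_sq (h3.ma n).integrable_sq] at this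
    -- the equation
    have heq := hwe.ind.hw hw.mp hw.mq hind hG
    simp only [egx, egy] at heq
    have i1 : Integrable (fun z => (psi x z * wx z + gx (psi x) z * w z) ^ 2 +
        (psi x z * wy z + gy (psi x) z * w z) ^ 2) := hF.mp.integrable_sq.add hF.mq.integrable_sq
    have iX : Integrable (fun z => (psi x z * w z) ^ 2) := hF.mf.integrable_sq
    have iA : Integrable (fun z => wx z * (psi x z * psi x z * wx z + 2 * (psi x z * gx (psi x) z) * w z)) := by
      have := hw.mp.integrable_mul hG.mp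
      simp only [egx] at this
      exact this
    have iB : Integrable (fun z => wy z * (psi x z * psi x z * wy z + 2 * (psi x z * gy (psi x) z) * w z)) := by
      have := hw.mq.integrable_mul hG.mq
      simp only [egy] at this
      exact this
    have iR : Integrable (fun z => ind U z * (psi x z * psi x z * w z)) := hind.integrable_mul hG.mf
    have ip := psi_sq_int x
    have h1 : ∫ z, ((psi x z * wx z + gx (psi x) z * w z) ^ 2 + (psi x z * wy z + gy (psi x) z * w z) ^ 2) ≤
        (∫ z, ind U z * (psi x z * psi x z * w z)) + 1 / 4 * ∫ z, (psi x z * w z) ^ 2 := by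
      have iAB : Integrable (fun z => wx z * (psi x z * psi x z * wx z + 2 * (psi x z * gx (psi x) z) * w z) +
          wy z * (psi x z * psi x z * wy z + 2 * (psi x z * gy (psi x) z) * w z)) := iA.add iB
      rw [← heq, ← integral_const_mul, ← integral_add iAB (iX.const_mul _)]
      apply integral_mono i1 (iAB.add (iX.const_mul _))
      intro z
      show (psi x z * wx z + gx (psi x) z * w z) ^ 2 + (psi x z * wy z + gy (psi x) z * w z) ^ 2 ≤
        (wx z * (psi x z * psi x z * wx z + 2 * (psi x z * gx (psi x) z) * w z) +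
          wy z * (psi x z * psi x z * wy z + 2 * (psi x z * gy (psi x) z) * w z)) + 1 / 4 * (psi x z * w z) ^ 2
      have h2 := mul_le_mul_of_nonneg_left (grad_psi x z) (sq_nonneg (w z))
      nlinarith
    have h2 : ∫ z, ind U z * (psi x z * psi x z * w z) ≤
        1 / 2 * (∫ z, psi x z ^ 2) + 1 / 2 * ∫ z, (psi x z * w z) ^ 2 := by
      rw [← integral_const_mul, ← integral_const_mul, ← integral_add (ip.const_mul _) (iX.const_mul _)]
      apply integral_mono_ae iR ((ip.const_mul _).add (iX.const_mul _))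
      filter_upwards [hw0] with z hz
      show ind U z * (psi x z * psi x z * w z) ≤ 1 / 2 * psi x z ^ 2 + 1 / 2 * (psi x z * w z) ^ 2
      have a1 := ind_le_one U z
      have a2 : 0 ≤ psi x z * psi x z * w z := by have := psi_pos x z; positivity
      have a3 : ind U z * (psi x z * psi x z * w z) ≤ psi x z * psi x z * w z := mul_le_of_le_one_left a2 a1
      nlinarith [sq_nonneg (psi x z - psi x z * w z)]
    rw [psi_sq_eq x] at h2
    linarith
  -- averages
  have hsubl : SubL w 1 := by
    intro φ hφ hφ0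
    have h1 := hWD U w wx wy hw φ hφ
    have h2 := hSUB U w wx wy (ind U) hU hw hw0 hind (Eventually.of_forall (ind_nonneg U)) hwe.ind φ hφ hφ0
    have h3 : ∫ z, ind U z * φ z ≤ ∫ z, φ z := by
      apply integral_mono (hind.integrable_mul hφ.memLp) (hφ.cont.integrable_of_hasCompactSupport hφ.comp)
      intro z
      exact mul_le_of_le_one_left (hφ0 z) (ind_le_one U z)
    linarith
  obtain ⟨-, -, -, h4⟩ := hav w 1 hw.mf zero_le_one hsubl
  filter_upwards [h4] with x hx
  have h5 := hx 1 one_pos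
  have h6 : Av w 1 x ≤ 25 / 16 * C₀ / m0 + 1 / 2 := by
    unfold Av
    rw [div_add' _ _ _ hm.ne', div_le_div_iff_of_pos_right hm]
    have iw : Integrable (fun y => ww 1 (y - x)) :=
      ((ww_cont 1).comp (continuous_id.sub continuous_const)).integrable_of_hasCompactSupport (ww_comp one_pos x)
    have hF := hw.mul_smooth (psi_smooth x) (C := 1)
      (fun z => by rw [abs_of_pos (psi_pos x z)]; exact psi_le_one x z)
      (fun z => (abs_gx_psi x z).trans (by norm_num)) (fun z => (abs_gy_psi x z).trans (by norm_num))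
    have iX : Integrable (fun z => (psi x z * w z) ^ 2) := hF.mf.integrable_sq
    have e1 : ∫ y, ww 1 (y - x) = m0 := integral_sub_right_eq_self (ww 1) x
    have h7 : ∫ y, w y * ww 1 (y - x) ≤ 25 / 32 * (∫ z, (psi x z * w z) ^ 2) + 1 / 2 * ∫ y, ww 1 (y - x) := by
      rw [← integral_const_mul, ← integral_const_mul, ← integral_add (iX.const_mul _) (iw.const_mul _)]
      apply integral_mono (hw.mf.integrable_mul (ww_memLp one_pos x)) ((iX.const_mul _).add (iw.const_mul _))
      intro y
      show w y * ww 1 (y - x) ≤ 25 / 32 * (psi x y * w y) ^ 2 + 1 / 2 * ww 1 (y - x)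
      by_cases hy : 1 ≤ ‖y - x‖
      · rw [ww_zero one_pos hy]
        nlinarith [sq_nonneg (psi x y * w y)]
      · push Not at hy
        have b1 := ww_nonneg 1 (y - x)
        have b2 : ww 1 (y - x) ≤ 1 := by have := ww_le 1 (y - x); simpa using this
        have b3 : 4 / 5 ≤ psi x y := by
          unfold psi D
          rw [qq_eq, ← one_div, le_div_iff₀ (by positivity)]
          nlinarith [norm_nonneg (y - x)]
        have b4 : (16 / 25) * w y ^ 2 ≤ (psi x y * w y) ^ 2 := by
          rw [mul_pow]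
          apply mul_le_mul_of_nonneg_right _ (sq_nonneg _)
          nlinarith
        have b5 : w y * ww 1 (y - x) ≤ ww 1 (y - x) * (1 / 2 * w y ^ 2 + 1 / 2) := by
          nlinarith [mul_nonneg b1 (sq_nonneg (w y - 1))]
        have b6 : ww 1 (y - x) * (w y ^ 2) ≤ w y ^ 2 := mul_le_of_le_one_left (sq_nonneg _) b2
        nlinarith
    have h8 := hloc x
    rw [e1] at h7
    have h9 : 25 / 16 * C₀ / m0 * m0 = 25 / 16 * C₀ := by field_simp
    nlinarith
  refine le_trans ?_ (le_max_right _ _)
  linarith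

end Pool.Agent.TH316.FQ
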