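import Pool.Agent.TH316.FQ.Stm
import Pool.Agent.TH316.FQ.Bas

set_option autoImplicit false

open MeasureTheory Metric Set Filter
open scoped Topology

namespace Pool.Agent.TH316.FQ

open Pool.Agent.Helper533.StarBox

namespace TorX

theorem tf_int {U : Set ℂ} {u : ℂ → ℝ} (hu : TF U u) : Integrable u :=
  hu.cont.integrable_of_hasCompactSupport hu.comp

theorem zero_out {U : Set ℂ} {u : ℂ → ℝ} (hu : TF U u) {z : ℂ} (hz : z ∉ U) : u z = 0 := by
  by_contra h
  exact hz (hu.supp (subset_tsupport _ h))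

/-- replacing `v` by a nonnegative function -/
theorem replace {U : Set ℂ} {v : ℂ → ℝ} (hU : Adm U) (hv : TF U v) {δ : ℝ} (hδ : 0 < δ) :
    ∃ u, TF U u ∧ (∀ z, 0 ≤ u z) ∧ En u u ≤ En v v ∧ (∫ z, v z) - δ * ar U ≤ ∫ z, u z := by
  have ht : TF U (fun z => bet δ (v z)) := hv.comp_smooth (bet_smooth hδ) (bet_zero hδ)
  refine ⟨fun z => bet δ (v z), ht, fun z => bet_nonneg hδ _,
    En_comp_le hv (bet_smooth hδ) (bet_zero hδ) (bet_deriv_le hδ), ?_⟩
  have h1 : 0 ≤ ∫ z, (bet δ (v z) - v z + δ * ind U z) := by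
    apply integral_nonneg
    intro z
    show 0 ≤ bet δ (v z) - v z + δ * ind U z
    by_cases hz : z ∈ U
    · rw [ind_of_mem hz]
      have := le_bet hδ (v z)
      have := le_abs_self (v z)
      linarith
    · rw [zero_out hv hz, bet_zero hδ]
      have := ind_nonneg U z
      nlinarith
  have e1 : ∫ z, (bet δ (v z) - v z + δ * ind U z)
      = (∫ z, (bet δ (v z) - v z)) + ∫ z, δ * ind U z :=
    integral_add ((tf_int ht).sub (tf_int hv)) ((ind_integrable hU.1 hU.2.2).const_mul _)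
  have e2 : ∫ z, (bet δ (v z) - v z) = (∫ z, bet δ (v z)) - ∫ z, v z :=
    integral_sub (tf_int ht) (tf_int hv)
  rw [e1, e2, integral_const_mul, integral_ind hU.1] at h1
  linarith

theorem int_add {U : Set ℂ} {u v : ℂ → ℝ} (hu : TF U u) (hv : TF U v) :
    ∫ z, (u z + v z) = (∫ z, u z) + ∫ z, v z := integral_add (tf_int hu) (tf_int hv)

theorem En_add_self {U V : Set ℂ} {u v : ℂ → ℝ} (hu : TF U u) (hv : TF V v) :
    En (fun z => u z + v z) (fun z => u z + v z) = En u u + 2 * En u v + En v v := by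
  have huv : TF (U ∪ V) (fun z => u z + v z) :=
    (hu.mono subset_union_left).add (hv.mono subset_union_right)
  rw [En_add_left hu hv huv, En_comm u, En_comm v, En_add_left hu hv hu, En_add_left hu hv hv,
    En_comm v u]
  ring

theorem En_sub_self {U V : Set ℂ} {u v : ℂ → ℝ} (hu : TF U u) (hv : TF V v) :
    En (fun z => u z - v z) (fun z => u z - v z) = En u u - 2 * En u v + En v v := by
  have huv : TF (U ∪ V) (fun z => u z - v z) :=
    (hu.mono subset_union_left).sub (hv.mono subset_union_right)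
  rw [En_sub_left hu hv huv, En_comm u, En_comm v, En_sub_left hu hv hu, En_sub_left hu hv hv,
    En_comm v u]
  ring

theorem En_smul_self {U : Set ℂ} {u : ℂ → ℝ} (c : ℝ) (hu : TF U u) :
    En (fun z => c * u z) (fun z => c * u z) = c ^ 2 * En u u := by
  rw [En_smul_left c hu, En_comm u, En_smul_left c hu]; ring

/-- parallelogram identity -/
theorem par {U : Set ℂ} {u v : ℂ → ℝ} (hu : TF U u) (hv : TF U v) :
    2 * (∫ z, (1 / 2) * (u z + v z)) -
      En (fun z => (1 / 2) * (u z + v z)) (fun z => (1 / 2) * (u z + v z))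
    = ((2 * (∫ z, u z) - En u u) + (2 * (∫ z, v z) - En v v)) / 2
      + En (fun z => u z - v z) (fun z => u z - v z) / 4 := by
  rw [En_smul_self (1 / 2) (hu.add hv), En_add_self hu hv, En_sub_self hu hv, integral_const_mul,
    int_add hu hv]
  ring

theorem l2t_of {U : Set ℂ} {u : ℕ → ℂ → ℝ} {f p q : ℂ → ℝ} (hu : ∀ n, TF U (u n))
    (hw : HW U f p q)
    (h : Tendsto (fun n => ∫ z, ((u n z - f z) ^ 2 + (gx (u n) z - p z) ^ 2 +
      (gy (u n) z - q z) ^ 2)) atTop (𝓝 0)) :
    L2T u f ∧ L2T (fun n => gx (u n)) p ∧ L2T (fun n => gy (u n)) q := by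
  have m1 : ∀ n, MemLp (u n) 2 (volume : Measure ℂ) := fun n => (hu n).memLp
  have m2 : ∀ n, MemLp (gx (u n)) 2 (volume : Measure ℂ) := fun n => (hu n).gx_tf.memLp
  have m3 : ∀ n, MemLp (gy (u n)) 2 (volume : Measure ℂ) := fun n => (hu n).gy_tf.memLp
  have i1 : ∀ n, Integrable (fun z => (u n z - f z) ^ 2) := fun n => ((m1 n).sub hw.mf).integrable_sq
  have i2 : ∀ n, Integrable (fun z => (gx (u n) z - p z) ^ 2) := fun n =>
    ((m2 n).sub hw.mp).integrable_sq
  have i3 : ∀ n, Integrable (fun z => (gy (u n) z - q z) ^ 2) := fun n =>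
    ((m3 n).sub hw.mq).integrable_sq
  refine ⟨⟨m1, hw.mf, ?_⟩, ⟨m2, hw.mp, ?_⟩, ⟨m3, hw.mq, ?_⟩⟩
  · refine squeeze_zero (fun n => integral_nonneg fun z => sq_nonneg _) (fun n => ?_) h
    refine integral_mono (i1 n) (((i1 n).add (i2 n)).add (i3 n)) fun z => ?_
    show (u n z - f z) ^ 2 ≤ (u n z - f z) ^ 2 + (gx (u n) z - p z) ^ 2 + (gy (u n) z - q z) ^ 2
    nlinarith [sq_nonneg (gx (u n) z - p z), sq_nonneg (gy (u n) z - q z)]
  · refine squeeze_zero (fun n => integral_nonneg fun z => sq_nonneg _) (fun n => ?_) h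
    refine integral_mono (i2 n) (((i1 n).add (i2 n)).add (i3 n)) fun z => ?_
    show (gx (u n) z - p z) ^ 2 ≤
      (u n z - f z) ^ 2 + (gx (u n) z - p z) ^ 2 + (gy (u n) z - q z) ^ 2
    nlinarith [sq_nonneg (u n z - f z), sq_nonneg (gy (u n) z - q z)]
  · refine squeeze_zero (fun n => integral_nonneg fun z => sq_nonneg _) (fun n => ?_) h
    refine integral_mono (i3 n) (((i1 n).add (i2 n)).add (i3 n)) fun z => ?_
    show (gy (u n) z - q z) ^ 2 ≤
      (u n z - f z) ^ 2 + (gx (u n) z - p z) ^ 2 + (gy (u n) z - q z) ^ 2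
    nlinarith [sq_nonneg (u n z - f z), sq_nonneg (gx (u n) z - p z)]

end TorX

open TorX

theorem torFn (hFK : S_FK) (hPOL : S_POL) (hCMP : S_CMP) : S_TOR := by
  intro U hU
  obtain ⟨-, -, hT, hA, -, -, hJ, hnear⟩ := hPOL U hU
  set T := tor U with hTdef
  set A := ar U with hAdef
  -- a maximising sequence of nonnegative functions
  have hex : ∀ n : ℕ, ∃ u, TF U u ∧ (∀ z, 0 ≤ u z) ∧
      T - 3 / ((n : ℝ) + 1) ≤ 2 * (∫ z, u z) - En u u := by
    intro n
    have hn : (0 : ℝ) < (n : ℝ) + 1 := by positivity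
    obtain ⟨v, hv, hvJ⟩ := hnear (1 / ((n : ℝ) + 1)) (by positivity)
    obtain ⟨u, hu, hu0, huE, huI⟩ := replace hU hv
      (show 0 < 1 / (((n : ℝ) + 1) * (A + 1)) by positivity)
    refine ⟨u, hu, hu0, ?_⟩
    have e : 1 / (((n : ℝ) + 1) * (A + 1)) * A ≤ 1 / ((n : ℝ) + 1) := by
      rw [div_mul_eq_mul_div, one_mul, div_le_div_iff₀ (by positivity) hn]
      nlinarith
    have e3 : 3 / ((n : ℝ) + 1) = 3 * (1 / ((n : ℝ) + 1)) := by ring
    rw [e3]
    linarith
  choose u hu hu0 huJ using hex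
  -- Cauchy
  have hE : ∀ m n : ℕ, En (fun z => u m z - u n z) (fun z => u m z - u n z)
      ≤ 6 / ((m : ℝ) + 1) + 6 / ((n : ℝ) + 1) := by
    intro m n
    have h1 := par (hu m) (hu n)
    have h2 := hJ _ (((hu m).add (hu n)).smul (1 / 2))
    have h3 := huJ m
    have h4 := huJ n
    have e3 : 3 / ((m : ℝ) + 1) = 3 * (1 / ((m : ℝ) + 1)) := by ring
    have e4 : 3 / ((n : ℝ) + 1) = 3 * (1 / ((n : ℝ) + 1)) := by ring
    have e5 : 6 / ((m : ℝ) + 1) = 6 * (1 / ((m : ℝ) + 1)) := by ring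
    have e6 : 6 / ((n : ℝ) + 1) = 6 * (1 / ((n : ℝ) + 1)) := by ring
    rw [e3] at h3
    rw [e4] at h4
    rw [e5, e6]
    linarith
  have hcau : ∀ ε > 0, ∃ N, ∀ m ≥ N, ∀ n ≥ N,
      Ip (fun z => u m z - u n z) (fun z => u m z - u n z) ≤ ε ∧
      En (fun z => u m z - u n z) (fun z => u m z - u n z) ≤ ε := by
    intro ε hε
    set η : ℝ := ε / (A + 1) with hη
    have hη0 : 0 < η := by positivity
    obtain ⟨N, hN⟩ := exists_nat_gt (12 / η)
    have hb : ∀ m : ℕ, N ≤ m → 6 / ((m : ℝ) + 1) ≤ η / 2 := by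
      intro m hm
      have h1 : (N : ℝ) ≤ m := by exact_mod_cast hm
      rw [div_lt_iff₀ hη0] at hN
      rw [div_le_iff₀ (by positivity)]
      nlinarith
    refine ⟨N, fun m hm n hn => ?_⟩
    have h1 := hE m n
    have h2 := hb m hm
    have h3 := hb n hn
    have h4 : En (fun z => u m z - u n z) (fun z => u m z - u n z) ≤ η := by linarith
    have h5 := hFK U _ hU.1 hU.2.2 ((hu m).sub (hu n))
    have h6 : η * (A + 1) = ε := by rw [hη]; field_simp
    have h7 := En_nonneg (fun z => u m z - u n z)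
    constructor
    · have : ar U * En (fun z => u m z - u n z) (fun z => u m z - u n z) ≤ A * η :=
        mul_le_mul_of_nonneg_left h4 hA.le
      nlinarith
    · nlinarith
  obtain ⟨w, p, q, hw, hlim⟩ := hCMP U u hu hcau
  obtain ⟨l1, l2, l3⟩ := l2t_of hu hw hlim
  -- pointwise limits
  obtain ⟨φ, hφ, hae⟩ := l1.subseq
  have hnn : ∀ᵐ z, 0 ≤ w z := by
    filter_upwards [hae] with z hz
    exact ge_of_tendsto' hz fun n => hu0 _ _
  have hout : ∀ᵐ z, ind U z * w z = w z := by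
    filter_upwards [hae] with z hz
    by_cases hzU : z ∈ U
    · rw [ind_of_mem hzU, one_mul]
    · have : w z = 0 := by
        refine tendsto_nhds_unique hz (tendsto_const_nhds.congr fun n => ?_)
        rw [zero_out (hu _) hzU]
      rw [this, mul_zero]
  have hInd : ∫ z, ind U z * w z = ∫ z, w z := integral_congr_ae hout
  have hI : Tendsto (fun n => ∫ z, u n z) atTop (𝓝 (∫ z, w z)) := by
    have h1 := (L2T.const (ind_memLp hU.1 hU.2.2)).mul l1
    rw [hInd] at h1
    exact h1.congr fun n => integral_ind_mul_tf (hu n)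
  have hEl : ∀ (ψ : ℂ → ℝ), TF U ψ → Tendsto (fun n => En (u n) ψ) atTop
      (𝓝 (∫ z, (p z * gx ψ z + q z * gy ψ z))) := by
    intro ψ hψ
    have h1 := l2.mul (L2T.const hψ.gx_tf.memLp)
    have h2 := l3.mul (L2T.const hψ.gy_tf.memLp)
    have h3 := h1.add h2
    have e : ∫ z, (p z * gx ψ z + q z * gy ψ z) = (∫ z, p z * gx ψ z) + ∫ z, q z * gy ψ z :=
      integral_add (hw.mp.integrable_mul hψ.gx_tf.memLp) (hw.mq.integrable_mul hψ.gy_tf.memLp)
    rw [e]
    refine h3.congr fun n => ?_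
    exact (integral_add ((l2.ma n).integrable_mul hψ.gx_tf.memLp)
      ((l3.ma n).integrable_mul hψ.gy_tf.memLp)).symm
  have hEE : Tendsto (fun n => En (u n) (u n)) atTop (𝓝 (∫ z, (p z ^ 2 + q z ^ 2))) := by
    have h3 := l2.sq.add l3.sq
    have e : ∫ z, (p z ^ 2 + q z ^ 2) = (∫ z, p z ^ 2) + ∫ z, q z ^ 2 :=
      integral_add hw.mp.integrable_sq hw.mq.integrable_sq
    rw [e]
    refine h3.congr fun n => ?_
    rw [En_self]
    exact (integral_add (l2.ma n).integrable_sq (l3.ma n).integrable_sq).symm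
  set I := ∫ z, w z with hIdef
  set E := ∫ z, (p z ^ 2 + q z ^ 2) with hEdef
  have hTlim : 2 * I - E = T := by
    have h1 : Tendsto (fun n => 2 * (∫ z, u n z) - En (u n) (u n)) atTop (𝓝 (2 * I - E)) :=
      (hI.const_mul 2).sub hEE
    apply le_antisymm
    · exact le_of_tendsto' h1 fun n => hJ _ (hu n)
    · have h2 : Tendsto (fun n : ℕ => T - 3 / ((n : ℝ) + 1)) atTop (𝓝 (T - 0)) := by
        apply Tendsto.sub tendsto_const_nhds
        have := (tendsto_one_div_add_atTop_nhds_zero_nat (𝕜 := ℝ)).const_mul 3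
        rw [mul_zero] at this
        refine this.congr fun n => by ring
      rw [sub_zero] at h2
      exact le_of_tendsto_of_tendsto' h2 h1 huJ
  have hwe : WE U p q (fun _ => 1) := by
    intro ψ hψ
    set B := ∫ z, (p z * gx ψ z + q z * gy ψ z) with hB
    set S := ∫ z, ψ z with hS
    have key : ∀ s : ℝ, 2 * s * (S - B) ≤ s ^ 2 * En ψ ψ := by
      intro s
      have h1 : ∀ n, 2 * ((∫ z, u n z) + s * S) - (En (u n) (u n) + 2 * s * En (u n) ψ +
          s ^ 2 * En ψ ψ) ≤ T := by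
        intro n
        have h2 := hJ _ ((hu n).add (hψ.smul s))
        rw [int_add (hu n) (hψ.smul s), En_add_self (hu n) (hψ.smul s), En_smul_self s hψ,
          integral_const_mul, En_comm (u n) (fun z => s * ψ z), En_smul_left s hψ,
          En_comm ψ (u n)] at h2
        linarith
      have h3 : Tendsto (fun n => 2 * ((∫ z, u n z) + s * S) - (En (u n) (u n) +
          2 * s * En (u n) ψ + s ^ 2 * En ψ ψ)) atTop
          (𝓝 (2 * (I + s * S) - (E + 2 * s * B + s ^ 2 * En ψ ψ))) :=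
        ((hI.add tendsto_const_nhds).const_mul 2).sub
          ((hEE.add ((hEl ψ hψ).const_mul (2 * s))).add tendsto_const_nhds)
      have h4 := le_of_tendsto' h3 h1
      linarith
    have hSB : S - B = 0 := by
      set D := S - B with hD
      have hEψ := En_nonneg ψ
      by_contra hne
      have h1 := key (D / (En ψ ψ + 1))
      have hpos : 0 < En ψ ψ + 1 := by linarith
      have h2 : 2 * (D / (En ψ ψ + 1)) * D = 2 * (D ^ 2 / (En ψ ψ + 1)) := by ring
      have h3 : (D / (En ψ ψ + 1)) ^ 2 * En ψ ψ ≤ D ^ 2 / (En ψ ψ + 1) := by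
        rw [div_pow, div_mul_eq_mul_div, div_le_div_iff₀ (by positivity) hpos]
        nlinarith [sq_nonneg D, mul_nonneg (sq_nonneg D) hEψ, mul_nonneg (sq_nonneg D) hpos.le]
      have h4 : 0 < D ^ 2 / (En ψ ψ + 1) := div_pos (by positivity) hpos
      rw [h2] at h1
      linarith
    have e : ∫ z, (1 : ℝ) * ψ z = S := by simp [hS]
    rw [e]
    linarith
  have hEI : E = I := by
    have h1 := WE.hw hwe.ind hw.mp hw.mq (ind_memLp hU.1 hU.2.2) hw
    rw [hInd] at h1
    rw [hEdef, ← h1]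
    congr 1; ext z; ring
  refine ⟨w, p, q, hw, hwe, hnn, ?_, ?_⟩
  · linarith
  · linarith

end Pool.Agent.TH316.FQ
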