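import Pool.Agent.TH316.FQ.Bas

set_option autoImplicit false

open MeasureTheory Metric Set Filter
open scoped Topology

namespace Pool.Agent.TH316.FQ

open Pool.Agent.Helper533.StarBox

namespace TraX

theorem cs {a b : ℂ → ℝ} (ha : MemLp a 2 (volume : Measure ℂ)) (hb : MemLp b 2 (volume : Measure ℂ)) :
    ∫ z, |a z| * |b z| ≤ √(∫ z, a z ^ 2) * √(∫ z, b z ^ 2) := by
  have ha' := memLp_abs ha
  have hb' := memLp_abs hb
  have h1 := real_inner_le_norm (cls fun z => |a z|) (cls fun z => |b z|)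
  rw [inner_cls ha' hb'] at h1
  have n1 : ∀ {f : ℂ → ℝ}, MemLp f 2 (volume : Measure ℂ) →
      ‖cls fun z => |f z|‖ = √(∫ z, f z ^ 2) := by
    intro f hf
    have h2 := inner_cls (memLp_abs hf) (memLp_abs hf)
    rw [real_inner_self_eq_norm_sq] at h2
    have h3 : ∫ z, |f z| * |f z| = ∫ z, f z ^ 2 := by
      congr 1; ext z; rw [abs_mul_abs_self, pow_two]
    rw [h3] at h2
    rw [← h2, Real.sqrt_sq (norm_nonneg _)]
  rw [n1 ha, n1 hb] at h1
  exact h1

theorem fderiv_eq {g : ℂ → ℝ} (z h : ℂ) : fderiv ℝ g z h = h.re * gx g z + h.im * gy g z := by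
  have e : h = h.re • (1 : ℂ) + h.im • Complex.I := by
    apply Complex.ext <;> simp
  conv_lhs => rw [e]
  rw [map_add, map_smul, map_smul]
  rfl

theorem fderiv_le {g : ℂ → ℝ} (z h : ℂ) : |fderiv ℝ g z h| ≤ ‖h‖ * (|gx g z| + |gy g z|) := by
  rw [fderiv_eq]
  calc |h.re * gx g z + h.im * gy g z| ≤ |h.re * gx g z| + |h.im * gy g z| := abs_add_le _ _
    _ = |h.re| * |gx g z| + |h.im| * |gy g z| := by rw [abs_mul, abs_mul]
    _ ≤ ‖h‖ * |gx g z| + ‖h‖ * |gy g z| := by
        gcongr
        · exact Complex.abs_re_le_norm h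
        · exact Complex.abs_im_le_norm h
    _ = _ := by ring

theorem shift {V : Set ℂ} {g : ℂ → ℝ} (hg : TF V g) (h : ℂ) :
    ∫ z, |g (z + h) - g z| ≤ ‖h‖ * ∫ z, (|gx g z| + |gy g z|) := by
  set D : ℂ → ℝ := fun z => ‖h‖ * (|gx g z| + |gy g z|) with hD
  have hDc : Continuous D := continuous_const.mul (hg.gx_cont.abs.add hg.gy_cont.abs)
  have hD0 : ∀ z, 0 ≤ D z := fun z => by positivity
  have i1 : Integrable fun z => |gx g z| + |gy g z| :=
    ((hg.gx_cont.integrable_of_hasCompactSupport hg.gx_comp).abs).add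
      (hg.gy_cont.integrable_of_hasCompactSupport hg.gy_comp).abs
  have hDi : Integrable D := i1.const_mul _
  have hgi : Integrable g := hg.cont.integrable_of_hasCompactSupport hg.comp
  have hLi : Integrable fun z => |g (z + h) - g z| := ((hgi.comp_add_right h).sub hgi).abs
  -- pointwise
  have h1 : ∀ z, |g (z + h) - g z| ≤ ∫ s in (0 : ℝ)..1, D (z + s • h) := by
    intro z
    have hder : ∀ s ∈ uIcc (0 : ℝ) 1, HasDerivAt (fun s : ℝ => g (z + s • h))
        (fderiv ℝ g (z + s • h) h) s := by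
      intro s _
      have e1 : HasDerivAt (fun s : ℝ => z + s • h) h s := by
        have := ((hasDerivAt_id s).smul_const h).const_add z
        simpa using this
      exact (hg.diff (z + s • h)).hasFDerivAt.comp_hasDerivAt s e1
    have hcd : Continuous fun s : ℝ => fderiv ℝ g (z + s • h) h := by
      have e2 : (fun s : ℝ => fderiv ℝ g (z + s • h) h)
          = fun s : ℝ => h.re * gx g (z + s • h) + h.im * gy g (z + s • h) := by
        ext s; exact fderiv_eq _ _
      rw [e2]
      have e3 : Continuous fun s : ℝ => z + s • h := by fun_prop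
      exact (continuous_const.mul (hg.gx_cont.comp e3)).add
        (continuous_const.mul (hg.gy_cont.comp e3))
    have h2 := intervalIntegral.integral_eq_sub_of_hasDerivAt hder
      (hcd.intervalIntegrable 0 1)
    simp only [one_smul, zero_smul, add_zero] at h2
    rw [← h2, ← Real.norm_eq_abs]
    refine intervalIntegral.norm_integral_le_of_norm_le zero_le_one
      (Eventually.of_forall fun s _ => ?_) ?_
    · rw [Real.norm_eq_abs]; exact fderiv_le _ _
    · have e3 : Continuous fun s : ℝ => z + s • h := by fun_prop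
      exact (hDc.comp e3).intervalIntegrable 0 1
  have h2 : ∀ z, ENNReal.ofReal |g (z + h) - g z|
      ≤ ∫⁻ s in Ioc (0 : ℝ) 1, ENNReal.ofReal (D (z + s • h)) := by
    intro z
    have e3 : Continuous fun s : ℝ => D (z + s • h) := hDc.comp (by fun_prop)
    rw [← ofReal_integral_eq_lintegral_ofReal]
    · apply ENNReal.ofReal_le_ofReal
      rw [← intervalIntegral.integral_of_le zero_le_one]
      exact h1 z
    · have := e3.intervalIntegrable (μ := volume) 0 1
      rwa [intervalIntegrable_iff_integrableOn_Ioc_of_le zero_le_one] at this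
    · exact Eventually.of_forall fun s => hD0 _
  have h3 : ∫⁻ z, ENNReal.ofReal |g (z + h) - g z| ≤ ∫⁻ z, ENNReal.ofReal (D z) := by
    calc ∫⁻ z, ENNReal.ofReal |g (z + h) - g z|
        ≤ ∫⁻ z, ∫⁻ s in Ioc (0 : ℝ) 1, ENNReal.ofReal (D (z + s • h)) := lintegral_mono h2
      _ = ∫⁻ s in Ioc (0 : ℝ) 1, ∫⁻ z, ENNReal.ofReal (D (z + s • h)) := by
          apply lintegral_lintegral_swap
          have e4 : Continuous fun p : ℂ × ℝ => D (p.1 + p.2 • h) := hDc.comp (by fun_prop)
          exact e4.measurable.ennreal_ofReal.aemeasurable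
      _ = ∫⁻ _ in Ioc (0 : ℝ) 1, ∫⁻ z, ENNReal.ofReal (D z) := by
          congr 1
          ext s
          exact lintegral_add_right_eq_self (fun z => ENNReal.ofReal (D z)) (s • h)
      _ = ∫⁻ z, ENNReal.ofReal (D z) := by
          rw [lintegral_const]; simp
  rw [← ofReal_integral_eq_lintegral_ofReal hLi (Eventually.of_forall fun z => abs_nonneg _),
    ← ofReal_integral_eq_lintegral_ofReal hDi (Eventually.of_forall hD0)] at h3
  have h4 := (ENNReal.ofReal_le_ofReal_iff (integral_nonneg hD0)).mp h3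
  rw [hD, integral_const_mul] at h4
  exact h4

/-- the cut-off. -/
noncomputable def τ (s : ℝ) : ℝ := Real.smoothTransition (2 * s - 1 / 2)

theorem τ_smooth : ContDiff ℝ (⊤ : ℕ∞) τ :=
  Real.smoothTransition.contDiff.comp ((contDiff_const.mul contDiff_id).sub contDiff_const)

theorem τ_zero {s : ℝ} (h : s ≤ 1 / 4) : τ s = 0 :=
  Real.smoothTransition.zero_of_nonpos (by linarith)

theorem τ_one {s : ℝ} (h : 3 / 4 ≤ s) : τ s = 1 :=
  Real.smoothTransition.one_of_one_le (by linarith)

theorem τ_nonneg (s : ℝ) : 0 ≤ τ s := Real.smoothTransition.nonneg _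

theorem τ_le_one (s : ℝ) : τ s ≤ 1 := Real.smoothTransition.le_one _

theorem dτ_lt {s : ℝ} (h : s < 1 / 4) : deriv τ s = 0 := by
  have : τ =ᶠ[𝓝 s] fun _ => 0 := by
    filter_upwards [Iio_mem_nhds h] with t ht
    exact τ_zero (le_of_lt ht)
  rw [this.deriv_eq]; simp

theorem dτ_gt {s : ℝ} (h : 3 / 4 < s) : deriv τ s = 0 := by
  have : τ =ᶠ[𝓝 s] fun _ => 1 := by
    filter_upwards [Ioi_mem_nhds h] with t ht
    exact τ_one (le_of_lt ht)
  rw [this.deriv_eq]; simp

theorem dτ_bdd : ∃ C : ℝ, 0 ≤ C ∧ ∀ s, |deriv τ s| ≤ C := by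
  have hc : Continuous (deriv τ) := τ_smooth.continuous_deriv (by simp)
  obtain ⟨C, hC⟩ := (isCompact_Icc (a := (1 / 4 : ℝ)) (b := 3 / 4)).exists_bound_of_continuousOn
    hc.continuousOn
  have hC0 : 0 ≤ C := (norm_nonneg _).trans (hC (1 / 4) ⟨le_rfl, by norm_num⟩)
  refine ⟨C, hC0, fun s => ?_⟩
  rcases lt_or_ge s (1 / 4) with h | h
  · rw [dτ_lt h]; simpa using hC0
  · rcases lt_or_ge (3 / 4) s with h' | h'
    · rw [dτ_gt h']; simpa using hC0
    · exact hC s ⟨h, h'⟩

theorem test_bound {C : ℝ} (hC0 : 0 ≤ C) (hC : ∀ s, |deriv τ s| ≤ C) {U : Set ℂ} (hU : IsOpen U)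
    (hf : volume U ≠ ⊤) {v : ℂ → ℝ} (hv : TF U v) (h : ℂ) :
    ∫ z, |ind U (z + h) - ind U z| ≤ 32 * (∫ z, (ind U z - v z) ^ 2) +
      ‖h‖ * (8 * C * (√(∫ z, (ind U z - v z) ^ 2) * √(∫ z, (gx v z ^ 2 + gy v z ^ 2)))) := by
  have hd : MemLp (fun z => ind U z - v z) 2 (volume : Measure ℂ) := (ind_memLp hU hf).sub hv.memLp
  have hout : ∀ z, z ∉ U → v z = 0 := fun z hz =>
    image_eq_zero_of_notMem_tsupport fun h => hz (hv.supp h)
  have hg : TF U (fun z => τ (v z)) := hv.comp_smooth τ_smooth (τ_zero (by norm_num))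
  have hgi : Integrable fun z => τ (v z) := hg.cont.integrable_of_hasCompactSupport hg.comp
  have hii := ind_integrable hU hf
  -- pointwise comparison
  have h1 : ∀ z, |ind U z - τ (v z)| ≤ 16 * (ind U z - v z) ^ 2 := by
    intro z
    by_cases hz : z ∈ U
    · rw [ind_of_mem hz]
      rcases le_or_gt (3 / 4) (v z) with h' | h'
      · rw [τ_one h']; simp; positivity
      · have e1 := τ_nonneg (v z)
        have e2 := τ_le_one (v z)
        rw [abs_of_nonneg (by linarith)]
        nlinarith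
    · rw [ind_of_notMem hz, hout z hz, τ_zero (by norm_num)]
      simp
  have hi1 : Integrable fun z => |ind U z - τ (v z)| := (hii.sub hgi).abs
  have h2 : ∫ z, |ind U z - τ (v z)| ≤ 16 * ∫ z, (ind U z - v z) ^ 2 := by
    rw [← integral_const_mul]
    exact integral_mono hi1 (hd.integrable_sq.const_mul _) h1
  -- the derivative
  have h3 : ∀ z, |deriv τ (v z)| ≤ 4 * C * |ind U z - v z| := by
    intro z
    by_cases h0 : deriv τ (v z) = 0
    · rw [h0, abs_zero]; positivity
    · have e1 : 1 / 4 ≤ v z := by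
        by_contra hlt
        exact h0 (dτ_lt (not_le.mp hlt))
      have e2 : v z ≤ 3 / 4 := by
        by_contra hlt
        exact h0 (dτ_gt (not_le.mp hlt))
      have hz : z ∈ U := by
        by_contra hz
        rw [hout z hz] at e1
        norm_num at e1
      rw [ind_of_mem hz, abs_of_nonneg (show 0 ≤ 1 - v z by linarith)]
      have e3 := hC (v z)
      nlinarith
  set A := ∫ z, (ind U z - v z) ^ 2 with hA
  set E := ∫ z, (gx v z ^ 2 + gy v z ^ 2) with hE
  have hx2 : ∫ z, gx v z ^ 2 ≤ E := by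
    refine integral_mono hv.gx_tf.sq_int hv.ensq_int fun z => ?_
    show gx v z ^ 2 ≤ gx v z ^ 2 + gy v z ^ 2
    nlinarith [sq_nonneg (gy v z)]
  have hy2 : ∫ z, gy v z ^ 2 ≤ E := by
    refine integral_mono hv.gy_tf.sq_int hv.ensq_int fun z => ?_
    show gy v z ^ 2 ≤ gx v z ^ 2 + gy v z ^ 2
    nlinarith [sq_nonneg (gx v z)]
  have iab : ∀ {k : ℂ → ℝ}, MemLp k 2 (volume : Measure ℂ) →
      Integrable fun z => 4 * C * (|ind U z - v z| * |k z|) := fun hk =>
    ((memLp_abs hd).integrable_mul (memLp_abs hk)).const_mul _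
  have h4 : ∫ z, |gx (fun z => τ (v z)) z| ≤ 4 * C * (√A * √E) := by
    calc ∫ z, |gx (fun z => τ (v z)) z| ≤ ∫ z, 4 * C * (|ind U z - v z| * |gx v z|) := by
          refine integral_mono (hg.gx_cont.integrable_of_hasCompactSupport hg.gx_comp).abs
            (iab hv.gx_tf.memLp) fun z => ?_
          show |gx (fun z => τ (v z)) z| ≤ 4 * C * (|ind U z - v z| * |gx v z|)
          rw [gx_comp' (hv.diff z) (τ_smooth.differentiable (by simp) _), abs_mul]
          calc |deriv τ (v z)| * |gx v z| ≤ (4 * C * |ind U z - v z|) * |gx v z| :=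
                mul_le_mul_of_nonneg_right (h3 z) (abs_nonneg _)
            _ = _ := by ring
      _ = 4 * C * ∫ z, |ind U z - v z| * |gx v z| := integral_const_mul _ _
      _ ≤ 4 * C * (√A * √(∫ z, gx v z ^ 2)) := by
          refine mul_le_mul_of_nonneg_left ?_ (by positivity)
          exact cs hd hv.gx_tf.memLp
      _ ≤ 4 * C * (√A * √E) := by gcongr
  have h5 : ∫ z, |gy (fun z => τ (v z)) z| ≤ 4 * C * (√A * √E) := by
    calc ∫ z, |gy (fun z => τ (v z)) z| ≤ ∫ z, 4 * C * (|ind U z - v z| * |gy v z|) := by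
          refine integral_mono (hg.gy_cont.integrable_of_hasCompactSupport hg.gy_comp).abs
            (iab hv.gy_tf.memLp) fun z => ?_
          show |gy (fun z => τ (v z)) z| ≤ 4 * C * (|ind U z - v z| * |gy v z|)
          rw [gy_comp' (hv.diff z) (τ_smooth.differentiable (by simp) _), abs_mul]
          calc |deriv τ (v z)| * |gy v z| ≤ (4 * C * |ind U z - v z|) * |gy v z| :=
                mul_le_mul_of_nonneg_right (h3 z) (abs_nonneg _)
            _ = _ := by ring
      _ = 4 * C * ∫ z, |ind U z - v z| * |gy v z| := integral_const_mul _ _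
      _ ≤ 4 * C * (√A * √(∫ z, gy v z ^ 2)) := by
          refine mul_le_mul_of_nonneg_left ?_ (by positivity)
          exact cs hd hv.gy_tf.memLp
      _ ≤ 4 * C * (√A * √E) := by gcongr
  have h6 : ∫ z, (|gx (fun z => τ (v z)) z| + |gy (fun z => τ (v z)) z|) ≤ 8 * C * (√A * √E) := by
    rw [integral_add (hg.gx_cont.integrable_of_hasCompactSupport hg.gx_comp).abs
      (hg.gy_cont.integrable_of_hasCompactSupport hg.gy_comp).abs]
    linarith
  have h7 := (shift hg h).trans (mul_le_mul_of_nonneg_left h6 (norm_nonneg h))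
  -- the triangle inequality
  have hsh : ∫ z, |ind U (z + h) - τ (v (z + h))| = ∫ z, |ind U z - τ (v z)| :=
    integral_add_right_eq_self (fun z => |ind U z - τ (v z)|) h
  have j1 : Integrable fun z => |ind U (z + h) - τ (v (z + h))| := hi1.comp_add_right h
  have j2 : Integrable fun z => |τ (v (z + h)) - τ (v z)| := ((hgi.comp_add_right h).sub hgi).abs
  have j0 : Integrable fun z => |ind U (z + h) - ind U z| := ((hii.comp_add_right h).sub hii).abs
  have j12 : Integrable fun z => |ind U (z + h) - τ (v (z + h))| + |τ (v (z + h)) - τ (v z)| :=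
    j1.add j2
  calc ∫ z, |ind U (z + h) - ind U z|
      ≤ ∫ z, ((|ind U (z + h) - τ (v (z + h))| + |τ (v (z + h)) - τ (v z)|)
          + |ind U z - τ (v z)|) := by
        refine integral_mono j0 (j12.add hi1) fun z => ?_
        show |ind U (z + h) - ind U z| ≤ (|ind U (z + h) - τ (v (z + h))|
          + |τ (v (z + h)) - τ (v z)|) + |ind U z - τ (v z)|
        have e : ind U (z + h) - ind U z = (ind U (z + h) - τ (v (z + h)))
          + (τ (v (z + h)) - τ (v z)) - (ind U z - τ (v z)) := by ring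
        rw [e]
        exact (abs_sub _ _).trans (add_le_add_left (abs_add_le _ _) _)
    _ = (∫ z, |ind U (z + h) - τ (v (z + h))|) + (∫ z, |τ (v (z + h)) - τ (v z)|)
          + ∫ z, |ind U z - τ (v z)| := by
        rw [integral_add j12 hi1, integral_add j1 j2]
    _ ≤ _ := by
        rw [hsh]
        linarith

end TraX

/-- the statement of `S_TRA` with the parentheses around the first integral -/
def S_TRA1 : Prop := ∃ C : ℝ, 0 ≤ C ∧ ∀ (U : Set ℂ) (v vx vy : ℂ → ℝ), IsOpen U → volume U ≠ ⊤ → HW U v vx vy →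
  ∀ h : ℂ, ‖h‖ ≤ 4 → ∫ z, |ind U (z + h) - ind U z| ≤ C * ((∫ z, (ind U z - v z) ^ 2) +
    √(∫ z, (ind U z - v z) ^ 2) * √(∫ z, (vx z ^ 2 + vy z ^ 2)))

theorem tra1 : S_TRA1 := by
  obtain ⟨C, hC0, hC⟩ := TraX.dτ_bdd
  refine ⟨32 + 32 * C, by positivity, ?_⟩
  intro U v vx vy hU hf hv h hh
  obtain ⟨u, hu, h1, h2, h3⟩ := hv.seq
  have k1 : Tendsto (fun n => ∫ z, (ind U z - u n z) ^ 2) atTop (𝓝 (∫ z, (ind U z - v z) ^ 2)) :=
    ((L2T.const (ind_memLp hU hf)).sub h1).sq
  have k2 : Tendsto (fun n => ∫ z, (gx (u n) z ^ 2 + gy (u n) z ^ 2)) atTop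
      (𝓝 (∫ z, (vx z ^ 2 + vy z ^ 2))) := by
    have := h2.sq.add h3.sq
    rw [← integral_add hv.mp.integrable_sq hv.mq.integrable_sq] at this
    refine this.congr fun n => ?_
    rw [← integral_add (h2.ma n).integrable_sq (h3.ma n).integrable_sq]
  have k3 := (k1.const_mul 32).add (((k1.sqrt.mul k2.sqrt).const_mul (8 * C)).const_mul ‖h‖)
  have k4 := ge_of_tendsto' k3 fun n => TraX.test_bound hC0 hC hU hf (hu n) h
  refine k4.trans ?_
  set A := ∫ z, (ind U z - v z) ^ 2
  set E := ∫ z, (vx z ^ 2 + vy z ^ 2)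
  have hA : 0 ≤ A := integral_nonneg fun z => sq_nonneg _
  have hS : 0 ≤ √A * √E := by positivity
  have e1 : ‖h‖ * (8 * C * (√A * √E)) ≤ 4 * (8 * C * (√A * √E)) :=
    mul_le_mul_of_nonneg_right hh (by positivity)
  nlinarith [mul_nonneg hC0 hA]

end Pool.Agent.TH316.FQ
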