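import Pool.Agent.TH316.FQ.Stm

set_option autoImplicit false

open MeasureTheory Metric Set Filter
open scoped Topology

namespace Pool.Agent.TH316.FQ.TrfX

open Pool.Agent.Helper533.StarBox

/-- the isometry -/
noncomputable def e : ℂ ≃ₗᵢ[ℝ] Pl := Complex.orthonormalBasisOneI.repr

theorem e_apply (z : ℂ) : e z = (!₂[z.re, z.im] : Pl) := by
  ext i
  unfold e
  rw [Complex.orthonormalBasisOneI_repr_apply]

theorem toC_eq (Ω : Set Pl) : toC Ω = e ⁻¹' Ω := by
  ext z
  show _ ∈ Ω ↔ e z ∈ Ω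
  rw [e_apply]

theorem mp : MeasurePreserving e volume volume := e.measurePreserving

theorem norm_grad (u : Pl → ℝ) (z : ℂ) : ‖gradient (fun y => u (e y)) z‖ = ‖gradient u (e z)‖ := by
  unfold gradient
  rw [LinearIsometryEquiv.norm_map, LinearIsometryEquiv.norm_map]
  have h := e.toContinuousLinearEquiv.comp_right_fderiv (f := u) (x := z)
  have h2 : (u ∘ ⇑e.toContinuousLinearEquiv) = fun y => u (e y) := rfl
  rw [h2] at h
  rw [h]
  exact ContinuousLinearMap.opNorm_comp_linearIsometryEquiv _ e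

theorem int_e (f : Pl → ℝ) : ∫ z, f (e z) = ∫ x, f x :=
  mp.integral_comp e.toHomeomorph.measurableEmbedding f

theorem testP_iff (Ω : Set Pl) (u : Pl → ℝ) : TestP Ω u ↔ IsTest (toC Ω) (fun z => u (e z)) := by
  have hs : tsupport (fun z => u (e z)) = e ⁻¹' (tsupport u) :=
    tsupport_comp_eq_preimage u e.toHomeomorph
  constructor
  · rintro ⟨h1, h2, h3, x, hx⟩
    refine ⟨h1.comp e.contDiff, h2.comp_homeomorph e.toHomeomorph, ?_, e.symm x, by simpa using hx⟩
    rw [hs, toC_eq]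
    exact preimage_mono h3
  · rintro ⟨h1, h2, h3, z, hz⟩
    refine ⟨?_, ?_, ?_, e z, hz⟩
    · have := h1.comp e.symm.contDiff
      have e1 : ((fun z => u (e z)) ∘ ⇑e.symm) = u := by
        funext x
        simp
      rwa [e1] at this
    · have := h2.comp_homeomorph e.symm.toHomeomorph
      have e1 : ((fun z => u (e z)) ∘ ⇑e.symm.toHomeomorph) = u := by
        funext x
        simp
      rwa [e1] at this
    · rw [hs, toC_eq] at h3
      intro x hx
      have := h3 (show e.symm x ∈ e ⁻¹' tsupport u by simpa using hx)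
      simpa using this

theorem back (Ω : Set Pl) (v : ℂ → ℝ) (hv : IsTest (toC Ω) v) :
    ∃ u, TestP Ω u ∧ v = fun z => u (e z) := by
  have h : v = fun z => (fun x => v (e.symm x)) (e z) := by
    funext z
    simp
  refine ⟨fun x => v (e.symm x), ?_, h⟩
  rw [testP_iff, ← h]
  exact hv

theorem int_grad (u : Pl → ℝ) : ∫ z, ‖gradient (fun y => u (e y)) z‖ ^ 2 = ∫ x, ‖gradient u x‖ ^ 2 := by
  simp_rw [norm_grad]
  exact int_e fun x => ‖gradient u x‖ ^ 2

theorem lam (Ω : Set Pl) : lambda1 (toC Ω) = lamP Ω := by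
  unfold lambda1 lamP
  congr 1
  ext r
  constructor
  · rintro ⟨v, hv, rfl⟩
    obtain ⟨u, hu, rfl⟩ := back Ω v hv
    refine ⟨u, hu, ?_⟩
    unfold rayleigh
    rw [int_grad, int_e fun x => u x ^ 2]
  · rintro ⟨u, hu, rfl⟩
    refine ⟨_, (testP_iff Ω u).1 hu, ?_⟩
    unfold rayleigh
    rw [int_grad, int_e fun x => u x ^ 2]

theorem tor_eq (Ω : Set Pl) : tor (toC Ω) = torP Ω := by
  have hE : ∀ u : Pl → ℝ, En (fun z => u (e z)) (fun z => u (e z)) = ∫ x, ‖gradient u x‖ ^ 2 := by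
    intro u
    rw [← int_grad, En_self]
    simp_rw [norm_gradient_sq]
  unfold tor torP
  congr 1
  ext r
  constructor
  · rintro ⟨v, hv, rfl⟩
    obtain ⟨u, hu, rfl⟩ := back Ω v hv
    refine ⟨u, hu, ?_⟩
    rw [hE, int_e]
  · rintro ⟨u, hu, rfl⟩
    refine ⟨_, (testP_iff Ω u).1 hu, ?_⟩
    rw [hE, int_e]

end Pool.Agent.TH316.FQ.TrfX

namespace Pool.Agent.TH316.FQ

open Pool.Agent.Helper533.StarBox TrfX

/-- transfer between `ℂ` and the Euclidean plane -/
theorem trf : S_TRF := by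
  refine ⟨fun Ω hΩ => ⟨?_, ?_, lam Ω, tor_eq Ω, ?_⟩, fun U hU => ?_⟩
  · rw [toC_eq]
    exact hΩ.preimage e.continuous
  · rw [toC_eq]
    exact mp.measure_preimage hΩ.measurableSet.nullMeasurableSet
  · rintro ⟨x, hx⟩
    refine ⟨e.symm x, ?_⟩
    rw [toC_eq]
    simpa using hx
  · refine ⟨e.symm ⁻¹' U, hU.preimage e.symm.continuous, ?_⟩
    rw [toC_eq]
    ext z
    simp

end Pool.Agent.TH316.FQ
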