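import Pool.Agent.TH316.FQ.Stm
import Pool.Agent.TH316.FQ.Bas
import Pool.Agent.TH316.FQ.Tra

set_option autoImplicit false

/-! A typical ball (helper55, job FQ-TYP). -/

open MeasureTheory Metric Set Filter
open scoped Topology ENNReal

namespace Pool.Agent.TH316.FQ

open Pool.Agent.Helper533.StarBox

namespace TypX

theorem ind_meas {U : Set ℂ} (hU : IsOpen U) : Measurable (ind U) :=
  measurable_const.indicator hU.measurableSet

theorem transl (f : ℂ → ℝ≥0∞) (hf : Measurable f) (x : ℂ) :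
    ∫⁻ z in ball x 4, f z = ∫⁻ h in ball (0 : ℂ) 4, f (x + h) := by
  have h1 := (measurePreserving_add_left (volume : Measure ℂ) x).setLIntegral_comp_preimage
    (s := ball x 4) measurableSet_ball hf
  have h2 : (fun y => x + y) ⁻¹' ball x 4 = ball (0 : ℂ) 4 := by
    ext y
    simp [mem_ball, dist_eq_norm]
  rw [h2] at h1
  exact h1.symm

theorem avg {U : Set ℂ} (hU : IsOpen U) (hne : U.Nonempty) (hf : volume U ≠ ⊤) {g : ℂ → ℝ}
    (hg : Integrable g) (hg0 : ∀ z, 0 ≤ g z) {K : ℝ} (hK : 0 ≤ K) (h1 : ∫ z, g z ≤ K * ar U)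
    (h2 : ∀ h : ℂ, ‖h‖ ≤ 4 → ∫ z, |ind U (z + h) - ind U z| ≤ K * ar U) :
    ∃ x₀ ∈ U, ∫ z in ball x₀ 4, g z ≤ 2 * K * (volume (ball (0 : ℂ) 4)).toReal ∧
      (volume (ball x₀ 4 \ U)).toReal ≤ 2 * K * (volume (ball (0 : ℂ) 4)).toReal := by
  have hA : 0 ≤ ar U := ENNReal.toReal_nonneg
  have hVA : volume U = ENNReal.ofReal (ar U) := (ENNReal.ofReal_toReal hf).symm
  obtain ⟨g', hg'm, hgg'⟩ := hg.1
  have hg'm2 : Measurable g' := hg'm.measurable
  have hind := ind_meas hU
  let Φ : ℂ → ℂ → ℝ≥0∞ := fun x h =>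
    ENNReal.ofReal (g' (x + h)) + ENNReal.ofReal |ind U (x + h) - ind U x|
  have hΦ : Measurable (Function.uncurry Φ) := by
    have m1 : Measurable fun p : ℂ × ℂ => ENNReal.ofReal (g' (p.1 + p.2)) :=
      (hg'm2.comp (measurable_fst.add measurable_snd)).ennreal_ofReal
    have h3 : Measurable fun p : ℂ × ℂ => ind U (p.1 + p.2) - ind U p.1 :=
      (hind.comp (measurable_fst.add measurable_snd)).sub (hind.comp measurable_fst)
    have m2 : Measurable fun p : ℂ × ℂ => ENNReal.ofReal |ind U (p.1 + p.2) - ind U p.1| :=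
      (continuous_abs.measurable.comp h3).ennreal_ofReal
    exact m1.add m2
  let S : Set ℂ := ball (0 : ℂ) 4
  have hSm : MeasurableSet S := measurableSet_ball
  have hSf : volume S ≠ ⊤ := measure_ball_lt_top.ne
  let G : ℂ → ℝ≥0∞ := fun x => ∫⁻ h in S, Φ x h
  have hG : Measurable G := hΦ.lintegral_prod_right'
  have hswap : ∫⁻ x in U, G x = ∫⁻ h in S, ∫⁻ x in U, Φ x h :=
    lintegral_lintegral_swap hΦ.aemeasurable
  have hsl : ∀ h ∈ S, ∫⁻ x in U, Φ x h ≤ ENNReal.ofReal (2 * K * ar U) := by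
    intro h hh
    have hh4 : ‖h‖ ≤ 4 := by
      have : h ∈ ball (0 : ℂ) 4 := hh
      rw [mem_ball, dist_zero_right] at this
      exact this.le
    have e1 : ∫⁻ x, ENNReal.ofReal (g' (x + h)) ≤ ENNReal.ofReal (K * ar U) := by
      rw [lintegral_add_right_eq_self (fun x => ENNReal.ofReal (g' x)) h]
      have e2 : ∫⁻ x, ENNReal.ofReal (g' x) = ∫⁻ x, ENNReal.ofReal (g x) := by
        apply lintegral_congr_ae
        filter_upwards [hgg'] with x hx
        rw [hx]
      rw [e2, ← ofReal_integral_eq_lintegral_ofReal hg (Eventually.of_forall hg0)]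
      exact ENNReal.ofReal_le_ofReal h1
    have i1 : Integrable fun z => ind U (z + h) - ind U z :=
      ((ind_integrable hU hf).comp_add_right h).sub (ind_integrable hU hf)
    have e3 : ∫⁻ x, ENNReal.ofReal |ind U (x + h) - ind U x| ≤ ENNReal.ofReal (K * ar U) := by
      rw [← ofReal_integral_eq_lintegral_ofReal i1.abs (Eventually.of_forall fun z => abs_nonneg _)]
      exact ENNReal.ofReal_le_ofReal (h2 h hh4)
    calc ∫⁻ x in U, Φ x h ≤ ∫⁻ x, Φ x h := setLIntegral_le_lintegral _ _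
      _ = (∫⁻ x, ENNReal.ofReal (g' (x + h))) + ∫⁻ x, ENNReal.ofReal |ind U (x + h) - ind U x| := by
          apply lintegral_add_left
          exact (hg'm2.comp (measurable_id.add_const h)).ennreal_ofReal
      _ ≤ ENNReal.ofReal (K * ar U) + ENNReal.ofReal (K * ar U) := add_le_add e1 e3
      _ = ENNReal.ofReal (2 * K * ar U) := by
          rw [← ENNReal.ofReal_add (by positivity) (by positivity)]
          congr 1
          ring
  have htot : ∫⁻ x in U, G x ≤ ENNReal.ofReal (2 * K * ar U) * volume S := by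
    rw [hswap]
    calc ∫⁻ h in S, ∫⁻ x in U, Φ x h ≤ ∫⁻ _h in S, ENNReal.ofReal (2 * K * ar U) :=
          setLIntegral_mono' hSm hsl
      _ = _ := by rw [setLIntegral_const]
  have hU0 : volume U ≠ 0 := (hU.measure_pos volume hne).ne'
  obtain ⟨x₀, hx₀, hav⟩ := exists_le_setLAverage (μ := volume) hU0 hf hG.aemeasurable
  have hGx : G x₀ ≤ ENNReal.ofReal (2 * K) * volume S := by
    refine hav.trans ?_
    rw [setLAverage_eq]
    apply ENNReal.div_le_of_le_mul
    refine htot.trans (le_of_eq ?_)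
    rw [ENNReal.ofReal_mul (by positivity), ← hVA]
    ring
  have hSr : ENNReal.ofReal (2 * K) * volume S =
      ENNReal.ofReal (2 * K * (volume (ball (0 : ℂ) 4)).toReal) := by
    rw [ENNReal.ofReal_mul (p := 2 * K) (by positivity), ENNReal.ofReal_toReal hSf]
  have hc : 0 ≤ 2 * K * (volume (ball (0 : ℂ) 4)).toReal := by positivity
  rw [hSr] at hGx
  refine ⟨x₀, hx₀, ?_, ?_⟩
  · rw [← ENNReal.ofReal_le_ofReal_iff hc]
    rw [ofReal_integral_eq_lintegral_ofReal hg.integrableOn (Eventually.of_forall hg0)]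
    have e2 : ∫⁻ x in ball x₀ 4, ENNReal.ofReal (g x) = ∫⁻ x in ball x₀ 4, ENNReal.ofReal (g' x) := by
      apply lintegral_congr_ae
      filter_upwards [ae_restrict_of_ae hgg'] with x hx
      rw [hx]
    rw [e2, transl _ hg'm2.ennreal_ofReal]
    refine le_trans ?_ hGx
    apply lintegral_mono
    intro h
    exact le_self_add
  · apply ENNReal.toReal_le_of_le_ofReal hc
    refine le_trans ?_ hGx
    have e3 : volume (ball x₀ 4 \ U) = ∫⁻ z in ball x₀ 4, Uᶜ.indicator 1 z := by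
      rw [lintegral_indicator_one hU.measurableSet.compl, Measure.restrict_apply
        hU.measurableSet.compl, Set.sdiff_eq, inter_comm]
    rw [e3, transl _ (measurable_one.indicator hU.measurableSet.compl)]
    apply lintegral_mono
    intro h
    refine le_trans (le_of_eq ?_) le_add_self
    show Uᶜ.indicator 1 (x₀ + h) = ENNReal.ofReal |ind U (x₀ + h) - ind U x₀|
    rw [ind_of_mem hx₀]
    by_cases hm : x₀ + h ∈ U
    · rw [ind_of_mem hm, indicator_of_notMem (by simpa using hm)]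
      simp
    · rw [ind_of_notMem hm, indicator_of_mem (by simpa using hm)]
      simp

theorem square_bound {w v H Λ η : ℝ} (hw0 : 0 ≤ w) (hv0 : 0 ≤ v) (hvw : v ≤ w) (hwH : w ≤ H)
    (hH : 1 ≤ H) (hΛ : |Λ - 1| ≤ η) :
    (2 * w - v ^ 2 - Λ * 1) ^ 2 ≤ 3 * (1 + H) ^ 2 * (1 - w) ^ 2 + 12 * H ^ 2 * (w - v) ^ 2 +
      3 * η ^ 2 * 1 := by
  have e : 2 * w - v ^ 2 - Λ * 1 = -(1 - w) * (1 - w) + (w - v) * (w + v) + (1 - Λ) := by ring
  have h3 : ∀ a b c : ℝ, (a + b + c) ^ 2 ≤ 3 * a ^ 2 + 3 * b ^ 2 + 3 * c ^ 2 := by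
    intro a b c
    nlinarith [sq_nonneg (a - b), sq_nonneg (b - c), sq_nonneg (a - c)]
  rw [e]
  refine (h3 _ _ _).trans ?_
  have g1 : (-(1 - w) * (1 - w)) ^ 2 ≤ (1 + H) ^ 2 * (1 - w) ^ 2 := by
    have : (-(1 - w) * (1 - w)) ^ 2 = (1 - w) ^ 2 * (1 - w) ^ 2 := by ring
    rw [this]
    apply mul_le_mul_of_nonneg_right _ (sq_nonneg _)
    apply sq_le_sq'
    · linarith
    · linarith
  have g2 : ((w - v) * (w + v)) ^ 2 ≤ 4 * H ^ 2 * (w - v) ^ 2 := by
    have : ((w - v) * (w + v)) ^ 2 = (w + v) ^ 2 * (w - v) ^ 2 := by ring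
    rw [this]
    apply mul_le_mul_of_nonneg_right _ (sq_nonneg _)
    have : 4 * H ^ 2 = (2 * H) ^ 2 := by ring
    rw [this]
    apply sq_le_sq' <;> linarith
  have g3 : (1 - Λ) ^ 2 ≤ η ^ 2 := by
    rw [← sq_abs (1 - Λ), abs_sub_comm]
    exact pow_le_pow_left₀ (abs_nonneg _) hΛ 2
  linarith

end TypX

open TypX in
theorem typ (hHOP : S_HOP) (hSUP : S_SUP) (hOUT : S_OUT) (hTRA : S_TRA1) : S_TYP := by
  obtain ⟨H, hH1, hH⟩ := hSUP
  obtain ⟨CT, hCT, hT⟩ := hTRA
  intro η₁ hη₁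
  set B : ℝ := (volume (ball (0 : ℂ) 4)).toReal with hB
  have hB0 : 0 ≤ B := ENNReal.toReal_nonneg
  set KF : ℝ := 3 * (1 + H) ^ 2 + 12 * H ^ 2 + 3 with hKF
  set K₀ : ℝ := 2 + 2 * KF + CT * (4 + 2 * H) with hK₀
  have hKF0 : 0 ≤ KF := by positivity
  have hK₀0 : 0 ≤ K₀ := by positivity
  set s : ℝ := min 1 (η₁ / (6 * B * K₀ + 1)) with hs
  have hs0 : 0 < s := lt_min one_pos (by positivity)
  have hs1 : s ≤ 1 := min_le_left _ _
  have hs2 : 6 * B * K₀ * s ≤ η₁ := by
    have h1 : s ≤ η₁ / (6 * B * K₀ + 1) := min_le_right _ _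
    rw [le_div_iff₀ (by positivity)] at h1
    nlinarith
  refine ⟨s ^ 2, by positivity, ?_⟩
  intro U w wx wy v vx vy Λ D
  have hUo : IsOpen U := D.adm.1
  have hne : U.Nonempty := D.adm.2.1
  have hfin : volume U ≠ ⊤ := D.adm.2.2
  have hA : 0 ≤ ar U := ENNReal.toReal_nonneg
  have w0 : ∀ᵐ z, 0 ≤ w z := by
    filter_upwards [D.v0, D.vw] with z h1 h2
    linarith
  have wH := hH U w wx wy hUo hfin D.hw D.ew w0 D.pc
  have wout := hOUT U w wx wy hUo D.hw
  have vout := hOUT U v vx vy hUo D.hv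
  have mI : MemLp (ind U) 2 (volume : Measure ℂ) := ind_memLp hUo hfin
  have mIw : MemLp (fun z => ind U z - w z) 2 (volume : Measure ℂ) := mI.sub D.hw.mf
  have mIv : MemLp (fun z => ind U z - v z) 2 (volume : Measure ℂ) := mI.sub D.hv.mf
  have mwv : MemLp (fun z => w z - v z) 2 (volume : Measure ℂ) := D.hw.mf.sub D.hv.mf
  have hs2' : s ^ 2 ≤ 1 := pow_le_one₀ hs0.le hs1
  have hss : s ^ 2 ≤ s := by nlinarith
  -- the function `HF`
  have mv2 : MemLp (fun z => v z ^ 2) 2 (volume : Measure ℂ) := by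
    refine MemLp.of_le_mul (c := H) D.hv.mf (D.hv.mf.1.pow 2) ?_
    filter_upwards [D.v0, D.vw, wH] with z h1 h2 h3
    rw [Real.norm_eq_abs, Real.norm_eq_abs, abs_of_nonneg h1, abs_of_nonneg (sq_nonneg _)]
    nlinarith
  have mHF : MemLp (HF U w v Λ) 2 (volume : Measure ℂ) :=
    ((D.hw.mf.const_mul 2).sub mv2).sub (mI.const_mul Λ)
  have hHFp : ∀ᵐ z, HF U w v Λ z ^ 2 ≤ 3 * (1 + H) ^ 2 * (ind U z - w z) ^ 2 +
      12 * H ^ 2 * (w z - v z) ^ 2 + 3 * (s ^ 2) ^ 2 * ind U z := by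
    filter_upwards [D.v0, D.vw, wH, w0, wout, vout] with z h1 h2 h3 h4 h5 h6
    unfold HF
    by_cases hz : z ∈ U
    · rw [ind_of_mem hz]
      exact square_bound h4 h1 h2 h3 hH1 D.sL
    · rw [ind_of_notMem hz, (h5 hz).1, (h6 hz).1]
      simp
  have iI := ind_integrable hUo hfin
  have hHFi : ∫ z, HF U w v Λ z ^ 2 ≤ KF * s ^ 2 * ar U := by
    calc ∫ z, HF U w v Λ z ^ 2 ≤ ∫ z, (3 * (1 + H) ^ 2 * (ind U z - w z) ^ 2 +
          12 * H ^ 2 * (w z - v z) ^ 2 + 3 * (s ^ 2) ^ 2 * ind U z) := by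
          apply integral_mono_ae mHF.integrable_sq _ hHFp
          exact ((mIw.integrable_sq.const_mul _).add (mwv.integrable_sq.const_mul _)).add
            (iI.const_mul _)
      _ = 3 * (1 + H) ^ 2 * (∫ z, (ind U z - w z) ^ 2) + 12 * H ^ 2 * (∫ z, (w z - v z) ^ 2) +
          3 * (s ^ 2) ^ 2 * ar U := by
          rw [integral_add (by
            exact (mIw.integrable_sq.const_mul _).add (mwv.integrable_sq.const_mul _))
            (iI.const_mul _), integral_add (mIw.integrable_sq.const_mul _)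
            (mwv.integrable_sq.const_mul _), integral_const_mul, integral_const_mul,
            integral_const_mul, integral_ind hUo]
      _ ≤ 3 * (1 + H) ^ 2 * (s ^ 2 * ar U) + 12 * H ^ 2 * (s ^ 2 * ar U) +
          3 * (s ^ 2 * 1) * ar U := by
          have g1 := mul_le_mul_of_nonneg_left D.sw (show 0 ≤ 3 * (1 + H) ^ 2 by positivity)
          have g2 := mul_le_mul_of_nonneg_left D.sb (show 0 ≤ 12 * H ^ 2 by positivity)
          have g3 : 3 * (s ^ 2) ^ 2 * ar U ≤ 3 * (s ^ 2 * 1) * ar U := by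
            apply mul_le_mul_of_nonneg_right _ hA
            have : (s ^ 2) ^ 2 = s ^ 2 * s ^ 2 := by ring
            rw [this]
            have := mul_le_mul_of_nonneg_left hs2' (show 0 ≤ s ^ 2 by positivity)
            linarith
          linarith
      _ = KF * s ^ 2 * ar U := by rw [hKF]; ring
  -- the Hopf differential
  have iP : Integrable (HP wx wy vx vy) :=
    (D.hw.mp.integrable_sq.sub D.hw.mq.integrable_sq).sub
      (D.hv.mp.integrable_sq.sub D.hv.mq.integrable_sq)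
  have iR : Integrable (HR wx wy vx vy) := by
    have h1 : Integrable fun z => wx z * wy z := D.hw.mp.integrable_mul D.hw.mq
    have h2 : Integrable fun z => vx z * vy z := D.hv.mp.integrable_mul D.hv.mq
    refine ((h1.const_mul 2).sub (h2.const_mul 2)).congr (Eventually.of_forall fun z => ?_)
    show 2 * (wx z * wy z) - 2 * (vx z * vy z) = 2 * wx z * wy z - 2 * vx z * vy z
    ring
  obtain ⟨mP, mR, bP, bR⟩ := hHOP _ _ _ iP iR mHF D.st
  -- the gradient of `v`
  have hgv : ∫ z, (vx z ^ 2 + vy z ^ 2) ≤ H ^ 2 * ar U := by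
    have e1 := D.ev.hw D.hv.mp D.hv.mq D.hv.mf D.hv
    have e2 : ∫ z, (vx z ^ 2 + vy z ^ 2) = ∫ z, (vx z * vx z + vy z * vy z) := by
      congr 1; ext z; ring
    rw [e2, e1, ← integral_ind hUo, ← integral_const_mul]
    apply integral_mono_ae _ (iI.const_mul _)
    · filter_upwards [D.v0, D.vw, wH, vout] with z h1 h2 h3 h4
      by_cases hz : z ∈ U
      · rw [ind_of_mem hz]
        show v z * v z ≤ H ^ 2 * 1
        nlinarith
      · rw [ind_of_notMem hz]
        show v z * v z ≤ H ^ 2 * 0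
        rw [(h4 hz).1]
        simp
    · exact D.hv.mf.integrable_mul D.hv.mf
  have hIv : ∫ z, (ind U z - v z) ^ 2 ≤ 4 * (s ^ 2 * ar U) := by
    calc ∫ z, (ind U z - v z) ^ 2 ≤ ∫ z, (2 * (ind U z - w z) ^ 2 + 2 * (w z - v z) ^ 2) := by
          apply integral_mono mIv.integrable_sq
            ((mIw.integrable_sq.const_mul _).add (mwv.integrable_sq.const_mul _))
          intro z
          show (ind U z - v z) ^ 2 ≤ 2 * (ind U z - w z) ^ 2 + 2 * (w z - v z) ^ 2
          nlinarith [sq_nonneg ((ind U z - w z) - (w z - v z))]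
      _ = 2 * (∫ z, (ind U z - w z) ^ 2) + 2 * ∫ z, (w z - v z) ^ 2 := by
          rw [integral_add (mIw.integrable_sq.const_mul _) (mwv.integrable_sq.const_mul _),
            integral_const_mul, integral_const_mul]
      _ ≤ 4 * (s ^ 2 * ar U) := by
          have g1 := D.sw
          have g2 := D.sb
          linarith
  have hsh : ∀ h : ℂ, ‖h‖ ≤ 4 → ∫ z, |ind U (z + h) - ind U z| ≤ K₀ * s * ar U := by
    intro h hh
    refine (hT U v vx vy hUo hfin D.hv h hh).trans ?_
    have g1 : √(∫ z, (ind U z - v z) ^ 2) * √(∫ z, (vx z ^ 2 + vy z ^ 2)) ≤ 2 * H * s * ar U := by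
      rw [← Real.sqrt_mul (integral_nonneg fun z => sq_nonneg _)]
      apply Real.sqrt_le_iff.2
      refine ⟨by positivity, ?_⟩
      calc (∫ z, (ind U z - v z) ^ 2) * ∫ z, (vx z ^ 2 + vy z ^ 2)
          ≤ (4 * (s ^ 2 * ar U)) * (H ^ 2 * ar U) := by
            apply mul_le_mul hIv hgv (integral_nonneg fun z => by positivity) (by positivity)
        _ = (2 * H * s * ar U) ^ 2 := by ring
    calc CT * ((∫ z, (ind U z - v z) ^ 2) +
          √(∫ z, (ind U z - v z) ^ 2) * √(∫ z, (vx z ^ 2 + vy z ^ 2)))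
        ≤ CT * (4 * (s * ar U) + 2 * H * s * ar U) := by
          apply mul_le_mul_of_nonneg_left _ hCT
          have g2 : s ^ 2 * ar U ≤ s * ar U := mul_le_mul_of_nonneg_right hss hA
          linarith
      _ = CT * (4 + 2 * H) * s * ar U := by ring
      _ ≤ K₀ * s * ar U := by
          apply mul_le_mul_of_nonneg_right _ hA
          apply mul_le_mul_of_nonneg_right _ hs0.le
          rw [hK₀]
          linarith
  -- the averaged function
  set g : ℂ → ℝ := fun z => (ind U z - w z) ^ 2 + (w z - v z) ^ 2 +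
    (HP wx wy vx vy z ^ 2 + HR wx wy vx vy z ^ 2) with hg
  have i1 := mIw.integrable_sq
  have i2 := mwv.integrable_sq
  have i3 : Integrable fun z => HP wx wy vx vy z ^ 2 + HR wx wy vx vy z ^ 2 :=
    mP.integrable_sq.add mR.integrable_sq
  have i12 : Integrable fun z => (ind U z - w z) ^ 2 + (w z - v z) ^ 2 := i1.add i2
  have ig : Integrable g := i12.add i3
  have g0 : ∀ z, 0 ≤ g z := fun z => by simp only [hg]; positivity
  have hgi : ∫ z, g z ≤ K₀ * s * ar U := by
    have e1 : ∫ z, g z = (∫ z, (ind U z - w z) ^ 2) + (∫ z, (w z - v z) ^ 2) +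
        ((∫ z, HP wx wy vx vy z ^ 2) + ∫ z, HR wx wy vx vy z ^ 2) := by
      rw [hg, integral_add i12 i3, integral_add i1 i2,
        integral_add mP.integrable_sq mR.integrable_sq]
    rw [e1]
    have g1 := D.sw
    have g2 := D.sb
    have g3 : s ^ 2 * ar U ≤ s * ar U := mul_le_mul_of_nonneg_right hss hA
    have g4 : (2 + 2 * KF) * (s ^ 2 * ar U) ≤ (2 + 2 * KF) * (s * ar U) :=
      mul_le_mul_of_nonneg_left g3 (by positivity)
    have g5 : 0 ≤ CT * (4 + 2 * H) * s * ar U := by positivity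
    have g6 : K₀ * s * ar U = (2 + 2 * KF) * (s * ar U) + CT * (4 + 2 * H) * s * ar U := by
      rw [hK₀]; ring
    rw [g6]
    linarith
  obtain ⟨x₀, hx₀, b1, b2⟩ := avg hUo hne hfin ig g0 (K := K₀ * s) (by positivity) hgi hsh
  rw [← hB] at b1 b2
  have hc : 3 * (2 * (K₀ * s) * B) ≤ η₁ := by
    have : 3 * (2 * (K₀ * s) * B) = 6 * B * K₀ * s := by ring
    rw [this]
    exact hs2
  have hc0 : 0 ≤ 2 * (K₀ * s) * B := by positivity
  -- comparison on the ball
  have hball : ∫ z in ball x₀ 4, (1 - ind U z) = (volume (ball x₀ 4 \ U)).toReal := by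
    have e1 : ∀ z, 1 - ind U z = (Uᶜ).indicator (fun _ => (1 : ℝ)) z := by
      intro z
      by_cases hz : z ∈ U
      · rw [ind_of_mem hz, indicator_of_notMem (by simpa using hz)]
        norm_num
      · rw [ind_of_notMem hz, indicator_of_mem (by simpa using hz)]
        norm_num
    simp_rw [e1]
    rw [integral_indicator hUo.measurableSet.compl, Measure.restrict_restrict
      hUo.measurableSet.compl, inter_comm, ← Set.sdiff_eq]
    simp [Measure.real]
  have iball : IntegrableOn (fun z => 1 - ind U z) (ball x₀ 4) :=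
    (integrableOn_const measure_ball_lt_top.ne).sub iI.integrableOn
  have cmp : ∀ f : ℂ → ℝ, (∀ᵐ z, z ∉ U → f z = 0) → ∀ᵐ z, (1 - f z) ^ 2 =
      (ind U z - f z) ^ 2 + (1 - ind U z) := by
    intro f hf
    filter_upwards [hf] with z hz
    by_cases hm : z ∈ U
    · rw [ind_of_mem hm]; ring
    · rw [ind_of_notMem hm, hz hm]; ring
  have gle : ∀ f : ℂ → ℝ, Integrable f → (∀ z, f z ≤ g z) →
      ∫ z in ball x₀ 4, f z ≤ 2 * (K₀ * s) * B := by
    intro f hf hfg
    exact (integral_mono hf.integrableOn ig.integrableOn hfg).trans b1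
  refine ⟨x₀, hx₀, ?_, ?_, i3.integrableOn, ?_, ?_⟩
  · have e1 : ∫ z in ball x₀ 4, (1 - w z) ^ 2 =
        (∫ z in ball x₀ 4, (ind U z - w z) ^ 2) + ∫ z in ball x₀ 4, (1 - ind U z) := by
      rw [← integral_add i1.integrableOn iball]
      apply integral_congr_ae
      exact ae_restrict_of_ae (cmp w (wout.mono fun z hz h => (hz h).1))
    rw [e1, hball]
    have h1 := gle _ i1 (fun z => by
      show (ind U z - w z) ^ 2 ≤ (ind U z - w z) ^ 2 + (w z - v z) ^ 2 +
        (HP wx wy vx vy z ^ 2 + HR wx wy vx vy z ^ 2)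
      have : 0 ≤ (w z - v z) ^ 2 + (HP wx wy vx vy z ^ 2 + HR wx wy vx vy z ^ 2) := by positivity
      linarith)
    linarith
  · have e1 : ∫ z in ball x₀ 4, (1 - v z) ^ 2 =
        (∫ z in ball x₀ 4, (ind U z - v z) ^ 2) + ∫ z in ball x₀ 4, (1 - ind U z) := by
      rw [← integral_add mIv.integrable_sq.integrableOn iball]
      apply integral_congr_ae
      exact ae_restrict_of_ae (cmp v (vout.mono fun z hz h => (hz h).1))
    rw [e1, hball]
    have h1 := gle (fun z => (1 / 2) * (ind U z - v z) ^ 2) (mIv.integrable_sq.const_mul _)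
      (fun z => by
        show (1 / 2) * (ind U z - v z) ^ 2 ≤ (ind U z - w z) ^ 2 + (w z - v z) ^ 2 +
          (HP wx wy vx vy z ^ 2 + HR wx wy vx vy z ^ 2)
        have : 0 ≤ (HP wx wy vx vy z ^ 2 + HR wx wy vx vy z ^ 2) := by positivity
        nlinarith [sq_nonneg ((ind U z - w z) - (w z - v z))])
    rw [integral_const_mul] at h1
    linarith
  · have h1 := gle _ i3 (fun z => by
      show HP wx wy vx vy z ^ 2 + HR wx wy vx vy z ^ 2 ≤ (ind U z - w z) ^ 2 + (w z - v z) ^ 2 +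
        (HP wx wy vx vy z ^ 2 + HR wx wy vx vy z ^ 2)
      have : 0 ≤ (ind U z - w z) ^ 2 + (w z - v z) ^ 2 := by positivity
      linarith)
    linarith
  · linarith

end Pool.Agent.TH316.FQ
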