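import Pool.Agent.TH316.FQ.Stm

set_option autoImplicit false

open MeasureTheory Metric Set Filter
open scoped Topology

namespace Pool.Agent.TH316.FQ

open Pool.Agent.Helper533.StarBox

namespace UscX

theorem av_cont {f : ℂ → ℝ} (hloc : LocallyIntegrable f (volume : Measure ℂ)) {R : ℝ} (hR : 0 < R) :
    Continuous (fun x => Av f R x) := by
  have hc : HasCompactSupport (ww R) := by
    have := ww_comp hR 0
    simpa using this
  have := HasCompactSupport.continuous_convolution_right (ContinuousLinearMap.mul ℝ ℝ) hc hloc (ww_cont R)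
  have e : (fun x => ∫ y, f y * ww R (y - x)) = convolution f (ww R) (ContinuousLinearMap.mul ℝ ℝ) volume := by
    ext z
    unfold convolution
    congr 1; ext y
    have : ww R (y - z) = ww R (z - y) := by unfold ww; rw [norm_sub_rev]
    rw [this]; rfl
  have h2 : (fun x => Av f R x) = fun x => (fun x => ∫ y, f y * ww R (y - x)) x / m0 := rfl
  rw [h2, e]
  exact this.div_const _

end UscX

theorem usc (hAV : S_AV) (hLEB : S_LEB) : S_USC := by
  intro f c hf hc hsub
  obtain ⟨κ, hκ0, hκ1, hA⟩ := hAV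
  obtain ⟨-, -, -, h4⟩ := hA f c hf hc hsub
  have hloc : LocallyIntegrable f (volume : Measure ℂ) := hf.locallyIntegrable (by norm_num)
  filter_upwards [hLEB f hloc] with x hx
  intro ε hε
  -- choose t
  have h1 : ∀ᶠ t in 𝓝[>] (0:ℝ), Av f t x < f x + ε / 3 := hx.eventually (gt_mem_nhds (by linarith))
  have h2 : ∀ᶠ t in 𝓝[>] (0:ℝ), c / 4 * t ^ 2 < ε / 3 := by
    have h3 : Tendsto (fun t : ℝ => c / 4 * t ^ 2) (𝓝[>] 0) (𝓝 0) := by
      have : Tendsto (fun t : ℝ => c / 4 * t ^ 2) (𝓝 0) (𝓝 (c / 4 * 0 ^ 2)) := by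
        apply Continuous.tendsto
        fun_prop
      rw [show c / 4 * (0:ℝ) ^ 2 = 0 by ring] at this
      exact this.mono_left nhdsWithin_le_nhds
    exact h3.eventually (gt_mem_nhds (by linarith))
  have h5 : ∀ᶠ t in 𝓝[>] (0:ℝ), 0 < t := self_mem_nhdsWithin
  obtain ⟨t, ht1, ht2, ht0⟩ := (h1.and (h2.and h5)).exists
  have hcont := (UscX.av_cont hloc ht0).continuousAt (x := x)
  have h6 : ∀ᶠ y in 𝓝 x, Av f t y < f x + ε / 3 + ε / 3 := hcont.eventually (gt_mem_nhds (by linarith))
  obtain ⟨r, hr, hr1⟩ := Metric.eventually_nhds_iff_ball.mp h6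
  refine ⟨r, hr, ?_⟩
  filter_upwards [h4] with z hz hzb
  have h7 := hz t ht0
  have h8 := hr1 z hzb
  linarith

end Pool.Agent.TH316.FQ
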