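import Pool.Agent.TH316.FQ.Bas

set_option autoImplicit false

open MeasureTheory Metric Set Filter
open scoped Topology

namespace Pool.Agent.TH316.FQ

open Pool.Agent.Helper533.StarBox

theorem Wso_lap_cont {V : Set ℂ} {φ : ℂ → ℝ} (hφ : TF V φ) : Continuous (lap φ) := hφ.lap_tf.cont

theorem Wso_lap_memLp {V : Set ℂ} {φ : ℂ → ℝ} (hφ : TF V φ) :
    MemLp (lap φ) 2 (volume : Measure ℂ) := hφ.lap_tf.memLp

theorem wd : S_WD := by
  intro U f p q h φ hφ
  obtain ⟨u, hu, h1, h2, h3⟩ := h.seq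
  have k1 := h2.mul (L2T.const hφ.gx_tf.memLp)
  have k2 := h3.mul (L2T.const hφ.gy_tf.memLp)
  have k3 := (h1.mul (L2T.const (Wso_lap_memLp hφ))).neg
  have k4 := k1.add k2
  have j1 : Integrable fun z => p z * gx φ z := h.mp.integrable_mul hφ.gx_tf.memLp
  have j2 : Integrable fun z => q z * gy φ z := h.mq.integrable_mul hφ.gy_tf.memLp
  rw [← integral_add j1 j2] at k4
  refine tendsto_nhds_unique (k4.congr fun n => ?_) k3
  have j3 : Integrable fun z => gx (u n) z * gx φ z := (h2.ma n).integrable_mul hφ.gx_tf.memLp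
  have j4 : Integrable fun z => gy (u n) z * gy φ z := (h3.ma n).integrable_mul hφ.gy_tf.memLp
  rw [← ibp (hu n) hφ, En, integral_add j3 j4]

theorem out : S_OUT := by
  intro U f p q _ h
  obtain ⟨u, hu, h1, h2, h3⟩ := h.seq
  obtain ⟨a, ha, ha'⟩ := h1.subseq
  obtain ⟨b, hb, hb'⟩ := h2.subseq
  obtain ⟨c, hc, hc'⟩ := h3.subseq
  filter_upwards [ha', hb', hc'] with z e1 e2 e3 hz
  have hz' : ∀ n, z ∉ tsupport (u n) := fun n h => hz ((hu n).supp h)
  have f1 : ∀ n, u n z = 0 := fun n => image_eq_zero_of_notMem_tsupport (hz' n)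
  have f2 : ∀ n, gx (u n) z = 0 := fun n => TF.gx_zero (hz' n)
  have f3 : ∀ n, gy (u n) z = 0 := fun n => TF.gy_zero (hz' n)
  refine ⟨?_, ?_, ?_⟩
  · refine tendsto_nhds_unique e1 ?_
    simp only [f1]; exact tendsto_const_nhds
  · refine tendsto_nhds_unique e2 ?_
    simp only [f2]; exact tendsto_const_nhds
  · refine tendsto_nhds_unique e3 ?_
    simp only [f3]; exact tendsto_const_nhds

/-- product with a bounded continuous function is in `L²` -/
theorem Wso_bm {χ k : ℂ → ℝ} (hχ : Continuous χ) {C : ℝ} (hC : ∀ z, |χ z| ≤ C)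
    (hk : MemLp k 2 (volume : Measure ℂ)) : MemLp (fun z => χ z * k z) 2 (volume : Measure ℂ) :=
  ((L2T.const hk).bmul hχ.aestronglyMeasurable hC).mf

/-- the chain rule for the square, tested with `φ` -/
theorem Wso_half {U : Set ℂ} {f p q : ℂ → ℝ} (h : HW U f p q) {φ : ℂ → ℝ} (hφ : TF univ φ) :
    2 * ((∫ z, f z * (gx φ z * p z)) + ∫ z, f z * (gy φ z * q z)) = - ∫ z, f z ^ 2 * lap φ z := by
  obtain ⟨u, hu, h1, h2, h3⟩ := h.seq
  obtain ⟨C, _, _, hx, hy⟩ := TF_bdd hφ
  obtain ⟨C', _, hl, _, _⟩ := TF_bdd hφ.lap_tf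
  have k1 := h1.mul (h2.bmul hφ.gx_cont.aestronglyMeasurable hx)
  have k2 := h1.mul (h3.bmul hφ.gy_cont.aestronglyMeasurable hy)
  have k3 := h1.mul (h1.bmul (Wso_lap_cont hφ).aestronglyMeasurable hl)
  have k4 := (k1.add k2).const_mul 2
  have e0 : ∫ z, f z ^ 2 * lap φ z = ∫ z, f z * (lap φ z * f z) := by
    congr 1; ext z; ring
  rw [e0]
  refine tendsto_nhds_unique k4 (k3.neg.congr fun n => ?_)
  have hsq : TF U (fun z => u n z * u n z) := (hu n).mul_smooth (hu n).smooth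
  have e1 := ibp hsq hφ
  have e2 : ∫ z, u n z * (lap φ z * u n z) = ∫ z, u n z * u n z * lap φ z := by
    congr 1; ext z; ring
  rw [e2, ← e1, En]
  have e3 : (fun z => gx (fun z => u n z * u n z) z * gx φ z + gy (fun z => u n z * u n z) z * gy φ z)
      = fun z => 2 * (u n z * (gx φ z * gx (u n) z) + u n z * (gy φ z * gy (u n) z)) := by
    ext z
    rw [gx_mul ((hu n).diff z) ((hu n).diff z), gy_mul ((hu n).diff z) ((hu n).diff z)]
    ring
  have j1 : Integrable fun z => u n z * (gx φ z * gx (u n) z) :=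
    (h1.ma n).integrable_mul (Wso_bm hφ.gx_cont hx (h2.ma n))
  have j2 : Integrable fun z => u n z * (gy φ z * gy (u n) z) :=
    (h1.ma n).integrable_mul (Wso_bm hφ.gy_cont hy (h3.ma n))
  rw [e3, integral_const_mul, integral_add j1 j2]

theorem sqq : S_SQ := by
  intro U f p q k _ h hk hw φ hφ
  obtain ⟨C, _, h0, hx, hy⟩ := TF_bdd hφ
  have hφc := hφ.cont
  have hm := h.mul_tf hφ
  have e1 := hw.hw h.mp h.mq hk hm
  have e2 := Wso_half h hφ
  -- integrability
  have i1 : Integrable fun z => p z * (φ z * p z) := h.mp.integrable_mul (Wso_bm hφc h0 h.mp)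
  have i2 : Integrable fun z => q z * (φ z * q z) := h.mq.integrable_mul (Wso_bm hφc h0 h.mq)
  have i3 : Integrable fun z => f z * (gx φ z * p z) :=
    h.mf.integrable_mul (Wso_bm hφ.gx_cont hx h.mp)
  have i4 : Integrable fun z => f z * (gy φ z * q z) :=
    h.mf.integrable_mul (Wso_bm hφ.gy_cont hy h.mq)
  have i5 : Integrable fun z => k z * (φ z * f z) := hk.integrable_mul (Wso_bm hφc h0 h.mf)
  have i12 : Integrable fun z => p z * (φ z * p z) + q z * (φ z * q z) := i1.add i2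
  have i34 : Integrable fun z => f z * (gx φ z * p z) + f z * (gy φ z * q z) := i3.add i4
  have e3 : ∫ z, (p z * (φ z * p z + gx φ z * f z) + q z * (φ z * q z + gy φ z * f z))
      = ((∫ z, p z * (φ z * p z)) + ∫ z, q z * (φ z * q z)) +
        ((∫ z, f z * (gx φ z * p z)) + ∫ z, f z * (gy φ z * q z)) := by
    rw [← integral_add i1 i2, ← integral_add i3 i4, ← integral_add i12 i34]
    congr 1; ext z
    ring
  rw [e3] at e1
  have e4 : ∫ z, (p z ^ 2 + q z ^ 2 - f z * k z) * φ z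
      = ((∫ z, p z * (φ z * p z)) + ∫ z, q z * (φ z * q z)) - ∫ z, k z * (φ z * f z) := by
    rw [← integral_add i1 i2, ← integral_sub i12 i5]
    congr 1; ext z
    ring
  rw [e4]
  linarith

end Pool.Agent.TH316.FQ
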