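import Pool.Agent.TH316.FQ.Stm
import Pool.Agent.TH316.FQ.Bas
set_option autoImplicit false

/-! A zero of the torsion function. -/

open MeasureTheory Metric Set Filter
open scoped Topology

namespace Pool.Agent.TH316.FQ

open Pool.Agent.Helper533.StarBox

namespace ZerX

/-! ### averages as convolutions -/

theorem mass {R : ℝ} (hR : 0 < R) (x : ℂ) : ∫ y, ww R (y - x) = m0 := by
  rw [integral_sub_right_eq_self (fun z => ww R z) x]
  have h := Measure.integral_comp_smul (volume : Measure ℂ) (fun z : ℂ => ww R z) R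
  have e : ∀ z : ℂ, ww R (R • z) = (1 / R ^ 2) * ww 1 z := by
    intro z
    unfold ww
    rw [norm_smul, Real.norm_eq_abs, abs_of_pos hR]
    have : (R * ‖z‖) ^ 2 / R ^ 2 = ‖z‖ ^ 2 / 1 ^ 2 := by
      field_simp
    rw [this]
    ring
  simp only [e] at h
  rw [integral_const_mul, Complex.finrank_real_complex, abs_of_pos (by positivity), smul_eq_mul] at h
  unfold m0
  have h2 : (R ^ 2 : ℝ) ≠ 0 := by positivity
  field_simp at h
  linarith

theorem m0_pos : 0 < m0 := by
  unfold m0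
  have hc : HasCompactSupport (fun z : ℂ => ww 1 z) := by
    have := ww_comp (R := 1) one_pos 0
    simpa using this
  apply Continuous.integral_pos_of_hasCompactSupport_nonneg_nonzero (ww_cont 1) hc
    (fun z => ww_nonneg 1 z) (x := ((3 / 4 : ℝ) : ℂ))
  apply ne_of_gt
  apply ww_pos one_pos
  · rw [Complex.norm_real, Real.norm_eq_abs, abs_of_pos] <;> norm_num
  · rw [Complex.norm_real, Real.norm_eq_abs, abs_of_pos] <;> norm_num

theorem int_mul {f : ℂ → ℝ} (hf : LocallyIntegrable f volume) {R : ℝ} (hR : 0 < R) (x : ℂ) :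
    Integrable (fun y => f y * ww R (y - x)) := by
  have := hf.integrable_smul_right_of_hasCompactSupport
    (g := fun y => ww R (y - x)) ((ww_cont R).comp (continuous_id.sub continuous_const)) (ww_comp hR x)
  simpa [smul_eq_mul] using this

theorem ww_smooth (R : ℝ) : ContDiff ℝ (⊤ : ℕ∞) (ww R) := by
  unfold ww
  exact (bb_smooth.comp ((contDiff_norm_sq ℝ).div_const _)).div_const _

theorem ww_comp0 {R : ℝ} (hR : 0 < R) : HasCompactSupport (ww R) := by
  have := ww_comp hR 0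
  simpa using this

theorem ww_tf {R : ℝ} (hR : 0 < R) : TF univ (ww R) := ⟨ww_smooth R, ww_comp0 hR, subset_univ _⟩

theorem ww_symm (R : ℝ) (y z : ℂ) : ww R (y - z) = ww R (z - y) := by unfold ww; rw [norm_sub_rev]

theorem conv_eq (f : ℂ → ℝ) (R : ℝ) (z : ℂ) :
    convolution f (ww R) (ContinuousLinearMap.mul ℝ ℝ) volume z = ∫ y, f y * ww R (y - z) := by
  unfold convolution
  congr 1; ext y
  rw [ww_symm]; rfl

theorem Av_conv (f : ℂ → ℝ) (R : ℝ) :
    Av f R = fun z => convolution f (ww R) (ContinuousLinearMap.mul ℝ ℝ) volume z / m0 := by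
  ext z
  rw [conv_eq]; rfl

theorem Av_smooth {f : ℂ → ℝ} (hf : LocallyIntegrable f volume) {R : ℝ} (hR : 0 < R) :
    ContDiff ℝ (⊤ : ℕ∞) (Av f R) := by
  rw [Av_conv]
  exact ((ww_comp0 hR).contDiff_convolution_right (ContinuousLinearMap.mul ℝ ℝ) hf (ww_smooth R)).div_const _

theorem sqloc {f : ℂ → ℝ} (hf : MemLp f 2 (volume : Measure ℂ)) : LocallyIntegrable f volume :=
  hf.locallyIntegrable (by norm_num)

/-- averaging is a contraction of `L²` -/
theorem Av_sq {f : ℂ → ℝ} (hf : MemLp f 2 (volume : Measure ℂ)) {R : ℝ} (hR : 0 < R) :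
    MemLp (Av f R) 2 (volume : Measure ℂ) ∧ ∫ x, Av f R x ^ 2 ≤ ∫ x, f x ^ 2 := by
  have hm := m0_pos
  have hI : Integrable (fun z => f z ^ 2) := hf.integrable_sq
  have hwI : Integrable (ww R) := (ww_cont R).integrable_of_hasCompactSupport (ww_comp0 hR)
  have hcI : Integrable (convolution (fun z => f z ^ 2) (ww R) (ContinuousLinearMap.mul ℝ ℝ) volume) :=
    hI.integrable_convolution _ hwI
  have hcE : ∫ x, convolution (fun z => f z ^ 2) (ww R) (ContinuousLinearMap.mul ℝ ℝ) volume x =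
      (∫ x, f x ^ 2) * m0 := by
    rw [integral_convolution _ hI hwI]
    have := mass hR 0
    simp only [sub_zero] at this
    rw [this]; rfl
  have hpt : ∀ x, Av f R x ^ 2 ≤
      convolution (fun z => f z ^ 2) (ww R) (ContinuousLinearMap.mul ℝ ℝ) volume x / m0 := by
    intro x
    rw [conv_eq]
    set a := Av f R x with ha
    have h1 : ∫ y, f y * ww R (y - x) = a * m0 := by rw [ha]; unfold Av; field_simp
    have i1 := int_mul (sqloc hf) hR x
    have i2 := int_mul (f := fun z => f z ^ 2) (hI.locallyIntegrable) hR x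
    have i3 : Integrable (fun y => ww R (y - x)) := hwI.comp_sub_right x
    have h2 : 0 ≤ ∫ y, (f y - a) ^ 2 * ww R (y - x) :=
      integral_nonneg fun y => mul_nonneg (sq_nonneg _) (ww_nonneg _ _)
    have i4 : Integrable (fun y => f y ^ 2 * ww R (y - x) - 2 * a * (f y * ww R (y - x))) :=
      i2.sub (i1.const_mul _)
    have h3 : ∫ y, (f y - a) ^ 2 * ww R (y - x) =
        (∫ y, f y ^ 2 * ww R (y - x)) - 2 * a * (∫ y, f y * ww R (y - x)) + a ^ 2 * ∫ y, ww R (y - x) := by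
      rw [← integral_const_mul, ← integral_const_mul, ← integral_sub i2 (i1.const_mul _),
        ← integral_add i4 (i3.const_mul _)]
      congr 1; ext y; ring
    rw [h3, h1, mass hR x] at h2
    rw [le_div_iff₀ hm]
    nlinarith
  have hms : AEStronglyMeasurable (Av f R) (volume : Measure ℂ) :=
    (Av_smooth (sqloc hf) hR).continuous.aestronglyMeasurable
  have hAI : Integrable (fun x => Av f R x ^ 2) := by
    refine Integrable.mono' (hcI.div_const m0) (hms.pow 2) (Eventually.of_forall fun x => ?_)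
    rw [Real.norm_eq_abs, abs_of_nonneg (sq_nonneg _)]
    exact hpt x
  refine ⟨(memLp_two_iff_integrable_sq hms).2 hAI, ?_⟩
  calc ∫ x, Av f R x ^ 2 ≤ ∫ x, convolution (fun z => f z ^ 2) (ww R) (ContinuousLinearMap.mul ℝ ℝ) volume x / m0 :=
        integral_mono hAI (hcI.div_const m0) hpt
    _ = ∫ x, f x ^ 2 := by rw [integral_div, hcE, mul_div_assoc, div_self hm.ne', mul_one]

theorem Av_sub {f g : ℂ → ℝ} (hf : LocallyIntegrable f volume) (hg : LocallyIntegrable g volume) {R : ℝ}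
    (hR : 0 < R) (x : ℂ) : Av (fun z => f z - g z) R x = Av f R x - Av g R x := by
  unfold Av
  rw [← sub_div, ← integral_sub (int_mul hf hR x) (int_mul hg hR x)]
  congr 2; ext y; ring

/-- averages of a test function converge in `L²` -/
theorem Av_tf {a : ℂ → ℝ} (ha : TF univ a) :
    Tendsto (fun n : ℕ => ∫ x, (Av a ((1 / 2) ^ n) x - a x) ^ 2) atTop (𝓝 0) := by
  have hm := m0_pos
  obtain ⟨K, hK⟩ := ha.c1.lipschitzWith_of_hasCompactSupport ha.comp (by norm_num)
  set S := cthickening 1 (tsupport a) with hS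
  have hSc : IsCompact S := ha.comp.isCompact.cthickening
  have hSv : volume S ≠ ⊤ := hSc.measure_lt_top.ne
  have hloc : LocallyIntegrable a volume := sqloc ha.memLp
  have key : ∀ R : ℝ, 0 < R → R ≤ 1 → ∀ x, |Av a R x - a x| ≤ S.indicator (fun _ => (K : ℝ) * R) x := by
    intro R hR hR1 x
    have e1 : Av a R x - a x = (∫ y, (a y - a x) * ww R (y - x)) / m0 := by
      have i1 := int_mul hloc hR x
      have i3 : Integrable (fun y => a x * ww R (y - x)) :=
        (((ww_cont R).integrable_of_hasCompactSupport (ww_comp0 hR)).comp_sub_right x).const_mul _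
      have : ∫ y, (a y - a x) * ww R (y - x) = (∫ y, a y * ww R (y - x)) - a x * m0 := by
        rw [← mass hR x, ← integral_const_mul, ← integral_sub i1 i3]
        congr 1; ext y; ring
      rw [this, sub_div, mul_div_assoc, div_self hm.ne', mul_one]; rfl
    have hb : ∀ y, ‖(a y - a x) * ww R (y - x)‖ ≤ (K * R) * ww R (y - x) := by
      intro y
      rw [norm_mul, Real.norm_eq_abs (ww R (y - x)), abs_of_nonneg (ww_nonneg _ _)]
      by_cases hy : ‖y - x‖ < R
      · apply mul_le_mul_of_nonneg_right _ (ww_nonneg _ _)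
        have := hK.dist_le_mul y x
        rw [dist_eq_norm, dist_eq_norm] at this
        exact this.trans (mul_le_mul_of_nonneg_left hy.le K.2)
      · push Not at hy
        rw [ww_zero hR hy]; simp
    by_cases hx : x ∈ S
    · rw [indicator_of_mem hx, e1, abs_div, abs_of_pos hm, div_le_iff₀ hm]
      have i4 : Integrable (fun y => (K * R) * ww R (y - x)) :=
        (((ww_cont R).integrable_of_hasCompactSupport (ww_comp0 hR)).comp_sub_right x).const_mul _
      have := norm_integral_le_of_norm_le i4 (Eventually.of_forall hb)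
      rw [integral_const_mul, mass hR x] at this
      exact this
    · rw [indicator_of_notMem hx]
      have h0 : ∀ y, (a y - a x) * ww R (y - x) = 0 := by
        intro y
        by_cases hy : ‖y - x‖ < R
        · have hy' : y ∉ tsupport a := by
            intro hy'
            apply hx
            apply mem_cthickening_of_dist_le x y 1 _ hy'
            rw [dist_comm, dist_eq_norm]; linarith
          have hx' : x ∉ tsupport a := fun h => hx (self_subset_cthickening _ h)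
          rw [image_eq_zero_of_notMem_tsupport hy', image_eq_zero_of_notMem_tsupport hx']; ring
        · push Not at hy
          rw [ww_zero hR hy, mul_zero]
      rw [e1]; simp [h0]
  have hlim : Tendsto (fun n : ℕ => (volume S).toReal * ((K : ℝ) * (1 / 2) ^ n) ^ 2) atTop (𝓝 0) := by
    have h1 : Tendsto (fun n : ℕ => ((1:ℝ) / 2) ^ n) atTop (𝓝 0) :=
      tendsto_pow_atTop_nhds_zero_of_lt_one (by norm_num) (by norm_num)
    have h2 := ((h1.const_mul (K : ℝ)).pow 2).const_mul (volume S).toReal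
    simpa using h2
  refine squeeze_zero (fun n => integral_nonneg fun z => sq_nonneg _) (fun n => ?_) hlim
  have hR : (0:ℝ) < (1 / 2) ^ n := by positivity
  have hR1 : ((1:ℝ) / 2) ^ n ≤ 1 := pow_le_one₀ (by norm_num) (by norm_num)
  have hi : Integrable (S.indicator fun _ => ((K : ℝ) * (1 / 2) ^ n) ^ 2) := by
    rw [integrable_indicator_iff hSc.measurableSet]
    exact integrableOn_const hSv
  have hi2 : Integrable (fun x => (Av a ((1 / 2) ^ n) x - a x) ^ 2) :=
    (((Av_sq ha.memLp hR).1).sub ha.memLp).integrable_sq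
  calc ∫ x, (Av a ((1 / 2) ^ n) x - a x) ^ 2 ≤ ∫ x, S.indicator (fun _ => ((K : ℝ) * (1 / 2) ^ n) ^ 2) x := by
        apply integral_mono hi2 hi
        intro x
        have h1 := key _ hR hR1 x
        show (Av a ((1 / 2) ^ n) x - a x) ^ 2 ≤ S.indicator (fun _ => ((K : ℝ) * (1 / 2) ^ n) ^ 2) x
        by_cases hx : x ∈ S
        · rw [indicator_of_mem hx] at h1 ⊢
          rw [← sq_abs]
          exact pow_le_pow_left₀ (abs_nonneg _) h1 2
        · rw [indicator_of_notMem hx] at h1 ⊢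
          have : Av a ((1 / 2) ^ n) x - a x = 0 := by
            rw [← abs_nonpos_iff]; exact h1
          rw [this]; norm_num
    _ = (volume S).toReal * ((K : ℝ) * (1 / 2) ^ n) ^ 2 := by
        rw [integral_indicator hSc.measurableSet]
        simp [Measure.real]

/-- averages converge in `L²` -/
theorem Av_L2T {a : ℕ → ℂ → ℝ} {g : ℂ → ℝ} (h : L2T a g) (ha : ∀ n, TF univ (a n)) :
    L2T (fun n => Av g ((1 / 2) ^ n)) g := by
  have hR : ∀ n : ℕ, (0:ℝ) < (1 / 2) ^ n := fun n => by positivity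
  refine ⟨fun n => (Av_sq h.mf (hR n)).1, h.mf, ?_⟩
  rw [Metric.tendsto_atTop]
  intro ε hε
  have h1 := h.tt.eventually (gt_mem_nhds (show (0:ℝ) < ε / 9 by positivity))
  obtain ⟨k, hk⟩ := h1.exists
  have h2 := (Av_tf (ha k)).eventually (gt_mem_nhds (show (0:ℝ) < ε / 9 by positivity))
  obtain ⟨N, hN⟩ := eventually_atTop.1 h2
  refine ⟨N, fun n hn => ?_⟩
  have h3 := hN n hn
  rw [Real.dist_eq, sub_zero, abs_of_nonneg (integral_nonneg fun z => sq_nonneg _)]
  have m1 : MemLp (fun z => g z - a k z) 2 (volume : Measure ℂ) := h.mf.sub (h.ma k)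
  have c1 := Av_sq m1 (hR n)
  have c2 : MemLp (fun x => Av (a k) ((1 / 2) ^ n) x - a k x) 2 (volume : Measure ℂ) :=
    (Av_sq (h.ma k) (hR n)).1.sub (h.ma k)
  have e1 : ∫ z, (g z - a k z) ^ 2 = ∫ z, (a k z - g z) ^ 2 := by congr 1; ext z; ring
  have hle : ∫ x, (Av g ((1 / 2) ^ n) x - g x) ^ 2 ≤
      ∫ x, (3 * Av (fun z => g z - a k z) ((1 / 2) ^ n) x ^ 2 + 3 * (Av (a k) ((1 / 2) ^ n) x - a k x) ^ 2 +
        3 * (a k x - g x) ^ 2) := by
    apply integral_mono ((Av_sq h.mf (hR n)).1.sub h.mf).integrable_sq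
      (((c1.1.integrable_sq.const_mul 3).add (c2.integrable_sq.const_mul 3)).add ((h.sub_int k).const_mul 3))
    intro x
    show (Av g ((1 / 2) ^ n) x - g x) ^ 2 ≤ 3 * Av (fun z => g z - a k z) ((1 / 2) ^ n) x ^ 2 +
      3 * (Av (a k) ((1 / 2) ^ n) x - a k x) ^ 2 + 3 * (a k x - g x) ^ 2
    rw [Av_sub (sqloc h.mf) (sqloc (h.ma k)) (hR n)]
    set p := Av g ((1 / 2) ^ n) x
    set q := Av (a k) ((1 / 2) ^ n) x
    set r := a k x
    set s := g x
    nlinarith [sq_nonneg ((p - q) - (q - r)), sq_nonneg ((p - q) - (r - s)), sq_nonneg ((q - r) - (r - s))]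
  have i1 := c1.1.integrable_sq.const_mul 3
  have i2 := c2.integrable_sq.const_mul 3
  have i3 := (h.sub_int k).const_mul 3
  have i12 : Integrable (fun x => 3 * Av (fun z => g z - a k z) ((1 / 2) ^ n) x ^ 2 +
    3 * (Av (a k) ((1 / 2) ^ n) x - a k x) ^ 2) := i1.add i2
  rw [integral_add i12 i3, integral_add i1 i2, integral_const_mul, integral_const_mul, integral_const_mul] at hle
  have c12 := c1.2
  rw [e1] at c12
  linarith

/-! ### gradients of averages -/

theorem ibx {u v : ℂ → ℝ} (hu : TF univ u) (hv : TF univ v) : ∫ z, u z * gx v z = - ∫ z, gx u z * v z :=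
  integral_mul_fderiv_eq_neg_fderiv_mul_of_integrable (f := u) (g := v) (v := (1:ℂ))
      (hu.gx_tf.ip_int hv.cont) (hu.ip_int hv.gx_cont) (hu.ip_int hv.cont)
      (fun x _ => hu.diff x) (fun x _ => hv.diff x)

theorem iby {u v : ℂ → ℝ} (hu : TF univ u) (hv : TF univ v) : ∫ z, u z * gy v z = - ∫ z, gy u z * v z :=
  integral_mul_fderiv_eq_neg_fderiv_mul_of_integrable (f := u) (g := v) (v := Complex.I)
      (hu.gy_tf.ip_int hv.cont) (hu.ip_int hv.gy_cont) (hu.ip_int hv.cont)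
      (fun x _ => hu.diff x) (fun x _ => hv.diff x)

theorem wkx {U : Set ℂ} {f p q : ℂ → ℝ} (h : HW U f p q) {φ : ℂ → ℝ} (hφ : TF univ φ) :
    ∫ z, f z * gx φ z = - ∫ z, p z * φ z := by
  obtain ⟨u, hu, h1, h2, h3⟩ := h.seq
  have k1 := h1.mul (L2T.const hφ.gx_tf.memLp)
  have k2 := (h2.mul (L2T.const hφ.memLp)).neg
  exact tendsto_nhds_unique (k1.congr fun n => ibx ((hu n).mono (subset_univ _)) hφ) k2

theorem wky {U : Set ℂ} {f p q : ℂ → ℝ} (h : HW U f p q) {φ : ℂ → ℝ} (hφ : TF univ φ) :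
    ∫ z, f z * gy φ z = - ∫ z, q z * φ z := by
  obtain ⟨u, hu, h1, h2, h3⟩ := h.seq
  have k1 := h1.mul (L2T.const hφ.gy_tf.memLp)
  have k2 := (h3.mul (L2T.const hφ.memLp)).neg
  exact tendsto_nhds_unique (k1.congr fun n => iby ((hu n).mono (subset_univ _)) hφ) k2

theorem ww_shift_tf {R : ℝ} (hR : 0 < R) (x : ℂ) : TF univ (fun y => ww R (y - x)) :=
  ⟨(ww_smooth R).comp (contDiff_id.sub contDiff_const), ww_comp hR x, subset_univ _⟩

/-- the derivative of the reflected weight -/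
theorem fd_shift {R : ℝ} (x y v : ℂ) :
    fderiv ℝ (fun y => ww R (y - x)) y v = - fderiv ℝ (ww R) (x - y) v := by
  have e : (fun y => ww R (y - x)) = fun y => ww R (x - y) := by ext y; exact ww_symm R y x
  have hd : DifferentiableAt ℝ (ww R) (x - y) := (ww_smooth R).differentiable (by simp) _
  have h1 : HasFDerivAt (fun y => x - y) (-(ContinuousLinearMap.id ℝ ℂ)) y :=
    (hasFDerivAt_id y).const_sub x
  have h2 := hd.hasFDerivAt.comp y h1
  rw [e]
  have h3 : fderiv ℝ (fun y => ww R (x - y)) y = (fderiv ℝ (ww R) (x - y)).comp (-(ContinuousLinearMap.id ℝ ℂ)) :=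
    h2.fderiv
  rw [h3]
  simp

theorem fd_Av {f : ℂ → ℝ} (hf : LocallyIntegrable f volume) {R : ℝ} (hR : 0 < R) (x v : ℂ) :
    fderiv ℝ (Av f R) x v = - (∫ y, f y * fderiv ℝ (fun y => ww R (y - x)) y v) / m0 := by
  have hw1 : ContDiff ℝ 1 (ww R) := (ww_smooth R).of_le (by simp)
  have h1 := (ww_comp0 hR).hasFDerivAt_convolution_right (ContinuousLinearMap.mul ℝ ℝ) hf hw1 x
  have h2 : HasFDerivAt (Av f R) (m0⁻¹ • (convolution f (fderiv ℝ (ww R))
      ((ContinuousLinearMap.mul ℝ ℝ).precompR ℂ) volume x)) x := by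
    rw [Av_conv]
    have := h1.const_smul m0⁻¹
    refine this.congr_of_eventuallyEq (Eventually.of_forall fun z => ?_)
    simp only [Pi.smul_apply, smul_eq_mul]
    rw [div_eq_inv_mul]
  rw [h2.fderiv]
  rw [_root_.smul_apply, convolution_precompR_apply _ hf ((ww_comp0 hR).fderiv ℝ)
    (hw1.continuous_fderiv one_ne_zero)]
  rw [smul_eq_mul, ← div_eq_inv_mul]
  congr 1
  rw [← integral_neg]
  unfold convolution
  congr 1; ext y
  rw [fd_shift]
  simp

theorem gx_Av {U : Set ℂ} {f p q : ℂ → ℝ} (h : HW U f p q) {R : ℝ} (hR : 0 < R) : gx (Av f R) = Av p R := by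
  ext x
  show fderiv ℝ (Av f R) x 1 = _
  rw [fd_Av (sqloc h.mf) hR]
  have := wkx h (ww_shift_tf hR x)
  unfold gx at this
  rw [this, neg_neg]; rfl

theorem gy_Av {U : Set ℂ} {f p q : ℂ → ℝ} (h : HW U f p q) {R : ℝ} (hR : 0 < R) : gy (Av f R) = Av q R := by
  ext x
  show fderiv ℝ (Av f R) x Complex.I = _
  rw [fd_Av (sqloc h.mf) hR]
  have := wky h (ww_shift_tf hR x)
  unfold gy at this
  rw [this, neg_neg]; rfl

/-! ### the functional -/

/-- `T φ = ∫_U φ - ∫ ∇w ∇φ` -/
noncomputable def TT' (U : Set ℂ) (wx wy : ℂ → ℝ) (φ : ℂ → ℝ) : ℝ :=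
  (∫ z, ind U z * φ z) - ∫ z, (wx z * gx φ z + wy z * gy φ z)

section
variable {U : Set ℂ} {w wx wy : ℂ → ℝ}

theorem TT_int (hw : HW U w wx wy) {φ : ℂ → ℝ} (hφ : TF univ φ) :
    Integrable (fun z => wx z * gx φ z + wy z * gy φ z) :=
  (hw.mp.integrable_mul hφ.gx_tf.memLp).add (hw.mq.integrable_mul hφ.gy_tf.memLp)

theorem TT_sub (hU : IsOpen U) (hUf : volume U ≠ ⊤) (hw : HW U w wx wy) {φ ψ : ℂ → ℝ} (hφ : TF univ φ)
    (hψ : TF univ ψ) : TT' U wx wy (fun z => φ z - ψ z) = TT' U wx wy φ - TT' U wx wy ψ := by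
  unfold TT'
  have i1 : Integrable (fun z => ind U z * φ z) := (ind_memLp hU hUf).integrable_mul hφ.memLp
  have i2 : Integrable (fun z => ind U z * ψ z) := (ind_memLp hU hUf).integrable_mul hψ.memLp
  have e1 : ∫ z, ind U z * (φ z - ψ z) = (∫ z, ind U z * φ z) - ∫ z, ind U z * ψ z := by
    rw [← integral_sub i1 i2]; congr 1; ext z; ring
  have e2 : ∫ z, (wx z * gx (fun z => φ z - ψ z) z + wy z * gy (fun z => φ z - ψ z) z) =
      (∫ z, (wx z * gx φ z + wy z * gy φ z)) - ∫ z, (wx z * gx ψ z + wy z * gy ψ z) := by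
    rw [← integral_sub (TT_int hw hφ) (TT_int hw hψ)]
    congr 1; ext z
    rw [gx_sub (hφ.diff z) (hψ.diff z), gy_sub (hφ.diff z) (hψ.diff z)]
    ring
  rw [e1, e2]; ring

theorem TT_smul (c : ℝ) {φ : ℂ → ℝ} (hφ : TF univ φ) :
    TT' U wx wy (fun z => c * φ z) = c * TT' U wx wy φ := by
  unfold TT'
  have e1 : ∫ z, ind U z * (c * φ z) = c * ∫ z, ind U z * φ z := by
    rw [← integral_const_mul]; congr 1; ext z; ring
  have e2 : ∫ z, (wx z * gx (fun z => c * φ z) z + wy z * gy (fun z => c * φ z) z) =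
      c * ∫ z, (wx z * gx φ z + wy z * gy φ z) := by
    rw [← integral_const_mul]
    congr 1; ext z
    rw [gx_smul c (hφ.diff z), gy_smul c (hφ.diff z)]
    ring
  rw [e1, e2]; ring

end

/-- step one: `T (ψ W_n) → 0` -/
theorem step1 {U : Set ℂ} {w wx wy : ℂ → ℝ} (hU : IsOpen U) (hUf : volume U ≠ ⊤) (hw : HW U w wx wy)
    (hwe : WE U wx wy (fun _ => 1)) {ψ : ℂ → ℝ} (hψ : TF univ ψ) :
    Tendsto (fun n : ℕ => TT' U wx wy (fun z => Av w ((1 / 2) ^ n) z * ψ z)) atTop (𝓝 0) := by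
  obtain ⟨u, hu, h1, h2, h3⟩ := hw.seq
  obtain ⟨C, hC0, hC, hCx, hCy⟩ := TF_bdd hψ
  have hI := ind_memLp hU hUf
  have hR : ∀ n : ℕ, (0:ℝ) < (1 / 2) ^ n := fun n => by positivity
  have L1 := Av_L2T h1 (fun n => (hu n).mono (subset_univ _))
  have L2 := Av_L2T h2 (fun n => (hu n).gx_tf.mono (subset_univ _))
  have L3 := Av_L2T h3 (fun n => (hu n).gy_tf.mono (subset_univ _))
  have A1 := L1.bmul hψ.cont.aestronglyMeasurable hC
  have A2 := (L2.bmul hψ.cont.aestronglyMeasurable hC).add (L1.bmul hψ.gx_cont.aestronglyMeasurable hCx)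
  have A3 := (L3.bmul hψ.cont.aestronglyMeasurable hC).add (L1.bmul hψ.gy_cont.aestronglyMeasurable hCy)
  have B1 := (L2T.const hI).mul A1
  have B2 := (L2T.const hw.mp).mul A2
  have B3 := (L2T.const hw.mq).mul A3
  have B := B1.sub (B2.add B3)
  have E := hwe.ind.hw hw.mp hw.mq hI (hw.mul_tf hψ)
  have e0 : (∫ z, ind U z * (ψ z * w z)) - ((∫ z, wx z * (ψ z * wx z + gx ψ z * w z)) +
      ∫ z, wy z * (ψ z * wy z + gy ψ z * w z)) = 0 := by
    have j1 : Integrable (fun z => wx z * (ψ z * wx z + gx ψ z * w z)) := hw.mp.integrable_mul A2.mf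
    have j2 : Integrable (fun z => wy z * (ψ z * wy z + gy ψ z * w z)) := hw.mq.integrable_mul A3.mf
    rw [← integral_add j1 j2, E]; ring
  rw [e0] at B
  refine B.congr fun n => ?_
  unfold TT'
  have hd : Differentiable ℝ (Av w ((1 / 2) ^ n)) :=
    (Av_smooth (sqloc hw.mf) (hR n)).differentiable (by simp)
  have e1 : ∫ z, ind U z * (ψ z * Av w ((1 / 2) ^ n) z) = ∫ z, ind U z * (Av w ((1 / 2) ^ n) z * ψ z) := by
    congr 1; ext z; ring
  have j1 : Integrable (fun z => wx z * (ψ z * Av wx ((1 / 2) ^ n) z + gx ψ z * Av w ((1 / 2) ^ n) z)) :=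
    hw.mp.integrable_mul (A2.ma n)
  have j2 : Integrable (fun z => wy z * (ψ z * Av wy ((1 / 2) ^ n) z + gy ψ z * Av w ((1 / 2) ^ n) z)) :=
    hw.mq.integrable_mul (A3.ma n)
  rw [e1, ← integral_add j1 j2]
  congr 2; ext z
  rw [gx_mul (hd z) (hψ.diff z), gy_mul (hd z) (hψ.diff z), gx_Av hw (hR n), gy_Av hw (hR n)]
  ring

/-- the cut-off -/
noncomputable def th (s : ℝ) : ℝ := Real.smoothTransition (s - 1)

theorem th_smooth : ContDiff ℝ (⊤ : ℕ∞) th := Real.smoothTransition.contDiff.comp (contDiff_id.sub contDiff_const)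
theorem th_nonneg (s : ℝ) : 0 ≤ th s := Real.smoothTransition.nonneg _
theorem th_le_one (s : ℝ) : th s ≤ 1 := Real.smoothTransition.le_one _
theorem th_le {s : ℝ} (hs : 0 ≤ s) : th s ≤ s := by
  by_cases h : s ≤ 1
  · have : th s = 0 := Real.smoothTransition.zero_of_nonpos (by linarith)
    rw [this]; exact hs
  · push Not at h
    exact (th_le_one s).trans h.le
theorem th_one {s : ℝ} (hs : 2 ≤ s) : th s = 1 := Real.smoothTransition.one_of_one_le (by linarith)

/-- the products -/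
noncomputable def GG (ψ : ℂ → ℝ) (V : ℕ → ℂ → ℝ) : ℕ → ℂ → ℝ
  | 0 => ψ
  | j + 1 => fun z => (1 - th (2 ^ j * V j z)) * GG ψ V j z

theorem GG_tf {ψ : ℂ → ℝ} (hψ : TF univ ψ) {V : ℕ → ℂ → ℝ} (hV : ∀ j, ContDiff ℝ (⊤ : ℕ∞) (V j)) (j : ℕ) :
    TF univ (GG ψ V j) := by
  induction j with
  | zero => exact hψ
  | succ j ih =>
    exact ih.mul_smooth (contDiff_const.sub (th_smooth.comp (contDiff_const.mul (hV j))))

theorem GG_bd {ψ : ℂ → ℝ} (hψ : ∀ z, 0 ≤ ψ z) (V : ℕ → ℂ → ℝ) (j : ℕ) (z : ℂ) :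
    0 ≤ GG ψ V j z ∧ GG ψ V j z ≤ ψ z := by
  induction j with
  | zero => exact ⟨hψ z, le_refl _⟩
  | succ j ih =>
    have h1 := th_nonneg (2 ^ j * V j z)
    have h2 := th_le_one (2 ^ j * V j z)
    refine ⟨mul_nonneg (by linarith) ih.1, ?_⟩
    show (1 - th (2 ^ j * V j z)) * GG ψ V j z ≤ ψ z
    calc (1 - th (2 ^ j * V j z)) * GG ψ V j z ≤ 1 * GG ψ V j z :=
          mul_le_mul_of_nonneg_right (by linarith) ih.1
      _ ≤ ψ z := by rw [one_mul]; exact ih.2

theorem GG_ne {ψ : ℂ → ℝ} {V : ℕ → ℂ → ℝ} (j : ℕ) (z : ℂ) (h : GG ψ V j z ≠ 0) :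
    ψ z ≠ 0 ∧ ∀ i < j, 2 ^ i * V i z ≤ 2 := by
  induction j with
  | zero => exact ⟨h, fun i hi => absurd hi (Nat.not_lt_zero i)⟩
  | succ j ih =>
    have h' : (1 - th (2 ^ j * V j z)) * GG ψ V j z ≠ 0 := h
    obtain ⟨h1, h2⟩ := mul_ne_zero_iff.1 h'
    obtain ⟨h3, h4⟩ := ih h2
    refine ⟨h3, fun i hi => ?_⟩
    rcases Nat.lt_succ_iff_lt_or_eq.1 hi with h5 | h5
    · exact h4 i h5
    · subst h5
      by_contra hcon
      push Not at hcon
      apply h1
      rw [th_one hcon.le, sub_self]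

end ZerX

open ZerX in
theorem zer (hSUB : S_SUB) (hWD : S_WD) (hAV : S_AV) : S_ZER := by
  intro U w wx wy H hU hUf hw hwe hnn _ ψ hψ hψ0 hlt
  have hI := ind_memLp hU hUf
  have hm := m0_pos
  -- positivity of the functional
  have T0 : ∀ φ, TF univ φ → (∀ z, 0 ≤ φ z) → 0 ≤ TT' U wx wy φ := by
    intro φ hφ h0
    have := hSUB U w wx wy (ind U) hU hw hnn hI (Eventually.of_forall fun z => ind_nonneg U z) hwe.ind φ hφ h0
    unfold TT'; linarith
  have Tmono : ∀ φ φ', TF univ φ → TF univ φ' → (∀ z, φ z ≤ φ' z) → TT' U wx wy φ ≤ TT' U wx wy φ' := by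
    intro φ φ' hφ hφ' h0
    have h1 := T0 (fun z => φ' z - φ z) (hφ'.sub hφ) (fun z => sub_nonneg.2 (h0 z))
    rw [TT_sub hU hUf hw hφ' hφ] at h1
    linarith
  have Tψ : 0 < TT' U wx wy ψ := by
    unfold TT'; rw [integral_ind_mul hU]; linarith
  set τ := TT' U wx wy ψ with hτ
  have hsubl : SubL w 1 := by
    intro φ hφ h0
    have h1 := T0 φ hφ h0
    have h2 := hWD U w wx wy hw φ hφ
    unfold TT' at h1
    have h3 : ∫ z, ind U z * φ z ≤ ∫ z, φ z := by
      apply integral_mono (hI.integrable_mul hφ.memLp)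
        (hφ.cont.integrable_of_hasCompactSupport hφ.comp)
      intro z
      show ind U z * φ z ≤ φ z
      calc ind U z * φ z ≤ 1 * φ z := mul_le_mul_of_nonneg_right (ind_le_one U z) (h0 z)
        _ = φ z := one_mul _
    linarith
  obtain ⟨κ, hκ0, _, hκ⟩ := hAV
  obtain ⟨hav, _⟩ := hκ w 1 hw.mf zero_le_one hsubl
  set W : ℕ → ℂ → ℝ := fun n z => Av w ((1 / 2) ^ n) z + 1 / 4 * κ * ((1 / 2) ^ n) ^ 2 with hW
  have hR : ∀ n : ℕ, (0:ℝ) < (1 / 2) ^ n := fun n => by positivity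
  have hWs : ∀ n, ContDiff ℝ (⊤ : ℕ∞) (W n) := fun n =>
    (Av_smooth (sqloc hw.mf) (hR n)).add contDiff_const
  have hAv0 : ∀ n z, 0 ≤ Av w ((1 / 2) ^ n) z := by
    intro n z
    apply div_nonneg _ hm.le
    apply integral_nonneg_of_ae
    filter_upwards [hnn] with y hy
    exact mul_nonneg hy (ww_nonneg _ _)
  have hAvW : ∀ n z, Av w ((1 / 2) ^ n) z ≤ W n z := by
    intro n z
    have : 0 ≤ 1 / 4 * κ * (((1:ℝ) / 2) ^ n) ^ 2 := by positivity
    simp only [hW]; linarith
  have hW0 : ∀ n z, 0 ≤ W n z := fun n z => (hAv0 n z).trans (hAvW n z)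
  have hWanti : ∀ z, Antitone (fun n => W n z) := by
    intro z
    apply antitone_nat_of_succ_le
    intro n
    have h1 := hav z _ (hR n)
    have e : ((1:ℝ) / 2) ^ n / 2 = (1 / 2) ^ (n + 1) := by rw [pow_succ]; ring
    rw [e] at h1
    exact h1
  -- step one
  have hTW : Tendsto (fun n : ℕ => TT' U wx wy (fun z => W n z * ψ z)) atTop (𝓝 0) := by
    have h1 := step1 hU hUf hw hwe hψ
    have h2 : Tendsto (fun n : ℕ => 1 / 4 * κ * (((1:ℝ) / 2) ^ n) ^ 2 * τ) atTop (𝓝 0) := by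
      have h3 : Tendsto (fun n : ℕ => ((1:ℝ) / 2) ^ n) atTop (𝓝 0) :=
        tendsto_pow_atTop_nhds_zero_of_lt_one (by norm_num) (by norm_num)
      have h4 := ((h3.pow 2).const_mul (1 / 4 * κ)).mul_const τ
      simpa using h4
    have h5 := h1.add h2
    rw [add_zero] at h5
    refine h5.congr fun n => ?_
    have hA : TF univ (fun z => Av w ((1 / 2) ^ n) z * ψ z) :=
      hψ.mul_smooth (Av_smooth (sqloc hw.mf) (hR n))
    have hc := TT_sub hU hUf hw hA (hψ.smul (-(1 / 4 * κ * (((1:ℝ) / 2) ^ n) ^ 2)))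
    rw [TT_smul _ hψ] at hc
    have e : (fun z => W n z * ψ z) = fun z => Av w ((1 / 2) ^ n) z * ψ z -
        -(1 / 4 * κ * (((1:ℝ) / 2) ^ n) ^ 2) * ψ z := by
      ext z; simp only [hW]; ring
    rw [e, hc]; ring
  -- the sequence of indices
  have hex : ∀ j : ℕ, ∃ n : ℕ, 2 ^ j * TT' U wx wy (fun z => W n z * ψ z) ≤ τ * (1 / 2) ^ (j + 2) := by
    intro j
    have h1 := hTW.const_mul (2 ^ j)
    rw [mul_zero] at h1
    exact (h1.eventually (ge_mem_nhds (show (0:ℝ) < τ * (1 / 2) ^ (j + 2) by positivity))).exists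
  choose ν hν using hex
  set V : ℕ → ℂ → ℝ := fun j => W (ν j) with hV
  have hGt := GG_tf hψ (V := V) (fun j => hWs _)
  have hGT : ∀ j, τ * (1 / 2 + (1 / 2) ^ (j + 1)) ≤ TT' U wx wy (GG ψ V j) := by
    intro j
    induction j with
    | zero =>
      show τ * (1 / 2 + (1 / 2) ^ (0 + 1)) ≤ TT' U wx wy ψ
      rw [← hτ]; norm_num
    | succ j ih =>
      have hd : TF univ (fun z => th (2 ^ j * V j z) * GG ψ V j z) :=
        (hGt j).mul_smooth (th_smooth.comp (contDiff_const.mul (hWs _)))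
      have e : GG ψ V (j + 1) = fun z => GG ψ V j z - th (2 ^ j * V j z) * GG ψ V j z := by
        ext z
        show (1 - th (2 ^ j * V j z)) * GG ψ V j z = _
        ring
      rw [e, TT_sub hU hUf hw (hGt j) hd]
      have hb : TT' U wx wy (fun z => th (2 ^ j * V j z) * GG ψ V j z) ≤
          TT' U wx wy (fun z => 2 ^ j * (W (ν j) z * ψ z)) := by
        apply Tmono _ _ hd ((hψ.mul_smooth (hWs _)).smul _)
        intro z
        have h1 := GG_bd hψ0 V j z
        have h2 : 0 ≤ 2 ^ j * V j z := mul_nonneg (by positivity) (hW0 _ _)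
        calc th (2 ^ j * V j z) * GG ψ V j z ≤ (2 ^ j * V j z) * ψ z :=
              mul_le_mul (th_le h2) h1.2 h1.1 h2
          _ = 2 ^ j * (W (ν j) z * ψ z) := by simp only [hV]; ring
      rw [TT_smul _ (hψ.mul_smooth (hWs _))] at hb
      have h3 := hν j
      have h4 : τ * (1 / 2 + (1 / 2) ^ (j + 1 + 1)) = τ * (1 / 2 + (1 / 2) ^ (j + 1)) - τ * (1 / 2) ^ (j + 2) := by
        ring
      rw [h4]
      linarith
  -- compactness
  have hne : (⋂ j : ℕ, {x | x ∈ tsupport ψ ∧ ∀ i < j, 2 ^ i * V i x ≤ 2}).Nonempty := by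
    have hcl : ∀ j : ℕ, IsClosed {x | x ∈ tsupport ψ ∧ ∀ i < j, 2 ^ i * V i x ≤ 2} := by
      intro j
      have e : {x | x ∈ tsupport ψ ∧ ∀ i < j, 2 ^ i * V i x ≤ 2} =
          tsupport ψ ∩ ⋂ i, ⋂ (_ : i < j), {x | 2 ^ i * V i x ≤ 2} := by
        ext x; simp
      rw [e]
      refine (isClosed_tsupport ψ).inter (isClosed_iInter fun i => isClosed_iInter fun _ => ?_)
      exact isClosed_le (continuous_const.mul (hWs _).continuous) continuous_const
    apply IsCompact.nonempty_iInter_of_sequence_nonempty_isCompact_isClosed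
    · intro j x hx
      exact ⟨hx.1, fun i hi => hx.2 i (hi.trans (Nat.lt_succ_self j))⟩
    · intro j
      have h1 : GG ψ V j ≠ fun _ => 0 := by
        intro h0
        have h2 := hGT j
        rw [h0] at h2
        have h3 : TT' U wx wy (fun _ => 0) = 0 := by
          have := TT_smul (U := U) (wx := wx) (wy := wy) 0 hψ
          simpa using this
        rw [h3] at h2
        have : 0 < τ * (1 / 2 + (1 / 2) ^ (j + 1)) := by positivity
        linarith
      obtain ⟨x, hx⟩ := Function.ne_iff.1 h1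
      obtain ⟨h4, h5⟩ := GG_ne j x hx
      exact ⟨x, subset_tsupport ψ h4, h5⟩
    · exact IsCompact.of_isClosed_subset hψ.comp (hcl 0) fun x hx => hx.1
    · exact hcl
  obtain ⟨x, hx⟩ := hne
  rw [mem_iInter] at hx
  refine ⟨x, (hx 0).1, ?_⟩
  have hVx : ∀ j, V j x ≤ 2 * (1 / 2) ^ j := by
    intro j
    have h1 := (hx (j + 1)).2 j (Nat.lt_succ_self j)
    have h2 : (0:ℝ) < 2 ^ j := by positivity
    have e : (2:ℝ) * (1 / 2) ^ j = 2 / 2 ^ j := by rw [one_div, inv_pow]; rfl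
    rw [e, le_div_iff₀ h2]; linarith
  rw [Metric.tendsto_atTop]
  intro ε hε
  obtain ⟨j, hj⟩ : ∃ j : ℕ, ((1:ℝ) / 2) ^ j < ε / 2 := exists_pow_lt_of_lt_one (by positivity) (by norm_num)
  refine ⟨ν j, fun n hn => ?_⟩
  rw [Real.dist_eq, sub_zero, abs_of_nonneg (hAv0 n x)]
  have h1 := hWanti x hn
  have h2 := hVx j
  have h3 := hAvW n x
  simp only [hV] at h2
  linarith

end Pool.Agent.TH316.FQ
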