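import Pool.Agent.TH316.FQ.FK
import Pool.Agent.TH316.FQ.Rel
import Pool.Agent.TH316.FQ.Gap
import Pool.Agent.TH316.FQ.Cmp
import Pool.Agent.TH316.FQ.Pol
import Pool.Agent.TH316.FQ.Tor
import Pool.Agent.TH316.FQ.Eigf
import Pool.Agent.TH316.FQ.Sca
import Pool.Agent.TH316.FQ.Conn
import Pool.Agent.TH316.FQ.Ppf
import Pool.Agent.TH316.FQ.Cell
import Pool.Agent.TH316.FQ.Plam
import Pool.Agent.TH316.FQ.Ptor
import Pool.Agent.TH316.FQ.PerfA
import Pool.Agent.TH316.FQ.Dif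
import Pool.Agent.TH316.FQ.Sta
import Pool.Agent.TH316.FQ.PunT
import Pool.Agent.TH316.FQ.PunL
import Pool.Agent.TH316.FQ.PunA
import Pool.Agent.TH316.FQ.DatA
import Pool.Agent.TH316.FQ.Leb
import Pool.Agent.TH316.FQ.Usc
import Pool.Agent.TH316.FQ.Lio
import Pool.Agent.TH316.FQ.Hop
import Pool.Agent.TH316.FQ.Wso
import Pool.Agent.TH316.FQ.Subs
import Pool.Agent.TH316.FQ.Sup
import Pool.Agent.TH316.FQ.AvL
import Pool.Agent.TH316.FQ.Lip
import Pool.Agent.TH316.FQ.Gre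
import Pool.Agent.TH316.FQ.Tra
import Pool.Agent.TH316.FQ.Typ
import Pool.Agent.TH316.FQ.Zer
import Pool.Agent.TH316.FQ.Bar
import Pool.Agent.TH316.FQ.Sel
import Pool.Agent.TH316.FQ.Core
import Pool.Agent.TH316.FQ.Trf

set_option autoImplicit false

/-! Assembly: no maximisers of `F_q` in the plane for `q` slightly above `1`. -/

open MeasureTheory Metric Set Filter
open scoped Topology

namespace Pool.Agent.TH316.FQ

open Pool.Agent.Helper533.StarBox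

theorem fin_pol : S_POL := pol fk
theorem fin_gap : S_GAP := gapU fk (rel fk)
theorem fin_tor : S_TOR := torFn fk fin_pol cmp
theorem fin_eig : S_EIG := eigf fk fin_pol fin_gap cmp
theorem fin_con : S_CON := con fin_pol
theorem fin_perf : S_PERF := perf fin_pol (plam (cellIneq ppf)) (ptor ppf)
theorem fin_sta : S_STA := sta fin_pol dif
theorem fin_av : S_AV := avl ppf leb
theorem fin_usc : S_USC := usc fin_av leb
theorem fin_pun : S_PUN := pun fin_pol (punT ppf fin_pol) (punL ppf fin_pol) fin_usc leb subs wd out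
theorem fin_dat : S_DAT := dat fin_pol fin_tor fin_eig sca fin_con fin_perf fin_sta fin_pun out
theorem fin_hop : S_HOP := hop lio
theorem fin_sup : S_SUP := supw subs wd fin_av
theorem fin_typ : S_TYP := typ fin_hop fin_sup out tra1
theorem fin_zer : S_ZER := zer subs wd fin_av
theorem fin_core : S_CORE := core ppf fin_typ subs wd sqq out fin_sup fin_av lip (gre ppf) fin_zer bar sel

/-- for `q` slightly above `1` there are no maximisers -/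
theorem no_max : ∃ q₀ > 1, ∀ q : ℝ, 1 < q → q < q₀ → ∀ U, ¬ IsMaxi q U := by
  obtain ⟨η, hη, hc⟩ := fin_core
  obtain ⟨q₀, hq₀, hd⟩ := fin_dat η hη
  refine ⟨q₀, hq₀, fun q hq hq1 U hU => ?_⟩
  obtain ⟨V, w, wx, wy, v, vx, vy, Λ, D⟩ := hd q hq hq1 U hU
  exact hc V w wx wy v vx vy Λ D

theorem fc_le_one {q : ℝ} (hq : 1 < q) {U : Set ℂ} (hU : Adm U) : Fc q U ≤ 1 := by
  obtain ⟨-, u2, u3, u4, u5, u6, -, -⟩ := fin_pol U hU
  unfold Fc
  rw [dt_Fc u3 u4]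
  have h1 : lambda1 U * tor U / ar U ≤ 1 := by rw [div_le_one u4]; exact u6
  have h2 : (tor U / ar U ^ 2) ^ (q - 1) ≤ 1 := by
    apply Real.rpow_le_one (by positivity) _ (by linarith)
    rw [div_le_one (by positivity)]; linarith
  calc _ ≤ 1 * 1 := mul_le_mul h1 h2 (Real.rpow_nonneg (by positivity) _) (by norm_num)
    _ = 1 := one_mul 1

theorem fc_pos {q : ℝ} {U : Set ℂ} (hU : Adm U) : 0 < Fc q U := by
  obtain ⟨-, u2, u3, u4, u5, u6, -, -⟩ := fin_pol U hU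
  unfold Fc
  have := Real.rpow_pos_of_pos u3 q
  have := Real.rpow_pos_of_pos u4 (2 * q - 1)
  positivity

/-- the functional in the Euclidean plane -/
noncomputable def FP (q : ℝ) (Ω : Set Pl) : ℝ := lamP Ω * torP Ω ^ q / (volume Ω).toReal ^ (2 * q - 1)

theorem fp_eq (q : ℝ) {Ω : Set Pl} (h : IsOpen Ω) : Fc q (toC Ω) = FP q Ω := by
  obtain ⟨-, h2, h3, h4, -⟩ := trf.1 Ω h
  unfold Fc FP ar
  rw [h2, h3, h4]

theorem adm_toC {Ω : Set Pl} (h : IsOpen Ω) (h1 : 0 < volume Ω) (h2 : volume Ω ≠ ⊤) : Adm (toC Ω) := by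
  obtain ⟨k1, k2, -, -, k5⟩ := trf.1 Ω h
  refine ⟨k1, k5 ?_, by rw [k2]; exact h2⟩
  rw [Set.nonempty_iff_ne_empty]
  rintro rfl
  simp at h1

theorem exists_pl {U : Set ℂ} (hU : Adm U) : ∃ Ω : Set Pl, IsOpen Ω ∧ 0 < volume Ω ∧ volume Ω ≠ ⊤ ∧ toC Ω = U := by
  obtain ⟨Ω, h1, rfl⟩ := trf.2 U hU.1
  obtain ⟨-, k2, -⟩ := trf.1 Ω h1
  refine ⟨Ω, h1, ?_, ?_, rfl⟩
  · rw [← k2]; exact hU.1.measure_pos _ hU.2.1
  · rw [← k2]; exact hU.2.2

/-- no maximiser in the Euclidean plane -/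
theorem no_max_pl : ∃ q₀ > 1, ∀ q : ℝ, 1 < q → q < q₀ → ∀ Ω : Set Pl, IsOpen Ω → 0 < volume Ω → volume Ω ≠ ⊤ →
    ∃ Ω' : Set Pl, IsOpen Ω' ∧ 0 < volume Ω' ∧ volume Ω' ≠ ⊤ ∧ FP q Ω < FP q Ω' := by
  obtain ⟨q₀, hq₀, h⟩ := no_max
  refine ⟨q₀, hq₀, fun q hq hq1 Ω h1 h2 h3 => ?_⟩
  have hA := adm_toC h1 h2 h3
  have := h q hq hq1 (toC Ω)
  by_contra hcon
  apply this
  refine ⟨hA, fun V hV => ?_⟩
  by_contra hlt
  push Not at hlt
  obtain ⟨Ω', g1, g2, g3, rfl⟩ := exists_pl hV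
  apply hcon
  refine ⟨Ω', g1, g2, g3, ?_⟩
  rw [← fp_eq q h1, ← fp_eq q g1]
  exact hlt

theorem fp_le_one {q : ℝ} (hq : 1 < q) {Ω : Set Pl} (h1 : IsOpen Ω) (h2 : 0 < volume Ω) (h3 : volume Ω ≠ ⊤) :
    FP q Ω ≤ 1 := by
  rw [← fp_eq q h1]; exact fc_le_one hq (adm_toC h1 h2 h3)

end Pool.Agent.TH316.FQ
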