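import Pool.Agent.TH316.FQ.Stm

set_option autoImplicit false

open MeasureTheory Metric Set Filter
open scoped Topology

namespace Pool.Agent.TH316.FQ

open Pool.Agent.Helper533.StarBox

/-- Cauchy-Schwarz for integrals -/
theorem Gre_cs {μ : Measure ℂ} {f g : ℂ → ℝ} (hf : MemLp f 2 μ) (hg : MemLp g 2 μ) :
    |∫ z, f z * g z ∂μ| ≤ √(∫ z, f z ^ 2 ∂μ) * √(∫ z, g z ^ 2 ∂μ) := by
  have h1 : |∫ z, f z * g z ∂μ| ≤ ∫ z, ‖f z‖ * ‖g z‖ ∂μ := by
    refine (abs_integral_le_integral_abs).trans (le_of_eq ?_)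
    congr 1; ext z
    rw [abs_mul]; rfl
  have hpq : Real.HolderConjugate 2 2 := Real.HolderConjugate.two_two
  have h2 := integral_mul_norm_le_Lp_mul_Lq hpq (f := f) (g := g) (μ := μ)
    (by simpa using hf) (by simpa using hg)
  refine h1.trans (h2.trans (le_of_eq ?_))
  rw [Real.sqrt_eq_rpow, Real.sqrt_eq_rpow]
  congr 2
  · congr 1; ext z
    rw [Real.norm_eq_abs]
    norm_num
  · congr 1; ext z
    rw [Real.norm_eq_abs]
    norm_num

theorem gre (hPP : S_PPF) : S_GRE := by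
  obtain ⟨C₁, hC₁, hsq⟩ := hPP.sq
  have hm := hPP.m0_pos
  refine ⟨√C₁ / (4 * m0), by positivity, ?_⟩
  intro g h x t M hg ht hw hh2 hhm hM hle s hs hst
  set B : Set ℂ := ball x (2 * t) with hB
  have hφ : TF B (fun z => PP s t (qq x z)) :=
    PP_tf hs hst x (closedBall_subset_ball (by linarith))
  have h1 := hPP.green s t x g hg hs hst
  rw [hw _ hφ] at h1
  have e2 : ∫ z, h z * PP s t (qq x z) = ∫ z in B, h z * PP s t (qq x z) := by
    rw [setIntegral_eq_integral_of_forall_compl_eq_zero]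
    intro z hz
    have : z ∉ tsupport (fun z => PP s t (qq x z)) := fun hcon => hz (hφ.supp hcon)
    have := image_eq_zero_of_notMem_tsupport this
    show h z * PP s t (qq x z) = 0
    rw [this, mul_zero]
  have hhL : MemLp h 2 (volume.restrict B) := (memLp_two_iff_integrable_sq hhm).2 hh2
  have hφL : MemLp (fun z => PP s t (qq x z)) 2 (volume.restrict B) := hφ.memLp.restrict B
  have h3 := Gre_cs hhL hφL
  have h4 : ∫ z in B, PP s t (qq x z) ^ 2 ≤ C₁ * t ^ 2 := by
    refine le_trans ?_ (hsq s t x hs hst)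
    exact setIntegral_le_integral hφ.sq_int (Eventually.of_forall fun z => sq_nonneg _)
  have h5 : √(∫ z in B, h z ^ 2) ≤ M := by
    rw [show M = √(M ^ 2) from (Real.sqrt_sq hM).symm]
    exact Real.sqrt_le_sqrt hle
  have h6 : √(∫ z in B, PP s t (qq x z) ^ 2) ≤ √C₁ * t := by
    rw [show √C₁ * t = √(C₁ * t ^ 2) by rw [Real.sqrt_mul hC₁, Real.sqrt_sq ht.le]]
    exact Real.sqrt_le_sqrt h4
  have h7 : |4 * m0 * (Av g t x - Av g s x)| ≤ M * (√C₁ * t) := by
    rw [← h1, e2]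
    exact h3.trans (mul_le_mul h5 h6 (Real.sqrt_nonneg _) hM)
  rw [abs_mul, abs_of_pos (by positivity : (0:ℝ) < 4 * m0)] at h7
  rw [div_mul_eq_mul_div, div_mul_eq_mul_div, le_div_iff₀ (by positivity)]
  linarith

end Pool.Agent.TH316.FQ
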