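import Pool.Agent.TH316.FQ.Defs

set_option autoImplicit false

/-! Statements of the steps of the proof (definitions only). -/

open MeasureTheory Metric Set Filter
open scoped Topology

namespace Pool.Agent.TH316.FQ

open Pool.Agent.Helper533.StarBox

/-! ### existence theory on open sets of finite area -/

/-- Faber-Krahn with a crude constant -/
def S_FK : Prop := ∀ (U : Set ℂ) (u : ℂ → ℝ), IsOpen U → volume U ≠ ⊤ → TF U u →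
  2 * Ip u u ≤ ar U * En u u

/-- Rellich on open sets of finite area -/
def S_REL : Prop := ∀ (U : Set ℂ) (M : ℝ) (u : ℕ → ℂ → ℝ), IsOpen U → volume U ≠ ⊤ →
  (∀ n, TF U (u n)) → (∀ n, En (u n) (u n) ≤ M) →
  ∃ φ : ℕ → ℕ, StrictMono φ ∧ ∃ F : L2, Tendsto (fun n => cls (u (φ n))) atTop (𝓝 F)

/-- ground state and spectral gap on connected open sets of finite area -/
def S_GAP : Prop := ∀ U : Set ℂ, Adm U → IsPreconnected U →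
  ∃ u : L2, GS U u ∧ ‖u‖ = 1 ∧ (∀ᵐ z, 0 ≤ (u : ℂ → ℝ) z) ∧
    ∃ γ > 0, ∀ v, TF U v → γ * (Ip v v - (inner ℝ (cls v) u) ^ 2) ≤ Qf U v v

/-- completeness of `H¹₀` -/
def S_CMP : Prop := ∀ (U : Set ℂ) (u : ℕ → ℂ → ℝ), (∀ n, TF U (u n)) →
  (∀ ε > 0, ∃ N, ∀ m ≥ N, ∀ n ≥ N, Ip (fun z => u m z - u n z) (fun z => u m z - u n z) ≤ ε ∧
    En (fun z => u m z - u n z) (fun z => u m z - u n z) ≤ ε) →
  ∃ f p q, HW U f p q ∧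
    Tendsto (fun n => ∫ z, ((u n z - f z) ^ 2 + (gx (u n) z - p z) ^ 2 + (gy (u n) z - q z) ^ 2)) atTop (𝓝 0)

/-- basic bounds: Polya's inequality, finiteness and positivity of the torsional rigidity -/
def S_POL : Prop := ∀ U : Set ℂ, Adm U →
  BddAbove {r : ℝ | ∃ u : ℂ → ℝ, IsTest U u ∧ r = (∫ z, u z) ^ 2 / En u u} ∧
  0 < lambda1 U ∧ 0 < tor U ∧ 0 < ar U ∧ 2 * tor U ≤ ar U ^ 2 ∧ lambda1 U * tor U ≤ ar U ∧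
  (∀ u, TF U u → 2 * (∫ z, u z) - En u u ≤ tor U) ∧
  (∀ ε > 0, ∃ u, TF U u ∧ tor U - ε ≤ 2 * (∫ z, u z) - En u u)

/-- torsion function -/
def S_TOR : Prop := ∀ U : Set ℂ, Adm U → ∃ w wx wy, Tors U w wx wy

/-- first eigenfunction -/
def S_EIG : Prop := ∀ U : Set ℂ, Adm U → IsPreconnected U → ∃ u ux uy, Eig U u ux uy

/-- dilations -/
def S_SCA : Prop := ∀ (U : Set ℂ) (c : ℝ), Adm U → 0 < c →
  Adm {z | c • z ∈ U} ∧ lambda1 {z | c • z ∈ U} = c ^ 2 * lambda1 U ∧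
  tor {z | c • z ∈ U} = tor U / c ^ 4 ∧ ar {z | c • z ∈ U} = ar U / c ^ 2

/-- maximisers are connected -/
def S_CON : Prop := ∀ (q : ℝ) (U : Set ℂ), 1 < q → IsMaxi q U → IsPreconnected U

/-! ### the truncated logarithm -/

/-- facts on the truncated logarithm `PP` -/
structure PPF : Prop where
  m0_pos : 0 < m0
  m0_eq : m0 = Real.pi * SS 1
  mass : ∀ R > 0, ∀ x : ℂ, ∫ z, ww R (z - x) = m0
  top : ∀ δ R, 0 < δ → δ ≤ R → PP δ R 0 = 2 * SS 1 * Real.log (R / δ)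
  anti : ∀ δ R s t, 0 < δ → δ ≤ R → 0 ≤ s → s ≤ t → PP δ R t ≤ PP δ R s
  flat : ∀ δ R t, 0 < δ → δ ≤ R → 0 ≤ t → t ≤ δ ^ 2 / 4 → PP δ R t = PP δ R 0
  scal : ∀ c δ R t, 0 < c → 0 < δ → δ ≤ R → PP (c * δ) (c * R) (c ^ 2 * t) = PP δ R t
  second : ∃ κ, 0 ≤ κ ∧ κ ≤ 1 ∧ (∀ R > 0, ∀ x : ℂ, ∫ z, qq x z * ww R (z - x) = m0 * κ * R ^ 2) ∧
    ∀ δ R, ∀ x : ℂ, 0 < δ → δ ≤ R → ∫ z, PP δ R (qq x z) = m0 * κ * (R ^ 2 - δ ^ 2)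
  sq : ∃ C, 0 ≤ C ∧ ∀ δ R, ∀ x : ℂ, 0 < δ → δ ≤ R → ∫ z, PP δ R (qq x z) ^ 2 ≤ C * R ^ 2
  en : ∀ δ R, ∀ x : ℂ, 0 < δ → δ ≤ R →
    En (fun z => PP δ R (qq x z)) (fun z => PP δ R (qq x z)) ≤ 4 * m0 * PP δ R 0
  green : ∀ δ R, ∀ x : ℂ, ∀ f : ℂ → ℝ, LocallyIntegrable f volume → 0 < δ → δ ≤ R →
    ∫ z, f z * lap (fun y => PP δ R (qq x y)) z = 4 * m0 * (Av f R x - Av f δ x)

def S_PPF : Prop := PPF

/-! ### perforated domains -/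

/-- the open unit square around `x` -/
def Cell (x : ℂ) : Set ℂ := {z | |z.re - x.re| < 1 / 2 ∧ |z.im - x.im| < 1 / 2}

/-- Poincare inequality on a unit square with a small hole -/
def S_CELL : Prop := ∃ C : ℝ, 0 ≤ C ∧ ∀ δ, 0 < δ → δ < 1 / 4 → ∀ (x : ℂ) (u : ℂ → ℝ), TF univ u →
  (∀ z ∈ ball x δ, u z = 0) →
  ∫ z in Cell x, u z ^ 2 ≤ (√(Real.log (1 / (2 * δ)) / (2 * Real.pi)) + C) ^ 2 *
    ∫ z in Cell x, (gx u z ^ 2 + gy u z ^ 2)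

/-- the perforated square of side `N` -/
def Perf (N : ℕ) (δ : ℝ) : Set ℂ := {z | 0 < z.re ∧ z.re < N ∧ 0 < z.im ∧ z.im < N ∧
  ∀ i < N, ∀ j < N, δ < ‖z - (⟨(i : ℝ) + 1 / 2, (j : ℝ) + 1 / 2⟩ : ℂ)‖}

/-- eigenvalue of a perforated square -/
def S_PLAM : Prop := ∃ C : ℝ, 0 ≤ C ∧ ∀ δ, 0 < δ → δ < 1 / 4 → ∀ N : ℕ, 1 ≤ N → ∀ u, TF (Perf N δ) u →
  Ip u u ≤ (√(Real.log (1 / (2 * δ)) / (2 * Real.pi)) + C) ^ 2 * En u u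

/-- torsional rigidity of a perforated square -/
def S_PTOR : Prop := ∀ ε > 0, ∃ δ₀ > 0, ∀ δ, 0 < δ → δ < δ₀ → ∃ N : ℕ, 1 ≤ N ∧ ∃ u, TF (Perf N δ) u ∧
  0 < En u u ∧ (1 - ε) * (N : ℝ) ^ 2 * (Real.log (1 / δ) / (2 * Real.pi)) * En u u ≤ (∫ z, u z) ^ 2

/-- perforated domains: `sup λ₁ T / |Ω| = 1` -/
def S_PERF : Prop := ∀ δ > 0, ∃ U : Set ℂ, Adm U ∧ (1 - δ) * ar U ≤ lambda1 U * tor U

/-! ### domain variation -/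

/-- transport of test functions by `z ↦ z + t (a z + i b z)` -/
def S_DIF : Prop := ∀ a b : ℂ → ℝ, TF univ a → TF univ b → ∃ t₀ > 0, ∃ C > 0, ∀ t : ℝ, |t| ≤ t₀ →
  ∀ U : Set ℂ, IsOpen U → volume U ≠ ⊤ → ∃ V : Set ℂ, IsOpen V ∧ (U.Nonempty → V.Nonempty) ∧ volume V ≠ ⊤ ∧
    |ar V - ar U - t * ∫ z in U, (gx a z + gy b z)| ≤ C * t ^ 2 * ar U ∧
    ∀ T : (ℂ → ℝ) → (ℂ → ℝ) → Prop, (T = fun φ ψ =>
      |(∫ z, φ z) - (∫ z, ψ z) - t * ∫ z, ψ z * (gx a z + gy b z)| ≤ C * t ^ 2 * ∫ z, |ψ z| ∧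
      |Ip φ φ - Ip ψ ψ - t * ∫ z, ψ z ^ 2 * (gx a z + gy b z)| ≤ C * t ^ 2 * Ip ψ ψ ∧
      |En φ φ - En ψ ψ + t * ∫ z, ((gx a z - gy b z) * (gx ψ z ^ 2 - gy ψ z ^ 2) +
        2 * (gy a z + gx b z) * (gx ψ z * gy ψ z))| ≤ C * t ^ 2 * En ψ ψ) →
      (∀ ψ, TF U ψ → ∃ φ, TF V φ ∧ T φ ψ) ∧ (∀ φ, TF V φ → ∃ ψ, TF U ψ ∧ T φ ψ)

/-- stationarity of maximisers -/
def S_STA : Prop := ∀ (q : ℝ) (U : Set ℂ) (w wx wy u ux uy : ℂ → ℝ), 1 < q → IsMaxi q U →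
  Tors U w wx wy → Eig U u ux uy → ∀ c : ℝ, 0 < c → c ^ 2 = tor U / (q * lambda1 U) →
  ∀ a b, TF univ a → TF univ b →
  ∫ z, (HP wx wy (fun z => c * ux z) (fun z => c * uy z) z * (gx a z - gy b z) +
    HR wx wy (fun z => c * ux z) (fun z => c * uy z) z * (gx b z + gy a z) +
    (2 * w z - lambda1 U * (c * u z) ^ 2 - (2 * q - 1) * tor U / (q * ar U) * ind U z) *
      (gx a z + gy b z)) = 0

/-- torsional rigidity of a set with a small hole -/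
def S_PUNT : Prop := ∀ (U : Set ℂ) (w wx wy : ℂ → ℝ), Adm U → Tors U w wx wy → ∀ (x : ℂ) (R M : ℝ), 0 < R →
  (∀ᵐ z, z ∈ ball x R → w z ≤ M) → ∀ ε > 0, ∃ δ₀ > 0, ∀ δ, 0 < δ → δ < δ₀ →
  tor U - 2 * Real.pi / Real.log (1 / δ) * (M ^ 2 + ε) ≤ tor (U \ closedBall x δ)

/-- first eigenvalue of a set with a small hole -/
def S_PUNL : Prop := ∀ (U : Set ℂ) (u ux uy : ℂ → ℝ), Adm U → Eig U u ux uy → ∀ (x : ℂ) (R : ℝ), 0 < R →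
  closedBall x R ⊆ U → ∀ ε > 0, ∃ δ₀ > 0, ∀ δ, 0 < δ → δ < δ₀ →
  lambda1 U + 2 * Real.pi / Real.log (1 / δ) * (Av u R x ^ 2 - ε) ≤ lambda1 (U \ closedBall x δ)

/-- Lebesgue points -/
def S_LEB : Prop := ∀ f : ℂ → ℝ, LocallyIntegrable f volume → ∀ᵐ x, Tendsto (fun R => Av f R x) (𝓝[>] 0) (𝓝 (f x))

/-- upper semicontinuity -/
def S_USC : Prop := ∀ (f : ℂ → ℝ) (c : ℝ), MemLp f 2 (volume : Measure ℂ) → 0 ≤ c → SubL f c →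
  ∀ᵐ x, ∀ ε > 0, ∃ R > 0, ∀ᵐ z, z ∈ ball x R → f z ≤ f x + ε

/-- punching small holes -/
def S_PUN : Prop := ∀ (q : ℝ) (U : Set ℂ) (w wx wy u ux uy : ℂ → ℝ), 1 < q → IsMaxi q U →
  Tors U w wx wy → Eig U u ux uy → ∀ c : ℝ, 0 < c → c ^ 2 = tor U / (q * lambda1 U) →
  ∀ᵐ z, c * u z ≤ w z

/-! ### analysis in the plane -/

/-- Liouville in `L¹ + L²` -/
def S_LIO : Prop := ∀ P G : ℂ → ℝ, Integrable P → MemLp G 2 (volume : Measure ℂ) →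
  (∀ φ, TF univ φ → ∫ z, (P z - G z) * lap φ z = 0) → ∀ᵐ z, P z = G z

/-- `L²` bound from the divergence equation -/
def S_HOP : Prop := ∀ P R F : ℂ → ℝ, Integrable P → Integrable R → MemLp F 2 (volume : Measure ℂ) →
  Stat P R F → MemLp P 2 (volume : Measure ℂ) ∧ MemLp R 2 (volume : Measure ℂ) ∧
    ∫ z, P z ^ 2 ≤ ∫ z, F z ^ 2 ∧ ∫ z, R z ^ 2 ≤ ∫ z, F z ^ 2

/-- weak derivatives -/
def S_WD : Prop := ∀ (U : Set ℂ) (f p q : ℂ → ℝ), HW U f p q → ∀ φ, TF univ φ →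
  ∫ z, (p z * gx φ z + q z * gy φ z) = - ∫ z, f z * lap φ z

/-- subsolution property across the boundary -/
def S_SUB : Prop := ∀ (U : Set ℂ) (f p q h : ℂ → ℝ), IsOpen U → HW U f p q → (∀ᵐ z, 0 ≤ f z) →
  MemLp h 2 (volume : Measure ℂ) → (∀ᵐ z, 0 ≤ h z) → WE U p q h → ∀ φ, TF univ φ → (∀ z, 0 ≤ φ z) →
  ∫ z, (p z * gx φ z + q z * gy φ z) ≤ ∫ z, h z * φ z

/-- the Laplacian of the square -/
def S_SQ : Prop := ∀ (U : Set ℂ) (f p q h : ℂ → ℝ), IsOpen U → HW U f p q →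
  MemLp h 2 (volume : Measure ℂ) → WE U p q h → ∀ φ, TF univ φ →
  ∫ z, f z ^ 2 * lap φ z = 2 * ∫ z, (p z ^ 2 + q z ^ 2 - f z * h z) * φ z

/-- vanishing outside -/
def S_OUT : Prop := ∀ (U : Set ℂ) (f p q : ℂ → ℝ), IsOpen U → HW U f p q →
  ∀ᵐ z, z ∉ U → f z = 0 ∧ p z = 0 ∧ q z = 0

/-- universal sup bound of the torsion function -/
def S_SUP : Prop := ∃ H : ℝ, 1 ≤ H ∧ ∀ (U : Set ℂ) (w wx wy : ℂ → ℝ), IsOpen U → volume U ≠ ⊤ →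
  HW U w wx wy → WE U wx wy (fun _ => 1) → (∀ᵐ z, 0 ≤ w z) → (∀ φ, TF U φ → Ip φ φ ≤ En φ φ) →
  ∀ᵐ z, w z ≤ H

/-- averages of (almost) subharmonic functions -/
def S_AV : Prop := ∃ κ : ℝ, 0 ≤ κ ∧ κ ≤ 1 ∧ ∀ (f : ℂ → ℝ) (c : ℝ), MemLp f 2 (volume : Measure ℂ) → 0 ≤ c →
  SubL f c →
  (∀ x t, 0 < t → Av f (t / 2) x + c / 4 * κ * (t / 2) ^ 2 ≤ Av f t x + c / 4 * κ * t ^ 2) ∧
  (∀ x t, 0 < t → (Av f (t / 2) x + c / 4 * κ * (t / 2) ^ 2) - (Av f (t / 4) x + c / 4 * κ * (t / 4) ^ 2) ≤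
    (Av f t x + c / 4 * κ * t ^ 2) - (Av f (t / 2) x + c / 4 * κ * (t / 2) ^ 2)) ∧
  (∀ x s t, 0 < s → s ≤ t → Av f s x ≤ Av f t x + c / 4 * t ^ 2) ∧
  (∀ᵐ x, ∀ t > 0, f x ≤ Av f t x + c / 4 * t ^ 2)

/-- averages depend on the centre in a Lipschitz way -/
def S_LIP : Prop := ∃ L : ℝ, 0 ≤ L ∧ ∀ (f : ℂ → ℝ) (H : ℝ), MemLp f 2 (volume : Measure ℂ) →
  (∀ᵐ z, 0 ≤ f z) → (∀ᵐ z, f z ≤ H) → ∀ x y t, 0 < t → |Av f t x - Av f t y| ≤ L * H * ‖x - y‖ / t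

/-- Green's formula for averages, with a bound -/
def S_GRE : Prop := ∃ C : ℝ, 0 ≤ C ∧ ∀ (g h : ℂ → ℝ) (x : ℂ) (t M : ℝ), LocallyIntegrable g volume →
  0 < t → (∀ φ, TF (ball x (2 * t)) φ → ∫ z, g z * lap φ z = ∫ z, h z * φ z) →
  IntegrableOn (fun z => h z ^ 2) (ball x (2 * t)) → AEStronglyMeasurable h (volume.restrict (ball x (2 * t))) →
  0 ≤ M → ∫ z in ball x (2 * t), h z ^ 2 ≤ M ^ 2 →
  ∀ s, 0 < s → s ≤ t → |Av g t x - Av g s x| ≤ C * M * t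

/-- a function close to `1` on `U` with small gradient: `U` is nearly invariant under translations -/
def S_TRA : Prop := ∃ C : ℝ, 0 ≤ C ∧ ∀ (U : Set ℂ) (v vx vy : ℂ → ℝ), IsOpen U → volume U ≠ ⊤ → HW U v vx vy →
  ∀ h : ℂ, ‖h‖ ≤ 4 → ∫ z, |ind U (z + h) - ind U z| ≤ C * (∫ z, (ind U z - v z) ^ 2 +
    √(∫ z, (ind U z - v z) ^ 2) * √(∫ z, (vx z ^ 2 + vy z ^ 2)))

/-- a typical ball -/
def S_TYP : Prop := ∀ η₁ > 0, ∃ η > 0, ∀ (U : Set ℂ) (w wx wy v vx vy : ℂ → ℝ) (Λ : ℝ),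
  Data U w wx wy v vx vy Λ η → ∃ x₀ ∈ U,
    ∫ z in ball x₀ 4, (1 - w z) ^ 2 ≤ η₁ ∧ ∫ z in ball x₀ 4, (1 - v z) ^ 2 ≤ η₁ ∧
    IntegrableOn (fun z => HP wx wy vx vy z ^ 2 + HR wx wy vx vy z ^ 2) (ball x₀ 4) ∧
    ∫ z in ball x₀ 4, (HP wx wy vx vy z ^ 2 + HR wx wy vx vy z ^ 2) ≤ η₁ ∧
    (volume (ball x₀ 4 \ U)).toReal ≤ η₁

/-- a zero of the torsion function -/
def S_ZER : Prop := ∀ (U : Set ℂ) (w wx wy : ℂ → ℝ) (H : ℝ), IsOpen U → volume U ≠ ⊤ →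
  HW U w wx wy → WE U wx wy (fun _ => 1) → (∀ᵐ z, 0 ≤ w z) → (∀ᵐ z, w z ≤ H) →
  ∀ ψ, TF univ ψ → (∀ z, 0 ≤ ψ z) → ∫ z, (wx z * gx ψ z + wy z * gy ψ z) < ∫ z in U, ψ z →
  ∃ x ∈ tsupport ψ, Tendsto (fun n : ℕ => Av w ((1 / 2) ^ n) x) atTop (𝓝 0)

/-- the barrier -/
def S_BAR : Prop := ∀ (U : Set ℂ) (w wx wy v vx vy : ℂ → ℝ), IsOpen U → volume U ≠ ⊤ →
  HW U w wx wy → HW U v vx vy → WE U wx wy (fun _ => 1) → WE U vx vy v →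
  (∀ᵐ z, 0 ≤ v z) → (∀ᵐ z, v z ≤ w z) → ∀ (x : ℂ) (t : ℝ), 0 < t → t ≤ 1 →
  (∀ᵐ z, z ∈ ball x (2 * t) → v z ≤ 0.95) →
  ∀ᵐ z, z ∈ ball x (2 * t) → (1 / 100) * (t ^ 2 * v z - ‖z - x‖ ^ 2) ≤ w z - v z

/-- selection of scales -/
def S_SEL : Prop := ∀ (s : ℕ → ℝ) (K : ℕ), 10 ≤ K → (∀ k, s (k + 1) ≤ s k) →
  (∀ k, s (k + 1) - s (k + 2) ≤ s k - s (k + 1)) → Tendsto s atTop (𝓝 0) → s 0 ≤ 1.02 → 0.99 ≤ s K →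
  ∃ k₁ ℓ : ℕ, 4 * K ≤ k₁ ∧ s k₁ ≤ 0.9 ∧ (∀ j, j ≤ 3 * K → s (k₁ - j) ≤ s k₁ + j * (0.03 / K)) ∧
    0.09 ≤ s (k₁ + ℓ) ∧ (k₁ : ℝ) ≤ 0.16 * ℓ ∧ 25 * K ≤ ℓ

/-- the main step: no data with small `η` -/
def S_CORE : Prop := ∃ η > 0, ∀ (U : Set ℂ) (w wx wy v vx vy : ℂ → ℝ) (Λ : ℝ),
  ¬ Data U w wx wy v vx vy Λ η

/-- maximisers for `q` close to one give data -/
def S_DAT : Prop := ∀ η > 0, ∃ q₀ > 1, ∀ q, 1 < q → q < q₀ → ∀ U, IsMaxi q U →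
  ∃ (V : Set ℂ) (w wx wy v vx vy : ℂ → ℝ) (Λ : ℝ), Data V w wx wy v vx vy Λ η

/-! ### transfer to the Euclidean plane -/

/-- the Euclidean plane -/
abbrev Pl := EuclideanSpace ℝ (Fin 2)

/-- non-zero smooth test functions with compact support in `Ω` -/
def TestP (Ω : Set Pl) (u : Pl → ℝ) : Prop :=
  ContDiff ℝ (⊤ : ℕ∞) u ∧ HasCompactSupport u ∧ tsupport u ⊆ Ω ∧ ∃ x, u x ≠ 0

/-- first Dirichlet eigenvalue -/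
noncomputable def lamP (Ω : Set Pl) : ℝ :=
  sInf {r : ℝ | ∃ u, TestP Ω u ∧ r = (∫ x, ‖gradient u x‖ ^ 2) / ∫ x, u x ^ 2}

/-- torsional rigidity -/
noncomputable def torP (Ω : Set Pl) : ℝ :=
  sSup {r : ℝ | ∃ u, TestP Ω u ∧ r = (∫ x, u x) ^ 2 / ∫ x, ‖gradient u x‖ ^ 2}

/-- the corresponding subset of `ℂ` -/
def toC (Ω : Set Pl) : Set ℂ := {z | (!₂[z.re, z.im] : Pl) ∈ Ω}

def S_TRF : Prop := (∀ Ω : Set Pl, IsOpen Ω → IsOpen (toC Ω) ∧ volume (toC Ω) = volume Ω ∧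
    lambda1 (toC Ω) = lamP Ω ∧ tor (toC Ω) = torP Ω ∧ (Ω.Nonempty → (toC Ω).Nonempty)) ∧
  ∀ U : Set ℂ, IsOpen U → ∃ Ω : Set Pl, IsOpen Ω ∧ toC Ω = U

end Pool.Agent.TH316.FQ
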